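import Mathlib

/-!
MP_dd05d9_lc, full question.  Definitions of the campaign MW (text: HD_PROOF.md in the store).

Systems `S : Sys Q`: `S.f : Q → List Q`, output words `S.ph : Q → List ℕ`, start letter `S.a`.
`S.F` = the morphism on lists, `S.Fn k` = its iterates, `S.C k l` = output of `F^k l`, `S.N k l` = its length.
-/

set_option autoImplicit false

namespace MW

/-- a system (morphism and output) with letters `Q` -/
structure Sys (Q : Type) where
  f : Q → List Q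
  ph : Q → List ℕ
  a : Q

namespace Sys

variable {Q : Type} (S : Sys Q)

/-- the morphism on lists -/
def F (l : List Q) : List Q := l.flatMap S.f

/-- iterates of the morphism -/
def Fn (k : ℕ) (l : List Q) : List Q := (S.F)^[k] l

/-- the output of `l` at level `k` -/
def C (k : ℕ) (l : List Q) : List ℕ := (S.Fn k l).flatMap S.ph

/-- the length of the output of `l` at level `k` -/
def N (k : ℕ) (l : List Q) : ℕ := (S.C k l).length

/-- power and shift: `f' = F^q`, `ph' = C K` -/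
def ps (q K : ℕ) : Sys Q := ⟨fun s => S.Fn q [s], fun s => S.C K [s], S.a⟩

/-- growing letters (in a normalised system) -/
def Gr (s : Q) : Prop := StrictMono (fun k => S.N k [s])

/-- constant letters -/
def Cst (s : Q) : Prop := ∀ k, S.N k [s] = S.N 0 [s]

end Sys

/-- `w` occurs in the infinite word `u` at position `p` -/
def Occ (u : ℕ → ℕ) (w : List ℕ) (p : ℕ) : Prop := ∀ i < w.length, w.getD i 0 = u (p + i)

/-- the factor of `u` of length `n` at position `p` -/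
def seg (u : ℕ → ℕ) (p n : ℕ) : List ℕ := (List.range n).map (fun i => u (p + i))

/-- `S` generates `u` -/
structure Gen {Q : Type} (S : Sys Q) (u : ℕ → ℕ) : Prop where
  start : ∃ x, S.f S.a = S.a :: x
  pre : ∀ k, Occ u (S.C k [S.a]) 0
  unb : ∀ n, ∃ k, n ≤ S.N k [S.a]

/-- ultimately periodic -/
def UP (u : ℕ → ℕ) : Prop := ∃ p d, 0 < d ∧ ∀ n, p ≤ n → u (n + d) = u n

/-- `w` occurs infinitely often in `u` -/
def InL (u : ℕ → ℕ) (w : List ℕ) : Prop := ∀ n, ∃ p, n ≤ p ∧ Occ u w p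

/-- `L` is a track length of `S` -/
def TL {Q : Type} (S : Sys Q) (L : ℕ → ℕ) : Prop :=
  ∃ (y : List Q) (t : Q) (al : List Q) (K B c g : ℕ), 0 < B ∧ y ≠ [] ∧
    y ++ [t] <+: S.Fn c [S.a] ∧ al ++ [t] <+: S.Fn B [t] ∧ g ≤ S.N K [t] ∧
    ∀ n, L n = S.N (K + B * n) y + ∑ i ∈ Finset.range n, S.N (K + B * i) al + g

/-- every track length of `S'` is a track length of `S` -/
def Red {Q' Q : Type} (S' : Sys Q') (S : Sys Q) : Prop := ∀ L, TL S' L → TL S L

/-- towers: bounded finite sets of pairs (letter, offset), closed under descent -/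
structure Tower {Q : Type} (S : Sys Q) (G : ℕ → Finset (Q × ℕ)) (K : ℕ) : Prop where
  card : ∀ k, (G k).card ≤ K
  le : ∀ k, ∀ z ∈ G k, z.2 ≤ S.N k [z.1]
  desc : ∀ k, ∀ z ∈ G (k + 1), ∃ z' ∈ G k, ∃ pre, pre ++ [z'.1] <+: S.f z.1 ∧
    z.2 = S.N k pre + z'.2

/-- the sequence of positions `r` is anchored in a tower of `S` -/
def Anch {Q : Type} (S : Sys Q) (r : ℕ → ℕ) : Prop :=
  ∃ (G : ℕ → Finset (Q × ℕ)) (K c : ℕ) (kap : ℕ → ℕ), Tower S G K ∧
    (∀ j, kap j ≤ kap (j + 1) ∧ kap (j + 1) ≤ kap j + c) ∧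
    ∀ j, ∃ z ∈ G (kap j), ∃ y, y ≠ [] ∧ y ++ [z.1] <+: S.Fn c [S.a] ∧
      r j = S.N (kap j) y + z.2

/-- normalised systems -/
structure Nrm {Q : Type} (S : Sys Q) : Prop where
  n3 : ∀ s, S.Cst s ∨ (S.Gr s ∧ 1 ≤ S.N 0 [s])
  nb : ∀ s, S.Cst s → ∀ k, S.C k [s] = S.C 0 [s]
  n1 : ∀ s t, (∃ r ∈ S.f s, t ∈ S.f r) ↔ t ∈ S.f s

/-- consecutive ones of `ch` -/
def Nx (ch : ℕ → ℕ) (p p' : ℕ) : Prop :=
  p < p' ∧ ch p = 1 ∧ ch p' = 1 ∧ ∀ i, p < i → i < p' → ch i ≠ 1

/-- records of the distance of consecutive ones -/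
def IsRec (ch : ℕ → ℕ) (p : ℕ) : Prop :=
  ∃ p', Nx ch p p' ∧ ∀ q q', Nx ch q q' → q < p → q' - q < p' - p

/-- unbounded gaps -/
def UGap (ch : ℕ → ℕ) : Prop := ∀ G, ∃ p p', Nx ch p p' ∧ G < p' - p

open Classical in
/-- the indicator word of the occurrences of `w` in `u` -/
noncomputable def chi (u : ℕ → ℕ) (w : List ℕ) (p : ℕ) : ℕ := if Occ u w p then 1 else 0

/-- case B: every word of the language has bounded gaps -/
def CB (u : ℕ → ℕ) : Prop := ∀ w, InL u w → ∃ G, ∀ p, ∃ q, p ≤ q ∧ q < p + G ∧ Occ u w q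

/-- `d` is a period of `x` -/
def Per (x : List ℕ) (d : ℕ) : Prop := ∀ i, i + d < x.length → x.getD i 0 = x.getD (i + d) 0

end MW
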