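import Pool.Agent.Lib.MP_dd05d9_lc.MW.Base

/-!
MW, part A (case A: records of gaps), definitions.

`hdp l` = position of the first 1 in `l` (`l.length` if there is none), `tlp l` = number of entries after the last 1,
`lp l` = position of the last 1.
-/

set_option autoImplicit false

namespace MW

/-- number of entries before the first 1 -/
def hdp (l : List ℕ) : ℕ := (l.takeWhile (fun x => decide (x ≠ 1))).length

/-- number of entries after the last 1 -/
def tlp (l : List ℕ) : ℕ := hdp l.reverse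

/-- position of the last 1 -/
def lp (l : List ℕ) : ℕ := l.length - 1 - tlp l

/-- consecutive ones in a list -/
def Nxl (l : List ℕ) (p p' : ℕ) : Prop :=
  p < p' ∧ p' < l.length ∧ l.getD p 0 = 1 ∧ l.getD p' 0 = 1 ∧ ∀ i, p < i → i < p' → l.getD i 0 ≠ 1

/-- the set of letters whose word contains a 1 does not depend on the level -/
def DC {Q : Type} (S : Sys Q) : Prop := ∀ k s, 1 ∈ S.C k [s] ↔ 1 ∈ S.C 0 [s]

/-- normalised systems of case A -/
structure NA {Q : Type} (S : Sys Q) : Prop where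
  dc : DC S
  n : ∀ s, (∀ k, S.N k [s] = S.N 0 [s]) ∨ StrictMono (fun k => S.N k [s])
  hd : ∀ s, (∀ k, hdp (S.C k [s]) = hdp (S.C 0 [s])) ∨ StrictMono (fun k => hdp (S.C k [s]))
  tl : ∀ s, (∀ k, tlp (S.C k [s]) = tlp (S.C 0 [s])) ∨ StrictMono (fun k => tlp (S.C k [s]))

/-- the tower of the last ones -/
noncomputable def GA {Q : Type} [Finite Q] (S : Sys Q) (k : ℕ) : Finset (Q × ℕ) :=
  ((Set.toFinite {s : Q | 1 ∈ S.C k [s]}).image (fun s => (s, lp (S.C k [s])))).toFinset

/-- gap type: `g`, `g'` are consecutive letters with a 1 inside `S.f t` -/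
def GTy {Q : Type} (S : Sys Q) (t : Q) (pre : List Q) (g : Q) (mid : List Q) (g' : Q)
    (suf : List Q) : Prop :=
  S.f t = pre ++ g :: (mid ++ g' :: suf) ∧ 1 ∈ S.C 0 [g] ∧ 1 ∈ S.C 0 [g'] ∧
    ∀ r ∈ mid, 1 ∉ S.C 0 [r]

/-- length of the gap of a type at level `j` -/
def gpl {Q : Type} (S : Sys Q) (g : Q) (mid : List Q) (g' : Q) (j : ℕ) : ℕ :=
  tlp (S.C j [g]) + S.N j mid + hdp (S.C j [g'])

end MW
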