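import Pool.Agent.Lib.MP_dd05d9_lc.MW.ALe

/-!
MW, part AL, module ALf: application of the linear algebra lemma.

`A : Sq S1 r K1 c1`, `A' : Sq S2 r K2 c2`, `r` strictly increasing.  `Xi` = the subtype of the range of
`j ↦ ((A.t j, A.D j, A.y j, A.e j), (A'.t j, A'.D j, A'.y j, A'.e j))`; finite (subset of the product of the two finite ranges), `xi j` = the element of `j`.
`V = (Q1 ⊕ Fin K1 → ℚ) × (Q2 ⊕ Fin K2 → ℚ)`, `x j = (st S1 (A.kap j) (A.h j), st S2 (A'.kap j) (A'.h j))`,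
`T (z)` = `LinearMap.prodMap` of the maps of `lm_exists` for the two steps in `z`, `K z` = kernel of `phi1 ∘ fst - phi2 ∘ snd` (`fn_exists` for `(y, e)`).
`x (j+1) = T (xi j) (x j)` by `kap_succ`, `h_succ`; `x j ∈ K (xi j)` by `pos` for both (`r j - r j = 0`).
`PoolHD0L.la_lemma` gives `i`, `p > 0`, `xi (i+p) = xi i` and `y`, `y 0 = x i`, `y (n+1) = T (xi (i + n % p)) (y n)`, `y n ∈ K (xi (i + n % p))`.
Define `lam, g` (for both systems) by the recursions of `run_per` from `(kap i, h i)`; by induction `y n = (st S1 (lam n) (g n), st S2 (lam' n) (g' n))`.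
`run_per` : `lam (m p) = kap i + B m`, `g (m p) = Hs .. m`, `B = (cmp ..).B`; membership in `K (xi i)` at `n = m p` (`m p % p = 0`) gives
`S1.N (kap i + B m) (y i) + Hs .. m (e i) = S2.N .. + Hs .. ` for all `m`.
`B > 0`: otherwise `kap (i+p) = kap i` (`kap (i+p) = kap i + sum of (D (i+j)).B`, `cmp_B`), so `h (i+p) = h i` (`lev`), and `y, e` are equal at `i` and `i + p`, so `r (i+p) = r i`
(`pos`), contradiction to `StrictMono r`.  Same for the second system.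
`P` : `t = A.t i`, `D = cmp S1 A.t A.D i p`, `k = A.kap i`, `h = A.h i`, `y = A.y i`, `e = A.e i`; `fit` from `fit_cmp` and `A.t (i+p) = A.t i`; `h_none`, `h_le`, `anch` from the fields of `A` at `i`.
-/

set_option autoImplicit false

namespace MW

/-- the type of the index `j` -/
private def ty {Q : Type} {S : Sys Q} {r : ℕ → ℕ} {K c : ℕ} (A : Sq S r K c) (j : ℕ) :
    (Fin K → Option Q) × Step Q K × List Q × Fin K := (A.t j, A.D j, A.y j, A.e j)

/-- the level and the offsets of the periodic run -/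
private def rg {Q : Type} {S : Sys Q} {r : ℕ → ℕ} {K c : ℕ} (A : Sq S r K c) (i p : ℕ) :
    ℕ → ℕ × (Fin K → ℕ)
  | 0 => (A.kap i, A.h i)
  | n + 1 => ((rg A i p n).1 + (A.D (i + n % p)).B, upd S (rg A i p n).1 (A.D (i + n % p)) (rg A i p n).2)

private theorem rg_per {Q : Type} {S : Sys Q} {r : ℕ → ℕ} {K c : ℕ} (A : Sq S r K c) (i p : ℕ)
    (hp : 0 < p) (ht : A.t (i + p) = A.t i) (m : ℕ) :
    (rg A i p (m * p)).1 = A.kap i + (cmp S A.t A.D i p).B * m ∧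
      (rg A i p (m * p)).2 = Hs S (A.kap i) (cmp S A.t A.D i p) (A.h i) m :=
  run_per S A.t A.D i p hp (fun j _ _ => A.fit j) ht (A.kap i) (A.h i) (A.h_none i)
    (fun n => (rg A i p n).1) (fun n => (rg A i p n).2) rfl rfl (fun _ => rfl) (fun _ => rfl) m

private theorem kap_sum {Q : Type} {S : Sys Q} {r : ℕ → ℕ} {K c : ℕ} (A : Sq S r K c) (i q : ℕ) :
    A.kap (i + q) = A.kap i + ∑ j ∈ Finset.range q, (A.D (i + j)).B := by
  induction q with
  | zero => simp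
  | succ q ih => rw [← Nat.add_assoc, A.kap_succ, ih, Finset.sum_range_succ, Nat.add_assoc]

private theorem B_pos {Q : Type} {S : Sys Q} {r : ℕ → ℕ} {K c : ℕ} (hr : StrictMono r) (A : Sq S r K c)
    (i p : ℕ) (hp : 0 < p) (h : ty A (i + p) = ty A i) : 0 < (cmp S A.t A.D i p).B := by
  rcases Nat.eq_zero_or_pos (cmp S A.t A.D i p).B with h0 | h0
  · exfalso
    rw [cmp_B] at h0
    have h1 : A.kap (i + p) = A.kap i := by rw [kap_sum, h0, Nat.add_zero]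
    have h2 := A.lev _ _ h1
    have h3 : A.y (i + p) = A.y i := congrArg (fun z => z.2.2.1) h
    have h4 : A.e (i + p) = A.e i := congrArg (fun z => z.2.2.2) h
    have h5 : r (i + p) = r i := by
      rw [A.pos (i + p), A.pos i, h1, h2, h3, h4]
    have h6 := hr (show i < i + p by omega)
    omega
  · exact h0

/-- the periodic data -/
private def mkP {Q : Type} {S : Sys Q} {r : ℕ → ℕ} {K c : ℕ} (hr : StrictMono r) (A : Sq S r K c)
    (i p : ℕ) (hp : 0 < p) (h : ty A (i + p) = ty A i) : PD S K c where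
  t := A.t i
  D := cmp S A.t A.D i p
  k := A.kap i
  h := A.h i
  y := A.y i
  e := A.e i
  B_pos := B_pos hr A i p hp h
  fit := by
    have h1 := fit_cmp S (t := A.t) (D := A.D) (i := i) p (fun j _ _ => A.fit j)
    have h2 : A.t (i + p) = A.t i := congrArg (fun z => z.1) h
    rwa [h2] at h1
  h_none := A.h_none i
  h_le := A.h_le i
  anch := A.anch i

theorem sq_periodic {Q1 Q2 : Type} [Finite Q1] [Finite Q2] {S1 : Sys Q1} {S2 : Sys Q2}
    {r : ℕ → ℕ} {K1 c1 K2 c2 : ℕ} (hr : StrictMono r) (A : Sq S1 r K1 c1) (A' : Sq S2 r K2 c2) :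
    ∃ (P : PD S1 K1 c1) (P' : PD S2 K2 c2), ∀ n, P.pos n = P'.pos n := by
  classical
  let z : ℕ → ((Fin K1 → Option Q1) × Step Q1 K1 × List Q1 × Fin K1) ×
    ((Fin K2 → Option Q2) × Step Q2 K2 × List Q2 × Fin K2) := fun j => (ty A j, ty A' j)
  have hfin : (Set.range z).Finite := by
    refine (A.fin.prod A'.fin).subset ?_
    rintro _ ⟨j, rfl⟩
    exact ⟨⟨j, rfl⟩, ⟨j, rfl⟩⟩
  have : Finite (Set.range z) := hfin
  let T1 : Step Q1 K1 → ((Q1 ⊕ Fin K1 → ℚ) →ₗ[ℚ] (Q1 ⊕ Fin K1 → ℚ)) :=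
    fun D => Classical.choose (lm_exists S1 D)
  let T2 : Step Q2 K2 → ((Q2 ⊕ Fin K2 → ℚ) →ₗ[ℚ] (Q2 ⊕ Fin K2 → ℚ)) :=
    fun D => Classical.choose (lm_exists S2 D)
  have hT1 : ∀ (D : Step Q1 K1) (k : ℕ) (h : Fin K1 → ℕ), T1 D (st S1 k h) = st S1 (k + D.B) (upd S1 k D h) :=
    fun D => Classical.choose_spec (lm_exists S1 D)
  have hT2 : ∀ (D : Step Q2 K2) (k : ℕ) (h : Fin K2 → ℕ), T2 D (st S2 k h) = st S2 (k + D.B) (upd S2 k D h) :=
    fun D => Classical.choose_spec (lm_exists S2 D)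
  let f1 : List Q1 → Fin K1 → ((Q1 ⊕ Fin K1 → ℚ) →ₗ[ℚ] ℚ) := fun y e => Classical.choose (fn_exists S1 y e)
  let f2 : List Q2 → Fin K2 → ((Q2 ⊕ Fin K2 → ℚ) →ₗ[ℚ] ℚ) := fun y e => Classical.choose (fn_exists S2 y e)
  have hf1 : ∀ (y : List Q1) (e : Fin K1) (k : ℕ) (h : Fin K1 → ℕ),
      f1 y e (st S1 k h) = ((S1.N k y + h e : ℕ) : ℚ) := fun y e => Classical.choose_spec (fn_exists S1 y e)
  have hf2 : ∀ (y : List Q2) (e : Fin K2) (k : ℕ) (h : Fin K2 → ℕ),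
      f2 y e (st S2 k h) = ((S2.N k y + h e : ℕ) : ℚ) := fun y e => Classical.choose_spec (fn_exists S2 y e)
  let T : Set.range z → ((Q1 ⊕ Fin K1 → ℚ) × (Q2 ⊕ Fin K2 → ℚ)) →ₗ[ℚ]
      ((Q1 ⊕ Fin K1 → ℚ) × (Q2 ⊕ Fin K2 → ℚ)) := fun w => LinearMap.prodMap (T1 w.1.1.2.1) (T2 w.1.2.2.1)
  let Kr : Set.range z → Submodule ℚ ((Q1 ⊕ Fin K1 → ℚ) × (Q2 ⊕ Fin K2 → ℚ)) := fun w =>
    LinearMap.ker ((f1 w.1.1.2.2.1 w.1.1.2.2.2).comp (LinearMap.fst ℚ _ _) -
      (f2 w.1.2.2.2.1 w.1.2.2.2.2).comp (LinearMap.snd ℚ _ _))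
  let xi : ℕ → Set.range z := fun j => ⟨z j, j, rfl⟩
  let x : ℕ → (Q1 ⊕ Fin K1 → ℚ) × (Q2 ⊕ Fin K2 → ℚ) :=
    fun j => (st S1 (A.kap j) (A.h j), st S2 (A'.kap j) (A'.h j))
  have hTap : ∀ (j k k' : ℕ) (h : Fin K1 → ℕ) (h' : Fin K2 → ℕ), T (xi j) (st S1 k h, st S2 k' h') =
      (st S1 (k + (A.D j).B) (upd S1 k (A.D j) h), st S2 (k' + (A'.D j).B) (upd S2 k' (A'.D j) h')) := by
    intro j k k' h h'
    change (T1 (A.D j) (st S1 k h), T2 (A'.D j) (st S2 k' h')) = _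
    rw [hT1, hT2]
  have hKap : ∀ (j k k' : ℕ) (h : Fin K1 → ℕ) (h' : Fin K2 → ℕ), (st S1 k h, st S2 k' h') ∈ Kr (xi j) ↔
      S1.N k (A.y j) + h (A.e j) = S2.N k' (A'.y j) + h' (A'.e j) := by
    intro j k k' h h'
    change ((f1 (A.y j) (A.e j)).comp (LinearMap.fst ℚ (Q1 ⊕ Fin K1 → ℚ) (Q2 ⊕ Fin K2 → ℚ)) -
      (f2 (A'.y j) (A'.e j)).comp (LinearMap.snd ℚ (Q1 ⊕ Fin K1 → ℚ) (Q2 ⊕ Fin K2 → ℚ)))
      (st S1 k h, st S2 k' h') = 0 ↔ _
    rw [LinearMap.sub_apply, LinearMap.comp_apply, LinearMap.comp_apply, LinearMap.fst_apply,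
      LinearMap.snd_apply, hf1, hf2, sub_eq_zero]
    exact Nat.cast_inj
  have hx : ∀ j, x (j + 1) = T (xi j) (x j) := by
    intro j
    change (st S1 (A.kap (j + 1)) (A.h (j + 1)), st S2 (A'.kap (j + 1)) (A'.h (j + 1))) =
      T (xi j) (st S1 (A.kap j) (A.h j), st S2 (A'.kap j) (A'.h j))
    rw [hTap, A.kap_succ, A'.kap_succ, A.h_succ, A'.h_succ]
  have hK : ∀ j, x j ∈ Kr (xi j) := by
    intro j
    exact (hKap j _ _ _ _).2 (by rw [← A.pos j, ← A'.pos j])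
  obtain ⟨i, _, p, hp, hxi, y, hy0, hys, hyK⟩ := PoolHD0L.la_lemma T Kr xi x hx hK 0
  have hz : z (i + p) = z i := congrArg Subtype.val hxi
  have e1 : ty A (i + p) = ty A i := congrArg Prod.fst hz
  have e2 : ty A' (i + p) = ty A' i := congrArg Prod.snd hz
  have hyn : ∀ n, y n = (st S1 (rg A i p n).1 (rg A i p n).2, st S2 (rg A' i p n).1 (rg A' i p n).2) := by
    intro n
    induction n with
    | zero => exact hy0
    | succ n ih => rw [hys, ih, hTap]; rfl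
  refine ⟨mkP hr A i p hp e1, mkP hr A' i p hp e2, fun m => ?_⟩
  have h1 := hyK (m * p)
  rw [hyn, Nat.mul_mod_left, Nat.add_zero, hKap] at h1
  have h2 := rg_per A i p hp (congrArg (fun z => z.1) e1) m
  have h3 := rg_per A' i p hp (congrArg (fun z => z.1) e2) m
  rw [h2.1, h2.2, h3.1, h3.2] at h1
  exact h1

end MW
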