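import Pool.Agent.Lib.MP_dd05d9_lc.MW.ALg

/-!
MW, part AL, module ALh: extraction of a track from periodic data.

Let `delta` be as in `pw_d`, `q0` as in `idem_pow`, `q > 0` a multiple of `q0`, `E = cmp S (fun _ => t) (fun _ => D) 0 q`, `E.B = q * B` (`cmp_B`; the sum is constant),
`Fit S t t E` (`fit_cmp`).  `e` is used: `t e = some s0`, `E.d e = some (e1, pre0)`, `e1 = delta^[q] e`, `t e1 = some s1`,
`pre0 ++ [s1] <+: S.Fn (q B) [s0]`; `E.d e1 = some (e1, pre1)` (idempotent), `pre1 ++ [s1] <+: S.Fn (q B) [s1]` (the letter is `t e1` by `Fit`).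
By `pw_Hs` (with `P.h_none`): `Hs (q (n+1)) e = N (k + B q n) pre0 + Hs (q n) e1`, `Hs (q (n+1)) e1 = N (k + B q n) pre1 + Hs (q n) e1`, so
`Hs (q n) e1 = sum_(i<n) N (k + q B i) pre1 + h e1`.  Hence
`pos (q (n+1)) = N (k + q B (n+1)) y + N (k + q B n) pre0 + sum_(i<n) N (k + q B i) pre1 + h e1 = N (k + q B n) (S.Fn (q B) y ++ pre0) + ...`
(`Sys.N_add`: `k + q B n + q B`).  Track: `y' = S.Fn (q B) y ++ pre0`, `t = s1`, `al = pre1`, `K = k`, `B' = q B`, `c' = q B + c`, `g = h e1`.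
`y' ++ [s1] <+: S.Fn (q B) (y ++ [s0]) <+: S.Fn (q B + c) [S.a]`.
`y' ≠ []`: `y <+: S.Fn c [S.a]`, which starts with `S.a` (`S.Fn k [S.a] = S.a :: _` by induction from `hst`), so `y = S.a :: y2`, and `S.Fn (q B) y` starts with `S.a`.
-/

set_option autoImplicit false

namespace MW

private theorem ALh_start {Q : Type} {S : Sys Q} (hst : ∃ x, S.f S.a = S.a :: x) (k : ℕ) :
    ∃ x, S.Fn k [S.a] = S.a :: x := by
  obtain ⟨x, hx⟩ := hst
  induction k with
  | zero => exact ⟨[], rfl⟩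
  | succ k ih =>
    obtain ⟨y, hy⟩ := ih
    refine ⟨x ++ S.F y, ?_⟩
    rw [S.Fn_succ', hy, S.F_cons, hx, List.cons_append]

theorem pd_track {Q : Type} {S : Sys Q} {K c : ℕ} (hst : ∃ x, S.f S.a = S.a :: x)
    (P : PD S K c) : ∃ q0, 0 < q0 ∧ ∀ q, 0 < q → q0 ∣ q → TL S (fun n => P.pos (q * (n + 1))) := by
  obtain ⟨delta, hdel⟩ := pw_d S P.fit
  obtain ⟨q0, hq0, hidem⟩ := idem_pow delta
  refine ⟨q0, hq0, fun q hq hdvd => ?_⟩
  have hEB : (cmp S (fun _ => P.t) (fun _ => P.D) 0 q).B = q * P.D.B := by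
    rw [cmp_B]
    simp
  have hfit : Fit S P.t P.t (cmp S (fun _ => P.t) (fun _ => P.D) 0 q) :=
    fit_cmp S (t := fun _ => P.t) (D := fun _ => P.D) (i := 0) q (fun j _ _ => P.fit)
  obtain ⟨s0, hs0, hy0, hpre⟩ := P.anch
  obtain ⟨x', pre0, s1, hd0, hs1, hp0⟩ := (hfit P.e).2 s0 hs0
  obtain ⟨pre0', hd0'⟩ := hdel q P.e s0 hs0
  rw [hd0] at hd0'
  have hx' : x' = delta^[q] P.e := by
    have := Option.some.inj hd0'
    exact (Prod.mk.inj this).1
  obtain ⟨x'', pre1, s1', hd1, hs1', hp1⟩ := (hfit x').2 s1 hs1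
  obtain ⟨pre1', hd1'⟩ := hdel q x' s1 hs1
  rw [hd1] at hd1'
  have hx'' : x'' = x' := by
    have := (Prod.mk.inj (Option.some.inj hd1')).1
    rw [this, hx']
    exact hidem q hq hdvd P.e
  rw [hx''] at hd1 hs1'
  have hss : s1' = s1 := by
    rw [hs1] at hs1'
    exact (Option.some.inj hs1').symm
  rw [hss] at hp1
  have hH : ∀ n x z, (cmp S (fun _ => P.t) (fun _ => P.D) 0 q).d x = some z →
      Hs S P.k P.D P.h (q * (n + 1)) x =
        S.N (P.k + P.D.B * (q * n)) z.2 + Hs S P.k P.D P.h (q * n) z.1 := by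
    intro n x z hz
    rw [pw_Hs S P.fit P.k P.h P.h_none q n]
    unfold upd
    rw [hz]
  have hsum : ∀ n, Hs S P.k P.D P.h (q * n) x' =
      ∑ i ∈ Finset.range n, S.N (P.k + P.D.B * (q * i)) pre1 + P.h x' := by
    intro n
    induction n with
    | zero =>
      rw [Nat.mul_zero, Finset.sum_range_zero, Nat.zero_add]
      rfl
    | succ n ih =>
      rw [hH n x' (x', pre1) hd1, ih, Finset.sum_range_succ]
      ring
  refine ⟨S.Fn (q * P.D.B) P.y ++ pre0, s1, pre1, P.k, q * P.D.B, q * P.D.B + c, P.h x',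
    Nat.mul_pos hq P.B_pos, ?_, ?_, ?_, P.h_le x' s1 hs1, ?_⟩
  · intro hnil
    have h1 : S.Fn (q * P.D.B) P.y = [] := (List.append_eq_nil_iff.1 hnil).1
    obtain ⟨x, hx⟩ := ALh_start hst c
    obtain ⟨x2, hx2⟩ := ALh_start hst (q * P.D.B)
    obtain ⟨r, hr⟩ := hpre
    rw [hx] at hr
    cases hy : P.y with
    | nil => exact hy0 hy
    | cons b y2 =>
      rw [hy] at hr h1
      simp only [List.cons_append, List.cons.injEq] at hr
      rw [hr.1, S.Fn_cons, hx2] at h1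
      simp at h1
  · rw [List.append_assoc]
    have h1 : S.Fn (q * P.D.B) P.y ++ (pre0 ++ [s1]) <+: S.Fn (q * P.D.B) (P.y ++ [s0]) := by
      rw [S.Fn_append]
      rw [hEB] at hp0
      exact (List.prefix_append_right_inj _).2 hp0
    rw [S.Fn_add]
    exact h1.trans (S.Fn_prefix hpre)
  · rw [hEB] at hp1
    exact hp1
  · intro n
    show P.pos (q * (n + 1)) = _
    unfold PD.pos
    rw [hH n P.e (x', pre0) hd0, hsum n, S.N_append, ← S.N_add]
    have e1 : P.k + P.D.B * (q * (n + 1)) = P.k + q * P.D.B * n + q * P.D.B := by ring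
    have e2 : ∀ i, P.k + P.D.B * (q * i) = P.k + q * P.D.B * i := by intro i; ring
    simp only [e1, e2]
    ring

end MW
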