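import Pool.Agent.Lib.MP_dd05d9_lc.MW.ALd
import Pool.Agent.Lib.MP_dd05d9_lc.MW.ALf
import Pool.Agent.Lib.MP_dd05d9_lc.MW.ALh

/-!
MW, part AL: the alignment lemma (assembly, proved from the modules).
-/

set_option autoImplicit false

namespace MW

theorem align {Q1 Q2 : Type} [Finite Q1] [Finite Q2] {S1 : Sys Q1} {S2 : Sys Q2}
    (h1 : ∃ x, S1.f S1.a = S1.a :: x) (h2 : ∃ x, S2.f S2.a = S2.a :: x)
    {r : ℕ → ℕ} (hr : StrictMono r) (A1 : Anch S1 r) (A2 : Anch S2 r) :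
    ∃ L, TL S1 L ∧ TL S2 L := by
  obtain ⟨K1, c1, ⟨B1⟩⟩ := sq_of_anch A1
  obtain ⟨K2, c2, ⟨B2⟩⟩ := sq_of_anch A2
  obtain ⟨P, P', hP⟩ := sq_periodic hr B1 B2
  obtain ⟨q1, hq1, H1⟩ := pd_track h1 P
  obtain ⟨q2, hq2, H2⟩ := pd_track h2 P'
  refine ⟨fun n => P.pos (q1 * q2 * (n + 1)), H1 _ (Nat.mul_pos hq1 hq2) (dvd_mul_right _ _), ?_⟩
  have := H2 _ (Nat.mul_pos hq1 hq2) (dvd_mul_left _ _)
  simpa [hP] using this

end MW
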