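import Pool.Agent.Lib.MP_dd05d9_lc.MW.Base

/-!
MW, part AL (alignment lemma), definitions.

`K` labels.  `t : Fin K → Option Q` = letters of the labels (none: label not used).  `Step` = transition
data between two levels at distance `B`: label `x` above goes to the label `x'` below, with the word `pre`.
-/

set_option autoImplicit false

namespace MW

/-- transition data -/
structure Step (Q : Type) (K : ℕ) where
  B : ℕ
  d : Fin K → Option (Fin K × List Q)

/-- the step `D` fits the letters `t` (lower level) and `t'` (upper level) -/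
def Fit {Q : Type} (S : Sys Q) {K : ℕ} (t t' : Fin K → Option Q) (D : Step Q K) : Prop :=
  ∀ x, (t' x = none → D.d x = none) ∧
    ∀ s, t' x = some s → ∃ x' pre s', D.d x = some (x', pre) ∧ t x' = some s' ∧
      pre ++ [s'] <+: S.Fn D.B [s]

/-- composition: first `D` (lower), then `D'` (upper) -/
def Step.comp {Q : Type} (S : Sys Q) {K : ℕ} (D D' : Step Q K) : Step Q K :=
  ⟨D.B + D'.B, fun x => (D'.d x).bind fun z => (D.d z.1).map fun z' => (z'.1, S.Fn D.B z.2 ++ z'.2)⟩

/-- identity step -/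
def idS {Q : Type} {K : ℕ} (t : Fin K → Option Q) : Step Q K := ⟨0, fun x => (t x).map fun _ => (x, [])⟩

/-- evolution of the offsets from level `k` to level `k + D.B` -/
def upd {Q : Type} (S : Sys Q) {K : ℕ} (k : ℕ) (D : Step Q K) (h : Fin K → ℕ) : Fin K → ℕ :=
  fun x => match D.d x with
    | none => 0
    | some z => S.N k z.2 + h z.1

/-- composite of the steps `D i, ..., D (i+p-1)` -/
def cmp {Q : Type} (S : Sys Q) {K : ℕ} (t : ℕ → Fin K → Option Q) (D : ℕ → Step Q K) (i : ℕ) :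
    ℕ → Step Q K
  | 0 => idS (t i)
  | p + 1 => Step.comp S (cmp S t D i p) (D (i + p))

/-- iterated evolution with the same step -/
def Hs {Q : Type} (S : Sys Q) {K : ℕ} (k : ℕ) (D : Step Q K) (h0 : Fin K → ℕ) : ℕ → Fin K → ℕ
  | 0 => h0
  | n + 1 => upd S (k + D.B * n) D (Hs S k D h0 n)

/-- the state vector -/
noncomputable def st {Q : Type} (S : Sys Q) {K : ℕ} (k : ℕ) (h : Fin K → ℕ) : Q ⊕ Fin K → ℚ :=
  Sum.elim (fun s => (S.N k [s] : ℚ)) (fun x => (h x : ℚ))

/-- sequences of levels, labels, offsets and anchors with finitely many types -/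
structure Sq {Q : Type} (S : Sys Q) (r : ℕ → ℕ) (K c : ℕ) where
  t : ℕ → Fin K → Option Q
  D : ℕ → Step Q K
  h : ℕ → Fin K → ℕ
  kap : ℕ → ℕ
  y : ℕ → List Q
  e : ℕ → Fin K
  kap_succ : ∀ j, kap (j + 1) = kap j + (D j).B
  fit : ∀ j, Fit S (t j) (t (j + 1)) (D j)
  h_succ : ∀ j, h (j + 1) = upd S (kap j) (D j) (h j)
  h_none : ∀ j x, t j x = none → h j x = 0
  h_le : ∀ j x s, t j x = some s → h j x ≤ S.N (kap j) [s]
  anch : ∀ j, ∃ s, t j (e j) = some s ∧ y j ≠ [] ∧ y j ++ [s] <+: S.Fn c [S.a]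
  pos : ∀ j, r j = S.N (kap j) (y j) + h j (e j)
  lev : ∀ i j, kap i = kap j → h i = h j
  fin : (Set.range (fun j => (t j, D j, y j, e j))).Finite

/-- periodic data: one step `D` which can be iterated -/
structure PD {Q : Type} (S : Sys Q) (K c : ℕ) where
  t : Fin K → Option Q
  D : Step Q K
  k : ℕ
  h : Fin K → ℕ
  y : List Q
  e : Fin K
  B_pos : 0 < D.B
  fit : Fit S t t D
  h_none : ∀ x, t x = none → h x = 0
  h_le : ∀ x s, t x = some s → h x ≤ S.N k [s]
  anch : ∃ s, t e = some s ∧ y ≠ [] ∧ y ++ [s] <+: S.Fn c [S.a]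

/-- the positions given by periodic data -/
def PD.pos {Q : Type} {S : Sys Q} {K c : ℕ} (P : PD S K c) (n : ℕ) : ℕ :=
  S.N (P.k + P.D.B * n) P.y + Hs S P.k P.D P.h n P.e

end MW
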