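import Pool.Agent.Lib.MP_dd05d9_lc.MW.ALDefs

/-!
MW, part AL, module ALa: composition of steps.

fit_id: for `x` with `t x = some s`: `(idS t).d x = some (x, [])`, `[] ++ [s] <+: S.Fn 0 [s] = [s]`.

fit_comp: let `t'' x = some s`.  By `h'` there are `x' pre' s'` with `D'.d x = some (x', pre')`, `t' x' = some s'`,
`pre' ++ [s'] <+: S.Fn D'.B [s]`; by `h` at `x'`: `D.d x' = some (x'', pre)`, `t x'' = some s''`, `pre ++ [s''] <+: S.Fn D.B [s']`.
So `(comp D D').d x = some (x'', S.Fn D.B pre' ++ pre)` and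
`S.Fn D.B pre' ++ pre ++ [s''] <+: S.Fn D.B pre' ++ S.Fn D.B [s'] = S.Fn D.B (pre' ++ [s']) <+: S.Fn D.B (S.Fn D'.B [s]) = S.Fn (D.B + D'.B) [s]`
(`Sys.Fn_append`, `Sys.Fn_prefix`, `Sys.Fn_add`).

upd_comp: pointwise at `x`.  If `D'.d x = none` both sides are 0.  If `D'.d x = some (x', pre')`, then by `hf'` (contraposition of its first part)
`t' x' ≠ none`... : from `hf'.1` : `t'' x ≠ none`, so by `hf'.2` `t' x' = some s'`, so by `hf.2` `D.d x' = some (x'', pre)`:
left = N (k + D.B) pre' + (N k pre + h x''), right = N k (Fn D.B pre' ++ pre) + h x''; `Sys.N_add`, `Sys.N_append`.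

upd_id: `h` vanishes on labels with `t x = none`.

fit_cmp, cmp_B: induction on `p`.
-/

set_option autoImplicit false

namespace MW

variable {Q : Type} (S : Sys Q) {K : ℕ}

theorem fit_id (t : Fin K → Option Q) : Fit S t t (idS t) := by
  intro x
  constructor
  · intro h
    simp [idS, h]
  · intro s h
    refine ⟨x, [], s, by simp [idS, h], h, ?_⟩
    exact List.prefix_refl _

theorem fit_comp {t t' t'' : Fin K → Option Q} {D D' : Step Q K} (h : Fit S t t' D)
    (h' : Fit S t' t'' D') : Fit S t t'' (Step.comp S D D') := by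
  intro x
  constructor
  · intro hx
    have := (h' x).1 hx
    simp [Step.comp, this]
  · intro s hs
    obtain ⟨x', pre', s', h1, h2, h3⟩ := (h' x).2 s hs
    obtain ⟨x'', pre, s'', h4, h5, h6⟩ := (h x').2 s' h2
    refine ⟨x'', S.Fn D.B pre' ++ pre, s'', by simp [Step.comp, h1, h4], h5, ?_⟩
    show S.Fn D.B pre' ++ pre ++ [s''] <+: S.Fn (D.B + D'.B) [s]
    rw [S.Fn_add]
    have e1 : S.Fn D.B (pre' ++ [s']) <+: S.Fn D.B (S.Fn D'.B [s]) := S.Fn_prefix h3
    rw [S.Fn_append] at e1
    refine List.IsPrefix.trans ?_ e1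
    rw [List.append_assoc]
    exact (List.prefix_append_right_inj _).2 h6

theorem upd_comp {t t' t'' : Fin K → Option Q} {D D' : Step Q K} (hf : Fit S t t' D)
    (hf' : Fit S t' t'' D') (k : ℕ) (h : Fin K → ℕ) :
    upd S (k + D.B) D' (upd S k D h) = upd S k (Step.comp S D D') h := by
  funext x
  cases h1 : D'.d x with
  | none => simp [upd, Step.comp, h1]
  | some z =>
    obtain ⟨x', pre'⟩ := z
    have hx : ∃ s, t'' x = some s := by
      cases h2 : t'' x with
      | none => rw [(hf' x).1 h2] at h1; cases h1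
      | some s => exact ⟨s, rfl⟩
    obtain ⟨s, hs⟩ := hx
    obtain ⟨a, b, s', h3, h4, -⟩ := (hf' x).2 s hs
    rw [h1] at h3
    simp only [Option.some.injEq, Prod.mk.injEq] at h3
    obtain ⟨rfl, rfl⟩ := h3
    obtain ⟨x'', pre, s'', h6, -, -⟩ := (hf x').2 s' h4
    simp only [upd, Step.comp, h1, h6, Option.bind_some, Option.map_some]
    rw [S.N_add, S.N_append]
    omega

theorem upd_id {t : Fin K → Option Q} {h : Fin K → ℕ} (hn : ∀ x, t x = none → h x = 0) (k : ℕ) :
    upd S k (idS t) h = h := by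
  funext x
  cases h1 : t x with
  | none => simp [upd, idS, h1, hn x h1]
  | some s => simp [upd, idS, h1]

theorem fit_cmp {t : ℕ → Fin K → Option Q} {D : ℕ → Step Q K} {i : ℕ} (p : ℕ)
    (hf : ∀ j, i ≤ j → j < i + p → Fit S (t j) (t (j + 1)) (D j)) :
    Fit S (t i) (t (i + p)) (cmp S t D i p) := by
  induction p with
  | zero => exact fit_id S (t i)
  | succ p ih =>
    exact fit_comp S (ih (fun j h1 h2 => hf j h1 (by omega)))
      (hf (i + p) (by omega) (by omega))

theorem cmp_B (t : ℕ → Fin K → Option Q) (D : ℕ → Step Q K) (i p : ℕ) :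
    (cmp S t D i p).B = ∑ j ∈ Finset.range p, (D (i + j)).B := by
  induction p with
  | zero => rfl
  | succ p ih =>
    rw [Finset.sum_range_succ, ← ih]
    rfl

end MW
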