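import Pool.Agent.Lib.MP_dd05d9_lc.MW.ALDefs

/-!
MW, part AL, module ALb: steps as linear maps on state vectors.

lm_exists: define `T : (Q ⊕ Fin K → ℚ) →ₗ[ℚ] (Q ⊕ Fin K → ℚ)` by
 `T v (inl s) = ((S.Fn D.B [s]).map (fun t => v (inl t))).sum`,
 `T v (inr x) = match D.d x with | none => 0 | some z => (z.2.map (fun t => v (inl t))).sum + v (inr z.1)`.
Linearity: pointwise; `(l.map (fun t => v t + w t)).sum = ..` is `List.sum_map_add`, scalar: `List.sum_map_mul_left` (or induction on the list).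
Value on `st S k h`: `((l.map (fun t => (S.N k [t] : ℚ))).sum = (S.N k l : ℚ)` by induction on `l` (`Sys.N_cons`), and
`S.N k (S.Fn D.B [s]) = S.N (k + D.B) [s]` (`Sys.N_add`).

fn_exists: `phi v = (y.map (fun t => v (inl t))).sum + v (inr e)`.
-/

set_option autoImplicit false

namespace MW

variable {Q : Type} (S : Sys Q) {K : ℕ}

private theorem ALb_sum_N (k : ℕ) (l : List Q) : (l.map (fun t => (S.N k [t] : ℚ))).sum = (S.N k l : ℚ) := by
  induction l with
  | nil => simp [Sys.N_nil]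
  | cons s l ih =>
    rw [List.map_cons, List.sum_cons, ih, S.N_cons k s l]
    push_cast
    ring

/-- sum over a word as a linear functional -/
private noncomputable def ALb_fn (l : List Q) : (Q ⊕ Fin K → ℚ) →ₗ[ℚ] ℚ :=
  (l.map (fun t => (LinearMap.proj (Sum.inl t) : (Q ⊕ Fin K → ℚ) →ₗ[ℚ] ℚ))).sum

private theorem ALb_fn_apply (l : List Q) (v : Q ⊕ Fin K → ℚ) :
    ALb_fn l v = (l.map (fun t => v (Sum.inl t))).sum := by
  unfold ALb_fn
  induction l with
  | nil => simp
  | cons s l ih =>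
    rw [List.map_cons, List.sum_cons, List.map_cons, List.sum_cons, LinearMap.add_apply, ih]
    rfl

theorem lm_exists (D : Step Q K) : ∃ T : (Q ⊕ Fin K → ℚ) →ₗ[ℚ] (Q ⊕ Fin K → ℚ),
    ∀ (k : ℕ) (h : Fin K → ℕ), T (st S k h) = st S (k + D.B) (upd S k D h) := by
  refine ⟨LinearMap.pi (fun i => match i with
    | Sum.inl s => ALb_fn (S.Fn D.B [s])
    | Sum.inr x => match D.d x with
      | none => 0
      | some z => ALb_fn z.2 + LinearMap.proj (Sum.inr z.1)), fun k h => ?_⟩
  funext i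
  rw [LinearMap.pi_apply]
  rcases i with s | x
  · simp only
    rw [ALb_fn_apply]
    unfold st
    simp only [Sum.elim_inl]
    rw [ALb_sum_N]
    congr 1
    rw [Sys.N_add]
  · unfold st
    simp only [Sum.elim_inr]
    unfold upd
    rcases hd : D.d x with _ | z
    · simp
    · simp only [LinearMap.add_apply, LinearMap.proj_apply, Sum.elim_inr]
      rw [ALb_fn_apply]
      simp only [Sum.elim_inl]
      rw [ALb_sum_N]
      push_cast
      ring

theorem fn_exists (y : List Q) (e : Fin K) : ∃ phi : (Q ⊕ Fin K → ℚ) →ₗ[ℚ] ℚ,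
    ∀ (k : ℕ) (h : Fin K → ℕ), phi (st S k h) = ((S.N k y + h e : ℕ) : ℚ) := by
  refine ⟨ALb_fn y + LinearMap.proj (Sum.inr e), fun k h => ?_⟩
  rw [LinearMap.add_apply, ALb_fn_apply, LinearMap.proj_apply]
  unfold st
  simp only [Sum.elim_inl, Sum.elim_inr]
  rw [ALb_sum_N]
  push_cast
  ring

end MW
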