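import Pool.Agent.Lib.MP_dd05d9_lc.MW.ALDefs

/-!
MW, part AL, module ALc: multi-step descent in a tower, finiteness of the set of prefixes of iterates.
-/

set_option autoImplicit false

namespace MW

variable {Q : Type} {S : Sys Q}

private theorem ALc_F_append (l l' : List Q) : S.F (l ++ l') = S.F l ++ S.F l' := by
  simp [Sys.F]

private theorem ALc_Fn_append (n : ℕ) : ∀ l l' : List Q, S.Fn n (l ++ l') = S.Fn n l ++ S.Fn n l' := by
  induction n with
  | zero => intro l l'; rfl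
  | succ n ih =>
    intro l l'
    show S.Fn n (S.F (l ++ l')) = S.Fn n (S.F l) ++ S.Fn n (S.F l')
    rw [ALc_F_append, ih]

private theorem ALc_Fn_add (n k : ℕ) (l : List Q) : S.Fn (n + k) l = S.Fn n (S.Fn k l) :=
  Function.iterate_add_apply _ _ _ _

private theorem ALc_N_append (k : ℕ) (l l' : List Q) : S.N k (l ++ l') = S.N k l + S.N k l' := by
  simp [Sys.N, Sys.C, ALc_Fn_append]

private theorem ALc_N_Fn (k D : ℕ) (l : List Q) : S.N k (S.Fn D l) = S.N (k + D) l := by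
  simp only [Sys.N, Sys.C]
  rw [← ALc_Fn_add]

theorem Tower.desc_add {G : ℕ → Finset (Q × ℕ)} {K : ℕ} (hT : Tower S G K) (k D : ℕ)
    {z : Q × ℕ} (hz : z ∈ G (k + D)) : ∃ z' ∈ G k, ∃ pre, pre ++ [z'.1] <+: S.Fn D [z.1] ∧
      z.2 = S.N k pre + z'.2 := by
  induction D generalizing z with
  | zero =>
    refine ⟨z, hz, [], ?_, ?_⟩
    · exact List.prefix_refl _
    · rw [Sys.N_nil, Nat.zero_add]
  | succ D ih =>
    obtain ⟨z1, hz1, pre1, hp1, he1⟩ := hT.desc (k + D) z hz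
    obtain ⟨z', hz', pre2, hp2, he2⟩ := ih hz1
    refine ⟨z', hz', S.Fn D pre1 ++ pre2, ?_, ?_⟩
    · have h1 : S.Fn (D + 1) [z.1] = S.Fn D (S.f z.1) := by
        show S.Fn D (S.F [z.1]) = _
        simp [Sys.F]
      rw [h1]
      obtain ⟨t1, ht1⟩ := hp1
      obtain ⟨t2, ht2⟩ := hp2
      refine ⟨t2 ++ S.Fn D t1, ?_⟩
      rw [← ht1, ALc_Fn_append, ALc_Fn_append, ← ht2]
      simp
    · rw [he1, he2, ALc_N_append, ALc_N_Fn]
      omega

theorem fin_pre [Finite Q] (S : Sys Q) (c : ℕ) :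
    {l : List Q | ∃ B ≤ c, ∃ s, l <+: S.Fn B [s]}.Finite := by
  have h : {l : List Q | ∃ B ≤ c, ∃ s, l <+: S.Fn B [s]} ⊆
      ⋃ B ∈ Set.Iic c, ⋃ s : Q, {l : List Q | l ∈ (S.Fn B [s]).inits} := by
    rintro l ⟨B, hB, s, hl⟩
    simp only [Set.mem_iUnion]
    exact ⟨B, hB, s, (List.mem_inits _ _).mpr hl⟩
  refine Set.Finite.subset ?_ h
  refine Set.Finite.biUnion (Set.finite_Iic c) fun B _ => ?_
  refine Set.finite_iUnion fun s => ?_
  exact List.finite_toSet _

end MW
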