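import Pool.Agent.Lib.MP_dd05d9_lc.MW.ALc

/-!
MW, part AL, module ALd: from an anchored sequence to a sequence `Sq` of levels, labels, offsets with finitely many types.

Let `G, K, c, kap` be as in `Anch S r`.  Labels: `en k x := (G k).toList[x.val]?` (`x : Fin K`); every `z ∈ G k` is `en k x = some z` for some `x`
(index in the list, length = card ≤ K), and `en k x = some z` implies `z ∈ G k`.
`t j x = (en (kap j) x).map Prod.fst`, `h j x = ((en (kap j) x).map Prod.snd).getD 0`.
`D j`: `B = kap (j+1) - kap j`; for `x` with `en (kap (j+1)) x = none`: `d x = none`; for `en (kap (j+1)) x = some z`: by `Tower.desc_add`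
(`kap (j+1) = kap j + B`) choose `z' ∈ G (kap j)`, `pre`, a label `x'` with `en (kap j) x' = some z'`, put `d x = some (x', pre)`.
(Use `Classical.choice` through a statement `∀ j, ∃ Dj : Step Q K, Dj.B = _ ∧ Fit .. ∧ h (j+1) = upd .. ∧ ∀ x x' pre, Dj.d x = some (x', pre) → ∃ B ≤ c, ∃ s, pre <+: S.Fn B [s]`,
and `choose`.)
Anchor: the given `z ∈ G (kap j)`, `y`; label `e j` of `z`.
`lev`: equal levels give equal `h` by definition.
`fin`: `t j`, `e j` are in finite types; `(D j).B ≤ c`; `(D j).d` is a function from `Fin K` to the finite set of `none` and pairs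
(label, word of the set of `fin_pre`); `y j` is in the set of `fin_pre` (prefix of `S.Fn c [S.a]`, `B = c`).  A set of pairs/functions with all
components in finite sets is finite (`Set.Finite.subset`, `Set.Finite.prod`, `Set.Finite.pi`; map `Step` to the pair `(B, d)` injectively).
-/

set_option autoImplicit false

namespace MW

private theorem ALd_mem {Q : Type} {G : ℕ → Finset (Q × ℕ)} {K k : ℕ} {x : Fin K} {z : Q × ℕ}
    (h : (G k).toList[x.val]? = some z) : z ∈ G k :=
  Finset.mem_toList.1 (List.mem_of_getElem? h)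

private theorem ALd_ex {Q : Type} {S : Sys Q} {G : ℕ → Finset (Q × ℕ)} {K : ℕ} (hT : Tower S G K)
    {k : ℕ} {z : Q × ℕ} (h : z ∈ G k) : ∃ x : Fin K, (G k).toList[x.val]? = some z := by
  obtain ⟨i, hi⟩ := List.mem_iff_getElem?.1 (Finset.mem_toList.2 h)
  have hl : i < (G k).toList.length := by
    by_contra hc
    rw [List.getElem?_eq_none (not_lt.1 hc)] at hi
    exact absurd hi (by simp)
  rw [Finset.length_toList] at hl
  exact ⟨⟨i, lt_of_lt_of_le hl (hT.card k)⟩, hi⟩

private theorem ALd_step {Q : Type} {S : Sys Q} {G : ℕ → Finset (Q × ℕ)} {K : ℕ}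
    (hT : Tower S G K) (c k B : ℕ) (hB : B ≤ c) :
    ∃ D : Step Q K, D.B = B ∧
      Fit S (fun x => ((G k).toList[x.val]?).map Prod.fst)
        (fun x => ((G (k + B)).toList[x.val]?).map Prod.fst) D ∧
      (fun x : Fin K => (((G (k + B)).toList[x.val]?).map Prod.snd).getD 0) =
        upd S k D (fun x => (((G k).toList[x.val]?).map Prod.snd).getD 0) ∧
      ∀ x z, D.d x = some z → z.2 ∈ {l : List Q | ∃ B ≤ c, ∃ s, l <+: S.Fn B [s]} := by
  have key : ∀ x : Fin K, ∃ o : Option (Fin K × List Q),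
      ((G (k + B)).toList[x.val]? = none → o = none) ∧
      ∀ z, (G (k + B)).toList[x.val]? = some z → ∃ x' pre z', o = some (x', pre) ∧
        (G k).toList[(x' : Fin K).val]? = some z' ∧ pre ++ [z'.1] <+: S.Fn B [z.1] ∧
        z.2 = S.N k pre + z'.2 := by
    intro x
    rcases hx : (G (k + B)).toList[x.val]? with _ | z
    · exact ⟨none, fun _ => rfl, fun z hz => absurd hz (by simp)⟩
    · obtain ⟨z', hz', pre, hp, he⟩ := hT.desc_add k B (ALd_mem hx)
      obtain ⟨x', hx'⟩ := ALd_ex hT hz'
      refine ⟨some (x', pre), fun h => absurd h (by simp), fun w hw => ?_⟩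
      have : z = w := by simpa using hw
      subst this
      exact ⟨x', pre, z', rfl, hx', hp, he⟩
  choose d hd1 hd2 using key
  refine ⟨⟨B, d⟩, rfl, ?_, ?_, ?_⟩
  · intro x
    constructor
    · intro hx
      exact hd1 x (by simpa using hx)
    · intro s hs
      simp only [Option.map_eq_some_iff] at hs
      obtain ⟨z, hz, rfl⟩ := hs
      obtain ⟨x', pre, z', h1, h2, h3, h4⟩ := hd2 x z hz
      exact ⟨x', pre, z'.1, h1, by simp [h2], h3⟩
  · funext x
    rcases hx : (G (k + B)).toList[x.val]? with _ | z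
    · have := hd1 x hx
      simp [upd, this]
    · obtain ⟨x', pre, z', h1, h2, h3, h4⟩ := hd2 x z hx
      simp [upd, h1, h2, h4]
  · intro x w hw
    have hw' : d x = some w := hw
    rcases hx : (G (k + B)).toList[x.val]? with _ | z
    · rw [hd1 x hx] at hw'
      exact absurd hw' (by simp)
    · obtain ⟨x', pre, z', h1, h2, h3, h4⟩ := hd2 x z hx
      rw [h1] at hw'
      have : w = (x', pre) := by simpa using hw'.symm
      subst this
      exact ⟨B, hB, z.1, (List.prefix_append pre [z'.1]).trans h3⟩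

private theorem ALd_fin {Q : Type} [Finite Q] (S : Sys Q) (K c : ℕ) (t : ℕ → Fin K → Option Q)
    (D : ℕ → Step Q K) (y : ℕ → List Q) (e : ℕ → Fin K) (hB : ∀ j, (D j).B ≤ c)
    (hd : ∀ j x z, (D j).d x = some z → z.2 ∈ {l : List Q | ∃ B ≤ c, ∃ s, l <+: S.Fn B [s]})
    (hy : ∀ j, y j ∈ {l : List Q | ∃ B ≤ c, ∃ s, l <+: S.Fn B [s]}) :
    (Set.range (fun j => (t j, D j, y j, e j))).Finite := by
  have hW := fin_pre S c
  set W : Set (List Q) := {l : List Q | ∃ B ≤ c, ∃ s, l <+: S.Fn B [s]} with hWdef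
  have hO : ({none} ∪ some '' ((Set.univ : Set (Fin K)) ×ˢ W) :
      Set (Option (Fin K × List Q))).Finite :=
    (Set.finite_singleton _).union ((Set.finite_univ.prod hW).image _)
  have hP := Set.Finite.pi (ι := Fin K) (fun _ => hO)
  have hS := ((Set.finite_Iic c).prod hP).image
    (fun p : ℕ × (Fin K → Option (Fin K × List Q)) => (⟨p.1, p.2⟩ : Step Q K))
  refine ((Set.finite_univ (α := Fin K → Option Q)).prod (hS.prod (hW.prod
    (Set.finite_univ (α := Fin K))))).subset ?_
  rintro _ ⟨j, rfl⟩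
  refine ⟨Set.mem_univ _, ⟨((D j).B, (D j).d), ⟨hB j, ?_⟩, rfl⟩, hy j, Set.mem_univ _⟩
  rw [Set.mem_univ_pi]
  intro x
  rcases hx : (D j).d x with _ | z
  · exact Or.inl (by simpa using hx)
  · refine Or.inr ⟨z, ⟨Set.mem_univ _, hd j x z hx⟩, ?_⟩
    simpa using hx.symm

theorem sq_of_anch {Q : Type} [Finite Q] {S : Sys Q} {r : ℕ → ℕ} (h : Anch S r) :
    ∃ K c, Nonempty (Sq S r K c) := by
  obtain ⟨G, K, c, kap, hT, hk, ha⟩ := h
  have hD : ∀ j, ∃ D : Step Q K, D.B = kap (j + 1) - kap j ∧
      Fit S (fun x => ((G (kap j)).toList[x.val]?).map Prod.fst)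
        (fun x => ((G (kap (j + 1))).toList[x.val]?).map Prod.fst) D ∧
      (fun x : Fin K => (((G (kap (j + 1))).toList[x.val]?).map Prod.snd).getD 0) =
        upd S (kap j) D (fun x => (((G (kap j)).toList[x.val]?).map Prod.snd).getD 0) ∧
      ∀ x z, D.d x = some z → z.2 ∈ {l : List Q | ∃ B ≤ c, ∃ s, l <+: S.Fn B [s]} := by
    intro j
    have h1 : kap j + (kap (j + 1) - kap j) = kap (j + 1) := by
      have := (hk j).1
      omega
    have := ALd_step hT c (kap j) (kap (j + 1) - kap j) (by have := (hk j).2; omega)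
    rwa [h1] at this
  choose D hDB hDF hDh hDd using hD
  have hA : ∀ j, ∃ (x : Fin K) (z : Q × ℕ) (y : List Q), (G (kap j)).toList[x.val]? = some z ∧
      y ≠ [] ∧ y ++ [z.1] <+: S.Fn c [S.a] ∧ r j = S.N (kap j) y + z.2 := by
    intro j
    obtain ⟨z, hz, y, h1, h2, h3⟩ := ha j
    obtain ⟨x, hx⟩ := ALd_ex hT hz
    exact ⟨x, z, y, hx, h1, h2, h3⟩
  choose e z y he hy0 hy1 hr using hA
  refine ⟨K, c, ⟨{
    t := fun j x => ((G (kap j)).toList[x.val]?).map Prod.fst
    D := D
    h := fun j x => (((G (kap j)).toList[x.val]?).map Prod.snd).getD 0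
    kap := kap
    y := y
    e := e
    kap_succ := ?_
    fit := hDF
    h_succ := hDh
    h_none := ?_
    h_le := ?_
    anch := ?_
    pos := ?_
    lev := ?_
    fin := ?_ }⟩⟩
  · intro j
    have := (hk j).1
    rw [hDB]
    omega
  · intro j x hx
    have : (G (kap j)).toList[x.val]? = none := by simpa using hx
    simp [this]
  · intro j x s hs
    simp only [Option.map_eq_some_iff] at hs
    obtain ⟨w, hw, rfl⟩ := hs
    simp only [hw, Option.map_some, Option.getD_some]
    exact hT.le _ _ (ALd_mem hw)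
  · intro j
    exact ⟨(z j).1, by simp [he], hy0 j, hy1 j⟩
  · intro j
    simp [he, hr]
  · intro i j hij
    simp only [hij]
  · refine ALd_fin S K c _ D y e (fun j => ?_) hDd (fun j => ?_)
    · rw [hDB]
      have := (hk j).2
      omega
    · exact ⟨c, le_rfl, S.a, (List.prefix_append _ _).trans (hy1 j)⟩

end MW
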