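import Pool.Agent.Lib.MP_dd05d9_lc.MW.ALa
import Pool.Agent.Lib.MP_dd05d9_lc.MW.ALb
import Pool.Agent.Lib.MP_dd05d9_lc.FQ.LaLemma

/-!
MW, part AL, module ALe: following a periodic sequence of steps.

`t D` with `Fit` between neighbours on `[i, i+p)`, `t (i+p) = t i`, and a sequence `lam g` with
`lam 0 = k`, `g 0 = h`, `lam (n+1) = lam n + (D (i + n % p)).B`, `g (n+1) = upd S (lam n) (D (i + n % p)) (g n)`, `h` zero on unused labels.
Claim: `lam (m * p) = k + Dc.B * m` and `g (m * p) = Hs S k Dc h m` for `Dc = cmp S t D i p`.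

Proof.  (1) For a level `k'`, offsets `h'` (zero on labels with `t i x = none`) and every `q ≤ p`: following the steps `D i, .., D (i+q-1)` from `(k', h')`
gives `(k' + (cmp S t D i q).B, upd S k' (cmp S t D i q) h')`: induction on `q`, `upd_id` and `upd_comp` (with `fit_cmp`).
(2) Induction on `m`: at `n = m * p`, `g n = Hs S k Dc h m` vanishes on the unused labels of `t i = t (i+p)` (for `m = 0` hypothesis; for `m+1`:
`Fit` gives `Dc.d x = none`, so `upd .. x = 0`), and `(m*p + q) % p = q` for `q < p`; apply (1) with `q = p`.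
-/

set_option autoImplicit false

namespace MW

private theorem ALe_aux {Q : Type} (S : Sys Q) {K : ℕ} (t : ℕ → Fin K → Option Q)
    (D : ℕ → Step Q K) (i p : ℕ)
    (hf : ∀ j, i ≤ j → j < i + p → Fit S (t j) (t (j + 1)) (D j))
    (lam : ℕ → ℕ) (g : ℕ → Fin K → ℕ)
    (hl : ∀ n, lam (n + 1) = lam n + (D (i + n % p)).B)
    (hg : ∀ n, g (n + 1) = upd S (lam n) (D (i + n % p)) (g n)) (m : ℕ)
    (hz : ∀ x, t i x = none → g (m * p) x = 0) (q : ℕ) (hq : q ≤ p) :
    lam (m * p + q) = lam (m * p) + (cmp S t D i q).B ∧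
      g (m * p + q) = upd S (lam (m * p)) (cmp S t D i q) (g (m * p)) := by
  induction q with
  | zero =>
    refine ⟨rfl, ?_⟩
    exact (upd_id S hz (lam (m * p))).symm
  | succ q ih =>
    obtain ⟨h1, h2⟩ := ih (by omega)
    have hmod : (m * p + q) % p = q := by
      rw [Nat.add_comm, Nat.add_mul_mod_self_right, Nat.mod_eq_of_lt (by omega)]
    have h3 := hl (m * p + q)
    have h4 := hg (m * p + q)
    rw [hmod] at h3 h4
    have hfit : Fit S (t i) (t (i + q)) (cmp S t D i q) :=
      fit_cmp S q (fun j h5 h6 => hf j h5 (by omega))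
    have hfit' : Fit S (t (i + q)) (t (i + q + 1)) (D (i + q)) :=
      hf (i + q) (by omega) (by omega)
    refine ⟨?_, ?_⟩
    · show lam (m * p + q + 1) = lam (m * p) + ((cmp S t D i q).B + (D (i + q)).B)
      rw [h3, h1]
      omega
    · show g (m * p + q + 1) = upd S (lam (m * p)) (Step.comp S (cmp S t D i q) (D (i + q)))
        (g (m * p))
      rw [h4, h1, h2]
      exact upd_comp S hfit hfit' _ _

theorem run_per {Q : Type} (S : Sys Q) {K : ℕ} (t : ℕ → Fin K → Option Q) (D : ℕ → Step Q K)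
    (i p : ℕ) (hp : 0 < p) (hf : ∀ j, i ≤ j → j < i + p → Fit S (t j) (t (j + 1)) (D j))
    (ht : t (i + p) = t i) (k : ℕ) (h : Fin K → ℕ) (hn : ∀ x, t i x = none → h x = 0)
    (lam : ℕ → ℕ) (g : ℕ → Fin K → ℕ) (h0 : lam 0 = k) (g0 : g 0 = h)
    (hl : ∀ n, lam (n + 1) = lam n + (D (i + n % p)).B)
    (hg : ∀ n, g (n + 1) = upd S (lam n) (D (i + n % p)) (g n)) (m : ℕ) :
    lam (m * p) = k + (cmp S t D i p).B * m ∧
      g (m * p) = Hs S k (cmp S t D i p) h m := by
  have key : ∀ m : ℕ, lam (m * p) = k + (cmp S t D i p).B * m ∧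
      g (m * p) = Hs S k (cmp S t D i p) h m ∧ ∀ x, t i x = none → g (m * p) x = 0 := by
    intro m
    induction m with
    | zero =>
      rw [Nat.zero_mul, h0, g0]
      exact ⟨rfl, rfl, hn⟩
    | succ m ih =>
      obtain ⟨h1, h2, h3⟩ := ih
      obtain ⟨h4, h5⟩ := ALe_aux S t D i p hf lam g hl hg m h3 p le_rfl
      have hfit : Fit S (t i) (t (i + p)) (cmp S t D i p) := fit_cmp S p hf
      have e : (m + 1) * p = m * p + p := Nat.succ_mul m p
      rw [e]
      refine ⟨?_, ?_, ?_⟩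
      · rw [h4, h1, Nat.mul_succ, Nat.add_assoc]
      · rw [h5, h2, h1]
        rfl
      · intro x hx
        rw [h5]
        have h6 : (cmp S t D i p).d x = none := (hfit x).1 (by rw [ht]; exact hx)
        simp only [upd, h6]
  exact ⟨(key m).1, (key m).2.1⟩

end MW
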