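import Pool.Agent.Lib.MP_dd05d9_lc.MW.ALa

/-!
MW, part AL, module ALg: iterates of one step, idempotent power.

`pw q := cmp S (fun _ => t) (fun _ => D) 0 q`.
pw_fit: `fit_cmp`.   pw_B: `cmp_B`.
pw_Hs: `Hs S k D h (q * (n+1)) = upd S (k + D.B * (q * n)) (pw q) (Hs S k D h (q * n))` for `q > 0`, `n`: induction on `q'`:
`Hs (m + q') = upd S (k + D.B * m) (pw q') (Hs m)`, for `m` with `Hs m` zero on unused labels (`upd_id` for `q' = 0`, `upd_comp` for the step);
`Hs m` is zero on unused labels for every `m` (for `m = 0` hypothesis `hn`, else `Fit`).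
idem: for `delta : Fin K → Fin K` there is `q0 > 0` such that `delta^[q] ∘ delta^[q] = delta^[q]` for all positive multiples `q` of `q0`:
two iterates `delta^[i] = delta^[j]`, `i < j` (finite type), `q0 = (j - i) * j` or `(j-i)*(i+1)`.
pw_d: with `delta x` = the first component of `D.d x` (or `x` if none): for `t x = some s` and every `q`: `(pw q).d x = some (delta^[q] x, pre)` for some `pre`.
-/

set_option autoImplicit false

namespace MW

variable {Q : Type} (S : Sys Q) {K : ℕ}

theorem idem_pow (delta : Fin K → Fin K) : ∃ q0, 0 < q0 ∧ ∀ q, 0 < q → q0 ∣ q →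
    ∀ x, delta^[q] (delta^[q] x) = delta^[q] x := by
  obtain ⟨i, j, hij, he⟩ := Finite.exists_ne_map_eq_of_infinite (fun n : ℕ => delta^[n])
  have key : ∀ i j : ℕ, i < j → delta^[i] = delta^[j] → ∃ q0, 0 < q0 ∧ ∀ q, 0 < q → q0 ∣ q →
      ∀ x, delta^[q] (delta^[q] x) = delta^[q] x := by
    intro i j hij he
    obtain ⟨p, hp⟩ := Nat.exists_eq_add_of_lt hij
    have h1 : ∀ n, delta^[i + n + (p + 1)] = delta^[i + n] := by
      intro n
      funext x
      have e1 : i + n + (p + 1) = n + j := by omega
      have e2 : i + n = n + i := by omega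
      rw [e1, e2, Function.iterate_add_apply, Function.iterate_add_apply, he]
    have h2 : ∀ k n, delta^[i + n + (p + 1) * k] = delta^[i + n] := by
      intro k
      induction k with
      | zero => intro n; rfl
      | succ k ih =>
        intro n
        have e1 : i + n + (p + 1) * (k + 1) = i + (n + (p + 1) * k) + (p + 1) := by ring
        rw [e1, h1]
        have e2 : i + (n + (p + 1) * k) = i + n + (p + 1) * k := by ring
        rw [e2, ih]
    refine ⟨(p + 1) * (i + 1), by positivity, ?_⟩
    rintro q hq ⟨k, hk⟩ x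
    rw [← Function.iterate_add_apply]
    have hk0 : 0 < k := by
      rcases Nat.eq_zero_or_pos k with h | h
      · rw [h] at hk; simp at hk; omega
      · exact h
    have hqi : i ≤ q := by
      rw [hk]
      calc i ≤ i + 1 := Nat.le_succ i
        _ ≤ (p + 1) * (i + 1) := Nat.le_mul_of_pos_left _ (Nat.succ_pos p)
        _ ≤ (p + 1) * (i + 1) * k := Nat.le_mul_of_pos_right _ hk0
    obtain ⟨n, hn⟩ := Nat.exists_eq_add_of_le hqi
    have e3 : q + q = i + n + (p + 1) * ((i + 1) * k) := by
      nth_rewrite 1 [hn]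
      rw [hk]
      ring
    rw [e3, h2, ← hn]
  rcases lt_or_gt_of_ne hij with h | h
  · exact key i j h he
  · exact key j i h he.symm

theorem pw_d {t : Fin K → Option Q} {D : Step Q K} (hf : Fit S t t D) :
    ∃ delta : Fin K → Fin K, ∀ (q : ℕ) (x : Fin K) (s : Q), t x = some s →
      ∃ pre, (cmp S (fun _ => t) (fun _ => D) 0 q).d x = some (delta^[q] x, pre) := by
  refine ⟨fun x => match D.d x with
    | none => x
    | some z => z.1, ?_⟩
  intro q
  induction q with
  | zero =>
    intro x s hx
    exact ⟨[], by simp [cmp, idS, hx]⟩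
  | succ q ih =>
    intro x s hx
    obtain ⟨x', pre', s', h1, h2, -⟩ := (hf x).2 s hx
    obtain ⟨pre, h3⟩ := ih x' s' h2
    refine ⟨S.Fn (cmp S (fun _ => t) (fun _ => D) 0 q).B pre' ++ pre, ?_⟩
    rw [Function.iterate_succ_apply]
    simp only [cmp, Step.comp, h1, Option.bind_some, h3, Option.map_some]

private theorem ALg_zero {t : Fin K → Option Q} {D : Step Q K} (hf : Fit S t t D) (k : ℕ)
    (h : Fin K → ℕ) (hn : ∀ x, t x = none → h x = 0) (m : ℕ) :
    ∀ x, t x = none → Hs S k D h m x = 0 := by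
  cases m with
  | zero => exact hn
  | succ m =>
    intro x hx
    have h1 : D.d x = none := (hf x).1 hx
    simp only [Hs, upd, h1]

private theorem ALg_add {t : Fin K → Option Q} {D : Step Q K} (hf : Fit S t t D) (k : ℕ)
    (h : Fin K → ℕ) (hn : ∀ x, t x = none → h x = 0) (m q : ℕ) :
    Hs S k D h (m + q) = upd S (k + D.B * m) (cmp S (fun _ => t) (fun _ => D) 0 q)
      (Hs S k D h m) := by
  induction q with
  | zero => exact (upd_id S (ALg_zero S hf k h hn m) _).symm
  | succ q ih =>
    have hB : (cmp S (fun _ => t) (fun _ => D) 0 q).B = D.B * q := by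
      rw [cmp_B]
      simp [Nat.mul_comm]
    have hfit : Fit S t t (cmp S (fun _ => t) (fun _ => D) 0 q) :=
      fit_cmp S (t := fun _ => t) (D := fun _ => D) (i := 0) q (fun j _ _ => hf)
    show upd S (k + D.B * (m + q)) D (Hs S k D h (m + q)) = upd S (k + D.B * m)
      (Step.comp S (cmp S (fun _ => t) (fun _ => D) 0 q) D) (Hs S k D h m)
    rw [← upd_comp S hfit hf, ih, hB]
    congr 1
    ring

theorem pw_Hs {t : Fin K → Option Q} {D : Step Q K} (hf : Fit S t t D) (k : ℕ) (h : Fin K → ℕ)
    (hn : ∀ x, t x = none → h x = 0) (q n : ℕ) :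
    Hs S k D h (q * (n + 1)) = upd S (k + D.B * (q * n)) (cmp S (fun _ => t) (fun _ => D) 0 q)
      (Hs S k D h (q * n)) := by
  rw [Nat.mul_succ]
  exact ALg_add S hf k h hn (q * n) q

end MW
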