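import Pool.Agent.Lib.MP_dd05d9_lc.MW.NODefs

/-!
MW, part NO, module NOa: deterministic evolution in a finite range is ultimately periodic.

The map `I : ℕ → X` has finite range, so it is not injective: `I i = I j` with `i < j` (`Set.infinite_range_of_injective`, or
`Finite.exists_ne_map_eq_of_infinite` for the map into the range subtype).  Then `I (k + (j - i)) = I k` for all `k ≥ i` by induction on `k` (`h`).
`q = j - i`, `K = i`.
-/

set_option autoImplicit false

namespace MW

theorem fi {X : Type} (I : ℕ → X) (g : X → X) (h : ∀ k, I (k + 1) = g (I k))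
    (hf : (Set.range I).Finite) : ∃ q K, 0 < q ∧ ∀ k, K ≤ k → I (k + q) = I k := by
  have hni : ¬ Function.Injective I := fun hi => Set.infinite_range_of_injective hi hf
  have key : ∀ i j : ℕ, i < j → I i = I j → ∃ q K, 0 < q ∧ ∀ k, K ≤ k → I (k + q) = I k := by
    intro i j hij he
    refine ⟨j - i, i, by omega, ?_⟩
    intro k hk
    induction k, hk using Nat.le_induction with
    | base => rw [he]; congr 1; omega
    | succ k hk ih =>
      rw [show k + 1 + (j - i) = k + (j - i) + 1 by omega, h, ih, ← h]
  unfold Function.Injective at hni
  push Not at hni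
  obtain ⟨i, j, he, hne⟩ := hni
  rcases lt_or_gt_of_ne hne with h1 | h1
  · exact key i j h1 he
  · exact key j i h1 he.symm

end MW
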