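import Pool.Agent.Lib.MP_dd05d9_lc.MW.ADefs
import Pool.Agent.Lib.MP_dd05d9_lc.MW.NOa

/-!
MW, part A, module Ab: the set of letters containing a 1 becomes constant after a power-shift.

one_mem: `1 ∈ S.C k l ↔ ∃ s ∈ l, 1 ∈ S.C k [s]` (`Sys.C_flatMap`, `List.mem_flatMap`).
dc_ex: `I k = {s | 1 ∈ S.C k [s]}` (`Set Q`, finite type): `s ∈ I (k+1) ↔ ∃ t ∈ S.f s, t ∈ I k` (`Sys.C_succ`, `Sys.F_single`, one_mem).  `fi` gives `q, K` with `I (k + q) = I k` for `k ≥ K`,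
 so `I (K + q n) = I K`; `(S.ps q K).C n [s] = S.C (K + q n) [s]` (`Sys.ps_C`).
dc_ps: stability.
-/

set_option autoImplicit false

namespace MW

variable {Q : Type}

theorem one_mem (S : Sys Q) (k : ℕ) (l : List Q) : 1 ∈ S.C k l ↔ ∃ s ∈ l, 1 ∈ S.C k [s] := by
  conv_lhs => rw [S.C_flatMap, List.mem_flatMap]

theorem dc_ex [Finite Q] (S : Sys Q) : ∃ q K, 0 < q ∧ DC (S.ps q K) := by
  obtain ⟨q, K, hq, h⟩ := fi (fun k => {s | 1 ∈ S.C k [s]} : ℕ → Set Q)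
    (fun I => {s | ∃ t ∈ S.f s, t ∈ I}) (by
      intro k
      ext s
      simp only [Set.mem_ofPred_eq]
      rw [S.C_succ, S.F_single, one_mem]) (Set.toFinite _)
  refine ⟨q, K, hq, ?_⟩
  have h2 : ∀ n s, 1 ∈ S.C (K + q * n) [s] ↔ 1 ∈ S.C K [s] := by
    intro n s
    induction n with
    | zero => simp
    | succ n ih =>
      have h3 := Set.ext_iff.1 (h (K + q * n) (by omega)) s
      simp only [Set.mem_ofPred_eq] at h3
      rw [← ih, ← h3]
      rw [show K + q * (n + 1) = K + q * n + q by ring]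
  intro k s
  rw [S.ps_C, S.ps_C, h2, h2]

theorem dc_ps {S : Sys Q} (h : DC S) (q K : ℕ) : DC (S.ps q K) := by
  intro k s
  rw [S.ps_C, S.ps_C, h, h (K + q * 0)]

end MW
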