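import Pool.Agent.Lib.MP_dd05d9_lc.MW.NOa

/-!
MW, part NO, module NOb: nonnegative linear recursions (Dickson).

(1) Dickson: `wellQuasiOrdered_le` for `J → ℕ` (instance `Pi.wellQuasiOrderedLE`, needs `Finite J`): there are `m < n` with `V m ≤ V n`.
    `K0 = m`, `q0 = n - m > 0`.
(2) monotone: `V (K0 + k) ≤ V (K0 + k + q0)` for all `k`: induction on `k` with `h` (a sum over a list of naturals is monotone).
(3) `E k := {c | V (K0 + k) c < V (K0 + k + q0) c}`.  Then `c ∈ E (k+1) ↔ ∃ c' ∈ M c, c' ∈ E k`: by (2) every summand is `≤`, so the sum is `<` iff one summand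
    is `<` (induction on the list `M c`).  So `E (k+1) = g (E k)`, the range is finite (`Set J` is finite).  `fi`: `q', K'` with `E (k + q') = E k` for `k ≥ K'`.
(4) Take `q = q0 * q'`, `K = K0 + q0 * K' + q` (the last `+ q` for positivity).  For a coordinate `c` and `k ≥ K'`: `V (K0 + k + q) c - V (K0 + k) c` = sum over `i < q'` of
    `V (K0 + k + q0 (i+1)) c - V (K0 + k + q0 i) c ≥ 0`; it is `> 0` iff `c ∈ E (k + q0 i)` for some `i < q'`.  For `k = q0 * K' + q n` the sets `E (k + q0 i)` do not depend on `n`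
    (`q` is a multiple of `q'`; iterate `E (k + q') = E k`).  So `n ↦ V (K0 + q0 K' + q n) c` is constant, or strictly increasing (`strictMono_nat_of_lt_succ`).
    After the shift by one more `q` a strictly increasing sequence is `≥ 1` and a constant one is constant.
-/

set_option autoImplicit false

namespace MW

private theorem NOb_sum_le {J : Type} (l : List J) (f g : J → ℕ) (h : ∀ c, f c ≤ g c) :
    (l.map f).sum ≤ (l.map g).sum := by
  induction l with
  | nil => simp
  | cons a l ih =>
    simp only [List.map_cons, List.sum_cons]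
    exact Nat.add_le_add (h a) ih

private theorem NOb_sum_lt {J : Type} (l : List J) (f g : J → ℕ) (h : ∀ c, f c ≤ g c) :
    (l.map f).sum < (l.map g).sum ↔ ∃ c ∈ l, f c < g c := by
  induction l with
  | nil => simp
  | cons a l ih =>
    simp only [List.map_cons, List.sum_cons, List.mem_cons, exists_eq_or_imp]
    have h1 := h a
    have h2 := NOb_sum_le l f g h
    rw [← ih]
    omega

theorem nn {J : Type} [Finite J] (V : ℕ → J → ℕ) (M : J → List J)
    (h : ∀ k c, V (k + 1) c = ((M c).map (V k)).sum) :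
    ∃ q K, 0 < q ∧ ∀ c, (∀ n, V (K + q * n) c = V K c) ∨
      (StrictMono (fun n => V (K + q * n) c) ∧ 1 ≤ V K c) := by
  obtain ⟨m, n, hmn, hle⟩ := (wellQuasiOrdered_le (α := J → ℕ)) V
  obtain ⟨q0, hq0⟩ : ∃ q0, n = m + q0 := ⟨n - m, by omega⟩
  have hq0p : 0 < q0 := by omega
  -- (2)
  have h2 : ∀ k c, V (m + k) c ≤ V (m + k + q0) c := by
    intro k
    induction k with
    | zero =>
      intro c
      have := hle c
      rw [hq0] at this
      exact this
    | succ k ih =>
      intro c
      have e1 : m + (k + 1) = (m + k) + 1 := by omega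
      have e2 : m + (k + 1) + q0 = (m + k + q0) + 1 := by omega
      rw [e1, h, show m + k + 1 + q0 = (m + k + q0) + 1 by omega, h]
      exact NOb_sum_le _ _ _ ih
  -- (3)
  have h3 : ∃ q' K', 0 < q' ∧ ∀ k, K' ≤ k →
      (fun k => {c | V (m + k) c < V (m + k + q0) c} : ℕ → Set J) (k + q') =
      (fun k => {c | V (m + k) c < V (m + k + q0) c} : ℕ → Set J) k := by
    refine fi (fun k => {c | V (m + k) c < V (m + k + q0) c} : ℕ → Set J)
      (fun S => {c | ∃ c' ∈ M c, c' ∈ S}) ?_ (Set.toFinite _)
    intro k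
    ext c
    simp only [Set.mem_ofPred_eq]
    rw [show m + (k + 1) = (m + k) + 1 by omega, h,
      show m + k + 1 + q0 = (m + k + q0) + 1 by omega, h]
    exact NOb_sum_lt _ _ _ (h2 k)
  obtain ⟨q', K', hq', hper⟩ := h3
  simp only at hper
  have hperc : ∀ k, K' ≤ k → ∀ c, (V (m + (k + q')) c < V (m + (k + q') + q0) c ↔
      V (m + k) c < V (m + k + q0) c) := by
    intro k hk c
    have := Set.ext_iff.1 (hper k hk) c
    simpa using this
  have hperc2 : ∀ j k, K' ≤ k → ∀ c, (V (m + (k + q' * j)) c < V (m + (k + q' * j) + q0) c ↔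
      V (m + k) c < V (m + k + q0) c) := by
    intro j
    induction j with
    | zero => intro k _ c; simp
    | succ j ih =>
      intro k hk c
      rw [show k + q' * (j + 1) = (k + q' * j) + q' by ring]
      rw [hperc _ (by omega) c]
      exact ih k hk c
  -- telescoping
  have htel : ∀ j k c, V (m + k) c ≤ V (m + k + q0 * j) c ∧
      (V (m + k) c < V (m + k + q0 * j) c ↔
        ∃ i, i < j ∧ V (m + (k + q0 * i)) c < V (m + (k + q0 * i) + q0) c) := by
    intro j
    induction j with
    | zero => intro k c; simp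
    | succ j ih =>
      intro k c
      obtain ⟨ih1, ih2⟩ := ih k c
      have h4 := h2 (k + q0 * j) c
      have e : m + k + q0 * (j + 1) = m + (k + q0 * j) + q0 := by ring
      have e' : m + k + q0 * j = m + (k + q0 * j) := by ring
      rw [e] 
      rw [e'] at ih1 ih2
      refine ⟨ih1.trans h4, ?_⟩
      constructor
      · intro hlt
        by_cases h5 : V (m + k) c < V (m + (k + q0 * j)) c
        · obtain ⟨i, hi, hi2⟩ := ih2.1 h5
          exact ⟨i, by omega, hi2⟩
        · exact ⟨j, by omega, by omega⟩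
      · rintro ⟨i, hi, hi2⟩
        rcases Nat.lt_succ_iff_lt_or_eq.1 hi with hij | hij
        · have := ih2.2 ⟨i, hij, hi2⟩
          omega
        · subst hij
          omega
  refine ⟨q0 * q', m + (q0 * K' + q0 * q'), Nat.mul_pos hq0p hq', ?_⟩
  intro c
  have hKK : K' ≤ q0 * K' := Nat.le_mul_of_pos_left _ hq0p
  -- the step
  have hstep : ∀ n, V (m + (q0 * K' + q0 * q' * n)) c ≤ V (m + (q0 * K' + q0 * q' * (n + 1))) c ∧
      (V (m + (q0 * K' + q0 * q' * n)) c < V (m + (q0 * K' + q0 * q' * (n + 1))) c ↔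
        ∃ i, i < q' ∧ V (m + (q0 * K' + q0 * i)) c < V (m + (q0 * K' + q0 * i) + q0) c) := by
    intro n
    have h5 := htel q' (q0 * K' + q0 * q' * n) c
    have e : m + (q0 * K' + q0 * q' * n) + q0 * q' = m + (q0 * K' + q0 * q' * (n + 1)) := by ring
    rw [e] at h5
    refine ⟨h5.1, h5.2.trans ?_⟩
    have h6 : ∀ i, (V (m + (q0 * K' + q0 * q' * n + q0 * i)) c <
        V (m + (q0 * K' + q0 * q' * n + q0 * i) + q0) c ↔
        V (m + (q0 * K' + q0 * i)) c < V (m + (q0 * K' + q0 * i) + q0) c) := by
      intro i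
      have h7 := hperc2 (q0 * n) (q0 * K' + q0 * i) (by omega) c
      have e2 : q0 * K' + q0 * i + q' * (q0 * n) = q0 * K' + q0 * q' * n + q0 * i := by ring
      rw [e2] at h7
      exact h7
    simp only [h6]
  by_cases hinc : ∃ i, i < q' ∧ V (m + (q0 * K' + q0 * i)) c < V (m + (q0 * K' + q0 * i) + q0) c
  · right
    constructor
    · apply strictMono_nat_of_lt_succ
      intro n
      have h8 := (hstep (n + 1)).2.2 hinc
      have e1 : m + (q0 * K' + q0 * q') + q0 * q' * n = m + (q0 * K' + q0 * q' * (n + 1)) := by ring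
      have e2 : m + (q0 * K' + q0 * q') + q0 * q' * (n + 1) =
          m + (q0 * K' + q0 * q' * (n + 1 + 1)) := by ring
      show V (m + (q0 * K' + q0 * q') + q0 * q' * n) c <
        V (m + (q0 * K' + q0 * q') + q0 * q' * (n + 1)) c
      rw [e1, e2]
      exact h8
    · have h8 := (hstep 0).2.2 hinc
      have e1 : m + (q0 * K' + q0 * q') = m + (q0 * K' + q0 * q' * (0 + 1)) := by ring
      rw [e1]
      omega
  · left
    have hconst : ∀ n, V (m + (q0 * K' + q0 * q' * n)) c = V (m + (q0 * K' + q0 * q' * 0)) c := by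
      intro n
      induction n with
      | zero => rfl
      | succ n ih =>
        obtain ⟨h8, h9⟩ := hstep n
        have h10 : ¬ V (m + (q0 * K' + q0 * q' * n)) c < V (m + (q0 * K' + q0 * q' * (n + 1))) c :=
          fun h => hinc (h9.1 h)
        omega
    intro n
    have e1 : m + (q0 * K' + q0 * q') + q0 * q' * n = m + (q0 * K' + q0 * q' * (n + 1)) := by ring
    have e2 : m + (q0 * K' + q0 * q') = m + (q0 * K' + q0 * q' * (0 + 1)) := by ring
    rw [e1, hconst, e2, hconst (0 + 1)]

end MW
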