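import Pool.Agent.Lib.MP_dd05d9_lc.MW.Aa
import Pool.Agent.Lib.MP_dd05d9_lc.MW.Ab
import Pool.Agent.Lib.MP_dd05d9_lc.MW.NOb

/-!
MW, part A, module Ac: normalisation NA.

Let `DC S`.  `J = Q ⊕ Q ⊕ Q`, `V k (inl s) = S.N k [s]`, `V k (inr (inl s)) = hdp (S.C k [s])`, `V k (inr (inr s)) = tlp (S.C k [s])`.
`M (inl s) = (S.f s).map inl`.  `hm : List Q → List J`: `hm [] = []`, `hm (s :: l) = if 1 ∈ S.C 0 [s] then [inr (inl s)] else inl s :: hm l`.  Then
`hdp (S.C k l) = ((hm l).map (V k)).sum` by induction on `l`: `S.C k (s :: l) = S.C k [s] ++ S.C k l`, `hdp_append_left` resp. `hdp_append_right` (with `DC`), `hdp [] = 0`.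
Put `M (inr (inl s)) = hm (S.f s)`: `hdp (S.C (k+1) [s]) = hdp (S.C k (S.f s))`.
For `tlp` the same with lists read from the right: `tm` defined on the reversed list, or by recursion: `tm (s :: l) = if (∃ r ∈ l, 1 ∈ S.C 0 [r]) then tm l else if 1 ∈ S.C 0 [s] then
inr (inr s) :: (l.map inl) else inl s :: l.map inl` ; `tlp (A ++ B) = tlp B` if `1 ∈ B`, else `tlp A + |B|` (`tlp_append_right/left`), `tlp A = |A|` if `1 ∉ A`, `Sys.N_sum`.
`nn` (module NOb) gives `q, K` such that each coordinate of `n ↦ V (K + q n)` is constant or strictly increasing; `Sys.ps_C`, `Sys.ps_N`, `dc_ps`.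
Combination: from `S` first `dc_ex`, then this: result `S'` with `Red S' S` and Gen-transfer (`red_ps`, `Red.trans`, `Gen.ps`).
-/

set_option autoImplicit false

namespace MW

variable {Q : Type}

private def Ac_hm (S : Sys Q) : List Q → List (Q ⊕ Q ⊕ Q)
  | [] => []
  | s :: l => if 1 ∈ S.C 0 [s] then [Sum.inr (Sum.inl s)] else Sum.inl s :: Ac_hm S l

private def Ac_tm (S : Sys Q) : List Q → List (Q ⊕ Q ⊕ Q)
  | [] => []
  | s :: l => if 1 ∈ S.C 0 l then Ac_tm S l else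
      if 1 ∈ S.C 0 [s] then Sum.inr (Sum.inr s) :: l.map Sum.inl else Sum.inl s :: l.map Sum.inl

private def Ac_V (S : Sys Q) (k : ℕ) : Q ⊕ Q ⊕ Q → ℕ
  | Sum.inl s => S.N k [s]
  | Sum.inr (Sum.inl s) => hdp (S.C k [s])
  | Sum.inr (Sum.inr s) => tlp (S.C k [s])

private def Ac_M (S : Sys Q) : Q ⊕ Q ⊕ Q → List (Q ⊕ Q ⊕ Q)
  | Sum.inl s => (S.f s).map Sum.inl
  | Sum.inr (Sum.inl s) => Ac_hm S (S.f s)
  | Sum.inr (Sum.inr s) => Ac_tm S (S.f s)

private theorem Ac_N (S : Sys Q) (k : ℕ) (l : List Q) :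
    S.N k l = ((l.map Sum.inl).map (Ac_V S k)).sum := by
  rw [S.N_sum, List.map_map]
  rfl

private theorem Ac_hdp {S : Sys Q} (h : DC S) (k : ℕ) (l : List Q) :
    hdp (S.C k l) = ((Ac_hm S l).map (Ac_V S k)).sum := by
  induction l with
  | nil => rw [S.C_nil]; rfl
  | cons s l ih =>
    rw [S.C_cons]
    unfold Ac_hm
    by_cases hs : 1 ∈ S.C 0 [s]
    · rw [if_pos hs, hdp_append_left ((h k s).2 hs)]
      simp [Ac_V]
    · rw [if_neg hs, hdp_append_right (fun h' => hs ((h k s).1 h')), ih, S.C_length]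
      simp [Ac_V]

private theorem Ac_one {S : Sys Q} (h : DC S) (k : ℕ) (l : List Q) :
    1 ∈ S.C k l ↔ 1 ∈ S.C 0 l := by
  rw [one_mem, one_mem]
  constructor
  · rintro ⟨s, hs, h1⟩
    exact ⟨s, hs, (h k s).1 h1⟩
  · rintro ⟨s, hs, h1⟩
    exact ⟨s, hs, (h k s).2 h1⟩

private theorem Ac_tlp {S : Sys Q} (h : DC S) (k : ℕ) (l : List Q) :
    tlp (S.C k l) = ((Ac_tm S l).map (Ac_V S k)).sum := by
  induction l with
  | nil => rw [S.C_nil]; rfl
  | cons s l ih =>
    rw [S.C_cons]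
    unfold Ac_tm
    by_cases hl : 1 ∈ S.C 0 l
    · rw [if_pos hl, tlp_append_right ((Ac_one h k l).2 hl), ih]
    · have hl' : 1 ∉ S.C k l := fun h' => hl ((Ac_one h k l).1 h')
      rw [if_neg hl, tlp_append_left hl', S.C_length, Ac_N S k l]
      by_cases hs : 1 ∈ S.C 0 [s]
      · rw [if_pos hs, List.map_cons, List.sum_cons]
        rfl
      · have hs' : 1 ∉ S.C k [s] := fun h' => hs ((h k s).1 h')
        have ht : tlp (S.C k [s]) = S.N k [s] := by
          unfold tlp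
          rw [hdp_of_not_mem (by rw [List.mem_reverse]; exact hs'), List.length_reverse,
            S.C_length]
        rw [if_neg hs, List.map_cons, List.sum_cons, ht]
        rfl

theorem na_ex1 [Finite Q] {S : Sys Q} (h : DC S) : ∃ q K, 0 < q ∧ NA (S.ps q K) := by
  obtain ⟨q, K, hq, hV⟩ := nn (Ac_V S) (Ac_M S) (by
    intro k c
    rcases c with s | s | s
    · show S.N (k + 1) [s] = _
      rw [S.N_succ, S.F_single, Ac_N]
      rfl
    · show hdp (S.C (k + 1) [s]) = _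
      rw [S.C_succ, S.F_single, Ac_hdp h]
      rfl
    · show tlp (S.C (k + 1) [s]) = _
      rw [S.C_succ, S.F_single, Ac_tlp h]
      rfl)
  refine ⟨q, K, hq, ⟨dc_ps h q K, fun s => ?_, fun s => ?_, fun s => ?_⟩⟩
  · rcases hV (Sum.inl s) with h1 | ⟨h1, _⟩
    · left
      intro k
      rw [S.ps_N, S.ps_N, Nat.mul_zero, Nat.add_zero]
      exact h1 k
    · right
      intro a b hab
      show (S.ps q K).N a [s] < (S.ps q K).N b [s]
      rw [S.ps_N, S.ps_N]
      exact h1 hab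
  · rcases hV (Sum.inr (Sum.inl s)) with h1 | ⟨h1, _⟩
    · left
      intro k
      rw [S.ps_C, S.ps_C, Nat.mul_zero, Nat.add_zero]
      exact h1 k
    · right
      intro a b hab
      show hdp ((S.ps q K).C a [s]) < hdp ((S.ps q K).C b [s])
      rw [S.ps_C, S.ps_C]
      exact h1 hab
  · rcases hV (Sum.inr (Sum.inr s)) with h1 | ⟨h1, _⟩
    · left
      intro k
      rw [S.ps_C, S.ps_C, Nat.mul_zero, Nat.add_zero]
      exact h1 k
    · right
      intro a b hab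
      show tlp ((S.ps q K).C a [s]) < tlp ((S.ps q K).C b [s])
      rw [S.ps_C, S.ps_C]
      exact h1 hab

theorem na_ex [Finite Q] (S : Sys Q) : ∃ S' : Sys Q, NA S' ∧ Red S' S ∧
    ∀ u, Gen S u → Gen S' u := by
  obtain ⟨q1, K1, hq1, h1⟩ := dc_ex S
  obtain ⟨q2, K2, hq2, h2⟩ := na_ex1 h1
  exact ⟨_, h2, (red_ps _ hq2 K2).trans (red_ps _ hq1 K1), fun u hu => (hu.ps hq1 K1).ps hq2 K2⟩

end MW
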