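import Pool.Agent.Lib.MP_dd05d9_lc.MW.ADefs

/-!
MW, part A, module Ag: first occurrences of letters; growth of gap types.

first_occ: fix `t`.  If there are no `n w` with `w ++ [t] <+: S.Fn n [S.a]` take `Y t = []`, `c_t = 0`.  Otherwise choose `n, w` with `w.length` minimal, `Y t = w`, `c_t = n`.  For any `w' ++ [t] <+: S.Fn n' [S.a]`: `S.Fn n [S.a]` and `S.Fn n' [S.a]`
 are prefixes of `S.Fn (max n n') [S.a]` (`Gen.Fn_prefix`), so `w` and `w'` are prefixes of the same list and `|w| ≤ |w'|`: `w <+: w'` (`List.prefix_of_prefix_length_le`).  `c` = max over the finite type of `c_t`; `Y t ++ [t] <+: S.Fn c_t [S.a] <+: S.Fn c [S.a]`.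

gl_mono: `gpl S g mid g' j ≤ gpl S g mid g' (j+1)`: each of the three terms is nondecreasing (`NA`; `S.N j mid` by induction on `mid`).
gl_strict: if `S.N 1 [t] < gpl S g mid g' j` then `gpl S g mid g' j < gpl S g mid g' (j+1)`: `gpl S g mid g' 0 ≤ S.N 0 (S.f t) = S.N 1 [t]` (`tlp (S.C 0 [g]) ≤ S.N 0 [g]`, `hdp (S.C 0 [g']) ≤ S.N 0 [g']`).  If tl of `g`, hd of `g'` and all letters of `mid` are constant then
 `gpl` is constant, so `gpl j = gpl 0 ≤ S.N 1 [t]`, contradiction; otherwise one of the terms is strictly increasing.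
x_has_one: `S.f S.a = S.a :: x`; `UGap ch`, `Gen S ch`, `DC S`: there is `r ∈ x` with `1 ∈ S.C 0 [r]`.  Otherwise `1 ∉ S.C k x` for all `k` (`one_mem`-argument with DC), and by induction on `k` (`S.C (k+1) [S.a] = S.C k [S.a] ++ S.C k x`) all ones of `ch` are at
 positions `< S.N 0 [S.a]` (every position is `< S.N k [S.a]` for some `k`); but `UGap` gives ones at arbitrarily large positions (`G < p' - p ≤ p'`).
-/

set_option autoImplicit false

namespace MW

variable {Q : Type}

theorem first_occ [Finite Q] {S : Sys Q} {u : ℕ → ℕ} (hg : Gen S u) :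
    ∃ (c : ℕ) (Y : Q → List Q), ∀ t n w, w ++ [t] <+: S.Fn n [S.a] →
      Y t ++ [t] <+: S.Fn c [S.a] ∧ Y t <+: w := by
  classical
  have key : ∀ t : Q, ∃ (n : ℕ) (Y : List Q), ∀ n' w, w ++ [t] <+: S.Fn n' [S.a] →
      Y ++ [t] <+: S.Fn n [S.a] ∧ Y <+: w := by
    intro t
    by_cases h : ∃ n w, w ++ [t] <+: S.Fn n [S.a]
    · have h2 : ∃ L : ℕ, ∃ (n : ℕ) (w : List Q), w.length = L ∧ w ++ [t] <+: S.Fn n [S.a] := by
        obtain ⟨n, w, hw⟩ := h
        exact ⟨_, n, w, rfl, hw⟩
      obtain ⟨n, w, hl, hw⟩ := Nat.find_spec h2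
      refine ⟨n, w, fun n' w' hw' => ⟨hw, ?_⟩⟩
      have hmin : w.length ≤ w'.length := by
        rw [hl]
        exact Nat.find_min' h2 ⟨n', w', rfl, hw'⟩
      have p1 : w <+: S.Fn (max n n') [S.a] :=
        (List.prefix_append w [t]).trans (hw.trans (hg.Fn_prefix (le_max_left _ _)))
      have p2 : w' <+: S.Fn (max n n') [S.a] :=
        (List.prefix_append w' [t]).trans (hw'.trans (hg.Fn_prefix (le_max_right _ _)))
      exact List.prefix_of_prefix_length_le p1 p2 hmin
    · exact ⟨0, [], fun n' w' hw' => absurd ⟨n', w', hw'⟩ h⟩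
  choose cn Y hY using key
  obtain ⟨c, hc⟩ : ∃ c, ∀ t, cn t ≤ c := by
    obtain ⟨_⟩ := nonempty_fintype Q
    exact ⟨Finset.univ.sup cn, fun t => Finset.le_sup (Finset.mem_univ t)⟩
  refine ⟨c, Y, fun t n w hw => ?_⟩
  obtain ⟨h1, h2⟩ := hY t n w hw
  exact ⟨h1.trans (hg.Fn_prefix (hc t)), h2⟩

private theorem ag_N_mono {S : Sys Q} (h : NA S) (l : List Q) (j : ℕ) :
    S.N j l ≤ S.N (j + 1) l := by
  induction l with
  | nil => rw [S.N_nil, S.N_nil]
  | cons s l ih =>
    rw [S.N_cons j, S.N_cons (j + 1)]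
    refine Nat.add_le_add ?_ ih
    rcases h.n s with h1 | h1
    · rw [h1 j, h1 (j + 1)]
    · exact (h1 (Nat.lt_succ_self j)).le

private theorem ag_N_const {S : Sys Q} (l : List Q) (hl : ∀ s ∈ l, ∀ k, S.N k [s] = S.N 0 [s])
    (j : ℕ) : S.N j l = S.N 0 l := by
  induction l with
  | nil => rw [S.N_nil, S.N_nil]
  | cons s l ih =>
    rw [S.N_cons j, S.N_cons 0, hl s List.mem_cons_self j,
      ih (fun r hr => hl r (List.mem_cons_of_mem _ hr))]

private theorem ag_N_strict {S : Sys Q} (h : NA S) (l : List Q)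
    (hl : ∃ s ∈ l, StrictMono (fun k => S.N k [s])) (j : ℕ) : S.N j l < S.N (j + 1) l := by
  induction l with
  | nil =>
    obtain ⟨s, hs, _⟩ := hl
    exact absurd hs List.not_mem_nil
  | cons s l ih =>
    rw [S.N_cons j, S.N_cons (j + 1)]
    obtain ⟨r, hr, hm⟩ := hl
    rcases List.mem_cons.mp hr with h1 | h1
    · rw [h1] at hm
      have h2 : S.N j [s] < S.N (j + 1) [s] := hm (Nat.lt_succ_self j)
      have h3 := ag_N_mono h l j
      omega
    · have h2 := ih ⟨r, h1, hm⟩
      have h3 := ag_N_mono h [s] j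
      omega

private theorem ag_hdp_le (l : List ℕ) : hdp l ≤ l.length := by
  unfold hdp
  exact (List.takeWhile_prefix _).length_le

private theorem ag_tlp_le (l : List ℕ) : tlp l ≤ l.length := by
  unfold tlp
  have := ag_hdp_le l.reverse
  rwa [List.length_reverse] at this

private theorem ag_tl_mono {S : Sys Q} (h : NA S) (g : Q) (j : ℕ) :
    tlp (S.C j [g]) ≤ tlp (S.C (j + 1) [g]) := by
  rcases h.tl g with h1 | h1
  · rw [h1 j, h1 (j + 1)]
  · exact (h1 (Nat.lt_succ_self j)).le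

private theorem ag_hd_mono {S : Sys Q} (h : NA S) (g : Q) (j : ℕ) :
    hdp (S.C j [g]) ≤ hdp (S.C (j + 1) [g]) := by
  rcases h.hd g with h1 | h1
  · rw [h1 j, h1 (j + 1)]
  · exact (h1 (Nat.lt_succ_self j)).le

theorem gl_mono {S : Sys Q} (h : NA S) (g : Q) (mid : List Q) (g' : Q) (j : ℕ) :
    gpl S g mid g' j ≤ gpl S g mid g' (j + 1) := by
  unfold gpl
  have h1 := ag_tl_mono h g j
  have h2 := ag_hd_mono h g' j
  have h3 := ag_N_mono h mid j
  omega

theorem gl_strict {S : Sys Q} (h : NA S) {t : Q} {pre : List Q} {g : Q} {mid : List Q} {g' : Q}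
    {suf : List Q} (hG : GTy S t pre g mid g' suf) {j : ℕ} (hj : S.N 1 [t] < gpl S g mid g' j) :
    gpl S g mid g' j < gpl S g mid g' (j + 1) := by
  have h0 : gpl S g mid g' 0 ≤ S.N 1 [t] := by
    have e1 : S.N 1 [t] = S.N 0 (S.f t) := by
      rw [show (1 : ℕ) = 0 + 1 from rfl, S.N_succ, S.F_single]
    rw [e1, hG.1, S.N_append, S.N_cons 0 g, S.N_append, S.N_cons 0 g']
    unfold gpl
    have h1 : tlp (S.C 0 [g]) ≤ S.N 0 [g] := ag_tlp_le _
    have h2 : hdp (S.C 0 [g']) ≤ S.N 0 [g'] := ag_hdp_le _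
    omega
  have h1 := ag_tl_mono h g j
  have h2 := ag_hd_mono h g' j
  have h3 := ag_N_mono h mid j
  rcases h.tl g with ht | ht
  · rcases h.hd g' with hh | hh
    · by_cases hm : ∀ s ∈ mid, ∀ k, S.N k [s] = S.N 0 [s]
      · exfalso
        have h4 := ag_N_const mid hm j
        unfold gpl at hj h0
        rw [ht j, hh j, h4] at hj
        omega
      · have hm2 : ∃ s ∈ mid, StrictMono (fun k => S.N k [s]) := by
          by_contra hc
          refine hm (fun s hs => ?_)
          rcases h.n s with h4 | h4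
          · exact h4
          · exact absurd ⟨s, hs, h4⟩ hc
        have h4 := ag_N_strict h mid hm2 j
        unfold gpl
        omega
    · have h4 : hdp (S.C j [g']) < hdp (S.C (j + 1) [g']) := hh (Nat.lt_succ_self j)
      unfold gpl
      omega
  · have h4 : tlp (S.C j [g]) < tlp (S.C (j + 1) [g]) := ht (Nat.lt_succ_self j)
    unfold gpl
    omega

theorem x_has_one {S : Sys Q} {ch : ℕ → ℕ} (hg : Gen S ch) (hD : DC S) (hu : UGap ch)
    {x : List Q} (hx : S.f S.a = S.a :: x) : ∃ r ∈ x, 1 ∈ S.C 0 [r] := by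
  by_contra hc
  have hc2 : ∀ k, 1 ∉ S.C k x := by
    intro k hk
    rw [S.C_flatMap, List.mem_flatMap] at hk
    obtain ⟨r, hr, h1⟩ := hk
    exact hc ⟨r, hr, (hD k r).mp h1⟩
  have hE : ∀ k, S.C (k + 1) [S.a] = S.C k [S.a] ++ S.C k x := by
    intro k
    rw [S.C_succ, S.F_single, hx, S.C_cons]
  have hpos : ∀ k i, i < S.N k [S.a] → (S.C k [S.a]).getD i 0 = 1 → i < S.N 0 [S.a] := by
    intro k
    induction k with
    | zero => intro i hi _; exact hi
    | succ k ih =>
      intro i hi h1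
      rcases Nat.lt_or_ge i (S.N k [S.a]) with h2 | h2
      · refine ih i h2 ?_
        rw [hE, List.getD_append _ _ _ _ h2] at h1
        exact h1
      · exfalso
        rw [hE, List.getD_append_right _ _ _ _ h2] at h1
        have h3 : i - (S.C k [S.a]).length < (S.C k x).length := by
          unfold Sys.N at hi h2
          rw [hE, List.length_append] at hi
          omega
        rw [List.getD_eq_getElem _ _ h3] at h1
        exact hc2 k (h1 ▸ List.getElem_mem h3)
  obtain ⟨p, p', hn, hG⟩ := hu (S.N 0 [S.a])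
  obtain ⟨k, hk⟩ := hg.unb (p' + 1)
  have h1 := hg.pre k p' (by rw [S.C_length]; omega)
  rw [Nat.zero_add, hn.2.2.1] at h1
  have h2 := hpos k p' (by omega) h1
  omega

end MW
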