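import Pool.Agent.Lib.MP_dd05d9_lc.MW.ADefs

/-!
MW, part A, module Ah: records of gaps (only the sequence `ch : ℕ → ℕ`).

nx_unique: `p'`, `p''` both next ones.   nx_le: `Nx ch p p'`, `ch q = 1`, `p < q` give `p' ≤ q`.
next_rec: `IsRec ch p`, next one `p'`, and a pair `Nx ch q q'` with larger distance.  `p < q`: otherwise `q = p` (then `q' = p'`) or `q < p` (then `q' - q < p' - p` by the record property).  Let `p1` be the least position `> p` with `Nx ch p1 p1'`
 and `p' - p < p1' - p1` (exists, `≤ q`: `Nat.find`).  It is a record: a pair `Nx ch z z'` with `z < p1`: if `z < p`: `z' - z < p' - p < p1' - p1`; `z = p`: `z' = p'`; `p < z < p1`: by minimality `z' - z ≤ p' - p < p1' - p1`.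
rec_inf: for every `B` there is a record with distance `> B`: by `UGap` take the least `p` with `Nx ch p p'`, `B < p' - p` (`Nat.find`); every earlier pair has distance `≤ B`; so `p` is a record.  Different records have different distances (strictly increasing
 with the position), so if the set of records were finite the distances would be bounded.
rec_large: `Nat.nth (IsRec ch) j` is strictly increasing in `j` and a record for every `j` (`Nat.nth_strictMono`, `Nat.nth_mem_of_infinite`); distances of records strictly increase, so the distance of the `j`-th record is `≥ j`; take `j0 = R + 1`.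
-/

set_option autoImplicit false

namespace MW

variable {ch : ℕ → ℕ}

theorem nx_unique {p p' p'' : ℕ} (h : Nx ch p p') (h' : Nx ch p p'') : p' = p'' := by
  obtain ⟨a1, a2, a3, a4⟩ := h
  obtain ⟨b1, b2, b3, b4⟩ := h'
  rcases lt_trichotomy p' p'' with hl | hl | hl
  · exact absurd a3 (b4 p' a1 hl)
  · exact hl
  · exact absurd b3 (a4 p'' b1 hl)

theorem nx_le {p p' q : ℕ} (h : Nx ch p p') (hq : ch q = 1) (hpq : p < q) : p' ≤ q := by
  by_contra hc
  exact h.2.2.2 q hpq (by omega) hq

theorem next_rec {p p' q q' : ℕ} (hr : IsRec ch p) (h : Nx ch p p') (h' : Nx ch q q')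
    (hl : p' - p < q' - q) : ∃ p1, IsRec ch p1 ∧ p < p1 ∧ p1 ≤ q := by
  classical
  obtain ⟨p0, hp0, hrec⟩ := hr
  have e0 : p0 = p' := nx_unique hp0 h
  subst e0
  have hpq : p < q := by
    rcases lt_trichotomy p q with h1 | h1 | h1
    · exact h1
    · subst h1
      have := nx_unique h h'
      omega
    · have := hrec q q' h' h1
      omega
  have hex : ∃ x, p < x ∧ ∃ x', Nx ch x x' ∧ p0 - p < x' - x := ⟨q, hpq, q', h', hl⟩
  have hs := Nat.find_spec hex
  obtain ⟨h1, x', hx', hx2⟩ := hs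
  refine ⟨Nat.find hex, ⟨x', hx', fun z z' hz hzl => ?_⟩, h1,
    Nat.find_min' hex ⟨hpq, q', h', hl⟩⟩
  rcases lt_trichotomy z p with h2 | h2 | h2
  · have := hrec z z' hz h2
    omega
  · subst h2
    have := nx_unique hz h
    omega
  · have : ¬ (p0 - p < z' - z) := fun hc => Nat.find_min hex hzl ⟨h2, z', hz, hc⟩
    omega

theorem rec_inf (hu : UGap ch) : (setOf (IsRec ch)).Infinite := by
  classical
  intro hf
  let d : ℕ → ℕ := fun p => if h : ∃ p', Nx ch p p' then h.choose - p else 0
  have hd : ∀ p p', Nx ch p p' → d p = p' - p := by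
    intro p p' h
    have hex : ∃ p', Nx ch p p' := ⟨p', h⟩
    have : d p = hex.choose - p := dif_pos hex
    rw [this, nx_unique hex.choose_spec h]
  obtain ⟨B, hB⟩ : ∃ B, ∀ p, IsRec ch p → d p ≤ B := by
    refine ⟨hf.toFinset.sup d, fun p hp => ?_⟩
    exact Finset.le_sup (f := d) ((Set.Finite.mem_toFinset hf).2 hp)
  have hex : ∃ p, ∃ p', Nx ch p p' ∧ B < p' - p := by
    obtain ⟨p, p', h, h2⟩ := hu B
    exact ⟨p, p', h, h2⟩
  obtain ⟨p', h1, h2⟩ := Nat.find_spec hex
  have hrec : IsRec ch (Nat.find hex) := by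
    refine ⟨p', h1, fun q q' hq hql => ?_⟩
    have : ¬ (B < q' - q) := fun hc => Nat.find_min hex hql ⟨q', hq, hc⟩
    omega
  have h3 := hB _ hrec
  rw [hd _ _ h1] at h3
  omega

private theorem rec_dist (hu : UGap ch) (j : ℕ) : ∀ p',
    Nx ch (Nat.nth (IsRec ch) j) p' → j ≤ p' - Nat.nth (IsRec ch) j := by
  induction j with
  | zero => intro p' _; exact Nat.zero_le _
  | succ j ih =>
    intro p' h
    have hrj : IsRec ch (Nat.nth (IsRec ch) j) := Nat.nth_mem_of_infinite (rec_inf hu) j
    have hrj1 : IsRec ch (Nat.nth (IsRec ch) (j + 1)) :=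
      Nat.nth_mem_of_infinite (rec_inf hu) (j + 1)
    obtain ⟨q', hq', _⟩ := hrj
    have h1 := ih q' hq'
    obtain ⟨p'', hp'', hrec⟩ := hrj1
    have e := nx_unique hp'' h
    subst e
    have hlt : Nat.nth (IsRec ch) j < Nat.nth (IsRec ch) (j + 1) :=
      Nat.nth_strictMono (rec_inf hu) (Nat.lt_succ_self j)
    have h2 := hrec _ _ hq' hlt
    omega

theorem rec_large (hu : UGap ch) (R : ℕ) : ∃ j0, ∀ j, j0 ≤ j → ∀ p',
    Nx ch (Nat.nth (IsRec ch) j) p' → R < p' - Nat.nth (IsRec ch) j := by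
  refine ⟨R + 1, fun j hj p' h => ?_⟩
  have := rec_dist hu j p' h
  omega

theorem nth_next (hu : UGap ch) {j p' q q' : ℕ} (h : Nx ch (Nat.nth (IsRec ch) j) p')
    (h' : Nx ch q q') (hl : p' - Nat.nth (IsRec ch) j < q' - q) :
    Nat.nth (IsRec ch) (j + 1) ≤ q := by
  classical
  obtain ⟨p1, h1, h2, h3⟩ := next_rec (Nat.nth_mem_of_infinite (rec_inf hu) j) h h' hl
  have e : Nat.nth (IsRec ch) (Nat.count (IsRec ch) p1) = p1 := Nat.nth_count h1
  have hlt : j < Nat.count (IsRec ch) p1 := by
    rw [← e] at h2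
    exact (Nat.nth_lt_nth (rec_inf hu)).1 h2
  have : Nat.nth (IsRec ch) (j + 1) ≤ Nat.nth (IsRec ch) (Nat.count (IsRec ch) p1) :=
    (Nat.nth_le_nth (rec_inf hu)).2 hlt
  rw [e] at this
  exact this.trans h3

end MW
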