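import Pool.Agent.Lib.MP_dd05d9_lc.MW.Af
import Pool.Agent.Lib.MP_dd05d9_lc.MW.Ag
import Pool.Agent.Lib.MP_dd05d9_lc.MW.Ah

/-!
MW, part A, module Ai: a record with a large gap is the last 1 of a block of bounded index.

`c0, Y` from `first_occ`; `R0` with `S.N 0 [s] ≤ R0` and `S.N 1 [s] ≤ R0` for all `s` (finite type); `R = R0 + 1`, `c = c0 + 1`.
Let `Nx ch p p'`, `IsRec ch p`, `R < p' - p`.  Choose `k` with `p' < S.N k [S.a]` (`Gen.unb`); `S.C k [S.a]` occurs at 0, so `Nxl (S.C k [S.a]) p p'`.  `gap_type`: not short, so `t i j w pre g mid g' suf` with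
`w ++ [t] <+: S.Fn i [S.a]`, `p = S.N (j+1) w + S.N j pre + lp (S.C j [g])`, `p' - p = 1 + gpl S g mid g' j`.
`first_occ`: `Y t ++ [t] <+: S.Fn c0 [S.a]`, `Y t <+: w`.  `P := S.N (j+1) (Y t) + S.N j pre + lp (S.C j [g]) ≤ p` (`Sys.N_le_of_prefix`).  The block `S.C (j+1) [t]` occurs in `ch` at `S.N (j+1) (Y t)` (`Gen.occ_block`), so by `gap_nxl`
`Nx ch P (P + 1 + gpl ..)`.  If `P < p` the record property gives `1 + gpl < p' - p = 1 + gpl`, contradiction.  So `P = p`.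
`y := S.F (Y t) ++ pre`: `S.N j y = S.N (j+1) (Y t) + S.N j pre` (`Sys.N_succ`), `y ++ [g] <+: S.F (Y t) ++ S.f t = S.F (Y t ++ [t]) <+: S.Fn (c0+1) [S.a]` (`Sys.Fn_succ'`, `Sys.F_prefix`).  `1 ∈ S.C j [g]` by DC.
`p' < S.N (j + c) [S.a]`: `p' < S.N (j+1) (Y t) + S.N (j+1) [t]` (`gap_nxl`: `p'` inside the block) `≤ S.N (j+1) (S.Fn c0 [S.a]) = S.N (j + 1 + c0) [S.a]`.
`S.N j [S.a] ≤ p'`: if `y ≠ []`, then `y` is a nonempty prefix of `S.Fn c [S.a]`, which starts with `S.a` (`Gen.Fn_start`), so `S.N j [S.a] ≤ S.N j y ≤ p`.  If `y = []`: then `pre = []` and `S.F (Y t) = []`, so `Y t = []` (otherwise `Y t` starts with `S.a` and `S.F (Y t)` with `S.a`); so `t = S.a`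
 and `g = S.a` (first letter of `S.f S.a`), `p' = S.N j [g] + S.N j mid + hdp .. ≥ S.N j [S.a]` (`lp_spec`: `lp + 1 + tlp = S.N j [g]`).
Last part: `gpl S g mid g' j > R0 - ... ≥ S.N 1 [t]` (from `R < p' - p = 1 + gpl`), so `gl_strict`: `gpl j < gpl (j+1)`.  `q := S.N (j+2) (Y t) + S.N (j+1) pre + lp (S.C (j+1) [g])`, `q' := q + 1 + gpl (j+1)`: `Nx ch q q'` by `gap_nxl` at `j + 1` and
 `Gen.occ_block`, `q' < S.N (j + 2 + c0) [S.a] = S.N (j + 1 + c) [S.a]`.
-/

set_option autoImplicit false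

namespace MW

variable {Q : Type}

theorem rec_type [Finite Q] {S : Sys Q} (h : NA S) {ch : ℕ → ℕ} (hg : Gen S ch) :
    ∃ R c, 0 < c ∧ ∀ p p', Nx ch p p' → IsRec ch p → R < p' - p → ∃ j g y,
      1 ∈ S.C j [g] ∧ y ++ [g] <+: S.Fn c [S.a] ∧ p = S.N j y + lp (S.C j [g]) ∧
      S.N j [S.a] ≤ p' ∧ p' < S.N (j + c) [S.a] ∧
      ∃ q q', Nx ch q q' ∧ p' - p < q' - q ∧ q' < S.N (j + 1 + c) [S.a] := by
  classical
  obtain ⟨c0, Y, hY⟩ := first_occ hg
  obtain ⟨R0, hR0⟩ : ∃ R0, ∀ s, S.N 0 [s] ≤ R0 ∧ S.N 1 [s] ≤ R0 := by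
    cases nonempty_fintype Q
    refine ⟨Finset.univ.sup (fun s => S.N 0 [s] + S.N 1 [s]), fun s => ?_⟩
    have h1 := Finset.le_sup (f := fun s => S.N 0 [s] + S.N 1 [s]) (Finset.mem_univ s)
    omega
  refine ⟨R0 + 1, c0 + 1, Nat.succ_pos _, fun p p' hn hr hR => ?_⟩
  obtain ⟨k, hk⟩ := hg.unb (p' + 1)
  have hocc := hg.pre k
  have key : ∀ i, i < S.N k [S.a] → (S.C k [S.a]).getD i 0 = ch i := by
    intro i hi
    have h1 := hocc i hi
    rwa [Nat.zero_add] at h1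
  have hnl : Nxl (S.C k [S.a]) p p' := by
    obtain ⟨h1, h2, h3, h4⟩ := hn
    refine ⟨h1, ?_, ?_, ?_, ?_⟩
    · rw [S.C_length]; omega
    · rw [key p (by omega)]; exact h2
    · rw [key p' (by omega)]; exact h3
    · intro i hi1 hi2
      rw [key i (by omega)]; exact h4 i hi1 hi2
  rcases gap_type h.dc (fun s => (hR0 s).1) k S.a p p' hnl with h1 |
    ⟨t, i, j, w, pre, g, mid, g', suf, hk', hw, hG, hp, hp'⟩
  · omega
  obtain ⟨hY1, hY2⟩ := hY t i w hw
  have blk : ∀ n, Nx ch (S.N (n + 1) (Y t) + (S.N n pre + lp (S.C n [g])))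
      (S.N (n + 1) (Y t) + (S.N n pre + lp (S.C n [g]) + 1 + gpl S g mid g' n)) ∧
      (S.N n pre + lp (S.C n [g]) + 1 + gpl S g mid g' n) < S.N (n + 1) [t] := by
    intro n
    have hb := hg.occ_block hY1 (n + 1)
    obtain ⟨b1, b2, b3, b4, b5⟩ := gap_nxl h.dc hG n
    rw [S.C_length] at b2
    have key2 : ∀ i, i < S.N (n + 1) [t] →
        ch (S.N (n + 1) (Y t) + i) = (S.C (n + 1) [t]).getD i 0 := fun i hi => (hb i hi).symm
    refine ⟨⟨by omega, ?_, ?_, ?_⟩, b2⟩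
    · rw [key2 _ (by omega)]; exact b3
    · rw [key2 _ b2]; exact b4
    · intro i hi1 hi2
      obtain ⟨d, rfl⟩ := Nat.exists_eq_add_of_le (show S.N (n + 1) (Y t) ≤ i by omega)
      rw [key2 _ (by omega)]
      exact b5 d (by omega) (by omega)
  have hle : S.N (j + 1) (Y t) ≤ S.N (j + 1) w := S.N_le_of_prefix hY2
  obtain ⟨hb1, hb2⟩ := blk j
  have hPp : S.N (j + 1) (Y t) = S.N (j + 1) w := by
    by_contra hc
    obtain ⟨p0, hp0, hrec⟩ := hr
    have e := nx_unique hp0 hn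
    subst e
    have h1 := hrec _ _ hb1 (by omega)
    omega
  have hfin : ∀ n, S.N (n + 1) (Y t) + S.N (n + 1) [t] ≤ S.N (n + 1 + c0) [S.a] := by
    intro n
    rw [← S.N_append, S.N_add (n + 1) c0]
    exact S.N_le_of_prefix hY1
  obtain ⟨x, hx⟩ := hg.Fn_start c0
  obtain ⟨x0, hx0⟩ := hg.start
  have h1g : 1 ∈ S.C j [g] := (h.dc j g).2 hG.2.1
  refine ⟨j, g, S.F (Y t) ++ pre, h1g, ?_, ?_, ?_, ?_, ?_⟩
  · rw [S.Fn_succ']
    refine List.IsPrefix.trans ?_ (S.F_prefix hY1)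
    rw [S.F_append, S.F_single, hG.1]
    exact ⟨mid ++ g' :: suf, by simp⟩
  · rw [S.N_append, ← S.N_succ]
    omega
  · have hmono : S.N j [S.a] ≤ S.N (j + 1) [S.a] := hg.N_mono (Nat.le_succ j)
    rcases hYt : Y t with _ | ⟨b, z⟩
    · rw [hYt, hx] at hY1
      have ht : t = S.a := by
        obtain ⟨r, hr'⟩ := hY1
        simp only [List.nil_append, List.cons_append, List.cons.injEq] at hr'
        exact hr'.1
      subst ht
      have hf := hG.1
      rw [hx0] at hf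
      rcases hpre : pre with _ | ⟨b, z⟩
      · rw [hpre] at hf
        simp only [List.nil_append, List.cons.injEq] at hf
        have hls := (lp_spec h1g).2.2.2
        rw [S.C_length] at hls
        have e : gpl S g mid g' j = tlp (S.C j [g]) + S.N j mid + hdp (S.C j [g']) := rfl
        rw [← hf.1] at hls e
        rw [← hf.1] at hp hp'
        omega
      · rw [hpre] at hf
        simp only [List.cons_append, List.cons.injEq] at hf
        have h2 : S.N j pre = S.N j [b] + S.N j z := by rw [hpre, S.N_cons]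
        rw [← hf.1] at h2
        omega
    · rw [hYt, hx] at hY1
      have hb : b = S.a := by
        obtain ⟨r, hr'⟩ := hY1
        simp only [List.cons_append, List.cons.injEq] at hr'
        exact hr'.1
      have h2 : S.N (j + 1) (Y t) = S.N (j + 1) [b] + S.N (j + 1) z := by rw [hYt, S.N_cons]
      rw [hb] at h2
      omega
  · have h2 := hfin j
    rw [show j + (c0 + 1) = j + 1 + c0 by omega]
    omega
  · obtain ⟨hq1, hq2⟩ := blk (j + 1)
    have hst := gl_strict h hG (j := j) (lt_of_le_of_lt (hR0 t).2 (by omega))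
    have h2 := hfin (j + 1)
    refine ⟨_, _, hq1, by omega, ?_⟩
    rw [show j + 1 + (c0 + 1) = j + 1 + 1 + c0 by omega]
    omega

end MW
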