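import Pool.Agent.Lib.MP_dd05d9_lc.MW.Ad
import Pool.Agent.Lib.MP_dd05d9_lc.MW.Ai
import Pool.Agent.Lib.MP_dd05d9_lc.MW.ALc

/-!
MW, part A, module Aj: the sequence of records is anchored in the tower `GA S`.
-/

set_option autoImplicit false

namespace MW

/-- the anchor of one position -/
private theorem Aj_anchor {Q : Type} [Finite Q] {S : Sys Q} (h : NA S) {ch : ℕ → ℕ} (hg : Gen S ch)
    {x : List Q} (hx : S.f S.a = S.a :: x) (hxo : ∃ r ∈ x, 1 ∈ S.C 0 [r]) {K : ℕ}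
    (hT : Tower S (GA S) K) (kap d c : ℕ) (hd1 : 1 ≤ d) (hdc : d ≤ c) (g : Q) (y : List Q)
    (h1 : 1 ∈ S.C (kap + d) [g]) (h2 : y ++ [g] <+: S.Fn c [S.a]) :
    ∃ z ∈ GA S kap, ∃ y', y' ≠ [] ∧ y' ++ [z.1] <+: S.Fn (2 * c) [S.a] ∧
      S.N (kap + d) y + lp (S.C (kap + d) [g]) = S.N kap y' + z.2 := by
  have hz : (g, lp (S.C (kap + d) [g])) ∈ GA S (kap + d) := (mem_GA S _ _).2 ⟨h1, rfl⟩
  obtain ⟨z', hz', pre, hpre, heq⟩ := hT.desc_add kap d hz
  have hpre' : pre ++ [z'.1] <+: S.Fn d [g] := hpre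
  have heq' : lp (S.C (kap + d) [g]) = S.N kap pre + z'.2 := heq
  refine ⟨z', hz', S.Fn d y ++ pre, ?_, ?_, ?_⟩
  · intro hnil
    rw [List.append_eq_nil_iff] at hnil
    obtain ⟨hn1, hn2⟩ := hnil
    obtain ⟨xc, hxc⟩ := hg.Fn_start c
    obtain ⟨xd, hxd⟩ := hg.Fn_start d
    cases y with
    | cons a0 ys =>
      rw [hxc] at h2
      obtain ⟨t, ht⟩ := h2
      rw [List.cons_append, List.cons_append] at ht
      injection ht with ht1 ht2
      rw [ht1, Sys.Fn_cons, hxd] at hn1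
      simp at hn1
    | nil =>
      rw [hxc] at h2
      obtain ⟨t, ht⟩ := h2
      rw [List.nil_append, List.cons_append] at ht
      injection ht with ht1 ht2
      subst ht1
      rw [hn2, List.nil_append, hxd] at hpre'
      obtain ⟨t', ht'⟩ := hpre'
      rw [List.cons_append] at ht'
      injection ht' with ht1' ht2'
      have hz2 := (mem_GA S kap z').1 hz'
      rw [ht1'] at hz2
      have h5 := (lp_spec hz2.1).1
      rw [Sys.C_length] at h5
      rw [hn2, Sys.N_nil, Nat.zero_add, hz2.2] at heq'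
      obtain ⟨d', rfl⟩ : ∃ d', d = d' + 1 := ⟨d - 1, by omega⟩
      have h6 : S.C (kap + (d' + 1)) [S.a] = S.C (kap + d') [S.a] ++ S.C (kap + d') x := by
        rw [← Nat.add_assoc, Sys.C_succ, Sys.F_single, hx, Sys.C_cons]
      have h7 : 1 ∈ S.C (kap + d') x := by
        rw [one_mem]
        obtain ⟨r, hr, hr1⟩ := hxo
        exact ⟨r, hr, (h.dc _ _).2 hr1⟩
      rw [h6, lp_append_right h7, Sys.C_length] at heq'
      have h8 : S.N kap [S.a] ≤ S.N (kap + d') [S.a] := hg.N_mono (Nat.le_add_right _ _)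
      omega
  · have h3 : S.Fn d y ++ pre ++ [z'.1] <+: S.Fn d (y ++ [g]) := by
      rw [Sys.Fn_append, List.append_assoc]
      exact List.prefix_append_right_inj _ |>.2 hpre'
    have h4 : S.Fn d (y ++ [g]) <+: S.Fn (d + c) [S.a] := by
      rw [Sys.Fn_add]
      exact S.Fn_prefix h2
    exact h3.trans (h4.trans (hg.Fn_prefix (by omega)))
  · rw [heq', Sys.N_append, Sys.N_add]
    omega

theorem anch_A {Q : Type} [Finite Q] {S : Sys Q} (h : NA S) {ch : ℕ → ℕ} (hg : Gen S ch)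
    (hu : UGap ch) : ∃ j0, ∀ j1, j0 ≤ j1 → Anch S (fun j => Nat.nth (IsRec ch) (j + j1)) := by
  classical
  obtain ⟨R, c, hc, hrt⟩ := rec_type h hg
  obtain ⟨K, hT⟩ := tower_GA S
  obtain ⟨x, hx⟩ := hg.start
  have hxo := x_has_one hg h.dc hu hx
  obtain ⟨j0, hj0⟩ := rec_large hu (max R (S.N (c + 1) [S.a]))
  refine ⟨j0, fun j1 hj1 => ?_⟩
  obtain ⟨r, hr⟩ : ∃ r : ℕ → ℕ, r = fun j => Nat.nth (IsRec ch) (j + j1) := ⟨_, rfl⟩
  have hr' : ∀ j, r j = Nat.nth (IsRec ch) (j + j1) := fun j => by rw [hr]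
  rw [← hr]
  have hrec : ∀ j, IsRec ch (r j) := fun j => by
    rw [hr']
    exact Nat.nth_mem_of_infinite (rec_inf hu) _
  have hrmono : ∀ j, r j < r (j + 1) := fun j => by
    rw [hr', hr']
    exact Nat.nth_strictMono (rec_inf hu) (by omega)
  have hexn : ∀ j, ∃ p', Nx ch (r j) p' := fun j => by
    obtain ⟨p', hp', _⟩ := hrec j
    exact ⟨p', hp'⟩
  choose nx hnx using hexn
  have hlarge : ∀ j, max R (S.N (c + 1) [S.a]) < nx j - r j := fun j => by
    have h1 := hnx j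
    rw [hr'] at h1 ⊢
    exact hj0 (j + j1) (by omega) (nx j) h1
  choose i g y hi1 hi2 hi3 hi4 hi5 q q' hq1 hq2 hq3 using fun j =>
    hrt (r j) (nx j) (hnx j) (hrec j) (lt_of_le_of_lt (le_max_left _ _) (hlarge j))
  have hex : ∀ j, ∃ k, nx j < S.N k [S.a] := fun j => by
    obtain ⟨k, hk⟩ := hg.unb (nx j + 1)
    exact ⟨k, by omega⟩
  obtain ⟨lev, hlev⟩ : ∃ lev : ℕ → ℕ, ∀ j, lev j = Nat.find (hex j) := ⟨fun j => Nat.find (hex j), fun _ => rfl⟩
  have hl1 : ∀ j, nx j < S.N (lev j) [S.a] := fun j => by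
    rw [hlev]
    exact Nat.find_spec (hex j)
  have hl2 : ∀ j k, nx j < S.N k [S.a] → lev j ≤ k := fun j k hk => by
    rw [hlev]
    exact Nat.find_min' (hex j) hk
  have hmono : ∀ k k', k ≤ k' → S.N k [S.a] ≤ S.N k' [S.a] := fun k k' hk => hg.N_mono hk
  have hA : ∀ j, i j < lev j := fun j => by
    by_contra hcon
    have h1 := hmono (lev j) (i j) (by omega)
    have h2 := hl1 j
    have h3 := hi4 j
    omega
  have hB : ∀ j, lev j ≤ i j + c := fun j => hl2 j _ (hi5 j)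
  have hC : ∀ j, c + 1 < lev j := fun j => by
    by_contra hcon
    have h1 := hmono (lev j) (c + 1) (by omega)
    have h2 := hl1 j
    have h3 := lt_of_le_of_lt (le_max_right _ _) (hlarge j)
    omega
  have hnxr : ∀ j, nx j ≤ r (j + 1) := fun j => nx_le (hnx j) (hnx (j + 1)).2.1 (hrmono j)
  have hnx2 : ∀ j, nx j < nx (j + 1) := fun j => lt_of_le_of_lt (hnxr j) (hnx (j + 1)).1
  have hD : ∀ j, lev j ≤ lev (j + 1) := fun j => hl2 j _ ((hnx2 j).trans (hl1 (j + 1)))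
  have hE : ∀ j, lev (j + 1) ≤ i j + 1 + c := fun j => by
    refine hl2 (j + 1) _ (lt_of_le_of_lt ?_ (hq3 j))
    have h1 : r (j + 1) ≤ q j := by
      have h2 := hnx j
      have h3 := hq2 j
      rw [hr'] at h2 h3
      have h4 := nth_next hu h2 (hq1 j) h3
      rw [hr']
      have e : j + 1 + j1 = j + j1 + 1 := by omega
      rw [e]
      exact h4
    rcases Nat.lt_or_ge (r (j + 1)) (q j) with h2 | h2
    · exact (nx_le (hnx (j + 1)) (hq1 j).2.1 h2).trans (hq1 j).1.le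
    · have h3 : r (j + 1) = q j := le_antisymm h1 h2
      have h4 := hnx (j + 1)
      rw [h3] at h4
      exact (nx_unique h4 (hq1 j)).le
  refine ⟨GA S, K, 2 * c, fun j => lev j - (c + 1), hT, ?_, ?_⟩
  · intro j
    have h1 := hD j
    have h2 := hE j
    have h3 := hA j
    have h4 := hC j
    show lev j - (c + 1) ≤ lev (j + 1) - (c + 1) ∧ lev (j + 1) - (c + 1) ≤ lev j - (c + 1) + 2 * c
    omega
  · intro j
    have h1 := hA j
    have h2 := hB j
    have h3 := hC j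
    obtain ⟨d, hd⟩ : ∃ d, i j = (lev j - (c + 1)) + d := ⟨i j - (lev j - (c + 1)), by omega⟩
    have h4 := hi1 j
    have h5 := hi3 j
    rw [hd] at h4 h5
    obtain ⟨z, hz, y', hy1, hy2, hy3⟩ := Aj_anchor h hg hx hxo hT (lev j - (c + 1)) d c (by omega)
      (by omega) (g j) (y j) h4 (hi2 j)
    exact ⟨z, hz, y', hy1, hy2, h5.trans hy3⟩

end MW
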