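import Pool.Agent.Lib.MP_dd05d9_lc.MW.ADefs

/-!
MW, part A, module Ak: unbounded gaps of the indicator word.

`chi u w p = 1 ↔ Occ u w p`.  Let `G` be given.  `o` = some occurrence of `w` (`hw 0`).  By `hn` (negated, with `G + o + 1`): there is `p` such that no `q ∈ [p, p + G + o + 1)` is an occurrence.  `o < p` (else `o ∈ [p, p + G + o + 1)`).
Let `q` = largest occurrence `< p` (exists: `o`; `Nat.findGreatest` or maximum of a finite nonempty set), `q'` = least occurrence `≥ p` (exists by `hw`; `Nat.find`); `q' ≥ p + G + o + 1`; `Nx (chi u w) q q'` and `q' - q > G`.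
-/

set_option autoImplicit false

namespace MW

theorem ugap_chi {u : ℕ → ℕ} {w : List ℕ} (hw : InL u w)
    (hn : ¬ ∃ G, ∀ p, ∃ q, p ≤ q ∧ q < p + G ∧ Occ u w q) : UGap (chi u w) := by
  classical
  have hchi : ∀ p, chi u w p = 1 ↔ Occ u w p := by
    intro p
    unfold chi
    by_cases h : Occ u w p
    · simp [h]
    · simp [h]
  intro G
  obtain ⟨o, -, ho⟩ := hw 0
  push Not at hn
  obtain ⟨p, hp⟩ := hn (G + o + 1)
  have hop : o < p := by
    by_contra hc
    exact hp o (by omega) (by omega) ho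
  obtain ⟨q0, hq0, hoq0⟩ := hw p
  have hex : ∃ q, p ≤ q ∧ Occ u w q := ⟨q0, hq0, hoq0⟩
  have h1 := Nat.find_spec hex
  have h2 : ∀ m, m < Nat.find hex → ¬ (p ≤ m ∧ Occ u w m) := fun m hm => Nat.find_min hex hm
  set q' := Nat.find hex with hq'
  have h3 : p + (G + o + 1) ≤ q' := by
    by_contra hc
    exact hp q' h1.1 (by omega) h1.2
  have h4 : Occ u w (Nat.findGreatest (fun x => Occ u w x) (p - 1)) :=
    Nat.findGreatest_spec (P := fun x => Occ u w x) (n := p - 1) (m := o) (by omega) ho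
  have h5 : Nat.findGreatest (fun x => Occ u w x) (p - 1) ≤ p - 1 := Nat.findGreatest_le _
  have h6 : ∀ k, Nat.findGreatest (fun x => Occ u w x) (p - 1) < k → k ≤ p - 1 →
      ¬ Occ u w k := fun k hk hkb => Nat.findGreatest_is_greatest hk hkb
  set q := Nat.findGreatest (fun x => Occ u w x) (p - 1) with hq
  refine ⟨q, q', ⟨by omega, (hchi q).2 h4, (hchi q').2 h1.2, ?_⟩, by omega⟩
  intro i hi hi' hc
  have hoc := (hchi i).1 hc
  by_cases hip : p ≤ i
  · exact h2 i hi' ⟨hip, hoc⟩
  · exact h6 i hi (by omega) hoc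

end MW
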