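import Pool.Agent.Lib.MP_dd05d9_lc.MW.BLd

/-!
MW, part BL: block coding, assembly.

Take `m = w.length` (any `m` with `w.length ≤ m + 1`), `q, K` from `pre_const`, `S1 = S.ps q K` (generates `u`: `Gen.ps`), `b` from `bd_ex S1`, `ya = seg u (S1.N 0 [S1.a]) m`,
`S' = bs S1 w m b ya` over `Q × Y m b` (finite).
Gen: start = start_bs.  pre: `S'.C k [S'.a] = ind w (S1.C k [S1.a]) (mkY ya).1` (bs_C), `(mkY ya).1 = ya` (mkY_val, lt_b, length `m`: `List.take_of_length_le`), and
 `S1.C k [S1.a] ++ ya` occurs at 0 because `ya = seg u (S1.N k [S1.a]) m` (seg_start; `occ_append`, `occ_seg`); `ind_occ`.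
unb: `(S'.C k [S'.a]).length = S1.N k [S1.a]` (`ind_length`).
Red: `red_proj S' S1 Prod.fst` (gl_fst, ind_length), `red_ps`, `Red.trans`.
-/

set_option autoImplicit false

namespace MW

theorem block {Q : Type} [Finite Q] (S : Sys Q) (u : ℕ → ℕ) (hg : Gen S u) (w : List ℕ) :
    ∃ (Q' : Type) (_ : Finite Q') (S' : Sys Q'), Gen S' (chi u w) ∧ Red S' S := by
  obtain ⟨q, K, hq, hT⟩ := pre_const S w.length
  have hg1 : Gen (S.ps q K) u := hg.ps hq K
  obtain ⟨b, hb⟩ := bd_ex (S.ps q K)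
  have hTs : ∀ k s, ((S.ps q K).C k [s]).take w.length = ((S.ps q K).C 0 [s]).take w.length := hT
  have hya : ∀ x ∈ seg u ((S.ps q K).N 0 [(S.ps q K).a]) w.length, x < b := by
    intro x hx
    unfold seg at hx
    obtain ⟨i, -, rfl⟩ := List.mem_map.1 hx
    exact lt_b hg1 hb _
  have hyv : (mkY w.length b (seg u ((S.ps q K).N 0 [(S.ps q K).a]) w.length)).1 =
      seg u ((S.ps q K).N 0 [(S.ps q K).a]) w.length := by
    rw [mkY_val hya, List.take_of_length_le (by rw [seg_length])]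
  have hC : ∀ k, (bs (S.ps q K) w w.length b (seg u ((S.ps q K).N 0 [(S.ps q K).a]) w.length)).C k
      [(bs (S.ps q K) w w.length b (seg u ((S.ps q K).N 0 [(S.ps q K).a]) w.length)).a] =
      ind w ((S.ps q K).C k [(S.ps q K).a]) (seg u ((S.ps q K).N 0 [(S.ps q K).a]) w.length) := by
    intro k
    have h := bs_C (S.ps q K) (w := w) (m := w.length) (b := b) (by omega)
      (seg u ((S.ps q K).N 0 [(S.ps q K).a]) w.length) hb hTs k (S.ps q K).a
      (mkY w.length b (seg u ((S.ps q K).N 0 [(S.ps q K).a]) w.length))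
    rw [hyv] at h
    exact h
  refine ⟨Q × Y w.length b, inferInstance,
    bs (S.ps q K) w w.length b (seg u ((S.ps q K).N 0 [(S.ps q K).a]) w.length), ⟨?_, ?_, ?_⟩, ?_⟩
  · exact start_bs hg1 w hb hTs
  · intro k
    rw [hC k]
    refine ind_occ (m := w.length) (by omega) ?_ (by rw [seg_length])
    rw [occ_append]
    refine ⟨hg1.pre k, ?_⟩
    rw [Nat.zero_add, (S.ps q K).C_length, ← seg_start hg1 hTs k]
    exact occ_seg u _ _
  · intro n
    obtain ⟨k, hk⟩ := hg1.unb n
    refine ⟨k, hk.trans (le_of_eq ?_)⟩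
    have h := congrArg List.length (hC k)
    rw [ind_length] at h
    exact h.symm
  · refine Red.trans (red_proj _ (S.ps q K) Prod.fst ?_ ?_ rfl) (red_ps S hq K)
    · intro s
      exact gl_fst _ _ _ _ _
    · intro s
      exact ind_length _ _ _

end MW
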