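import Pool.Agent.Lib.MP_dd05d9_lc.MW.AL
import Pool.Agent.Lib.MP_dd05d9_lc.MW.BL
import Pool.Agent.Lib.MP_dd05d9_lc.MW.Ac
import Pool.Agent.Lib.MP_dd05d9_lc.MW.Aj
import Pool.Agent.Lib.MP_dd05d9_lc.MW.Ak

/-!
MW, case A of Theorem A (assembly, proved from the modules).
-/

set_option autoImplicit false

namespace MW

theorem caseA {Q1 Q2 : Type} [Finite Q1] [Finite Q2] (S1 : Sys Q1) (S2 : Sys Q2) (u : ℕ → ℕ)
    (h1 : Gen S1 u) (h2 : Gen S2 u) {w : List ℕ} (hw : InL u w)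
    (hn : ¬ ∃ G, ∀ p, ∃ q, p ≤ q ∧ q < p + G ∧ Occ u w q) : ∃ L, TL S1 L ∧ TL S2 L := by
  have hu := ugap_chi hw hn
  obtain ⟨P1, _, B1, g1, r1⟩ := block S1 u h1 w
  obtain ⟨P2, _, B2, g2, r2⟩ := block S2 u h2 w
  obtain ⟨A1, n1, r1', k1⟩ := na_ex B1
  obtain ⟨A2, n2, r2', k2⟩ := na_ex B2
  have g1' := k1 _ g1
  have g2' := k2 _ g2
  obtain ⟨j1, a1⟩ := anch_A n1 g1' hu
  obtain ⟨j2, a2⟩ := anch_A n2 g2' hu
  have hr : StrictMono (fun j => Nat.nth (IsRec (chi u w)) (j + max j1 j2)) := by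
    intro a b hab
    exact Nat.nth_strictMono (rec_inf hu) (by omega)
  obtain ⟨L, l1, l2⟩ := align g1'.start g2'.start hr (a1 _ (le_max_left _ _))
    (a2 _ (le_max_right _ _))
  exact ⟨L, r1 _ (r1' _ l1), r2 _ (r2' _ l2)⟩

end MW
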