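import Pool.Agent.Lib.MP_dd05d9_lc.MW.ADefs

/-!
MW, part A, module Aa: lists of naturals, first and last 1.

hdp_append: `List.takeWhile_append` / induction on `l1`: if `1 ∈ l1`, the takeWhile stops inside `l1`; otherwise it is `l1 ++ takeWhile l2`.
tlp_append: reverse, `List.reverse_append`, hdp_append.
hdp_spec: induction on `l`.   lp_spec: from hdp_spec for `l.reverse` (`List.getD`/`getElem_reverse`): if `1 ∈ l` then `tlp l < l.length`, `lp l + 1 + tlp l = l.length`.
lp_eq: uniqueness of the last 1: `i = lp l` (compare with lp_spec by trichotomy).   hdp_eq: uniqueness of the first 1.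
lp_append_right: `1 ∈ l2`: `lp (l1 ++ l2) = l1.length + lp l2` (lp_eq or tlp_append).   lp_append_left: `1 ∉ l2`, `1 ∈ l1`: `lp (l1 ++ l2) = lp l1`.
mem_getD: `1 ∈ l ↔ ∃ i < l.length, l.getD i 0 = 1`.
-/

set_option autoImplicit false

namespace MW

theorem mem_getD {l : List ℕ} : 1 ∈ l ↔ ∃ i, i < l.length ∧ l.getD i 0 = 1 := by
  constructor
  · intro h
    obtain ⟨i, hi, he⟩ := List.getElem_of_mem h
    refine ⟨i, hi, ?_⟩
    rw [List.getD_eq_getElem _ _ hi, he]
  · rintro ⟨i, hi, he⟩
    rw [List.getD_eq_getElem _ _ hi] at he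
    rw [← he]
    exact List.getElem_mem hi

theorem hdp_append_left {l1 : List ℕ} (h : 1 ∈ l1) (l2 : List ℕ) : hdp (l1 ++ l2) = hdp l1 := by
  induction l1 with
  | nil => simp at h
  | cons a l ih =>
    unfold hdp at *
    rw [List.cons_append]
    by_cases ha : a = 1
    · rw [List.takeWhile_cons, List.takeWhile_cons, ha]
      simp
    · rw [List.takeWhile_cons, List.takeWhile_cons]
      have h1 : 1 ∈ l := by
        rcases List.mem_cons.1 h with h2 | h2
        · exact absurd h2.symm ha
        · exact h2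
      have h2 := ih h1
      simp only [ha, ne_eq, not_false_eq_true, decide_true, if_true, List.length_cons] at h2 ⊢
      omega

theorem hdp_append_right {l1 : List ℕ} (h : 1 ∉ l1) (l2 : List ℕ) :
    hdp (l1 ++ l2) = l1.length + hdp l2 := by
  induction l1 with
  | nil => simp
  | cons a l ih =>
    unfold hdp at *
    rw [List.cons_append, List.takeWhile_cons]
    have ha : a ≠ 1 := fun e => h (by rw [e]; exact List.mem_cons_self)
    have h2 := ih (fun e => h (List.mem_cons_of_mem _ e))
    simp only [ha, ne_eq, not_false_eq_true, decide_true, if_true, List.length_cons] at h2 ⊢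
    omega

theorem tlp_append_right {l2 : List ℕ} (h : 1 ∈ l2) (l1 : List ℕ) : tlp (l1 ++ l2) = tlp l2 := by
  unfold tlp
  rw [List.reverse_append]
  exact hdp_append_left (List.mem_reverse.2 h) _

theorem tlp_append_left {l2 : List ℕ} (h : 1 ∉ l2) (l1 : List ℕ) :
    tlp (l1 ++ l2) = tlp l1 + l2.length := by
  unfold tlp
  rw [List.reverse_append]
  rw [hdp_append_right (l1 := l2.reverse) (fun e => h (List.mem_reverse.1 e)) l1.reverse,
    List.length_reverse]
  omega

theorem hdp_of_not_mem {l : List ℕ} (h : 1 ∉ l) : hdp l = l.length := by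
  have := hdp_append_right h []
  rw [List.append_nil] at this
  rw [this]
  simp [hdp]

theorem hdp_spec {l : List ℕ} (h : 1 ∈ l) : hdp l < l.length ∧ l.getD (hdp l) 0 = 1 ∧
    ∀ i, i < hdp l → l.getD i 0 ≠ 1 := by
  induction l with
  | nil => simp at h
  | cons a l ih =>
    by_cases ha : a = 1
    · have e : hdp (a :: l) = 0 := by
        unfold hdp
        rw [List.takeWhile_cons, ha]
        simp
      rw [e]
      refine ⟨by simp, by rw [ha]; simp, fun i hi => absurd hi (by omega)⟩
    · have h1 : 1 ∈ l := by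
        rcases List.mem_cons.1 h with h2 | h2
        · exact absurd h2.symm ha
        · exact h2
      have e : hdp (a :: l) = hdp l + 1 := by
        unfold hdp
        rw [List.takeWhile_cons]
        simp [ha]
      obtain ⟨i1, i2, i3⟩ := ih h1
      rw [e]
      refine ⟨by rw [List.length_cons]; omega, by rw [List.getD_cons_succ]; exact i2, fun i hi => ?_⟩
      rcases i with _ | i
      · rw [List.getD_cons_zero]
        exact ha
      · rw [List.getD_cons_succ]
        exact i3 i (by omega)

private theorem Aa_rev (l : List ℕ) (i : ℕ) (hi : i < l.length) :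
    l.reverse.getD i 0 = l.getD (l.length - 1 - i) 0 := by
  rw [List.getD_eq_getElem _ _ (by rw [List.length_reverse]; exact hi),
    List.getD_eq_getElem _ _ (by omega), List.getElem_reverse]

theorem lp_spec {l : List ℕ} (h : 1 ∈ l) : lp l < l.length ∧ l.getD (lp l) 0 = 1 ∧
    (∀ i, lp l < i → i < l.length → l.getD i 0 ≠ 1) ∧ lp l + 1 + tlp l = l.length := by
  obtain ⟨h1, h2, h3⟩ := hdp_spec (List.mem_reverse.2 h)
  rw [List.length_reverse] at h1
  have ht : tlp l = hdp l.reverse := rfl
  have e : lp l + 1 + hdp l.reverse = l.length := by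
    unfold lp
    rw [ht]
    omega
  refine ⟨by omega, ?_, fun i hi hil => ?_, by rw [ht]; exact e⟩
  · rw [Aa_rev l _ h1] at h2
    have : l.length - 1 - hdp l.reverse = lp l := by omega
    rw [this] at h2
    exact h2
  · have h4 := h3 (l.length - 1 - i) (by omega)
    rw [Aa_rev l _ (by omega)] at h4
    have : l.length - 1 - (l.length - 1 - i) = i := by omega
    rw [this] at h4
    exact h4

theorem hdp_eq {l : List ℕ} {i : ℕ} (hi : i < l.length) (h1 : l.getD i 0 = 1)
    (h2 : ∀ j, j < i → l.getD j 0 ≠ 1) : hdp l = i := by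
  obtain ⟨a1, a2, a3⟩ := hdp_spec (mem_getD.2 ⟨i, hi, h1⟩)
  rcases lt_trichotomy (hdp l) i with h | h | h
  · exact absurd a2 (h2 _ h)
  · exact h
  · exact absurd h1 (a3 _ h)

theorem lp_eq {l : List ℕ} {i : ℕ} (hi : i < l.length) (h1 : l.getD i 0 = 1)
    (h2 : ∀ j, i < j → j < l.length → l.getD j 0 ≠ 1) : lp l = i := by
  obtain ⟨a1, a2, a3, -⟩ := lp_spec (mem_getD.2 ⟨i, hi, h1⟩)
  rcases lt_trichotomy (lp l) i with h | h | h
  · exact absurd h1 (a3 _ h hi)
  · exact h
  · exact absurd a2 (h2 _ h a1)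

theorem lp_append_right {l2 : List ℕ} (h : 1 ∈ l2) (l1 : List ℕ) :
    lp (l1 ++ l2) = l1.length + lp l2 := by
  obtain ⟨-, -, -, a4⟩ := lp_spec h
  obtain ⟨-, -, -, b4⟩ := lp_spec (List.mem_append_right l1 h)
  rw [tlp_append_right h, List.length_append] at b4
  omega

theorem lp_append_left {l1 l2 : List ℕ} (h : 1 ∉ l2) (h1 : 1 ∈ l1) : lp (l1 ++ l2) = lp l1 := by
  obtain ⟨-, -, -, a4⟩ := lp_spec h1
  obtain ⟨-, -, -, b4⟩ := lp_spec (List.mem_append_left l2 h1)
  rw [tlp_append_left h, List.length_append] at b4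
  omega

end MW
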