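import Pool.Agent.Lib.MP_dd05d9_lc.MW.Aa
import Pool.Agent.Lib.MP_dd05d9_lc.MW.Ab

/-!
MW, part A, module Ad: the tower of the last ones.

mem_GA: `Set.Finite.mem_toFinset`, `Set.mem_image`.
last_split: `1 ∈ S.C k l`: split `l = pre ++ g :: suf` at the last letter `g` with `1 ∈ S.C k [g]` (induction on `l` from the right, or `List.reverseRecOn`, or: induction on `l = s :: l'`: if `1 ∈ S.C k l'` use
 induction, else `pre = []`, `g = s`); then `lp (S.C k l) = S.N k pre + lp (S.C k [g])`: `S.C k l = S.C k pre ++ (S.C k [g] ++ S.C k suf)`, `1 ∉ S.C k suf` (`one_mem`), `lp_append_right`, `lp_append_left`.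
tower_GA: card: image of a subset of `Q` (`Finset.card_le` through `Set.ncard`; or map `Prod.fst` injective on the set); le: `lp_spec`; desc: `z = (s, lp (S.C (k+1) [s]))`, `1 ∈ S.C (k+1) [s] = S.C k (S.f s)`:
 last_split with `l = S.f s`.
-/

set_option autoImplicit false

namespace MW

variable {Q : Type}

theorem mem_GA [Finite Q] (S : Sys Q) (k : ℕ) (z : Q × ℕ) :
    z ∈ GA S k ↔ 1 ∈ S.C k [z.1] ∧ z.2 = lp (S.C k [z.1]) := by
  unfold GA
  rw [Set.Finite.mem_toFinset, Set.mem_image]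
  constructor
  · rintro ⟨s, hs, rfl⟩
    exact ⟨hs, rfl⟩
  · rintro ⟨h1, h2⟩
    refine ⟨z.1, h1, ?_⟩
    ext
    · rfl
    · exact h2.symm

theorem last_split (S : Sys Q) (k : ℕ) {l : List Q} (h : 1 ∈ S.C k l) :
    ∃ pre g suf, l = pre ++ g :: suf ∧ 1 ∈ S.C k [g] ∧ (∀ r ∈ suf, 1 ∉ S.C k [r]) ∧
      lp (S.C k l) = S.N k pre + lp (S.C k [g]) := by
  induction l with
  | nil => simp at h
  | cons s l ih =>
    by_cases hl : 1 ∈ S.C k l
    · obtain ⟨pre, g, suf, h1, h2, h3, h4⟩ := ih hl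
      refine ⟨s :: pre, g, suf, by rw [h1, List.cons_append], h2, h3, ?_⟩
      rw [S.C_cons, lp_append_right hl, h4, S.N_cons k s pre, S.C_length]
      ring
    · have hs : 1 ∈ S.C k [s] := by
        rw [S.C_cons, List.mem_append] at h
        exact h.resolve_right hl
      refine ⟨[], s, l, rfl, hs, ?_, ?_⟩
      · intro r hr h'
        exact hl ((one_mem S k l).2 ⟨r, hr, h'⟩)
      · rw [S.C_cons, lp_append_left hl hs, S.N_nil, zero_add]

theorem tower_GA [Finite Q] (S : Sys Q) : ∃ K, Tower S (GA S) K := by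
  classical
  haveI := Fintype.ofFinite Q
  refine ⟨Fintype.card Q, ⟨fun k => ?_, fun k z hz => ?_, fun k z hz => ?_⟩⟩
  · rw [← Finset.card_univ]
    apply Finset.card_le_card_of_injOn Prod.fst (fun a _ => Finset.mem_univ _)
    intro a ha b hb hab
    rw [Finset.mem_coe, mem_GA] at ha hb
    ext
    · exact hab
    · rw [ha.2, hb.2, hab]
  · rw [mem_GA] at hz
    rw [hz.2, ← S.C_length]
    exact (lp_spec hz.1).1.le
  · rw [mem_GA, S.C_succ, S.F_single] at hz
    obtain ⟨pre, g, suf, h1, h2, h3, h4⟩ := last_split S k hz.1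
    refine ⟨(g, lp (S.C k [g])), ?_, pre, ⟨suf, ?_⟩, ?_⟩
    · rw [mem_GA]
      exact ⟨h2, rfl⟩
    · rw [h1]; simp
    · rw [hz.2, h4]

end MW
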