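import Pool.Agent.Lib.MP_dd05d9_lc.MW.Aa
import Pool.Agent.Lib.MP_dd05d9_lc.MW.Ab

/-!
MW, part A, module Ae: consecutive ones in the word of a list of letters.

first_split: `1 ∈ S.C k l`: `l = mid ++ g :: suf` with `g` the first letter with `1 ∈ S.C k [g]`; `hdp (S.C k l) = S.N k mid + hdp (S.C k [g])`: induction on `l`, `hdp_append_left/right`.

split_gap: induction on `l`, `l = r :: l'`, `S.C k l = S.C k [r] ++ S.C k l'`, `n = S.N k [r]`.
 * `p' < n`: first alternative with `l1 = []`.
 * `p < n ≤ p'`: `p` is the last 1 of `S.C k [r]` (no 1 between `p` and `p'`): `p = lp (S.C k [r])` (`lp_eq`), `n = p + 1 + tlp (S.C k [r])` (`lp_spec`); `p' - n` is the first 1 of `S.C k l'`: `hdp (S.C k l') = p' - n`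
   (`hdp_eq`), `1 ∈ S.C k l'`; first_split gives `l' = mid ++ g' :: suf`, second alternative with `pre = []`, `g = r`: `p' = n + S.N k mid + hdp (S.C k [g'])`.
 * `n ≤ p`: the ones `p - n < p' - n` are consecutive in `S.C k l'`; induction; first alternative: `l1 := r :: l1`, second: `pre := r :: pre` (`Sys.N_cons`).
 (`List.getD_append`, `List.getD_append_right`; `DC` turns `1 ∈ S.C k [g]` into `1 ∈ S.C 0 [g]`.)
-/

set_option autoImplicit false

namespace MW

variable {Q : Type}

theorem first_split (S : Sys Q) (k : ℕ) {l : List Q} (h : 1 ∈ S.C k l) :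
    ∃ mid g suf, l = mid ++ g :: suf ∧ 1 ∈ S.C k [g] ∧ (∀ r ∈ mid, 1 ∉ S.C k [r]) ∧
      hdp (S.C k l) = S.N k mid + hdp (S.C k [g]) := by
  induction l with
  | nil => simp at h
  | cons s l ih =>
    by_cases hs : 1 ∈ S.C k [s]
    · refine ⟨[], s, l, rfl, hs, by simp, ?_⟩
      rw [S.C_cons, hdp_append_left hs, S.N_nil, zero_add]
    · have hl : 1 ∈ S.C k l := by
        rw [S.C_cons, List.mem_append] at h
        exact h.resolve_left hs
      obtain ⟨mid, g, suf, h1, h2, h3, h4⟩ := ih hl
      refine ⟨s :: mid, g, suf, by rw [h1, List.cons_append], h2, ?_, ?_⟩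
      · intro r hr
        rcases List.mem_cons.1 hr with h5 | h5
        · rw [h5]; exact hs
        · exact h3 r h5
      · rw [S.C_cons, hdp_append_right hs, h4, S.N_cons k s mid, S.C_length]
        ring

theorem split_gap {S : Sys Q} (hD : DC S) (k : ℕ) (l : List Q) (p p' : ℕ)
    (h : Nxl (S.C k l) p p') :
    (∃ l1 r l2, l = l1 ++ r :: l2 ∧ S.N k l1 ≤ p ∧ p' < S.N k l1 + S.N k [r]) ∨
    (∃ pre g mid g' suf, l = pre ++ g :: (mid ++ g' :: suf) ∧ 1 ∈ S.C 0 [g] ∧
      1 ∈ S.C 0 [g'] ∧ (∀ r ∈ mid, 1 ∉ S.C 0 [r]) ∧ p = S.N k pre + lp (S.C k [g]) ∧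
      p' = p + 1 + gpl S g mid g' k) := by
  induction l generalizing p p' with
  | nil =>
    obtain ⟨h1, h2, h3, h4, h5⟩ := h
    simp at h2
  | cons r l ih =>
    rw [S.C_cons] at h
    obtain ⟨h1, h2, h3, h4, h5⟩ := h
    have hn : (S.C k [r]).length = S.N k [r] := S.C_length k [r]
    have hlen : (S.C k [r] ++ S.C k l).length = S.N k [r] + (S.C k l).length := by
      rw [List.length_append, hn]
    have hleft : ∀ i, i < S.N k [r] →
        (S.C k [r] ++ S.C k l).getD i 0 = (S.C k [r]).getD i 0 := by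
      intro i hi
      exact List.getD_append _ _ _ _ (by rw [hn]; exact hi)
    have hright : ∀ i, S.N k [r] ≤ i →
        (S.C k [r] ++ S.C k l).getD i 0 = (S.C k l).getD (i - S.N k [r]) 0 := by
      intro i hi
      rw [List.getD_append_right _ _ _ _ (by rw [hn]; exact hi), hn]
    rcases Nat.lt_or_ge p' (S.N k [r]) with hp' | hp'
    · left
      refine ⟨[], r, l, rfl, ?_, ?_⟩
      · rw [S.N_nil]; omega
      · rw [S.N_nil]; omega
    rcases Nat.lt_or_ge p (S.N k [r]) with hp | hp
    · right
      have hX : (S.C k [r]).getD p 0 = 1 := by rw [← hleft p hp]; exact h3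
      have hXm : 1 ∈ S.C k [r] := mem_getD.2 ⟨p, by rw [hn]; exact hp, hX⟩
      have hlp : lp (S.C k [r]) = p := by
        refine lp_eq (by rw [hn]; exact hp) hX ?_
        intro j hj hj2
        rw [hn] at hj2
        rw [← hleft j hj2]
        exact h5 j hj (by omega)
      obtain ⟨_, _, _, hsp⟩ := lp_spec hXm
      have hY : (S.C k l).getD (p' - S.N k [r]) 0 = 1 := by
        rw [← hright p' hp']; exact h4
      have hYl : p' - S.N k [r] < (S.C k l).length := by
        rw [hlen] at h2; omega
      have hYm : 1 ∈ S.C k l := mem_getD.2 ⟨_, hYl, hY⟩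
      have hhd : hdp (S.C k l) = p' - S.N k [r] := by
        refine hdp_eq hYl hY ?_
        intro j hj
        have h6 := h5 (S.N k [r] + j) (by omega) (by omega)
        rw [hright _ (by omega), Nat.add_sub_cancel_left] at h6
        exact h6
      obtain ⟨mid, g', suf, e1, e2, e3, e4⟩ := first_split S k hYm
      refine ⟨[], r, mid, g', suf, by rw [e1]; rfl, (hD k r).1 hXm, (hD k g').1 e2, ?_, ?_, ?_⟩
      · intro s hs h7
        exact e3 s hs ((hD k s).2 h7)
      · rw [S.N_nil, hlp, zero_add]
      · unfold gpl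
        rw [hlp, hn] at hsp
        omega
    · have hN : Nxl (S.C k l) (p - S.N k [r]) (p' - S.N k [r]) := by
        refine ⟨by omega, ?_, ?_, ?_, ?_⟩
        · rw [hlen] at h2; omega
        · rw [← hright p hp]; exact h3
        · rw [← hright p' hp']; exact h4
        · intro i hi hi2
          have h6 := h5 (S.N k [r] + i) (by omega) (by omega)
          rw [hright _ (by omega), Nat.add_sub_cancel_left] at h6
          exact h6
      rcases ih _ _ hN with ⟨l1, r', l2, e1, e2, e3⟩ | ⟨pre, g, mid, g', suf, e1, e2, e3, e4, e5, e6⟩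
      · left
        refine ⟨r :: l1, r', l2, by rw [e1, List.cons_append], ?_, ?_⟩
        · rw [S.N_cons k r l1]; omega
        · rw [S.N_cons k r l1]; omega
      · right
        refine ⟨r :: pre, g, mid, g', suf, by rw [e1, List.cons_append], e2, e3, e4, ?_, ?_⟩
        · rw [S.N_cons k r pre]; omega
        · omega

end MW
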