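import Pool.Agent.Lib.MP_dd05d9_lc.MW.Ae

/-!
MW, part A, module Af: every pair of consecutive ones is short or comes from a gap type; converse.

gap_type: induction on `k` (all `s p p'`).  `k = 0`: `p' < S.N 0 [s] ≤ R0`.  `k + 1`: `S.C (k+1) [s] = S.C k (S.f s)`; `split_gap` with `l = S.f s`:
 * first alternative `S.f s = l1 ++ r :: l2`, `S.N k l1 ≤ p`, `p' < S.N k l1 + S.N k [r]`: `Nxl (S.C k [r]) (p - S.N k l1) (p' - S.N k l1)` (`S.C k (S.f s) = S.C k l1 ++ (S.C k [r] ++ S.C k l2)`); induction: either short or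
   `k = i + j + 1`, `w ++ [t] <+: S.Fn i [r]`, ...; then `k + 1 = (i + 1) + j + 1`, new `w` is `S.Fn i l1 ++ w`, prefix of `S.Fn i (l1 ++ [r]) <+: S.Fn i (S.f s) = S.Fn (i+1) [s]`; `S.N (j+1) (S.Fn i l1) = S.N (j + 1 + i) l1 = S.N k l1`.
 * second alternative: `t = s`, `i = 0`, `j = k`, `w = []` (`S.Fn 0 [s] = [s]`).
gap_nxl: in `S.C (j+1) [t] = S.C j (S.f t)` the ones at `P = S.N j pre + lp (S.C j [g])` and `P + 1 + gpl` are consecutive: `S.C j (S.f t) = S.C j pre ++ S.C j [g] ++ S.C j mid ++ S.C j [g'] ++ S.C j suf`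
 (`lp_spec` for `g`, no 1 in `S.C j mid` (`one_mem`, DC), `hdp_spec` for `g'`).
-/

set_option autoImplicit false

namespace MW

variable {Q : Type}

private theorem af_getD_mid (a b c : List ℕ) (i : ℕ) (hi : i < b.length) :
    (a ++ (b ++ c)).getD (a.length + i) 0 = b.getD i 0 := by
  rw [List.getD_append_right _ _ _ _ (by omega)]
  rw [show a.length + i - a.length = i by omega]
  exact List.getD_append _ _ _ _ hi

private theorem af_C_succ_single (S : Sys Q) (k : ℕ) (s : Q) : S.C (k + 1) [s] = S.C k (S.f s) := by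
  rw [S.C_succ, S.F_single]

theorem gap_type {S : Sys Q} (hD : DC S) {R0 : ℕ} (hR : ∀ s, S.N 0 [s] ≤ R0) (k : ℕ) (s : Q)
    (p p' : ℕ) (h : Nxl (S.C k [s]) p p') :
    p' - p ≤ R0 ∨ ∃ t i j w pre g mid g' suf, k = i + j + 1 ∧ w ++ [t] <+: S.Fn i [s] ∧
      GTy S t pre g mid g' suf ∧ p = S.N (j + 1) w + S.N j pre + lp (S.C j [g]) ∧
      p' = p + 1 + gpl S g mid g' j := by
  induction k generalizing s p p' with
  | zero =>
    left
    have h1 := h.2.1
    have h2 := hR s
    unfold Sys.N at h2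
    omega
  | succ k ih =>
    rw [af_C_succ_single] at h
    rcases split_gap hD k (S.f s) p p' h with ⟨l1, r, l2, hl, hp, hp'⟩ |
        ⟨pre, g, mid, g', suf, hl, hg, hg', hm, hp, hp'⟩
    · have hC : S.C k (S.f s) = S.C k l1 ++ (S.C k [r] ++ S.C k l2) := by
        rw [hl, S.C_append, S.C_cons k r l2]
      have hn1 : (S.C k l1).length = S.N k l1 := rfl
      have hn2 : (S.C k [r]).length = S.N k [r] := rfl
      have key : ∀ i, i < S.N k [r] → (S.C k (S.f s)).getD (S.N k l1 + i) 0 =
          (S.C k [r]).getD i 0 := by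
        intro i hi
        rw [hC, ← hn1]
        exact af_getD_mid _ _ _ _ (by omega)
      have hN : Nxl (S.C k [r]) (p - S.N k l1) (p' - S.N k l1) := by
        obtain ⟨h1, h2, h3, h4, h5⟩ := h
        refine ⟨by omega, by omega, ?_, ?_, ?_⟩
        · rw [← key _ (by omega), show S.N k l1 + (p - S.N k l1) = p by omega]
          exact h3
        · rw [← key _ (by omega), show S.N k l1 + (p' - S.N k l1) = p' by omega]
          exact h4
        · intro i hi1 hi2
          rw [← key _ (by omega)]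
          exact h5 _ (by omega) (by omega)
      rcases ih r _ _ hN with h6 | ⟨t, i, j, w, pre, g, mid, g', suf, hk, hw, hG, hq, hq'⟩
      · left
        omega
      · right
        refine ⟨t, i + 1, j, S.Fn i l1 ++ w, pre, g, mid, g', suf, by omega, ?_, hG, ?_, ?_⟩
        · rw [Sys.Fn_succ, S.F_single, hl, S.Fn_append, S.Fn_cons i r l2, List.append_assoc]
          obtain ⟨z, hz⟩ := hw
          refine ⟨z ++ S.Fn i l2, ?_⟩
          rw [← hz]
          simp only [List.append_assoc]
        · have h7 : S.N (j + 1) (S.Fn i l1) = S.N k l1 := by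
            rw [← S.N_add, hk]
            congr 1
            omega
          rw [S.N_append, h7]
          have h1 := h.1
          omega
        · have h1 := h.1
          omega
    · right
      refine ⟨s, 0, k, [], pre, g, mid, g', suf, by omega, ?_, ⟨hl, hg, hg', hm⟩, ?_, hp'⟩
      · rw [Sys.Fn_zero, List.nil_append]
      · rw [Sys.N_nil, Nat.zero_add]
        exact hp

private theorem af_one_mem {S : Sys Q} (k : ℕ) {l : List Q} (h : 1 ∈ S.C k l) :
    ∃ s ∈ l, 1 ∈ S.C k [s] := by
  rw [S.C_flatMap] at h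
  exact List.mem_flatMap.1 h

theorem gap_nxl {S : Sys Q} (hD : DC S) {t : Q} {pre : List Q} {g : Q} {mid : List Q} {g' : Q}
    {suf : List Q} (h : GTy S t pre g mid g' suf) (j : ℕ) :
    Nxl (S.C (j + 1) [t]) (S.N j pre + lp (S.C j [g]))
      (S.N j pre + lp (S.C j [g]) + 1 + gpl S g mid g' j) := by
  obtain ⟨hf, hg, hg', hm⟩ := h
  have hg1 : 1 ∈ S.C j [g] := (hD j g).2 hg
  have hg1' : 1 ∈ S.C j [g'] := (hD j g').2 hg'
  have hm1 : 1 ∉ S.C j mid := by
    intro h1
    obtain ⟨r, hr, hr1⟩ := af_one_mem j h1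
    exact hm r hr ((hD j r).1 hr1)
  obtain ⟨a1, a2, a3, a4⟩ := lp_spec hg1
  obtain ⟨b1, b2, b3⟩ := hdp_spec hg1'
  have hC : S.C (j + 1) [t] = S.C j pre ++ (S.C j [g] ++ (S.C j mid ++ (S.C j [g'] ++ S.C j suf))) := by
    rw [af_C_succ_single, hf, S.C_append, S.C_cons j g, S.C_append, S.C_cons j g']
  have n1 : (S.C j pre).length = S.N j pre := rfl
  have n2 : (S.C j [g]).length = S.N j [g] := rfl
  have n3 : (S.C j mid).length = S.N j mid := rfl
  have n4 : (S.C j [g']).length = S.N j [g'] := rfl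
  have k1 : ∀ i, i < S.N j [g] → (S.C (j + 1) [t]).getD (S.N j pre + i) 0 =
      (S.C j [g]).getD i 0 := by
    intro i hi
    rw [hC, ← n1]
    exact af_getD_mid _ _ _ _ (by omega)
  have k2 : ∀ i, i < S.N j mid → (S.C (j + 1) [t]).getD (S.N j pre + S.N j [g] + i) 0 =
      (S.C j mid).getD i 0 := by
    intro i hi
    have e : S.N j pre + S.N j [g] + i = (S.C j pre ++ S.C j [g]).length + i := by
      rw [List.length_append, n1, n2]
    rw [hC, e, ← List.append_assoc]
    exact af_getD_mid _ _ _ _ (by omega)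
  have k3 : ∀ i, i < S.N j [g'] → (S.C (j + 1) [t]).getD
      (S.N j pre + S.N j [g] + S.N j mid + i) 0 = (S.C j [g']).getD i 0 := by
    intro i hi
    have e : S.N j pre + S.N j [g] + S.N j mid + i =
        (S.C j pre ++ S.C j [g] ++ S.C j mid).length + i := by
      rw [List.length_append, List.length_append, n1, n2, n3]
    rw [hC, e, ← List.append_assoc, ← List.append_assoc]
    exact af_getD_mid _ _ _ _ (by omega)
  have hlen : (S.C (j + 1) [t]).length =
      S.N j pre + S.N j [g] + S.N j mid + S.N j [g'] + S.N j suf := by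
    rw [hC]
    simp only [List.length_append]
    rw [n1, n2, n3, n4]
    change _ + (_ + (_ + (_ + S.N j suf))) = _
    omega
  unfold gpl
  refine ⟨by omega, by omega, ?_, ?_, ?_⟩
  · rw [k1 _ (by omega)]
    exact a2
  · rw [show S.N j pre + lp (S.C j [g]) + 1 + (tlp (S.C j [g]) + S.N j mid + hdp (S.C j [g'])) =
      S.N j pre + S.N j [g] + S.N j mid + hdp (S.C j [g']) by omega, k3 _ (by omega)]
    exact b2
  · intro i hi1 hi2
    rcases Nat.lt_or_ge i (S.N j pre + S.N j [g]) with c1 | c1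
    · rw [show i = S.N j pre + (i - S.N j pre) by omega, k1 _ (by omega)]
      exact a3 _ (by omega) (by omega)
    · rcases Nat.lt_or_ge i (S.N j pre + S.N j [g] + S.N j mid) with c2 | c2
      · rw [show i = S.N j pre + S.N j [g] + (i - (S.N j pre + S.N j [g])) by omega,
          k2 _ (by omega)]
        intro h1
        exact hm1 (mem_getD.2 ⟨_, by omega, h1⟩)
      · rw [show i = S.N j pre + S.N j [g] + S.N j mid +
          (i - (S.N j pre + S.N j [g] + S.N j mid)) by omega, k3 _ (by omega)]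
        exact b3 _ (by omega)

end MW
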