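import Pool.Agent.Lib.MP_dd05d9_lc.MW.BDefs2

/-!
B01: language of `u` (words occurring infinitely often).

* `InL.sub`: `w = x ++ v ++ y`, `Occ.mid` (Base): an occurrence of `w` at `p` gives one of `v` at `p + |x|`.
* `fin_range`: every `u i` is a member of some `S.ph s`: take `k` with `i < N k [a]` (`Gen.unb`), then
  `u i = (C k [a]).getD i 0` (`Gen.pre`), which is a member of `C k [a] = (Fn k [a]).flatMap ph`.  So the range is
  inside the finite union of the sets of members of `S.ph s` (`Set.finite_iUnion`, `List.finite_toSet`).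
* `inL_tail`: the words `seg u p l` (all `p`) form a finite set `T` (image of the finite set of functions
  `Fin l → range u`; or `List.finite_length_eq`, or induction on `l` by `seg_add`).  For every `w ∈ T` which is not
  in `InL u` there is `n_w` with no occurrence at positions `>= n_w`.  `p0` = sum (or sup) of the `n_w`.
* `words_finite`: `Occ u w p` gives `w = seg u p |w|` (`Occ.eq_seg`), so the set is in the union over `n <= l` of the
  finite sets `{seg u p n | p}` (as above).
* `InL.ext`: occurrences of `w` at positions `p >= 1` are the middle of `seg u (p-1) (|w|+2)`.  By `inL_tail` with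
  `l = |w| + 2` take an occurrence at `p >= p0 + 1`; `b = u (p-1)`, `b' = u (p+|w|)`.
-/

set_option autoImplicit false

namespace MW

theorem InL.sub {u : ℕ → ℕ} {w v : List ℕ} (h : InL u w) (hv : v <:+: w) : InL u v := by
  obtain ⟨x, y, rfl⟩ := hv
  intro n
  obtain ⟨p, hp, ho⟩ := h n
  exact ⟨p + x.length, by omega, ho.mid⟩

theorem fin_range {Q : Type} [Finite Q] {S : Sys Q} {u : ℕ → ℕ} (h : Gen S u) :
    (Set.range u).Finite := by
  have h1 : (⋃ s, {x : ℕ | x ∈ S.ph s}).Finite := Set.finite_iUnion fun s => (S.ph s).finite_toSet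
  refine h1.subset ?_
  rintro _ ⟨i, rfl⟩
  obtain ⟨k, hk⟩ := h.unb (i + 1)
  have h2 := h.pre k i (by unfold Sys.N at hk; omega)
  rw [Nat.zero_add] at h2
  have hi : i < (S.C k [S.a]).length := by unfold Sys.N at hk; omega
  rw [List.getD_eq_getElem _ _ hi] at h2
  have h3 : u i ∈ S.C k [S.a] := by
    rw [← h2]
    exact List.getElem_mem hi
  unfold Sys.C at h3
  obtain ⟨s, -, hs⟩ := List.mem_flatMap.1 h3
  exact Set.mem_iUnion.2 ⟨s, hs⟩

private theorem b01_seg_succ (u : ℕ → ℕ) (p l : ℕ) : seg u p (l + 1) = seg u p l ++ [u (p + l)] := by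
  rw [seg_add]
  rfl

private theorem b01_fin {u : ℕ → ℕ} (hf : (Set.range u).Finite) (l : ℕ) :
    (Set.range (fun p => seg u p l)).Finite := by
  induction l with
  | zero =>
    refine (Set.finite_singleton ([] : List ℕ)).subset ?_
    rintro _ ⟨p, rfl⟩
    rfl
  | succ l ih =>
    refine (Set.Finite.image2 (fun (w : List ℕ) (x : ℕ) => w ++ [x]) ih hf).subset ?_
    rintro _ ⟨p, rfl⟩
    exact ⟨seg u p l, ⟨p, rfl⟩, u (p + l), ⟨p + l, rfl⟩, (b01_seg_succ u p l).symm⟩

theorem inL_tail {u : ℕ → ℕ} (hf : (Set.range u).Finite) (l : ℕ) :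
    ∃ p0, ∀ p, p0 ≤ p → InL u (seg u p l) := by
  classical
  have h1 : ∀ w : List ℕ, ∃ n, ¬ InL u w → ∀ p, n ≤ p → ¬ Occ u w p := by
    intro w
    by_cases hw : InL u w
    · exact ⟨0, fun h => absurd hw h⟩
    · have h2 := hw
      unfold InL at h2
      push Not at h2
      obtain ⟨n, hn⟩ := h2
      exact ⟨n, fun _ => hn⟩
  choose f hf' using h1
  refine ⟨(b01_fin hf l).toFinset.sup f, fun p hp => ?_⟩
  by_contra hw
  refine hf' _ hw p (le_trans ?_ hp) (occ_seg u p l)
  exact Finset.le_sup (f := f) ((Set.Finite.mem_toFinset _).2 ⟨p, rfl⟩)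

theorem words_finite {u : ℕ → ℕ} (hf : (Set.range u).Finite) (l : ℕ) :
    {w : List ℕ | w.length ≤ l ∧ ∃ p, Occ u w p}.Finite := by
  have h1 : (⋃ n ∈ Finset.range (l + 1), Set.range (fun p => seg u p n)).Finite :=
    Set.Finite.biUnion (Finset.finite_toSet _) fun n _ => b01_fin hf n
  refine h1.subset ?_
  rintro w ⟨hw, p, hp⟩
  refine Set.mem_biUnion (x := w.length) ?_ ⟨p, hp.eq_seg.symm⟩
  exact Finset.mem_coe.2 (Finset.mem_range.2 (by omega))

theorem InL.ext {u : ℕ → ℕ} (hf : (Set.range u).Finite) {w : List ℕ} (h : InL u w) :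
    ∃ b b', InL u (b :: (w ++ [b'])) := by
  obtain ⟨p0, hp0⟩ := inL_tail hf (1 + (w.length + 1))
  obtain ⟨p, hp, ho⟩ := h (p0 + 1)
  refine ⟨u (p - 1), u (p + w.length), ?_⟩
  have h1 := hp0 (p - 1) (by omega)
  have h3 := ho.eq_seg
  rw [seg_add, b01_seg_succ u _ w.length, show p - 1 + 1 = p by omega, ← h3] at h1
  have h2 : seg u (p - 1) 1 = [u (p - 1)] := by simp [seg]
  rw [h2] at h1
  exact h1

end MW
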