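import Pool.Agent.Lib.MP_dd05d9_lc.MW.B01

/-!
B02: (L0) and (L2).

* `L0`: `G` from `CB`; `M = G + |w|`.  `x` occurs at some `p`; some `q` with `p <= q < p + G` and `Occ u w q`; then
  `q + |w| <= p + |x|`, so `w = seg u q |w|` is a factor of `x = seg u p |x|` (`Occ.eq_seg`, `seg_add` twice).
* `getD_infix`: `w = y ++ v ++ z`, `i < |v|`: `v.getD i 0 = w.getD (|y| + i) 0`; so a period of `w` is one of `v`.
* `L2`: suppose not: for every `l` there is `x` in `InL u` with `l <= |x|` and `Per x d`.  Then for all `w` in `InL u`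
  with `|w| = d + 1`: `w` is a factor of such an `x` (`L0`), so `Per w d`, `w.getD 0 0 = w.getD d 0`.  By `inL_tail` with
  `l = d + 1` all `seg u p (d+1)`, `p >= p0`, are in `InL u`: `u p = u (p + d)`.  So `UP u`.
* `no_pow`: `(List.replicate m X).flatten` has period `|X|` and length `m * |X|`; `L2` with `d = |X|`.
-/

set_option autoImplicit false

namespace MW

theorem L0 {u : ℕ → ℕ} (hB : CB u) {w : List ℕ} (hw : InL u w) :
    ∃ M, ∀ x, InL u x → M ≤ x.length → w <:+: x := by
  obtain ⟨G, hG⟩ := hB w hw
  refine ⟨G + w.length, fun x hx hl => ?_⟩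
  obtain ⟨p, _, hp⟩ := hx 0
  obtain ⟨q, hpq, hqG, hq⟩ := hG p
  obtain ⟨a, rfl⟩ := Nat.exists_eq_add_of_le hpq
  obtain ⟨r, hr⟩ := Nat.exists_eq_add_of_le (show a + w.length ≤ x.length by omega)
  refine ⟨seg u p a, seg u (p + (a + w.length)) r, ?_⟩
  have h1 := hp.eq_seg
  rw [hr, seg_add, seg_add, ← hq.eq_seg] at h1
  exact h1.symm

theorem Per.sub {w v : List ℕ} {d : ℕ} (h : Per w d) (hv : v <:+: w) : Per v d := by
  obtain ⟨y, z, rfl⟩ := hv
  have key : ∀ j, j < v.length → (y ++ v ++ z).getD (y.length + j) 0 = v.getD j 0 := by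
    intro j hj
    rw [List.getD_append _ _ _ _ (by rw [List.length_append]; omega),
      List.getD_append_right _ _ _ _ (by omega), Nat.add_sub_cancel_left]
  intro i hi
  have h1 := h (y.length + i) (by rw [List.length_append, List.length_append]; omega)
  rw [key i (by omega), Nat.add_assoc, key (i + d) hi] at h1
  exact h1

theorem L2 {u : ℕ → ℕ} (hf : (Set.range u).Finite) (hn : ¬ UP u) (hB : CB u) {d : ℕ} (hd : 0 < d) :
    ∃ l, ∀ x, InL u x → l ≤ x.length → ¬ Per x d := by
  by_contra hcon
  push Not at hcon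
  apply hn
  obtain ⟨p0, hp0⟩ := inL_tail hf (d + 1)
  refine ⟨p0, d, hd, fun n hn => ?_⟩
  obtain ⟨M, hM⟩ := L0 hB (hp0 n hn)
  obtain ⟨x, hx, hl, hper⟩ := hcon M
  have h1 := (hper.sub (hM x hx hl)) 0 (by rw [seg_length]; omega)
  rw [seg_getD u n (d + 1) 0 (by omega), Nat.zero_add, seg_getD u n (d + 1) d (by omega),
    Nat.add_zero] at h1
  exact h1.symm

private theorem B02_per (X : List ℕ) (m : ℕ) : Per (List.replicate m X).flatten X.length := by
  cases m with
  | zero =>
    intro i hi
    simp at hi
  | succ m =>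
    intro i hi
    have e1 : (List.replicate (m + 1) X).flatten = X ++ (List.replicate m X).flatten := by
      rw [List.replicate_succ, List.flatten_cons]
    have e2 : (List.replicate (m + 1) X).flatten = (List.replicate m X).flatten ++ X := by
      rw [List.replicate_succ', List.flatten_append]
      simp
    have hl : i < (List.replicate m X).flatten.length := by
      rw [e1, List.length_append] at hi
      omega
    have h1 : (List.replicate (m + 1) X).flatten.getD i 0 =
        (List.replicate m X).flatten.getD i 0 := by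
      rw [e2, List.getD_append _ _ _ _ hl]
    have h2 : (List.replicate (m + 1) X).flatten.getD (i + X.length) 0 =
        (List.replicate m X).flatten.getD i 0 := by
      rw [e1, List.getD_append_right _ _ _ _ (by omega), Nat.add_sub_cancel]
    rw [h1, h2]

/-- no nonempty word has all its powers in the language -/
theorem no_pow {u : ℕ → ℕ} (hf : (Set.range u).Finite) (hn : ¬ UP u) (hB : CB u) {X : List ℕ}
    (hX : X ≠ []) : ∃ m, ¬ InL u (List.replicate m X).flatten := by
  have hpos : 0 < X.length := List.length_pos_of_ne_nil hX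
  obtain ⟨l, hl⟩ := L2 hf hn hB hpos
  refine ⟨l, fun h => hl _ h ?_ (B02_per X l)⟩
  have e : (List.replicate l X).flatten.length = l * X.length := by
    simp
  rw [e]
  exact Nat.le_mul_of_pos_right l hpos

end MW
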