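import Pool.Agent.Lib.MP_dd05d9_lc.MW.B01

/-!
B03: a two-sided word all of whose factors are in the language.

Start with `w_0 = []` (`InL u []` holds trivially).  `InL.ext` gives `w_(n+1) = b_n :: (w_n ++ [b'_n])` with
`InL u w_(n+1)` (recursion on the subtype of words in `InL u`, `Classical.choose`).  `|w_n| = 2 n`.
`Z i = b'_i` for `i >= 0` and `Z (-(j+1)) = b_j` (`Int.negSucc j`).  By induction `w_n = win Z (-n) (2 n)`:
`win Z (-(n+1)) (2n+2) = Z (-(n+1)) :: (win Z (-n) (2n) ++ [Z n])` (`win_add` with lengths `1`, `2n`, `1`).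
A window `win Z p n` is a factor of `win Z (-m) (2m)` with `m = |p| + n` (`win_add` twice), so `InL.sub`.
-/

set_option autoImplicit false

namespace MW

private theorem b03_win_one (Z : ℤ → ℕ) (p : ℤ) : win Z p 1 = [Z p] := by
  unfold win
  simp

private theorem b03_step (Z : ℤ → ℕ) (n : ℕ) :
    win Z (-((n + 1 : ℕ) : ℤ)) (2 * (n + 1)) =
      Z (-((n + 1 : ℕ) : ℤ)) :: (win Z (-(n : ℤ)) (2 * n) ++ [Z (n : ℤ)]) := by
  have h1 : 2 * (n + 1) = 1 + (2 * n + 1) := by ring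
  have h2 : -((n + 1 : ℕ) : ℤ) + ((1 : ℕ) : ℤ) = -(n : ℤ) := by
    push_cast
    ring
  have h3 : -(n : ℤ) + ((2 * n : ℕ) : ℤ) = (n : ℤ) := by
    push_cast
    ring
  rw [h1, win_add, h2, win_add, h3, b03_win_one, b03_win_one]
  rfl

theorem exists_Z {u : ℕ → ℕ} (hf : (Set.range u).Finite) :
    ∃ Z : ℤ → ℕ, ∀ (p : ℤ) (n : ℕ), InL u (win Z p n) := by
  have h0 : InL u [] := by
    intro n
    refine ⟨n, le_rfl, ?_⟩
    intro i hi
    simp at hi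
  have hex : ∀ w : {w : List ℕ // InL u w}, ∃ bb : ℕ × ℕ, InL u (bb.1 :: (w.1 ++ [bb.2])) := by
    intro w
    obtain ⟨b, b', hb⟩ := InL.ext hf w.2
    exact ⟨(b, b'), hb⟩
  choose g hg using hex
  let W : ℕ → {w : List ℕ // InL u w} := fun n =>
    Nat.rec ⟨[], h0⟩ (fun _ w => ⟨(g w).1 :: (w.1 ++ [(g w).2]), hg w⟩) n
  have hW : ∀ n, (W (n + 1)).1 = (g (W n)).1 :: ((W n).1 ++ [(g (W n)).2]) := fun n => rfl
  let Z : ℤ → ℕ := fun i => match i with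
    | Int.ofNat n => (g (W n)).2
    | Int.negSucc n => (g (W n)).1
  have hZ1 : ∀ n : ℕ, Z (n : ℤ) = (g (W n)).2 := fun n => rfl
  have hZ2 : ∀ n : ℕ, Z (-((n + 1 : ℕ) : ℤ)) = (g (W n)).1 := fun n => rfl
  have hmain : ∀ n : ℕ, (W n).1 = win Z (-(n : ℤ)) (2 * n) := by
    intro n
    induction n with
    | zero => rfl
    | succ n ih => rw [hW, b03_step, hZ1, hZ2, ih]
  refine ⟨Z, fun p n => ?_⟩
  obtain ⟨m, hm⟩ : ∃ m : ℕ, m = p.natAbs + n := ⟨_, rfl⟩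
  obtain ⟨a, ha⟩ : ∃ a : ℕ, (a : ℤ) = p + m := ⟨(p + m).toNat, by
    rw [Int.toNat_of_nonneg]
    omega⟩
  obtain ⟨r, hr⟩ : ∃ r : ℕ, 2 * m = a + (n + r) := ⟨2 * m - a - n, by omega⟩
  have h1 : InL u (win Z (-(m : ℤ)) (2 * m)) := by
    rw [← hmain m]
    exact (W m).2
  refine h1.sub ⟨win Z (-(m : ℤ)) a, win Z (p + (n : ℤ)) r, ?_⟩
  have h2 : -(m : ℤ) + (a : ℤ) = p := by omega
  rw [hr, win_add, h2, win_add, List.append_assoc]

end MW
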