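import Pool.Agent.Lib.MP_dd05d9_lc.MW.NODefs

/-!
MW, part NO, module NOf: basic facts on normalised systems (used everywhere in case B).

mono: `S.N k l ≤ S.N (k+1) l` by induction on `l` (`Sys.N_cons`, `n3`), then `monotone_nat_of_le_succ`.
cst_child: as in NOd: if `t ∈ S.f s` were growing, `S.N 2 [s] > S.N 1 [s]` (split `S.f s`).
gr_child: if all `t ∈ S.f s` were constant, `S.N (k+1) [s] = S.N k (S.f s)` would be constant in `k`, contradiction to growing.
not_cst: growing is not constant.   gr_or_cst: from `n3`.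
cst_F: letters of `S.F l` are constant (cst_child).   cst_C: `S.C k l = S.C 0 l` for a list of constant letters (`nb`, `Sys.C_cons`).
n4: `C0` = 1 + max over `s : Q` of `S.N 1 [s]` (finite type).  Claim for `k = 0`: `S.N 1 [s] ≤ C0 * S.N 0 [s]`: if `s` is constant equality of lengths gives `S.N 1 [s] = S.N 0 [s]`; if growing
 `S.N 0 [s] ≥ 1`.  For lists by induction.  For general `k`: `S.N (k+1) l = S.N 1 (S.Fn k l) ≤ C0 * S.N 0 (S.Fn k l) = C0 * S.N k l` (`Sys.N_add` in the form `N (1 + k)`, `N (0 + k)`).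
mem_Fn: induction on `n ≥ 1`: `t ∈ S.Fn (n+1) [s] ↔ ∃ r ∈ S.f s, t ∈ S.Fn n [r]` (`Sys.Fn_succ`, `Sys.mem_Fn`) `↔ ∃ r ∈ S.f s, t ∈ S.f r ↔ t ∈ S.f s` (`n1`).
pos: a growing letter has `1 ≤ S.N k [s]` for all `k`.
lin: `k ≤ S.N k [s]` for growing `s` (strictly increasing sequence of naturals, `StrictMono.id_le` / `StrictMono.le_apply`).
-/

set_option autoImplicit false

namespace MW

namespace Nrm

variable {Q : Type} {S : Sys Q}

private theorem NOf_single (h : Nrm S) (s : Q) (k : ℕ) : S.N k [s] ≤ S.N (k + 1) [s] := by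
  rcases h.n3 s with h1 | h1
  · rw [h1 k, h1 (k + 1)]
  · exact h1.1.monotone (Nat.le_succ k)

private theorem NOf_list (h : Nrm S) (l : List Q) (k : ℕ) : S.N k l ≤ S.N (k + 1) l := by
  induction l with
  | nil => simp
  | cons s l ih =>
    rw [S.N_cons k s l, S.N_cons (k + 1) s l]
    exact Nat.add_le_add (NOf_single h s k) ih

theorem mono (h : Nrm S) (l : List Q) : Monotone (fun k => S.N k l) :=
  monotone_nat_of_le_succ (fun k => NOf_list h l k)

theorem not_cst {s : Q} (hs : S.Gr s) : ¬ S.Cst s := by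
  intro h
  have h1 : S.N 0 [s] < S.N 1 [s] := hs Nat.zero_lt_one
  have h2 := h 1
  omega

theorem gr_or_cst (h : Nrm S) (s : Q) : S.Gr s ∨ S.Cst s := by
  rcases h.n3 s with h1 | h1
  · exact Or.inr h1
  · exact Or.inl h1.1

theorem cst_child (h : Nrm S) {s t : Q} (hs : S.Cst s) (ht : t ∈ S.f s) : S.Cst t := by
  rcases h.gr_or_cst t with h1 | h1
  · exfalso
    obtain ⟨l1, l2, hl⟩ := List.append_of_mem ht
    have e : ∀ k, S.N (k + 1) [s] = S.N k l1 + (S.N k [t] + S.N k l2) := by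
      intro k
      rw [S.N_succ, S.F_single, hl, S.N_append, S.N_cons]
    have h2 : S.N 0 [t] < S.N 1 [t] := h1 Nat.zero_lt_one
    have h3 := NOf_list h l1 0
    have h4 := NOf_list h l2 0
    have h5 := e 0
    have h6 := e 1
    have h7 := hs 1
    have h8 := hs (1 + 1)
    rw [Nat.zero_add] at h3 h4 h5
    omega
  · exact h1

private theorem NOf_cst_list {l : List Q} (hl : ∀ s ∈ l, S.Cst s) (k : ℕ) : S.N k l = S.N 0 l := by
  induction l with
  | nil => simp
  | cons s l ih =>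
    rw [S.N_cons k s l, S.N_cons 0 s l, hl s (List.mem_cons_self ..) k,
      ih (fun t ht => hl t (List.mem_cons_of_mem _ ht))]

theorem gr_child (h : Nrm S) {s : Q} (hs : S.Gr s) : ∃ t ∈ S.f s, S.Gr t := by
  by_contra hc
  push Not at hc
  have h1 : ∀ t ∈ S.f s, S.Cst t := by
    intro t ht
    rcases h.gr_or_cst t with h2 | h2
    · exact absurd h2 (hc t ht)
    · exact h2
  have h2 : S.N 1 [s] < S.N 2 [s] := hs (by norm_num)
  have h3 : S.N (0 + 1) [s] = S.N 0 (S.f s) := by rw [S.N_succ, S.F_single]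
  have h4 : S.N (1 + 1) [s] = S.N 1 (S.f s) := by rw [S.N_succ, S.F_single]
  rw [NOf_cst_list h1 1, ← h3] at h4
  simp only [Nat.zero_add, Nat.reduceAdd] at h4
  omega

theorem cst_F (h : Nrm S) {l : List Q} (hl : ∀ s ∈ l, S.Cst s) : ∀ s ∈ S.F l, S.Cst s := by
  intro s hs
  rw [S.mem_F] at hs
  obtain ⟨r, hr, hs⟩ := hs
  exact h.cst_child (hl r hr) hs

theorem cst_C (h : Nrm S) {l : List Q} (hl : ∀ s ∈ l, S.Cst s) (k : ℕ) : S.C k l = S.C 0 l := by
  induction l with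
  | nil => simp
  | cons s l ih =>
    rw [S.C_cons k s l, S.C_cons 0 s l, h.nb s (hl s (List.mem_cons_self ..)) k,
      ih (fun t ht => hl t (List.mem_cons_of_mem _ ht))]

theorem n4 [Finite Q] (h : Nrm S) : ∃ C0, 1 ≤ C0 ∧ ∀ k l, S.N (k + 1) l ≤ C0 * S.N k l := by
  classical
  have := Fintype.ofFinite Q
  have hb : ∀ s : Q, S.N 1 [s] ≤ ∑ t : Q, S.N 1 [t] := fun s =>
    Finset.single_le_sum (f := fun t => S.N 1 [t]) (fun _ _ => Nat.zero_le _) (Finset.mem_univ s)
  set D := ∑ t : Q, S.N 1 [t] with hD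
  have h0 : ∀ s : Q, S.N 1 [s] ≤ (1 + D) * S.N 0 [s] := by
    intro s
    rcases h.n3 s with h1 | h1
    · rw [h1 1, add_mul, one_mul]
      exact Nat.le_add_right _ _
    · calc S.N 1 [s] ≤ D := hb s
        _ ≤ (1 + D) * 1 := by omega
        _ ≤ (1 + D) * S.N 0 [s] := Nat.mul_le_mul_left _ h1.2
  have h1 : ∀ l : List Q, S.N 1 l ≤ (1 + D) * S.N 0 l := by
    intro l
    induction l with
    | nil => simp
    | cons s l ih =>
      rw [S.N_cons 1 s l, S.N_cons 0 s l, Nat.mul_add]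
      exact Nat.add_le_add (h0 s) ih
  refine ⟨1 + D, Nat.le_add_right _ _, ?_⟩
  intro k l
  have e1 : S.N (k + 1) l = S.N 1 (S.Fn k l) := by rw [add_comm, S.N_add]
  have e2 : S.N k l = S.N 0 (S.Fn k l) := by rw [← S.N_add, Nat.zero_add]
  rw [e1, e2]
  exact h1 _

theorem mem_Fn (h : Nrm S) {s t : Q} {n : ℕ} (hn : 0 < n) : t ∈ S.Fn n [s] ↔ t ∈ S.f s := by
  obtain ⟨m, rfl⟩ : ∃ m, n = m + 1 := ⟨n - 1, by omega⟩
  clear hn
  induction m generalizing s with
  | zero => rw [S.Fn_succ, S.Fn_zero, S.F_single]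
  | succ m ih =>
    rw [S.Fn_succ, S.F_single, S.mem_Fn, ← h.n1 s t]
    constructor
    · rintro ⟨r, hr, ht⟩
      exact ⟨r, hr, ih.mp ht⟩
    · rintro ⟨r, hr, ht⟩
      exact ⟨r, hr, ih.mpr ht⟩

theorem pos (h : Nrm S) {s : Q} (hs : S.Gr s) (k : ℕ) : 1 ≤ S.N k [s] := by
  rcases h.n3 s with h1 | h1
  · exact absurd h1 (not_cst hs)
  · have h2 : S.N 0 [s] ≤ S.N k [s] := hs.monotone (Nat.zero_le k)
    exact h1.2.trans h2

theorem lin (_h : Nrm S) {s : Q} (hs : S.Gr s) (k : ℕ) : k ≤ S.N k [s] :=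
  StrictMono.le_apply hs

end Nrm

end MW
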