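import Pool.Agent.Lib.MP_dd05d9_lc.MW.BDefs2
import Pool.Agent.Lib.MP_dd05d9_lc.MW.NOf

/-!
B04: further facts on letters of normalised systems (see NOf for `mono`, `not_cst`, `gr_or_cst`, `cst_child`,
`gr_child`, `cst_F`, `cst_C`, `n4`, `mem_Fn`, `pos`, `lin`).
-/

set_option autoImplicit false

namespace MW

section

variable {Q : Type} {S : Sys Q}

theorem Nrm.cst_of_not_gr (hN : Nrm S) {s : Q} (h : ¬ S.Gr s) : S.Cst s :=
  (hN.gr_or_cst s).resolve_left h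

theorem Nrm.cst_Fn (hN : Nrm S) {c : List Q} (h : ∀ t ∈ c, S.Cst t) (n : ℕ) :
    ∀ t ∈ S.Fn n c, S.Cst t := by
  induction n with
  | zero => exact h
  | succ n ih => rw [S.Fn_succ']; exact hN.cst_F ih

theorem Nrm.gr_Fn (hN : Nrm S) {s : Q} (h : S.Gr s) (n : ℕ) : ∃ t ∈ S.Fn n [s], S.Gr t := by
  induction n with
  | zero => exact ⟨s, by simp, h⟩
  | succ n ih =>
    obtain ⟨t, ht, hg⟩ := ih
    obtain ⟨r, hr, hg'⟩ := hN.gr_child hg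
    exact ⟨r, by rw [S.Fn_succ', S.mem_F]; exact ⟨t, ht, hr⟩, hg'⟩

/-- a word with a growing letter has growing letters in all its images -/
theorem Nrm.gr_Fn' (hN : Nrm S) {l : List Q} (h : ∃ t ∈ l, S.Gr t) (n : ℕ) :
    ∃ t ∈ S.Fn n l, S.Gr t := by
  obtain ⟨s, hs, hg⟩ := h
  obtain ⟨t, ht, hg'⟩ := hN.gr_Fn hg n
  exact ⟨t, (S.mem_Fn).2 ⟨s, hs, ht⟩, hg'⟩

/-- if all letters of `F^n l` are constant, so are those of `l` -/
theorem Nrm.cst_of_Fn (hN : Nrm S) {l : List Q} {n : ℕ} (h : ∀ t ∈ S.Fn n l, S.Cst t) :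
    ∀ t ∈ l, S.Cst t := by
  intro t ht
  by_contra hc
  have hg : S.Gr t := (hN.gr_or_cst t).resolve_right hc
  obtain ⟨r, hr, hg'⟩ := hN.gr_Fn' ⟨t, ht, hg⟩ n
  exact Nrm.not_cst hg' (h r hr)

theorem Nrm.C_cst_Fn (hN : Nrm S) {c : List Q} (h : ∀ t ∈ c, S.Cst t) (n k : ℕ) :
    S.C k (S.Fn n c) = S.C 0 c := by
  rw [← S.C_add, hN.cst_C h]

theorem Nrm.N_cst_Fn (hN : Nrm S) {c : List Q} (h : ∀ t ∈ c, S.Cst t) (n k : ℕ) :
    S.N k (S.Fn n c) = S.N 0 c := by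
  unfold Sys.N
  rw [hN.C_cst_Fn h]

theorem Nrm.N_cst (hN : Nrm S) {c : List Q} (h : ∀ t ∈ c, S.Cst t) (k : ℕ) :
    S.N k c = S.N 0 c := by
  unfold Sys.N
  rw [hN.cst_C h]

end

end MW
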