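import Pool.Agent.Lib.MP_dd05d9_lc.MW.B04

/-!
B05: recurrent letters.  `f a = a :: x` (`x` is unique).

* `Rec.child`: `s in F x`, so `s in f r` with `r in x`; `t in f s`; by `n1` (`r` for `s`) `t in f r`, so `t in F x`.
* `Rec.Fn`: induction with `Fn_succ'`, `mem_F`.
* `Rec.pre`: `Fn 2 [a] = F (a :: x) = a :: x ++ F x`; split `F x` at `s` (`List.append_of_mem`); `y = a :: x ++ l1`.
* `Rec.inL`: for every `i`: `s in Fn (i+1) x` (`s in f r`, `r in x`; `Nrm.mem_Fn` with `n = i+1`, `mem_Fn`) and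
  `Fn (i+2) [a] = Fn (i+1) [a] ++ Fn (i+1) x` (`Fn_succ`, `F_single`, `Fn_cons`).  So `y ++ [s] <+: Fn (i+2) [a]` with
  `Fn (i+1) [a] <+: y`; `Gen.occ_block` gives `Occ u (C k [s]) (N k y)` and `N k y >= N k (Fn (i+1) [a]) = N (k+i+1) [a]`
  (`N_add`, `N_le_of_prefix`), which is unbounded in `i` (`Gen.unb_N`).
* `exists_gr`: suppose no recurrent letter is growing.  All letters of `F x` are constant (`Nrm.cst_of_not_gr`), so
  `C k (F x) = C 0 (F x) =: X` (`Nrm.cst_C`).  `Fn 2 [a] = F [a] ++ F x`, so `C (k+2) [a] = C (k+1) [a] ++ X` for all `k`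
  (`C_add` with `j = 2`, `C_succ`).  If `X = []` then `N k [a]` is bounded, against `Gen.unb`.  Otherwise `d = |X|`,
  `p = N 1 [a]`: `UP u` with `p, d`: `u` has `X` at every position `p + d k` (`Gen.pre` for `C (k+2) [a]`); for `n >= p` write
  `n = p + d k + i`, `i < d`: `u n = X.getD i 0 = u (n + d)`.
-/

set_option autoImplicit false

namespace MW

section

variable {Q : Type} {S : Sys Q} {u : ℕ → ℕ}

theorem Rec.child (hN : Nrm S) {s t : Q} (hs : Rec S s) (ht : t ∈ S.f s) : Rec S t := by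
  obtain ⟨x, hx, hs⟩ := hs
  rw [S.mem_F] at hs
  obtain ⟨r, hr, hsr⟩ := hs
  exact ⟨x, hx, (S.mem_F).2 ⟨r, hr, (hN.n1 r t).1 ⟨s, hsr, ht⟩⟩⟩

theorem Rec.Fn (hN : Nrm S) {s t : Q} (hs : Rec S s) {n : ℕ} (ht : t ∈ S.Fn n [s]) : Rec S t := by
  induction n generalizing t with
  | zero =>
    rw [S.Fn_zero, List.mem_singleton] at ht
    subst ht
    exact hs
  | succ n ih =>
    rw [S.Fn_succ', S.mem_F] at ht
    obtain ⟨r, hr, ht⟩ := ht
    exact (ih hr).child hN ht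

theorem Rec.pre (h : Gen S u) {s : Q} (hs : Rec S s) :
    ∃ y, y ≠ [] ∧ y ++ [s] <+: S.Fn 2 [S.a] := by
  have _ := h
  obtain ⟨x, hx, hs⟩ := hs
  obtain ⟨l1, l2, hl⟩ := List.append_of_mem hs
  refine ⟨S.a :: x ++ l1, by simp, l2, ?_⟩
  have e : S.Fn 2 [S.a] = S.a :: x ++ S.F x := by
    change S.F (S.F [S.a]) = _
    rw [S.F_single, hx, S.F_cons, hx]
  rw [e, hl]
  simp

/-- blocks of lists which are factors of `F^(i+1) x` for all large `i` -/
private theorem B05_inL (h : Gen S u) {x : List Q} (hx : S.f S.a = S.a :: x) {l : List Q}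
    (hl : ∀ i, ∃ j, i ≤ j ∧ l <:+: S.Fn (j + 1) x) (k : ℕ) : InL u (S.C k l) := by
  intro n
  obtain ⟨k0, hk0⟩ := h.unb_N n
  obtain ⟨j, hj, p, q, hpq⟩ := hl k0
  have e : S.Fn (j + 2) [S.a] = S.Fn (j + 1) [S.a] ++ S.Fn (j + 1) x := by
    rw [show j + 2 = (j + 1) + 1 from rfl, S.Fn_succ, S.F_single, hx, S.Fn_cons]
  have hpre : (S.Fn (j + 1) [S.a] ++ p) ++ l <+: S.Fn (j + 2) [S.a] := by
    refine ⟨q, ?_⟩
    rw [e, ← hpq]
    simp only [List.append_assoc]
  refine ⟨S.N k (S.Fn (j + 1) [S.a] ++ p), ?_, h.occ_block hpre k⟩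
  rw [S.N_append, ← S.N_add]
  exact (hk0 (k + (j + 1)) (by omega)).trans (Nat.le_add_right _ _)

theorem Rec.inL (h : Gen S u) (hN : Nrm S) {s : Q} (hs : Rec S s) (k : ℕ) :
    InL u (S.C k [s]) := by
  obtain ⟨x, hx, hs⟩ := hs
  rw [S.mem_F] at hs
  obtain ⟨r, hr, hsr⟩ := hs
  refine B05_inL h hx ?_ k
  intro i
  refine ⟨i, le_rfl, Sys.infix_of_mem ?_⟩
  rw [S.mem_Fn]
  exact ⟨r, hr, (hN.mem_Fn (Nat.succ_pos i)).2 hsr⟩

/-- words of the form `C k l`, `l` a factor of `F^n s` -/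
theorem Rec.inL' (h : Gen S u) (hN : Nrm S) {s : Q} (hs : Rec S s) {n : ℕ} {l : List Q}
    (hl : l <:+: S.Fn n [s]) (k : ℕ) : InL u (S.C k l) := by
  intro m
  obtain ⟨p, hp, ho⟩ := hs.inL h hN (k + n) m
  obtain ⟨a, b, hab⟩ := hl
  rw [S.C_add, ← hab, S.C_append, S.C_append] at ho
  exact ⟨p + (S.C k a).length, by omega, ho.mid⟩

private theorem B05_step (h : Gen S u) {x : List Q} (hx : S.f S.a = S.a :: x)
    (hc : ∀ k, S.C k (S.F x) = S.C 0 (S.F x)) (k : ℕ) :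
    S.C (k + 2) [S.a] = S.C (k + 1) [S.a] ++ S.C 0 (S.F x) := by
  have _ := h
  have e : S.Fn 2 [S.a] = S.Fn 1 [S.a] ++ S.F x := by
    change S.F (S.F [S.a]) = S.F [S.a] ++ S.F x
    rw [S.F_single, hx, S.F_cons, hx]
  rw [S.C_add k 2, e, S.C_append, hc k, ← S.C_add]

theorem exists_gr (H : HB S u) : ∃ s, Rec S s ∧ S.Gr s := by
  by_contra hcon
  push Not at hcon
  obtain ⟨x, hx⟩ := H.gen.start
  have hcst : ∀ t ∈ S.F x, S.Cst t := fun t ht =>
    H.nrm.cst_of_not_gr (hcon t ⟨x, hx, ht⟩)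
  have hc : ∀ k, S.C k (S.F x) = S.C 0 (S.F x) := fun k => H.nrm.cst_C hcst k
  have hstep := B05_step H.gen hx hc
  have hlen : ∀ k, S.N (k + 1) [S.a] = S.N 1 [S.a] + k * (S.C 0 (S.F x)).length := by
    intro k
    induction k with
    | zero => simp
    | succ k ih =>
      have e : S.N (k + 1 + 1) [S.a] = (S.C (k + 2) [S.a]).length := rfl
      rw [e, hstep k, List.length_append]
      change S.N (k + 1) [S.a] + _ = _
      rw [ih]
      ring
  rcases Nat.eq_zero_or_pos (S.C 0 (S.F x)).length with h0 | hd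
  · obtain ⟨k, hk⟩ := H.gen.unb_N (S.N 1 [S.a] + 1)
    have h1 := hk (k + 1) (by omega)
    rw [hlen k, h0] at h1
    omega
  · apply H.nup
    refine ⟨S.N 1 [S.a], (S.C 0 (S.F x)).length, hd, ?_⟩
    have hocc : ∀ k, Occ u (S.C 0 (S.F x)) (S.N 1 [S.a] + k * (S.C 0 (S.F x)).length) := by
      intro k
      have h1 := H.gen.pre (k + 2)
      rw [hstep k] at h1
      have h2 := (occ_append.1 h1).2
      rw [Nat.zero_add] at h2
      have h3 : (S.C (k + 1) [S.a]).length = S.N 1 [S.a] + k * (S.C 0 (S.F x)).length := hlen k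
      rwa [h3] at h2
    intro n hn
    set d := (S.C 0 (S.F x)).length with hdd
    set p := S.N 1 [S.a] with hp
    have hi : (n - p) % d < d := Nat.mod_lt _ hd
    have e : d * ((n - p) / d) + (n - p) % d = n - p := Nat.div_add_mod _ _
    have h1 := hocc ((n - p) / d) ((n - p) % d) hi
    have h2 := hocc ((n - p) / d + 1) ((n - p) % d) hi
    have e1 : p + (n - p) / d * d + (n - p) % d = n := by
      rw [Nat.mul_comm ((n - p) / d) d]
      omega
    have e2 : p + ((n - p) / d + 1) * d + (n - p) % d = n + d := by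
      rw [Nat.add_mul, Nat.one_mul, Nat.mul_comm ((n - p) / d) d]
      omega
    rw [e1] at h1
    rw [e2] at h2
    rw [← h1, ← h2]

end

end MW
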