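import Pool.Agent.Lib.MP_dd05d9_lc.MW.B05
import Pool.Agent.Lib.MP_dd05d9_lc.MW.B02

/-!
B06: constant suffixes of `F^i z`, `z` growing, have bounded output.
-/

set_option autoImplicit false

namespace MW

theorem orbit_sum {Q : Type} [Fintype Q] (L : Q → Q) (g : Q → ℕ)
    (hg : ∀ z n, L^[n + 1] z = z → g z = 0) (z : Q) (i : ℕ) :
    ∑ j ∈ Finset.range i, g (L^[j] z) ≤ ∑ z, g z := by
  classical
  have key : ∀ j j', j < j' → L^[j] z = L^[j'] z → g (L^[j] z) = 0 := by
    intro j j' hj he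
    refine hg (L^[j] z) (j' - j - 1) ?_
    rw [← Function.iterate_add_apply]
    have : j' - j - 1 + 1 + j = j' := by omega
    rw [this, he]
  rw [← Finset.sum_filter_ne_zero]
  have hinj : Set.InjOn (fun j => L^[j] z)
      ((Finset.range i).filter (fun j => g (L^[j] z) ≠ 0) : Set ℕ) := by
    intro j hj j' hj' he
    rw [Finset.mem_coe, Finset.mem_filter] at hj hj'
    rcases Nat.lt_trichotomy j j' with h | h | h
    · exact absurd (key j j' h he) hj.2
    · exact h
    · exact absurd (key j' j h he.symm) hj'.2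
  rw [← Finset.sum_image (f := g) hinj]
  exact Finset.sum_le_sum_of_subset (Finset.subset_univ _)

theorem last_split_list {α : Type} (p : α → Prop) {l : List α} (h : ∃ t ∈ l, p t) :
    ∃ l1 t l2, l = l1 ++ [t] ++ l2 ∧ p t ∧ ∀ x ∈ l2, ¬ p x := by
  induction l with
  | nil =>
    obtain ⟨t, ht, _⟩ := h
    simp at ht
  | cons s l ih =>
    by_cases hl : ∃ t ∈ l, p t
    · obtain ⟨l1, t, l2, h1, h2, h3⟩ := ih hl
      refine ⟨s :: l1, t, l2, ?_, h2, h3⟩
      rw [h1]
      rfl
    · refine ⟨[], s, l, rfl, ?_, fun x hx hp => hl ⟨x, hx, hp⟩⟩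
      obtain ⟨t, ht, hp⟩ := h
      rcases List.mem_cons.1 ht with h1 | h1
      · rwa [h1] at hp
      · exact absurd ⟨t, h1, hp⟩ hl

theorem tail_bound {Q : Type} [Finite Q] {S : Sys Q} {u : ℕ → ℕ} (H : HB S u) :
    ∃ b, ∀ z, Rec S z → S.Gr z → ∀ i c, c <:+ S.Fn i [z] → (∀ t ∈ c, S.Cst t) → S.N 0 c ≤ b := by
  classical
  have := Fintype.ofFinite Q
  have hN := H.nrm
  have hex : ∀ z, ∃ (pre : List Q) (g : Q) (tl : List Q),
      S.Gr z → S.f z = pre ++ [g] ++ tl ∧ S.Gr g ∧ ∀ t ∈ tl, S.Cst t := by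
    intro z
    by_cases hz : S.Gr z
    · obtain ⟨l1, t, l2, h1, h2, h3⟩ := last_split_list (fun t => S.Gr t) (hN.gr_child hz)
      exact ⟨l1, t, l2, fun _ => ⟨h1, h2, fun t ht => hN.cst_of_not_gr (h3 t ht)⟩⟩
    · exact ⟨[], z, [], fun h => absurd h hz⟩
  choose pre L tl h1 using hex
  obtain ⟨g, hg⟩ : ∃ g : Q → ℕ, ∀ z, g z = if Rec S z ∧ S.Gr z then S.N 0 (tl z) else 0 :=
    ⟨_, fun _ => rfl⟩
  have step1 : ∀ z, Rec S z → S.Gr z → ∀ i, ∃ P c, S.Fn i [z] = P ++ [L^[i] z] ++ c ∧
      S.Gr (L^[i] z) ∧ Rec S (L^[i] z) ∧ (∀ t ∈ c, S.Cst t) ∧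
      S.N 0 c = ∑ j ∈ Finset.range i, g (L^[j] z) := by
    intro z hz1 hz2 i
    induction i with
    | zero => exact ⟨[], [], rfl, hz2, hz1, by simp, by simp⟩
    | succ i ih =>
      obtain ⟨P, c, e1, e2, e3, e4, e5⟩ := ih
      obtain ⟨f1, f2, f3⟩ := h1 (L^[i] z) e2
      rw [Function.iterate_succ_apply']
      refine ⟨S.F P ++ pre (L^[i] z), tl (L^[i] z) ++ S.F c, ?_, f2, ?_, ?_, ?_⟩
      · rw [Sys.Fn_succ', e1, Sys.F_append, Sys.F_append, Sys.F_single, f1]
        simp
      · refine Rec.child hN e3 ?_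
        rw [f1]
        simp
      · intro t ht
        rcases List.mem_append.1 ht with h | h
        · exact f3 t h
        · exact hN.cst_F e4 t h
      · rw [Sys.N_append, Finset.sum_range_succ, ← e5]
        have h2 : S.N 0 (S.F c) = S.N 0 c := hN.N_cst_Fn e4 1 0
        have h3 : g (L^[i] z) = S.N 0 (tl (L^[i] z)) := by
          rw [hg, if_pos ⟨e3, e2⟩]
        rw [h2, h3]
        omega
  have step2 : ∀ z n, L^[n + 1] z = z → g z = 0 := by
    intro z n hz
    by_contra hne
    have hzz : Rec S z ∧ S.Gr z := by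
      by_contra hc
      rw [hg, if_neg hc] at hne
      exact hne rfl
    obtain ⟨P, c, e1, -, -, e4, e5⟩ := step1 z hzz.1 hzz.2 (n + 1)
    rw [hz] at e1
    have hpos : 0 < S.N 0 c := by
      rw [e5]
      have h2 : g (L^[0] z) ≤ ∑ j ∈ Finset.range (n + 1), g (L^[j] z) :=
        Finset.single_le_sum (f := fun j => g (L^[j] z)) (fun _ _ => Nat.zero_le _) (by simp)
      have h3 : 0 < g (L^[0] z) := Nat.pos_of_ne_zero hne
      omega
    have hX : S.C 0 c ≠ [] := by
      intro h
      unfold Sys.N at hpos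
      rw [h] at hpos
      simp at hpos
    obtain ⟨m, hm⟩ := no_pow (fin_range H.gen) H.nup H.cb hX
    apply hm
    have hit : ∀ m, ∃ P' d, S.Fn ((n + 1) * m) [z] = P' ++ [z] ++ d ∧ (∀ t ∈ d, S.Cst t) ∧
        S.C 0 d = (List.replicate m (S.C 0 c)).flatten := by
      intro m
      induction m with
      | zero => exact ⟨[], [], rfl, by simp, by simp⟩
      | succ m ih =>
        obtain ⟨P', d, f1, f2, f3⟩ := ih
        refine ⟨S.Fn ((n + 1) * m) P ++ P', d ++ S.Fn ((n + 1) * m) c, ?_, ?_, ?_⟩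
        · rw [Nat.mul_add, Nat.mul_one, Sys.Fn_add, e1, Sys.Fn_append, Sys.Fn_append, f1]
          simp
        · intro t ht
          rcases List.mem_append.1 ht with h | h
          · exact f2 t h
          · exact hN.cst_Fn e4 _ t h
        · rw [Sys.C_append, f3, hN.C_cst_Fn e4, List.replicate_succ', List.flatten_append]
          simp
    obtain ⟨P', d, f1, -, f3⟩ := hit m
    rw [← f3]
    refine Rec.inL' H.gen hN hzz.1 (n := (n + 1) * m) (l := d) ?_ 0
    rw [f1]
    exact (List.suffix_append _ _).isInfix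
  refine ⟨∑ z, g z, fun z hz1 hz2 i c hc hcst => ?_⟩
  obtain ⟨P, ci, e1, e2, -, -, e5⟩ := step1 z hz1 hz2 i
  have hsuf : c <:+ ci := by
    have h2 : ci <:+ S.Fn i [z] := by
      rw [e1]
      exact List.suffix_append _ _
    rcases Nat.le_total c.length ci.length with h | h
    · exact List.suffix_of_suffix_length_le hc h2 h
    · rcases Nat.lt_or_ge ci.length c.length with h3 | h3
      · exfalso
        have h4 : [L^[i] z] ++ ci <:+ S.Fn i [z] := by
          rw [e1, List.append_assoc]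
          exact List.suffix_append _ _
        have h5 : [L^[i] z] ++ ci <:+ c := by
          refine List.suffix_of_suffix_length_le h4 hc ?_
          rw [List.length_append, List.length_singleton]
          omega
        have h6 : L^[i] z ∈ c := h5.subset (by simp)
        exact Nrm.not_cst e2 (hcst _ h6)
      · exact List.suffix_of_suffix_length_le hc h2 h3
  calc S.N 0 c ≤ S.N 0 ci := S.N_le_of_infix hsuf.isInfix
    _ = ∑ j ∈ Finset.range i, g (L^[j] z) := e5
    _ ≤ ∑ z, g z := orbit_sum L g step2 z i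

end MW
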