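import Pool.Agent.Lib.MP_dd05d9_lc.MW.B06

/-!
B07: constant prefixes of `F^i z`, `z` growing, have bounded output.  Exactly the mirror image of `tail_bound` (read the
head comment of B06).

* `first_split_list`: list lemma.
* `head_bound`.  For growing `z` write `f z = hd z ++ [fg z] ++ suf z`, `fg z` growing, `hd z` constant.  (1) `F^i z = c ++ [L^[i] z] ++ P`,
  step: `F c ++ hd ++ [fg] ++ (suf ++ F P)`, `N 0 (F c ++ hd) = N 0 c + N 0 hd`.  (2) `F^((n+1) m) z = d ++ [z] ++ P'`,
  `C 0 d = (List.replicate m X).flatten` (`F^((n+1)(m+1)) z = F^((n+1) m) (c ++ [z] ++ P) = F^(..) c ++ d ++ [z] ++ ..`,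
  `List.replicate_succ`).  (3) `orbit_sum`.
-/

set_option autoImplicit false

namespace MW

theorem first_split_list {α : Type} (p : α → Prop) {l : List α} (h : ∃ t ∈ l, p t) :
    ∃ l1 t l2, l = l1 ++ [t] ++ l2 ∧ p t ∧ ∀ x ∈ l1, ¬ p x := by
  induction l with
  | nil =>
    obtain ⟨t, ht, _⟩ := h
    exact absurd ht List.not_mem_nil
  | cons x l ih =>
    by_cases hx : p x
    · exact ⟨[], x, l, rfl, hx, fun y hy => absurd hy List.not_mem_nil⟩
    · obtain ⟨t, ht, hpt⟩ := h
      rcases List.mem_cons.1 ht with rfl | ht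
      · exact absurd hpt hx
      · obtain ⟨l1, t', l2, h1, h2, h3⟩ := ih ⟨t, ht, hpt⟩
        refine ⟨x :: l1, t', l2, by rw [h1]; rfl, h2, ?_⟩
        intro y hy
        rcases List.mem_cons.1 hy with rfl | hy
        · exact hx
        · exact h3 y hy

private theorem b07_N {Q : Type} {S : Sys Q} (hN : Nrm S) {c : List Q} (hc : ∀ t ∈ c, S.Cst t) (k : ℕ) :
    S.C 0 (S.Fn k c) = S.C 0 c := by
  rw [← S.C_add, Nat.zero_add, hN.cst_C hc]

theorem head_bound {Q : Type} [Finite Q] {S : Sys Q} {u : ℕ → ℕ} (H : HB S u) :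
    ∃ b, ∀ z, Rec S z → S.Gr z → ∀ i c, c <+: S.Fn i [z] → (∀ t ∈ c, S.Cst t) → S.N 0 c ≤ b := by
  classical
  have hfin := Fintype.ofFinite Q
  have hN := H.nrm
  have hex : ∀ z, ∃ (hd : List Q) (fg : Q) (suf : List Q),
      ((Rec S z ∧ S.Gr z) → S.f z = hd ++ [fg] ++ suf ∧ Rec S fg ∧ S.Gr fg ∧ ∀ t ∈ hd, S.Cst t) ∧
      (¬ (Rec S z ∧ S.Gr z) → hd = []) := by
    intro z
    by_cases hz : Rec S z ∧ S.Gr z
    · obtain ⟨l1, t, l2, h1, h2, h3⟩ := first_split_list (fun t => S.Gr t) (hN.gr_child hz.2)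
      refine ⟨l1, t, l2, fun _ => ⟨h1, ?_, h2, fun x hx => ?_⟩, fun h => absurd hz h⟩
      · exact Rec.child hN hz.1 (by rw [h1]; simp)
      · rcases hN.gr_or_cst x with h | h
        · exact absurd h (h3 x hx)
        · exact h
    · exact ⟨[], z, [], fun h => absurd h hz, fun _ => rfl⟩
  choose hd fg suf hR hNR using hex
  -- (1)
  have h1 : ∀ z, Rec S z → S.Gr z → ∀ i, ∃ c P, S.Fn i [z] = c ++ [fg^[i] z] ++ P ∧ Rec S (fg^[i] z) ∧
      S.Gr (fg^[i] z) ∧ (∀ t ∈ c, S.Cst t) ∧
      S.N 0 c = ∑ j ∈ Finset.range i, S.N 0 (hd (fg^[j] z)) := by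
    intro z hz hg i
    induction i with
    | zero => exact ⟨[], [], rfl, hz, hg, fun t ht => absurd ht List.not_mem_nil, by simp⟩
    | succ i ih =>
      obtain ⟨c, P, e1, e2, e3, e4, e5⟩ := ih
      obtain ⟨r1, r2, r3, r4⟩ := hR (fg^[i] z) ⟨e2, e3⟩
      refine ⟨S.F c ++ hd (fg^[i] z), suf (fg^[i] z) ++ S.F P, ?_, ?_, ?_, ?_, ?_⟩
      · rw [S.Fn_succ', e1, S.F_append, S.F_append, S.F_single, r1, Function.iterate_succ_apply']
        simp only [List.append_assoc]
      · rw [Function.iterate_succ_apply']; exact r2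
      · rw [Function.iterate_succ_apply']; exact r3
      · intro t ht
        rcases List.mem_append.1 ht with ht | ht
        · exact hN.cst_F e4 t ht
        · exact r4 t ht
      · rw [S.N_append, Finset.sum_range_succ, ← e5]
        congr 1
        have := b07_N hN e4 1
        rw [S.Fn_one] at this
        rw [← S.C_length, this, S.C_length]
  -- (2)
  have h2 : ∀ z n, fg^[n + 1] z = z → S.N 0 (hd z) = 0 := by
    intro z n hzn
    by_cases hz : Rec S z ∧ S.Gr z
    · by_contra hne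
      obtain ⟨c, P, e1, e2, e3, e4, e5⟩ := h1 z hz.1 hz.2 (n + 1)
      rw [hzn] at e1
      have hpos : 0 < S.N 0 c := by
        rw [e5]
        have h3 : S.N 0 (hd (fg^[0] z)) ≤ ∑ j ∈ Finset.range (n + 1), S.N 0 (hd (fg^[j] z)) :=
          Finset.single_le_sum (f := fun j => S.N 0 (hd (fg^[j] z))) (fun _ _ => Nat.zero_le _)
            (Finset.mem_range.2 (Nat.succ_pos n))
        have h4 : S.N 0 (hd (fg^[0] z)) = S.N 0 (hd z) := rfl
        omega
      have hX : S.C 0 c ≠ [] := by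
        intro h
        rw [← S.C_length, h] at hpos
        exact absurd hpos (by simp)
      have hpow : ∀ m, ∃ d P', S.Fn ((n + 1) * m) [z] = d ++ [z] ++ P' ∧
          S.C 0 d = (List.replicate m (S.C 0 c)).flatten := by
        intro m
        induction m with
        | zero => exact ⟨[], [], rfl, by simp⟩
        | succ m ih =>
          obtain ⟨d, P', f1, f2⟩ := ih
          refine ⟨S.Fn ((n + 1) * m) c ++ d, P' ++ S.Fn ((n + 1) * m) P, ?_, ?_⟩
          · rw [Nat.mul_succ, S.Fn_add, e1, S.Fn_append, S.Fn_append, f1]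
            simp only [List.append_assoc]
          · rw [S.C_append, b07_N hN e4, f2, List.replicate_succ, List.flatten_cons]
      obtain ⟨m, hm⟩ := no_pow (fin_range H.gen) H.nup H.cb hX
      obtain ⟨d, P', f1, f2⟩ := hpow m
      apply hm
      rw [← f2]
      exact Rec.inL' H.gen hN hz.1 (n := (n + 1) * m) (by rw [f1]; exact ⟨[], [z] ++ P', by simp⟩) 0
    · rw [hNR z hz, S.N_nil]
  refine ⟨∑ z, S.N 0 (hd z), ?_⟩
  intro z hz hg i c hc hcc
  obtain ⟨ci, P, e1, e2, e3, e4, e5⟩ := h1 z hz hg i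
  have hpre : c <+: ci := by
    rw [e1] at hc
    have h3 : ci ++ [fg^[i] z] <+: ci ++ [fg^[i] z] ++ P := List.prefix_append _ _
    have h4 : ci <+: ci ++ [fg^[i] z] ++ P := by rw [List.append_assoc]; exact List.prefix_append _ _
    rcases Nat.lt_or_ge ci.length c.length with hlt | hge
    · exfalso
      have h5 : ci ++ [fg^[i] z] <+: c := List.prefix_of_prefix_length_le h3 hc (by
        rw [List.length_append, List.length_singleton]; omega)
      have h6 : fg^[i] z ∈ c := h5.subset (by simp)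
      exact Nrm.not_cst e3 (hcc _ h6)
    · exact List.prefix_of_prefix_length_le hc h4 hge
  calc S.N 0 c ≤ S.N 0 ci := S.N_le_of_prefix hpre
    _ = ∑ j ∈ Finset.range i, S.N 0 (hd (fg^[j] z)) := e5
    _ ≤ ∑ z, S.N 0 (hd z) := orbit_sum fg (fun z => S.N 0 (hd z)) h2 z i

end MW
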