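import Pool.Agent.Lib.MP_dd05d9_lc.MW.B07

/-!
B08: (InsB) constant words between two growing letters of `F^n s`, `s` recurrent, have bounded output.

* `flatMap_split`: a letter `z` of `l.flatMap g` lies in `g t` for one `t` (induction on `l`;
  `List.append_eq_append_iff` or `List.append_eq_append_iff`: either `A ++ [z]` is a prefix of `g t` or `g t` is a prefix of `A`).
* `insB`.  `b1, b2` from `tail_bound`, `head_bound`, `b3 = ` sum over all letters `s` of `N 0 (f s)`; `b0 = b1 + b3 + b2`.  Induction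
  on `n` (for all recurrent `s`).  `n = 0`: `[s]` has length 1, the factor has length `>= 2`.  Step: `F^(n+1) s = F^n (f s)
  = (f s).flatMap (fun t => F^n [t])` (`Fn_succ`, `F_single`, `Fn_flatMap`) `= A ++ [z] ++ (c ++ [z'] ++ B)`.  `flatMap_split` at `z`:
  `f s = l1 ++ [t1] ++ l2`, `F^n [t1] = A' ++ [z] ++ B'`, `c ++ [z'] ++ B = B' ++ F^n l2`.
  If `c ++ [z']` is a prefix of `B'`: the factor lies in `F^n [t1]`, `t1` recurrent (`Rec.child`): induction hypothesis.
  Otherwise `c = B' ++ c'` and `c' ++ [z'] ++ B = F^n l2`.  `flatMap_split` at `z'`: `l2 = c0 ++ [t2] ++ l3`,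
  `F^n [t2] = c2 ++ [z'] ++ B''`, `c' = F^n c0 ++ c2`.  So `c = B' ++ F^n c0 ++ c2`, all constant.  `t1`, `t2` are growing (a constant
  letter has only constant letters in `F^n`, `Nrm.cst_Fn`; `z`, `z'` are growing); `N 0 B' <= b1` (suffix of `F^n [t1]`),
  `N 0 c2 <= b2` (prefix of `F^n [t2]`).  The letters of `c0` are constant (`Nrm.gr_Fn`), so `N 0 (F^n c0) = N 0 c0`
  (`Nrm.C_cst_Fn`) `<= N 0 (f s) <= b3`.
-/

set_option autoImplicit false

namespace MW

private theorem B08_last {α : Type} {x y w : List α} {a : α} (h : x ++ [a] = y ++ w) :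
    w = [] ∨ ∃ v, w = v ++ [a] ∧ x = y ++ v := by
  rcases List.eq_nil_or_concat w with h1 | ⟨v, b, h1⟩
  · exact Or.inl h1
  · right
    have h2 : w = v ++ [b] := by rw [h1, List.concat_eq_append]
    rw [h2, ← List.append_assoc] at h
    obtain ⟨h3, h4⟩ := List.append_inj' h rfl
    refine ⟨v, ?_, h3⟩
    rw [h2, h4]

theorem flatMap_split {α β : Type} (g : α → List β) {l : List α} {A B : List β} {z : β}
    (h : l.flatMap g = A ++ [z] ++ B) :
    ∃ l1 t l2 A' B', l = l1 ++ [t] ++ l2 ∧ g t = A' ++ [z] ++ B' ∧ A = l1.flatMap g ++ A' ∧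
      B = B' ++ l2.flatMap g := by
  induction l generalizing A with
  | nil =>
    exfalso
    rw [List.flatMap_nil] at h
    have h1 := congrArg List.length h
    simp at h1
  | cons t l ih =>
    rw [List.flatMap_cons, List.append_eq_append_iff] at h
    rcases h with ⟨a', h1, h2⟩ | ⟨c', h1, h2⟩
    · rcases B08_last h1 with h3 | ⟨v, h3, h4⟩
      · rw [h3, List.append_nil] at h1
        rw [h3, List.nil_append] at h2
        refine ⟨[], t, l, A, [], by simp, ?_, by simp, ?_⟩
        · rw [← h1, List.append_nil]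
        · rw [h2, List.nil_append]
      · rw [h3] at h2
        obtain ⟨l1, t', l2, A', B', e1, e2, e3, e4⟩ := ih h2
        refine ⟨t :: l1, t', l2, A', B', ?_, e2, ?_, e4⟩
        · rw [e1]
          simp
        · rw [h4, e3, List.flatMap_cons, List.append_assoc]
    · refine ⟨[], t, l, A, c', by simp, h1, by simp, h2⟩

theorem insB {Q : Type} [Finite Q] {S : Sys Q} {u : ℕ → ℕ} (H : HB S u) :
    ∃ b0, ∀ s, Rec S s → ∀ n z z' c, [z] ++ c ++ [z'] <:+: S.Fn n [s] → S.Gr z → S.Gr z' →
      (∀ t ∈ c, S.Cst t) → S.N 0 c ≤ b0 := by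
  classical
  have := Fintype.ofFinite Q
  obtain ⟨b1, hb1⟩ := tail_bound H
  obtain ⟨b2, hb2⟩ := head_bound H
  have hN := H.nrm
  have hgr : ∀ (t z : Q) (n : ℕ), S.Gr z → z ∈ S.Fn n [t] → S.Gr t := by
    intro t z n hz hzt
    rcases hN.gr_or_cst t with h1 | h1
    · exact h1
    · exfalso
      have h2 : ∀ r ∈ [t], S.Cst r := by
        intro r hr
        rw [List.mem_singleton] at hr
        rw [hr]
        exact h1
      exact Nrm.not_cst hz (hN.cst_Fn h2 n z hzt)
  refine ⟨b1 + (∑ s, S.N 0 (S.f s)) + b2, ?_⟩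
  intro s hs n
  induction n generalizing s with
  | zero =>
    intro z z' c h _ _ _
    exfalso
    have h1 := h.length_le
    rw [S.Fn_zero] at h1
    simp only [List.length_append, List.length_cons, List.length_nil] at h1
    omega
  | succ n ih =>
    intro z z' c h hz hz' hc
    obtain ⟨A, B, hAB⟩ := h
    have h1 : (S.f s).flatMap (fun t => S.Fn n [t]) = A ++ [z] ++ (c ++ [z'] ++ B) := by
      rw [← S.Fn_flatMap, ← S.F_single, ← S.Fn_succ, ← hAB]
      simp only [List.append_assoc]
    obtain ⟨l1, t1, l2, A', B', e1, e2, e3, e4⟩ := flatMap_split _ h1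
    have ht1 : t1 ∈ S.f s := by
      rw [e1]
      simp
    have hr1 : Rec S t1 := Rec.child hN hs ht1
    have hcase : ∀ a', B' = (c ++ [z']) ++ a' → S.N 0 c ≤ b1 + (∑ s, S.N 0 (S.f s)) + b2 := by
      intro a' ha
      refine ih t1 hr1 z z' c ⟨A', a', ?_⟩ hz hz' hc
      have e5 : S.Fn n [t1] = A' ++ [z] ++ B' := e2
      rw [e5, ha]
      simp only [List.append_assoc]
    rw [List.append_eq_append_iff] at e4
    rcases e4 with ⟨a', h2, h3⟩ | ⟨c', h2, h3⟩
    · exact hcase a' h2
    · rcases B08_last h2 with h4 | ⟨c1, h4, h5⟩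
      · rw [h4, List.append_nil] at h2
        exact hcase [] (by rw [← h2, List.append_nil])
      · rw [h4] at h3
        obtain ⟨c0, t2, l3, c2, B'', f1, f2, f3, f4⟩ := flatMap_split _ h3
        have ht2 : t2 ∈ S.f s := by
          rw [e1, f1]
          simp
        have hr2 : Rec S t2 := Rec.child hN hs ht2
        have e5 : S.Fn n [t1] = A' ++ [z] ++ B' := e2
        have f5 : S.Fn n [t2] = c2 ++ [z'] ++ B'' := f2
        have hg1 : S.Gr t1 := hgr t1 z n hz (by rw [e5]; simp)
        have hg2 : S.Gr t2 := hgr t2 z' n hz' (by rw [f5]; simp)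
        rw [← S.Fn_flatMap] at f3
        have k1 : S.N 0 B' ≤ b1 := by
          refine hb1 t1 hr1 hg1 n B' ⟨A' ++ [z], by rw [e5]⟩ fun t ht => hc t ?_
          rw [h5]
          exact List.mem_append_left _ ht
        have k2 : S.N 0 c2 ≤ b2 := by
          refine hb2 t2 hr2 hg2 n c2 ⟨[z'] ++ B'', by rw [f5, List.append_assoc]⟩ fun t ht => hc t ?_
          rw [h5, f3]
          exact List.mem_append_right _ (List.mem_append_right _ ht)
        have k3 : ∀ t ∈ S.Fn n c0, S.Cst t := by
          intro t ht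
          refine hc t ?_
          rw [h5, f3]
          exact List.mem_append_right _ (List.mem_append_left _ ht)
        have k4 : S.N 0 (S.Fn n c0) = S.N 0 c0 := hN.N_cst_Fn (hN.cst_of_Fn k3) n 0
        have k5 : S.N 0 c0 ≤ S.N 0 (S.f s) := by
          refine S.N_le_of_infix ⟨l1 ++ [t1], [t2] ++ l3, ?_⟩
          rw [e1, f1]
          simp only [List.append_assoc]
        have k6 : S.N 0 (S.f s) ≤ ∑ s, S.N 0 (S.f s) :=
          Finset.single_le_sum (f := fun s => S.N 0 (S.f s)) (fun _ _ => Nat.zero_le _)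
            (Finset.mem_univ s)
        rw [h5, f3, S.N_append, S.N_append, k4]
        omega

end MW
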