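import Pool.Agent.Lib.MP_dd05d9_lc.MW.B05
import Pool.Agent.Lib.MP_dd05d9_lc.MW.B02

/-!
B09: bottom letters; a growing letter is not the only growing letter of its image.

* `no_single`: suppose all letters of `al ++ be` are constant.  `X = C 0 al`, `Y = C 0 be`.  Induction on `m`:
  `F^m s = al_m ++ [s] ++ be_m`, constant, `C 0 al_m = (List.replicate m X).flatten`, `C 0 be_m = (List.replicate m Y).flatten`
  (`Fn_succ`: `F^(m+1) s = F^m al ++ F^m [s] ++ F^m be`, `Nrm.C_cst_Fn`, `List.replicate_succ`, `List.replicate_succ'`).  Both are in the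
  language (`Rec.inL'` with `k = 0`), so `X = Y = []` by `no_pow`.  Then `N 1 [s] = N 0 al + N 0 [s] + N 0 be = N 0 [s]`,
  against `Gr`.
* `exists_bot`: let `G y` = number of growing letters in `f y` (`Set.ncard {t | S.Gr t ∧ t ∈ S.f y}`).  Choose a growing
  recurrent `y1` (`exists_gr`) with `G y1` minimal.  For growing `z` in `f y1` (it is recurrent): growing letters of `f z` are growing
  letters of `f y1` (`n1`), so by minimality they are the same (`Set.eq_of_subset_of_ncard_le`).  Let `y` be a growing letter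
  of `f y1` (`Nrm.gr_child`).  Then the growing letters of `f y` are those of `f y1`: `self` since `y` is in `f y1`, `eq` clear.
-/

set_option autoImplicit false

namespace MW

/-- `y` is a bottom letter -/
structure Bot {Q : Type} (S : Sys Q) (y : Q) : Prop where
  rc : Rec S y
  gr : S.Gr y
  self : y ∈ S.f y
  eq : ∀ z ∈ S.f y, S.Gr z → ∀ t, S.Gr t → (t ∈ S.f z ↔ t ∈ S.f y)

theorem no_single {Q : Type} [Finite Q] {S : Sys Q} {u : ℕ → ℕ} (H : HB S u) {s : Q} (hs : Rec S s)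
    (hg : S.Gr s) {al be : List Q} (h : S.f s = al ++ [s] ++ be) : ∃ t ∈ al ++ be, S.Gr t := by
  by_contra hcon
  push Not at hcon
  have ca : ∀ t ∈ al, S.Cst t := fun t ht =>
    H.nrm.cst_of_not_gr (hcon t (List.mem_append_left _ ht))
  have cb : ∀ t ∈ be, S.Cst t := fun t ht =>
    H.nrm.cst_of_not_gr (hcon t (List.mem_append_right _ ht))
  have key : ∀ m, ∃ am bm, S.Fn m [s] = am ++ [s] ++ bm ∧
      S.C 0 am = (List.replicate m (S.C 0 al)).flatten ∧
      S.C 0 bm = (List.replicate m (S.C 0 be)).flatten := by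
    intro m
    induction m with
    | zero => exact ⟨[], [], by simp, by simp, by simp⟩
    | succ m ih =>
      obtain ⟨am, bm, h1, h2, h3⟩ := ih
      refine ⟨S.Fn m al ++ am, bm ++ S.Fn m be, ?_, ?_, ?_⟩
      · rw [S.Fn_succ, S.F_single, h, S.Fn_append, S.Fn_append, h1]
        simp only [List.append_assoc]
      · rw [S.C_append, H.nrm.C_cst_Fn ca, h2, List.replicate_succ, List.flatten_cons]
      · rw [S.C_append, H.nrm.C_cst_Fn cb, h3, List.replicate_succ', List.flatten_append]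
        simp
  have hf : (Set.range u).Finite := fin_range H.gen
  have hX : S.C 0 al = [] := by
    by_contra hX
    obtain ⟨m, hm⟩ := no_pow hf H.nup H.cb hX
    obtain ⟨am, bm, h1, h2, h3⟩ := key m
    apply hm
    rw [← h2]
    exact hs.inL' H.gen H.nrm (n := m) ⟨[], [s] ++ bm, by rw [h1]; simp⟩ 0
  have hY : S.C 0 be = [] := by
    by_contra hY
    obtain ⟨m, hm⟩ := no_pow hf H.nup H.cb hY
    obtain ⟨am, bm, h1, h2, h3⟩ := key m
    apply hm
    rw [← h3]
    exact hs.inL' H.gen H.nrm (n := m) ⟨am ++ [s], [], by rw [h1]; simp⟩ 0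
  have e : S.N 1 [s] = S.N 0 al + S.N 0 [s] + S.N 0 be := by
    rw [show (1 : ℕ) = 0 + 1 from rfl, S.N_succ, S.F_single, h, S.N_append, S.N_append]
  have e1 : S.N 0 al = 0 := by unfold Sys.N; rw [hX]; rfl
  have e2 : S.N 0 be = 0 := by unfold Sys.N; rw [hY]; rfl
  have h2 : S.N 0 [s] < S.N 1 [s] := hg Nat.zero_lt_one
  omega

theorem exists_bot {Q : Type} [Finite Q] {S : Sys Q} {u : ℕ → ℕ} (H : HB S u) : ∃ y, Bot S y := by
  obtain ⟨s0, hs0⟩ := exists_gr H
  have : Nonempty {s // Rec S s ∧ S.Gr s} := ⟨⟨s0, hs0⟩⟩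
  obtain ⟨⟨y1, hr1, hg1⟩, hmin⟩ := Finite.exists_min
    (fun y : {s // Rec S s ∧ S.Gr s} => Set.ncard {t | S.Gr t ∧ t ∈ S.f y.1})
  have key : ∀ z ∈ S.f y1, S.Gr z → {t | S.Gr t ∧ t ∈ S.f z} = {t | S.Gr t ∧ t ∈ S.f y1} := by
    intro z hz hgz
    apply Set.eq_of_subset_of_ncard_le
    · rintro t ⟨ht, htz⟩
      exact ⟨ht, (H.nrm.n1 y1 t).1 ⟨z, hz, htz⟩⟩
    · exact hmin ⟨z, hr1.child H.nrm hz, hgz⟩
    · exact Set.toFinite _
  obtain ⟨y, hy, hgy⟩ := H.nrm.gr_child hg1
  have hy1 := key y hy hgy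
  have hmem : ∀ t, S.Gr t → (t ∈ S.f y ↔ t ∈ S.f y1) := by
    intro t ht
    have := Set.ext_iff.1 hy1 t
    simpa [ht] using this
  refine ⟨y, hr1.child H.nrm hy, hgy, (hmem y hgy).2 hy, ?_⟩
  intro z hz hgz t ht
  have hz1 : z ∈ S.f y1 := (hmem z hgz).1 hz
  have := Set.ext_iff.1 ((key z hz1 hgz).trans hy1.symm) t
  simpa [ht] using this

end MW
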