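import Pool.Agent.Lib.MP_dd05d9_lc.MW.B09

/-!
B10: a bottom letter `y` occurs in `F^3 y` with growing letters on both sides.

* `Bot.two`: `z` in `f y` growing.  `z` is in `f z` (`Bot.eq` with `t = z`).  `f z = al ++ [z] ++ be`; `no_single` (`z` is recurrent,
  `Rec.child`) gives a growing `t` in `al` or in `be`: split there.
* `Bot.sides`: `f y = l1 ++ [t1] ++ l2 ++ [t2] ++ l3` (`Bot.two` with `z = y`, `Bot.self`), `f t1 = m1 ++ [g1] ++ m2 ++ [g2] ++ m3`,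
  `f t2 = n1 ++ [g3] ++ n2 ++ [g4] ++ n3` (`Bot.two`).  `Fn 2 [y] = F (f y) = A ++ [g2] ++ B` with
  `A = F l1 ++ m1 ++ [g1] ++ m2` and `B = m3 ++ F l2 ++ f t2 ++ F l3`.  `g2` is a growing letter of `f t1`, hence of `f y` (`Bot.eq`), and
  `y` is in `f g2` (`Bot.eq`, `Bot.self`): `f g2 = p ++ [y] ++ q`.  `Fn 3 [y] = F (Fn 2 [y]) = (F A ++ p) ++ [y] ++ (q ++ F B)`;
  `F A` contains a growing child of `g1` (`Nrm.gr_child`, `mem_F`), `F B` one of `g3`.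
-/

set_option autoImplicit false

namespace MW

private theorem b10_split {α : Type} {l : List α} {z : α} (h : z ∈ l) : ∃ l1 l2, l = l1 ++ [z] ++ l2 := by
  obtain ⟨s, t, h⟩ := List.append_of_mem h
  exact ⟨s, t, by rw [h, List.append_assoc]; rfl⟩

theorem Bot.two {Q : Type} [Finite Q] {S : Sys Q} {u : ℕ → ℕ} (H : HB S u) {y : Q} (hy : Bot S y)
    {z : Q} (hz : z ∈ S.f y) (hg : S.Gr z) :
    ∃ l1 t1 l2 t2 l3, S.f z = l1 ++ [t1] ++ l2 ++ [t2] ++ l3 ∧ S.Gr t1 ∧ S.Gr t2 := by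
  have hzz : z ∈ S.f z := (hy.eq z hz hg z hg).2 hz
  obtain ⟨al, be, h⟩ := b10_split hzz
  obtain ⟨t, ht, hgt⟩ := no_single H (Rec.child H.nrm hy.rc hz) hg h
  rcases List.mem_append.1 ht with ht | ht
  · obtain ⟨l1, l2, h2⟩ := b10_split ht
    exact ⟨l1, t, l2, z, be, by rw [h, h2], hgt, hg⟩
  · obtain ⟨l1, l2, h2⟩ := b10_split ht
    exact ⟨al, z, l1, t, l2, by rw [h, h2]; simp only [List.append_assoc], hg, hgt⟩

theorem Bot.sides {Q : Type} [Finite Q] {S : Sys Q} {u : ℕ → ℕ} (H : HB S u) {y : Q} (hy : Bot S y) :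
    ∃ al be, S.Fn 3 [y] = al ++ [y] ++ be ∧ (∃ t ∈ al, S.Gr t) ∧ (∃ t ∈ be, S.Gr t) := by
  obtain ⟨l1, t1, l2, t2, l3, e, hg1, hg2⟩ := Bot.two H hy hy.self hy.gr
  have ht1 : t1 ∈ S.f y := by rw [e]; simp
  have ht2 : t2 ∈ S.f y := by rw [e]; simp
  obtain ⟨m1, a1, m2, a2, m3, e1, ha1, ha2⟩ := Bot.two H hy ht1 hg1
  obtain ⟨n1, a3, n2, a4, n3, e2, ha3, ha4⟩ := Bot.two H hy ht2 hg2
  have h1 : a2 ∈ S.f t1 := by rw [e1]; simp
  have h2 : a2 ∈ S.f y := (hy.eq t1 ht1 hg1 a2 ha2).1 h1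
  have h3 : y ∈ S.f a2 := (hy.eq a2 h2 ha2 y hy.gr).2 hy.self
  obtain ⟨p, q, e3⟩ := b10_split h3
  obtain ⟨c1, hc1, gc1⟩ := H.nrm.gr_child ha1
  obtain ⟨c3, hc3, gc3⟩ := H.nrm.gr_child ha3
  refine ⟨S.F (S.F l1 ++ m1 ++ [a1] ++ m2) ++ p, q ++ S.F (m3 ++ S.F l2 ++ S.f t2 ++ S.F l3), ?_, ?_, ?_⟩
  · have e4 : S.Fn 3 [y] = S.F (S.F (S.f y)) := by
      rw [← S.F_single y]
      rfl
    rw [e4, e]
    simp only [S.F_append, S.F_single, e1, e3, List.append_assoc]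
  · refine ⟨c1, List.mem_append_left _ (S.mem_F.2 ⟨a1, by simp, hc1⟩), gc1⟩
  · refine ⟨c3, List.mem_append_right _ (S.mem_F.2 ⟨a3, ?_, hc3⟩), gc3⟩
    rw [e2]
    simp

end MW
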