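import Pool.Agent.Lib.MP_dd05d9_lc.MW.B10

/-!
B11: position of a word in a block between two consecutive growing letters.

* `infix_of_pos`: from `h`, `h1`: `X = A ++ X'` (`List.append_eq_append_iff`, lengths), so `v ++ B = X' ++ w ++ Y`; by `h2`
  `X' ++ w` is a prefix of `v` (`List.prefix_of_prefix_length_le`).
* `cover`: strong induction on `l2.length`.  If `l2` has no growing letter: `A = l1, z = g, c = l2, z' = g', B = l3`.
  Otherwise `l2 = m ++ [h] ++ m'`, `h` growing.  If `N k (l1 ++ [g] ++ m) <= a`: induction hypothesis with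
  `l1 := l1 ++ [g] ++ m, g := h, l2 := m'`.  If `a < N k (l1 ++ [g] ++ m)`: induction hypothesis with `l2 := m, g' := h`,
  `l3 := m' ++ [g'] ++ l3`.
* `locate`: `M` from `L0` for `x`.  `y` is growing, so `N k' [y] >= k'` and there is `k' >= k` with `N k' [y] >= M`
  (`StrictMono.le_apply`); `C k' [y]` is in the language (`Rec.inL`), so `x <:+: C k' [y] = C k (F^d [y])`, `d = k' - k`
  (`C_add`).  `Bot.sides`: `Fn 3 [y] = al ++ [y] ++ be`; `n = d + 3`: `Fn n [y] = Fn d al ++ Fn d [y] ++ Fn d be` (`Fn_add`,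
  `Fn_append`).  `Fn d al` contains a growing letter `g` (`Nrm.gr_Fn` for the growing letter of `al`, `mem_Fn`):
  `Fn d al = l1 ++ [g] ++ l1'`; similarly `Fn d be = l3' ++ [g'] ++ l3`.  `x` is at offset `|X|` in `C k (Fn n [y])` with
  `N k (Fn d al) <= |X|` and `|X| + |x| <= N k (Fn d al ++ Fn d [y])`.  Apply `cover` with `a = |X|`,
  `l2 = l1' ++ Fn d [y] ++ l3'`.  Non-growing letters are constant.
-/

set_option autoImplicit false

namespace MW

theorem infix_of_pos {α : Type} {A v B X w Y : List α} (h : A ++ v ++ B = X ++ w ++ Y)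
    (h1 : A.length ≤ X.length) (h2 : X.length + w.length ≤ A.length + v.length) : w <:+: v := by
  have hA : A <+: A ++ v ++ B := ⟨v ++ B, by rw [List.append_assoc]⟩
  have hX : X <+: A ++ v ++ B := ⟨w ++ Y, by rw [h, List.append_assoc]⟩
  obtain ⟨X', hX'⟩ := List.prefix_of_prefix_length_le hA hX h1
  subst hX'
  have h3 : v ++ B = X' ++ w ++ Y := by
    apply List.append_cancel_left (as := A)
    rw [← List.append_assoc, h]
    simp only [List.append_assoc]
  have hv : v <+: v ++ B := List.prefix_append _ _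
  have hw : X' ++ w <+: v ++ B := ⟨Y, h3.symm⟩
  have hl : (X' ++ w).length ≤ v.length := by
    rw [List.length_append] at h2 ⊢
    omega
  obtain ⟨Y', hY'⟩ := List.prefix_of_prefix_length_le hw hv hl
  exact ⟨X', Y', hY'⟩

theorem cover {Q : Type} (S : Sys Q) (k a : ℕ) {l1 l2 l3 : List Q} {g g' : Q} (hg : S.Gr g)
    (hg' : S.Gr g') (h1 : S.N k l1 ≤ a) (h2 : a < S.N k (l1 ++ [g] ++ l2)) :
    ∃ A z c z' B, l1 ++ [g] ++ l2 ++ [g'] ++ l3 = A ++ [z] ++ c ++ [z'] ++ B ∧ S.Gr z ∧ S.Gr z' ∧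
      (∀ t ∈ c, ¬ S.Gr t) ∧ S.N k A ≤ a ∧ a < S.N k (A ++ [z] ++ c) := by
  have key : ∀ (n : ℕ) (l1 l2 l3 : List Q) (g g' : Q), l2.length = n → S.Gr g → S.Gr g' →
      S.N k l1 ≤ a → a < S.N k (l1 ++ [g] ++ l2) →
      ∃ A z c z' B, l1 ++ [g] ++ l2 ++ [g'] ++ l3 = A ++ [z] ++ c ++ [z'] ++ B ∧ S.Gr z ∧ S.Gr z' ∧
        (∀ t ∈ c, ¬ S.Gr t) ∧ S.N k A ≤ a ∧ a < S.N k (A ++ [z] ++ c) := by
    intro n
    induction n using Nat.strong_induction_on with
    | _ n ih =>
      intro l1 l2 l3 g g' hn hg hg' h1 h2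
      by_cases hc : ∃ h ∈ l2, S.Gr h
      · obtain ⟨h, hh, hgh⟩ := hc
        obtain ⟨m, m', rfl⟩ := List.append_of_mem hh
        rw [List.length_append, List.length_cons] at hn
        rcases Nat.lt_or_ge a (S.N k (l1 ++ [g] ++ m)) with h3 | h3
        · obtain ⟨A, z, c, z', B, e, r⟩ := ih m.length (by omega) l1 m (m' ++ [g'] ++ l3) g h rfl hg hgh h1 h3
          refine ⟨A, z, c, z', B, ?_, r⟩
          rw [← e]
          simp only [List.append_assoc, List.cons_append, List.nil_append]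
        · obtain ⟨A, z, c, z', B, e, r⟩ := ih m'.length (by omega) (l1 ++ [g] ++ m) m' l3 h g' rfl hgh hg' h3
            (by
              have e2 : l1 ++ [g] ++ m ++ [h] ++ m' = l1 ++ [g] ++ (m ++ h :: m') := by
                simp only [List.append_assoc, List.cons_append, List.nil_append]
              rw [e2]
              exact h2)
          refine ⟨A, z, c, z', B, ?_, r⟩
          rw [← e]
          simp only [List.append_assoc, List.cons_append, List.nil_append]
      · push Not at hc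
        exact ⟨l1, g, l2, g', l3, rfl, hg, hg', hc, h1, h2⟩
  exact key l2.length l1 l2 l3 g g' rfl hg hg' h1 h2

theorem locate {Q : Type} [Finite Q] {S : Sys Q} {u : ℕ → ℕ} (H : HB S u) {y : Q} (hy : Bot S y)
    {x : List ℕ} (hx : InL u x) (hx0 : x ≠ []) (k : ℕ) :
    ∃ n A z c z' B X Y, S.Fn n [y] = A ++ [z] ++ c ++ [z'] ++ B ∧ S.Gr z ∧ S.Gr z' ∧
      (∀ t ∈ c, S.Cst t) ∧ S.C k (S.Fn n [y]) = X ++ x ++ Y ∧ S.N k A ≤ X.length ∧
      X.length < S.N k (A ++ [z] ++ c) := by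
  obtain ⟨M, hM⟩ := L0 H.cb hx
  have hinf : x <:+: S.C (k + M) [y] := by
    refine hM _ (Rec.inL H.gen H.nrm hy.rc (k + M)) ?_
    have h1 := H.nrm.lin hy.gr (k + M)
    rw [S.C_length]
    omega
  rw [S.C_add] at hinf
  obtain ⟨X0, Y0, hXY⟩ := hinf
  obtain ⟨al, be, h3, hal, hbe⟩ := Bot.sides H hy
  obtain ⟨g, hgm, hg⟩ := H.nrm.gr_Fn' hal M
  obtain ⟨g', hgm', hg'⟩ := H.nrm.gr_Fn' hbe M
  obtain ⟨l1, l1', e1⟩ := List.append_of_mem hgm
  obtain ⟨l3', l3, e3⟩ := List.append_of_mem hgm'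
  have hFn : S.Fn (M + 3) [y] = S.Fn M al ++ S.Fn M [y] ++ S.Fn M be := by
    rw [S.Fn_add, h3, S.Fn_append, S.Fn_append]
  have hXlen : X0.length + x.length + Y0.length = S.N k (S.Fn M [y]) := by
    rw [← S.C_length, ← hXY, List.length_append, List.length_append]
  have hxl : 0 < x.length := List.length_pos_iff.2 hx0
  have hN1 : S.N k (S.Fn M al) = S.N k l1 + (S.N k [g] + S.N k l1') := by
    rw [e1, S.N_append, S.N_cons]
  obtain ⟨A, z, c, z', B, e, hz, hz', hc, hA1, hA2⟩ := cover S k (S.N k (S.Fn M al) + X0.length)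
    (l1 := l1) (l2 := l1' ++ S.Fn M [y] ++ l3') (l3 := l3) (g := g) (g' := g') hg hg'
    (by omega)
    (by
      rw [S.N_append, S.N_append, S.N_append, S.N_append]
      omega)
  refine ⟨M + 3, A, z, c, z', B, S.C k (S.Fn M al) ++ X0, Y0 ++ S.C k (S.Fn M be), ?_, hz, hz', ?_, ?_, ?_, ?_⟩
  · rw [← e, hFn, e1, e3]
    simp only [List.append_assoc, List.cons_append, List.nil_append]
  · intro t ht
    exact H.nrm.cst_of_not_gr (hc t ht)
  · rw [hFn, S.C_append, S.C_append, ← hXY]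
    simp only [List.append_assoc]
  · rw [List.length_append, S.C_length]
    exact hA1
  · rw [List.length_append, S.C_length]
    exact hA2

end MW
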