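import Pool.Agent.Lib.MP_dd05d9_lc.MW.B11
import Pool.Agent.Lib.MP_dd05d9_lc.MW.B08

/-!
B12: (LR a) a word `w` of the language with `C0 |w| <= N k [y]`, `y` a bottom letter, is a factor of `C (k+J) [y']` for
every growing `y'` in `f y`, with `J` independent of `w` and `k`.
-/

set_option autoImplicit false

namespace MW

theorem lrA {Q : Type} [Finite Q] {S : Sys Q} {u : ℕ → ℕ} (H : HB S u) {y : Q} (hy : Bot S y)
    {C0 : ℕ} (h1 : 1 ≤ C0) (hC0 : ∀ k l, S.N (k + 1) l ≤ C0 * S.N k l) :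
    ∃ J, ∀ (w : List ℕ) (k : ℕ), InL u w → w ≠ [] → C0 * w.length ≤ S.N k [y] →
      ∀ y' ∈ S.f y, S.Gr y' → w <:+: S.C (k + J) [y'] := by
  have h0 : ∀ z' ∈ S.f y, S.Gr z' → ∀ k, S.N k [y] ≤ C0 * S.N k [z'] := by
    intro z' hz hg k
    have hm : y ∈ S.f z' := (hy.eq z' hz hg y hy.gr).2 hy.self
    have e1 : S.N (k + 1) [z'] = S.N k (S.f z') := by rw [S.N_succ, S.F_single]
    calc S.N k [y] ≤ S.N k (S.f z') := S.N_le_of_mem hm
      _ = S.N (k + 1) [z'] := e1.symm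
      _ ≤ C0 * S.N k [z'] := hC0 k [z']
  -- types
  obtain ⟨b0, hb0⟩ := insB H
  let Ty : Set (Q × List ℕ × Q) := {τ | ∃ n c, [τ.1] ++ c ++ [τ.2.2] <:+: S.Fn n [y] ∧ S.Gr τ.1 ∧
    S.Gr τ.2.2 ∧ (∀ t ∈ c, S.Cst t) ∧ τ.2.1 = S.C 0 c}
  have hfin : Ty.Finite := by
    have hW := words_finite (fin_range H.gen) b0
    refine Set.Finite.subset ((Set.finite_univ (α := Q)).prod (hW.prod (Set.finite_univ (α := Q)))) ?_
    rintro ⟨z, v, z'⟩ ⟨n, c, hi, hz, hz', hc, hv⟩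
    refine ⟨Set.mem_univ _, ⟨?_, ?_⟩, Set.mem_univ _⟩
    · have := hb0 y hy.rc n z z' c hi hz hz' hc
      simp only at hv
      rw [hv]
      exact this
    · simp only at hv
      have hci : c <:+: S.Fn n [y] := by
        refine List.IsInfix.trans ?_ hi
        exact ⟨[z], [z'], by simp⟩
      obtain ⟨p, _, hp⟩ := Rec.inL' H.gen H.nrm hy.rc hci 0 0
      exact ⟨p, by rw [hv]; exact hp⟩
  have hch : ∀ τ : Q × List ℕ × Q, ∃ nc : ℕ × List Q, τ ∈ Ty →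
      ([τ.1] ++ nc.2 ++ [τ.2.2] <:+: S.Fn nc.1 [y] ∧ (∀ t ∈ nc.2, S.Cst t) ∧ τ.2.1 = S.C 0 nc.2) := by
    intro τ
    by_cases h : τ ∈ Ty
    · obtain ⟨n, c, hi, _, _, hc, hv⟩ := h
      exact ⟨(n, c), fun _ => ⟨hi, hc, hv⟩⟩
    · exact ⟨(0, []), fun h' => absurd h' h⟩
  choose nc hnc using hch
  obtain ⟨J0, hJ0⟩ := (hfin.image (fun τ => (nc τ).1)).bddAbove
  refine ⟨J0 + 1, ?_⟩
  intro w k hw hw0 hlen y' hy' hgy'
  obtain ⟨n, A, z, c, z', B, X, Y, hF, hz, hz', hc, hC, hA, hX⟩ := locate H hy hw hw0 k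
  have hn : 0 < n := by
    rcases Nat.eq_zero_or_pos n with h | h
    · exfalso
      subst h
      rw [S.Fn_zero] at hF
      have := congrArg List.length hF
      simp at this
      omega
    · exact h
  have hz'y : z' ∈ S.f y := by
    rw [← H.nrm.mem_Fn hn, hF]; simp
  have hwl : w.length ≤ S.N k [z'] := by
    have := h0 z' hz'y hz' k
    exact Nat.le_of_mul_le_mul_left (hlen.trans this) (by omega)
  have hin : w <:+: S.C k ([z] ++ c ++ [z']) := by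
    apply infix_of_pos (A := S.C k A) (B := S.C k B) (X := X) (Y := Y)
    · rw [← hC, hF, ← S.C_append, ← S.C_append]
      congr 1
      simp
    · rw [S.C_length]; exact hA
    · rw [S.C_length, S.C_length]
      have e : S.N k (A ++ [z] ++ c) = S.N k A + S.N k ([z] ++ c) := by
        rw [List.append_assoc, S.N_append]
      rw [S.N_append k ([z] ++ c) [z']]
      omega
  have hτ : (z, S.C 0 c, z') ∈ Ty := by
    refine ⟨n, c, ?_, hz, hz', hc, rfl⟩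
    exact ⟨A, B, by rw [hF]; simp⟩
  obtain ⟨g1, g2, g3⟩ := hnc _ hτ
  set m := (nc (z, S.C 0 c, z')).1 with hm
  set c' := (nc (z, S.C 0 c, z')).2 with hc'
  have hmJ : m ≤ J0 := hJ0 ⟨_, hτ, rfl⟩
  have hy2 : y ∈ S.f y' := (hy.eq y' hy' hgy' y hy.gr).2 hy.self
  have hy3 : y ∈ S.Fn (J0 + 1 - m) [y'] := (H.nrm.mem_Fn (by omega)).2 hy2
  have hi1 : S.Fn m [y] <:+: S.Fn (J0 + 1) [y'] := by
    have e : J0 + 1 = m + (J0 + 1 - m) := by omega
    rw [e, S.Fn_add]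
    exact S.Fn_infix (Sys.infix_of_mem hy3)
  rw [S.C_add]
  refine hin.trans ?_
  have e2 : S.C k ([z] ++ c ++ [z']) = S.C k ([z] ++ c' ++ [z']) := by
    rw [S.C_append, S.C_append, S.C_append, S.C_append, H.nrm.cst_C hc, H.nrm.cst_C g2]
    simp only at g3
    rw [g3]
  rw [e2]
  exact (S.C_infix g1).trans (S.C_infix hi1)

end MW
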