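import Pool.Agent.Lib.MP_dd05d9_lc.MW.BDefs

/-!
MW, part B, more definitions: linear recurrence `LR`, no small periods `PF`, windows of a two-sided word `Z : ℤ → ℕ`.
-/

set_option autoImplicit false

namespace MW

/-- linear recurrence of the language -/
def LR (u : ℕ → ℕ) : Prop := ∃ C1, 0 < C1 ∧ ∀ x w, InL u x → InL u w → w ≠ [] →
  C1 * w.length ≤ x.length → w <:+: x

/-- no small periods -/
def PF (u : ℕ → ℕ) : Prop := ∃ C2, 0 < C2 ∧ ∀ x d, InL u x → 0 < d → Per x d →
  x.length < C2 * d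

/-- factor of the two-sided word `Z` of length `n` at `p` -/
def sgZ (Z : ℤ → ℕ) (p : ℤ) (n : ℕ) : List ℕ := (List.range n).map (fun i => Z (p + i))

/-- `u` agrees with `Z` in the window of radius `W` around `p` -/
def Mt (u : ℕ → ℕ) (Z : ℤ → ℕ) (W p : ℕ) : Prop :=
  W ≤ p ∧ ∀ j, j < 2 * W → u (p - W + j) = Z ((j : ℤ) - W)

/-- the first position with this property -/
noncomputable def pm (u : ℕ → ℕ) (Z : ℤ → ℕ) (W : ℕ) : ℕ := sInf {p | Mt u Z W p}

open Classical in
/-- the tower: letters whose word at level `k` is read in `Z` around the origin -/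
noncomputable def GB {Q : Type} [Finite Q] (S : Sys Q) (Z : ℤ → ℕ) (k : ℕ) : Finset (Q × ℕ) :=
  ((Set.toFinite (⋃ t : Q, (fun e => (t, e)) '' {e : ℕ | e < S.N k [t]})).toFinset).filter
    (fun z => ∀ i, i < S.N k [z.1] → (S.C k [z.1]).getD i 0 = Z ((i : ℤ) - z.2))

end MW
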