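import Pool.Agent.Lib.MP_dd05d9_lc.MW.B12
import Pool.Agent.Lib.MP_dd05d9_lc.MW.BEDefs

/-!
B13: (LR) linear recurrence of the language: statement about `u` only.

* `lrB`: `b0` from `insB` (for `s = y`), constant `b0 + 1`.  `locate` for `x` (nonempty because of the length):
  `Fn n [y] = A ++ [z] ++ c ++ [z'] ++ B`, `C k (Fn n [y]) = X ++ x ++ Y`, `N k A <= |X| < N k (A ++ [z] ++ c)`.
  `z, z'` are in `f y` (`n >= 1`, `Nrm.mem_Fn`), so `N k [z] <= N k (f y) = N (k+1) [y] <= C0 * N k [y]`, same for `z'`;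
  `N k c = N 0 c <= b0`.  So `|X| <= |C k (A ++ [z] ++ c)|` and
  `|C k (A ++ [z] ++ c)| + |C k [z']| <= |X| + N k [z] + N k c + N k [z'] <= |X| + |x|`: `C k [z'] <:+: x` by `infix_of_pos`
  (with `A := X, v := x, B := Y`, `X := C k (A ++ [z] ++ c)`, `w := C k [z']`).
* `lr_main`: `y` from `exists_bot`, `C0` from `Nrm.n4`, `J` from `lrA`, `b` from `lrB`.  `M k = N k [y]`: strictly increasing, `M (k+1) <= C0 * M k`.
  For nonempty `w` in the language let `k` be least with `C0 * |w| <= M k` (exists: `Nrm.lin`).  Then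
  `M k <= (M 0 + C0 * C0) * |w|`: if `k = 0` clear (`|w| >= 1`), else `M (k-1) < C0 * |w|`, `M k <= C0 * M (k-1) <= C0 * C0 * |w|`.
  `M (k+J) <= C0^J * M k` (induction).  `C1 = 2 * C0 * C0^J * (M 0 + C0 * C0) + b + 1`.  If `C1 * |w| <= |x|` then
  `2 * C0 * M (k+J) + b <= |x|`, so `x` contains `C (k+J) [z]` for some growing `z` in `f y` (`lrB`), which contains `w`
  (`lrA`) (`List.IsInfix.trans`).
-/

set_option autoImplicit false

namespace MW

theorem lrB {Q : Type} [Finite Q] {S : Sys Q} {u : ℕ → ℕ} (H : HB S u) {y : Q} (hy : Bot S y)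
    {C0 : ℕ} (hC0 : ∀ k l, S.N (k + 1) l ≤ C0 * S.N k l) :
    ∃ b, ∀ (x : List ℕ) (k : ℕ), InL u x → 2 * C0 * S.N k [y] + b ≤ x.length →
      ∃ z ∈ S.f y, S.Gr z ∧ S.C k [z] <:+: x := by
  obtain ⟨b0, hb0⟩ := insB H
  refine ⟨b0 + 1, fun x k hx hlen => ?_⟩
  have hx0 : x ≠ [] := by
    intro h
    rw [h, List.length_nil] at hlen
    omega
  obtain ⟨n, A, z, c, z', B, X, Y, e, hz, hz', hc, eC, hX1, hX2⟩ := locate H hy hx hx0 k
  have hn : 0 < n := by
    rcases Nat.eq_zero_or_pos n with h | h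
    · exfalso
      rw [h, S.Fn_zero] at e
      have h2 := congrArg List.length e
      simp only [List.length_append, List.length_singleton] at h2
      omega
    · exact h
  have mz : z ∈ S.f y := (H.nrm.mem_Fn hn).1 (by rw [e]; simp)
  have mz' : z' ∈ S.f y := (H.nrm.mem_Fn hn).1 (by rw [e]; simp)
  have hF : S.N k (S.f y) ≤ C0 * S.N k [y] := by
    have h2 := hC0 k [y]
    rwa [S.N_succ, S.F_single] at h2
  have k1 : S.N k [z] ≤ C0 * S.N k [y] := (S.N_le_of_mem mz).trans hF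
  have k2 : S.N k [z'] ≤ C0 * S.N k [y] := (S.N_le_of_mem mz').trans hF
  have k3 : S.N k c ≤ b0 := by
    rw [H.nrm.N_cst hc]
    exact hb0 y hy.rc n z z' c ⟨A, B, by rw [e]; simp only [List.append_assoc]⟩ hz hz' hc
  refine ⟨z', mz', hz', ?_⟩
  have e2 : X ++ x ++ Y = S.C k (A ++ [z] ++ c) ++ S.C k [z'] ++ S.C k B := by
    rw [← eC, e, ← S.C_append, ← S.C_append]
  refine infix_of_pos e2 ?_ ?_
  · rw [S.C_length]
    exact hX2.le
  · rw [S.C_length, S.C_length, S.N_append, S.N_append]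
    have e3 : 2 * C0 * S.N k [y] = C0 * S.N k [y] + C0 * S.N k [y] := by ring
    omega

theorem lr_main {Q : Type} [Finite Q] {S : Sys Q} {u : ℕ → ℕ} (H : HB S u) : LR u := by
  obtain ⟨y, hy⟩ := exists_bot H
  obtain ⟨C0, h1, hC0⟩ := H.nrm.n4
  obtain ⟨J, hJ⟩ := lrA H hy h1 hC0
  obtain ⟨b, hb⟩ := lrB H hy hC0
  have hstep : ∀ k, S.N (k + 1) [y] ≤ C0 * S.N k [y] := fun k => hC0 k [y]
  have hJs : ∀ k j, S.N (k + j) [y] ≤ C0 ^ j * S.N k [y] := by
    intro k j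
    induction j with
    | zero => simp
    | succ j ih =>
      calc S.N (k + (j + 1)) [y] ≤ C0 * S.N (k + j) [y] := hstep (k + j)
        _ ≤ C0 * (C0 ^ j * S.N k [y]) := Nat.mul_le_mul_left _ ih
        _ = C0 ^ (j + 1) * S.N k [y] := by ring
  obtain ⟨D, hD⟩ : ∃ D, D = S.N 0 [y] + C0 * C0 := ⟨_, rfl⟩
  refine ⟨2 * C0 * C0 ^ J * D + b + 1, Nat.succ_pos _, fun x w hx hw hw0 hlen => ?_⟩
  obtain ⟨L, hL⟩ : ∃ L, L = w.length := ⟨_, rfl⟩
  rw [← hL] at hlen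
  have hL1 : 1 ≤ L := by
    rw [hL]
    exact List.length_pos_iff.2 hw0
  have hex : ∃ k, C0 * L ≤ S.N k [y] := ⟨C0 * L, H.nrm.lin hy.gr _⟩
  classical
  obtain ⟨k, hk, hmin⟩ : ∃ k, C0 * L ≤ S.N k [y] ∧ ∀ j < k, ¬ C0 * L ≤ S.N j [y] :=
    ⟨Nat.find hex, Nat.find_spec hex, fun j hj => Nat.find_min hex hj⟩
  have hM : S.N k [y] ≤ D * L := by
    rcases Nat.eq_zero_or_pos k with h2 | h2
    · rw [h2, hD]
      calc S.N 0 [y] ≤ (S.N 0 [y] + C0 * C0) * 1 := by omega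
        _ ≤ (S.N 0 [y] + C0 * C0) * L := Nat.mul_le_mul_left _ hL1
    · obtain ⟨j, rfl⟩ : ∃ j, k = j + 1 := ⟨k - 1, by omega⟩
      have h3 := hmin j (Nat.lt_succ_self j)
      rw [not_le] at h3
      calc S.N (j + 1) [y] ≤ C0 * S.N j [y] := hstep j
        _ ≤ C0 * (C0 * L) := Nat.mul_le_mul_left _ h3.le
        _ = C0 * C0 * L := by ring
        _ ≤ D * L := Nat.mul_le_mul_right _ (by omega)
  have h4 : 2 * C0 * S.N (k + J) [y] + b ≤ x.length := by
    refine le_trans ?_ hlen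
    have h5 : 2 * C0 * S.N (k + J) [y] ≤ 2 * C0 * (C0 ^ J * (D * L)) :=
      Nat.mul_le_mul_left _ ((hJs k J).trans (Nat.mul_le_mul_left _ hM))
    have h6 : (2 * C0 * C0 ^ J * D + b + 1) * L = 2 * C0 * (C0 ^ J * (D * L)) + b * L + L := by ring
    have h7 : b ≤ b * L := Nat.le_mul_of_pos_right b hL1
    omega
  obtain ⟨z, mz, gz, hz⟩ := hb x (k + J) hx h4
  exact (hJ w k hw hw0 (by rw [← hL]; exact hk) z mz gz).trans hz

end MW
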