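import Pool.Agent.Lib.MP_dd05d9_lc.MW.Base

/-!
MW, part B (case B), definitions.
-/

set_option autoImplicit false

namespace MW

/-- recurrent letters: letters of `F x`, where `f a = a x` -/
def Rec {Q : Type} (S : Sys Q) (t : Q) : Prop := ∃ x, S.f S.a = S.a :: x ∧ t ∈ S.F x

/-- no long words of the language with a given period -/
def NoPer (u : ℕ → ℕ) : Prop :=
  ∀ d, 0 < d → ∃ l, ∀ x, InL u x → l ≤ x.length → ¬ Per x d

/-- uniform doubling -/
def Dbl {Q : Type} (S : Sys Q) : Prop :=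
  ∃ c, ∀ s, Rec S s → S.Gr s → ∀ k, 2 * S.N k [s] ≤ S.N (k + c) [s]

end MW
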