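import Pool.Agent.Lib.MP_dd05d9_lc.MW.BDefs

/-!
MW, part B (case B: every word of the language has bounded gaps), further definitions.
-/

set_option autoImplicit false

namespace MW

/-- the window `Z p, ..., Z (p + n - 1)` of a two-sided word -/
def win (Z : ℤ → ℕ) (p : ℤ) (n : ℕ) : List ℕ := (List.range n).map (fun i : ℕ => Z (p + (i : ℤ)))

/-- standing hypotheses of case B -/
structure HB {Q : Type} (S : Sys Q) (u : ℕ → ℕ) : Prop where
  gen : Gen S u
  nrm : Nrm S
  nup : ¬ UP u
  cb : CB u

theorem win_length (Z : ℤ → ℕ) (p : ℤ) (n : ℕ) : (win Z p n).length = n := by simp [win]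

theorem win_getD (Z : ℤ → ℕ) (p : ℤ) (n i : ℕ) (h : i < n) : (win Z p n).getD i 0 = Z (p + (i : ℤ)) := by
  unfold win
  rw [List.getD_eq_getElem _ _ (by simpa using h)]
  simp

theorem win_add (Z : ℤ → ℕ) (p : ℤ) (m n : ℕ) :
    win Z p (m + n) = win Z p m ++ win Z (p + (m : ℤ)) n := by
  unfold win
  rw [List.range_add, List.map_append, List.map_map]
  congr 1
  apply List.map_congr_left
  intro i _
  simp [add_assoc]

/-- words are equal iff they have the same length and the same entries -/
theorem eq_of_getD {w w' : List ℕ} (hl : w.length = w'.length)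
    (h : ∀ i < w.length, w.getD i 0 = w'.getD i 0) : w = w' := by
  apply List.ext_getElem hl
  intro i h1 h2
  have := h i h1
  rwa [List.getD_eq_getElem _ _ h1, List.getD_eq_getElem _ _ h2] at this

end MW
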