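import Pool.Agent.Lib.MP_dd05d9_lc.MW.Base

/-!
MW, part BL (block coding), definitions.

`ind w l y`: word of length `|l|` with 1 at `i` iff `w` is a prefix of `drop i (l ++ y)` (else 0).
`Y m b`: words of length at most `m` with entries `< b`; `mkY` cuts a word into `Y m b`.
`gl T m b l y`: the list of the letters of `l`, each with its right context (of length at most `m`), computed from the words `T s`.
`bs`: the block system.
-/

set_option autoImplicit false

namespace MW

/-- indicator word of the occurrences of `w` in `l`, with right context `y` -/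
def ind (w : List ℕ) : List ℕ → List ℕ → List ℕ
  | [], _ => []
  | x :: l, y => (if w <+: x :: (l ++ y) then 1 else 0) :: ind w l y

/-- contexts -/
def Y (m b : ℕ) : Type := {y : List ℕ // y.length ≤ m ∧ ∀ x ∈ y, x < b}

/-- cut a word into a context -/
def mkY (m b : ℕ) (y : List ℕ) : Y m b :=
  ⟨(y.take m).filter (fun x => decide (x < b)), (List.length_filter_le _ _).trans (List.length_take_le _ _),
    fun x hx => by simpa using (List.mem_filter.1 hx).2⟩

/-- letters with contexts -/
def gl {Q : Type} (T : Q → List ℕ) (m b : ℕ) : List Q → List ℕ → List (Q × Y m b)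
  | [], _ => []
  | s :: l, y => (s, mkY m b (l.flatMap T ++ y)) :: gl T m b l y

/-- the block system -/
def bs {Q : Type} (S : Sys Q) (w : List ℕ) (m b : ℕ) (ya : List ℕ) : Sys (Q × Y m b) where
  f z := gl (fun s => (S.C 0 [s]).take m) m b (S.f z.1) z.2.1
  ph z := ind w (S.ph z.1) z.2.1
  a := (S.a, mkY m b ya)

end MW
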