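import Pool.Agent.Lib.MP_dd05d9_lc.MW.BLDefs

/-!
MW, part BL, module BLa: the indicator words.

ind_length: induction on `l`.
ind_append: induction on `l1` (`(x :: l1) ++ l2 ++ y = x :: (l1 ++ (l2 ++ y))`).
ind_take: induction on `l`; for the head: `w <+: x :: (l ++ y) ↔ w <+: x :: (l ++ y.take m)` when `w.length ≤ m + 1`: a prefix relation `w <+: z` is `w = z.take w.length`
 (`List.prefix_iff_eq_take`), and `(x :: (l ++ y)).take w.length = (x :: (l ++ y.take m)).take w.length` since `w.length ≤ m + 1` (`List.take_append`, `List.take_take`;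
 both lists have the same entries at all indices `< m + 1 ≤ 1 + l.length + m`).
ind_occ: `i < l.length`: the `i`-th entry of `ind w l y` is `if w <+: (l ++ y).drop i then 1 else 0` (induction on `l`), `chi u w (p + i) = if Occ u w (p + i) ..`.  From `Occ u (l ++ y) p`:
 `(l ++ y).drop i` occurs at `p + i` and has length `≥ 1 + m ≥ w.length`; so `w <+: (l ++ y).drop i ↔ Occ u w (p + i)` (`Occ.prefix`; conversely a prefix of an occurring word occurs: `occ_append`).
-/

set_option autoImplicit false

namespace MW

theorem ind_length (w l y : List ℕ) : (ind w l y).length = l.length := by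
  induction l with
  | nil => rfl
  | cons x l ih =>
    show (ind w l y).length + 1 = l.length + 1
    rw [ih]

theorem ind_append (w l1 l2 y : List ℕ) :
    ind w (l1 ++ l2) y = ind w l1 (l2 ++ y) ++ ind w l2 y := by
  induction l1 with
  | nil => rfl
  | cons x l ih =>
    show (if w <+: x :: ((l ++ l2) ++ y) then 1 else 0) :: ind w (l ++ l2) y =
      (if w <+: x :: (l ++ (l2 ++ y)) then 1 else 0) :: (ind w l (l2 ++ y) ++ ind w l2 y)
    rw [ih, List.append_assoc]

private theorem bla_take {w : List ℕ} {m : ℕ} (hw : w.length ≤ m + 1) (x : ℕ) (l y y' : List ℕ)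
    (h : y.take m = y'.take m) : (w <+: x :: (l ++ y)) ↔ (w <+: x :: (l ++ y')) := by
  rw [List.prefix_iff_eq_take, List.prefix_iff_eq_take]
  have key : ∀ k, k ≤ m + 1 → (x :: (l ++ y)).take k = (x :: (l ++ y')).take k := by
    intro k hk
    cases k with
    | zero => rfl
    | succ k =>
      rw [List.take_succ_cons, List.take_succ_cons, List.take_append, List.take_append]
      have h1 : k - l.length ≤ m := by omega
      have h2 : y.take (k - l.length) = y'.take (k - l.length) := by
        have := congrArg (List.take (k - l.length)) h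
        rwa [List.take_take, List.take_take, min_eq_left h1] at this
      rw [h2]
  rw [key _ hw]

theorem ind_take {w : List ℕ} {m : ℕ} (hw : w.length ≤ m + 1) (l y y' : List ℕ)
    (h : y.take m = y'.take m) : ind w l y = ind w l y' := by
  induction l with
  | nil => rfl
  | cons x l ih =>
    show (if w <+: x :: (l ++ y) then 1 else 0) :: ind w l y =
      (if w <+: x :: (l ++ y') then 1 else 0) :: ind w l y'
    rw [ih]
    congr 1
    exact if_congr (bla_take hw x l y y' h) rfl rfl

private theorem bla_getD (w : List ℕ) : ∀ (l y : List ℕ) (i : ℕ), i < l.length →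
    (ind w l y).getD i 0 = if w <+: (l ++ y).drop i then 1 else 0 := by
  intro l y
  induction l with
  | nil => intro i hi; exact absurd hi (Nat.not_lt_zero _)
  | cons x l ih =>
    intro i hi
    cases i with
    | zero => rfl
    | succ i =>
      have := ih i (by simpa using hi)
      exact this

theorem ind_occ {u : ℕ → ℕ} {w : List ℕ} {m : ℕ} (hw : w.length ≤ m + 1) {l y : List ℕ} {p : ℕ}
    (h : Occ u (l ++ y) p) (hy : m ≤ y.length) : Occ (chi u w) (ind w l y) p := by
  intro i hi
  rw [ind_length] at hi
  rw [bla_getD w l y i hi]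
  unfold chi
  have h1 : Occ u ((l ++ y).drop i) (p + i) := by
    have h2 := h
    rw [← List.take_append_drop i (l ++ y)] at h2
    have h3 := (occ_append.1 h2).2
    rwa [List.length_take, min_eq_left (by rw [List.length_append]; omega)] at h3
  have hlen : w.length ≤ ((l ++ y).drop i).length := by
    rw [List.length_drop, List.length_append]
    omega
  have hiff : (w <+: (l ++ y).drop i) ↔ Occ u w (p + i) := by
    refine ⟨fun h2 => ?_, fun h2 => h2.pre h1 hlen⟩
    obtain ⟨r, hr⟩ := h2
    rw [← hr] at h1
    exact (occ_append.1 h1).1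
  by_cases h2 : Occ u w (p + i)
  · rw [if_pos h2, if_pos (hiff.2 h2)]
  · rw [if_neg h2, if_neg fun h3 => h2 (hiff.1 h3)]

end MW
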