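import Pool.Agent.Lib.MP_dd05d9_lc.MW.BLDefs
import Pool.Agent.Lib.MP_dd05d9_lc.MW.NOa

/-!
MW, part BL, module BLb: finiteness of contexts, bounded letters, constant prefixes after a power-shift.

finite_Y: image/subtype of lists of length `≤ m` over `Fin b` (`List.finite_length_le`).
mkY_val: `take m` of a word with entries `< b`: the filter does nothing (`List.filter_eq_self`).
bd_ex: `Q` finite, each `S.ph s` a list: take `b` = 1 + sup over `s` of the sum (or max) of the list `S.ph s`; entries of `S.C k l = (S.Fn k l).flatMap S.ph` are entries of some `S.ph s`.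
take_cat: for lists: `(l.flatMap g ++ y).take m = (l.flatMap (fun s => (g s).take m) ++ y).take m`; induction on `l` with
 `(A ++ B).take m = (A.take m ++ B).take m` and `(A ++ B).take m = (A ++ B').take m` if `B.take m = B'.take m` (`List.take_append`, `List.take_take`).
pre_const: `I k := fun s => (S.C k [s]).take m`.  `I (k+1) s = ((S.f s).flatMap (fun t => S.C k [t])).take m = ((S.f s).flatMap (I k)).take m` (`Sys.C_succ`, `Sys.C_flatMap`, take_cat with `y = []`):
 `I (k+1) = g (I k)`.  Finite range: values are words of length `≤ m` with entries `< b` (bd_ex), functions from a finite type into a finite set.  `fi` gives `q, K`; `S.ps q K`: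
 `((S.ps q K).C k [s]).take m = I (K + q k) s = I K s`.
-/

set_option autoImplicit false

namespace MW

private theorem blb_fin (m b : ℕ) : {y : List ℕ | y.length ≤ m ∧ ∀ x ∈ y, x < b}.Finite := by
  refine ((List.finite_length_le (Fin b) m).image (List.map Fin.val)).subset ?_
  rintro y ⟨hy, hb⟩
  refine ⟨y.attach.map fun z => ⟨z.1, hb z.1 z.2⟩, by simpa using hy, ?_⟩
  rw [List.map_map]
  exact List.attach_map_subtype_val y

instance finite_Y (m b : ℕ) : Finite (Y m b) := (blb_fin m b).to_subtype

theorem mkY_val {m b : ℕ} {y : List ℕ} (h : ∀ x ∈ y, x < b) : (mkY m b y).1 = y.take m :=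
  List.filter_eq_self.2 fun x hx => by simpa using h x (List.mem_of_mem_take hx)

theorem bd_ex {Q : Type} [Finite Q] (S : Sys Q) : ∃ b, ∀ k l, ∀ x ∈ S.C k l, x < b := by
  obtain ⟨B, hB⟩ := (Set.finite_range fun s => (S.ph s).sum).bddAbove
  refine ⟨B + 1, fun k l x hx => ?_⟩
  obtain ⟨s, _, hs⟩ := List.mem_flatMap.1 hx
  exact Nat.lt_succ_of_le ((List.le_sum_of_mem hs).trans (hB ⟨s, rfl⟩))

theorem take_cat {Q : Type} (g : Q → List ℕ) (m : ℕ) (l : List Q) (y : List ℕ) :
    (l.flatMap g ++ y).take m = (l.flatMap (fun s => (g s).take m) ++ y).take m := by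
  induction l with
  | nil => rfl
  | cons s l ih =>
    rw [List.flatMap_cons, List.flatMap_cons, List.append_assoc, List.append_assoc,
      List.take_append (l₁ := g s), List.take_append (l₁ := (g s).take m), List.take_take, min_self]
    congr 1
    have h1 : m - ((g s).take m).length = m - (g s).length := by
      rw [List.length_take]
      omega
    rw [h1]
    have h2 := congrArg (List.take (m - (g s).length)) ih
    rwa [List.take_take, List.take_take, min_eq_left (Nat.sub_le _ _)] at h2

theorem pre_const {Q : Type} [Finite Q] (S : Sys Q) (m : ℕ) : ∃ q K, 0 < q ∧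
    ∀ k s, ((S.ps q K).C k [s]).take m = ((S.ps q K).C 0 [s]).take m := by
  obtain ⟨b, hb⟩ := bd_ex S
  have hstep : ∀ k, (fun s => (S.C (k + 1) [s]).take m) =
      (fun (J : Q → List ℕ) => fun s => ((S.f s).flatMap J).take m)
        (fun s => (S.C k [s]).take m) := by
    intro k
    funext s
    have h := take_cat (fun t => S.C k [t]) m (S.f s) []
    rw [List.append_nil, List.append_nil, ← S.C_flatMap] at h
    rw [S.C_succ, S.F_single]
    exact h
  have hfin : (Set.range fun k => fun s => (S.C k [s]).take m).Finite := by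
    refine (Set.Finite.pi' (t := fun _ : Q => {y : List ℕ | y.length ≤ m ∧ ∀ x ∈ y, x < b})
      fun _ => blb_fin m b).subset ?_
    rintro _ ⟨k, rfl⟩ s
    exact ⟨List.length_take_le _ _, fun x hx => hb k [s] x (List.mem_of_mem_take hx)⟩
  obtain ⟨q, K, hq, h⟩ := fi (fun k => fun s => (S.C k [s]).take m)
    (fun (J : Q → List ℕ) => fun s => ((S.f s).flatMap J).take m) hstep hfin
  refine ⟨q, K, hq, fun k s => ?_⟩
  rw [S.ps_C, S.ps_C]
  induction k with
  | zero => rfl
  | succ k ih =>
    rw [← ih]
    have h1 := congrFun (h (K + q * k) (Nat.le_add_right _ _)) s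
    have h2 : K + q * (k + 1) = K + q * k + q := by ring
    rw [h2]
    exact h1

end MW
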