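import Pool.Agent.Lib.MP_dd05d9_lc.MW.BLa
import Pool.Agent.Lib.MP_dd05d9_lc.MW.BLb

/-!
MW, part BL, module BLc: the words of the block system.

`T s = (S.C 0 [s]).take m`, hypothesis `hT`: `(S.C k [s]).take m = T s` for all `k`; `hb`: all entries of `S.C k l` are `< b`.
cat_take: `(S.C k l ++ y).take m = (l.flatMap T ++ y).take m`: `Sys.C_flatMap`, `take_cat` (and `hT`; note that `((T s)) .take m = T s`).
Claim A(k): `(bs S w m b ya).C k [(s, z)] = ind w (S.C k [s]) z.1` for all `s`, `z : Y m b`.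
Claim B(k): `(bs ..).C k (gl T m b l y) = ind w (S.C k l) y` for all `l` and `y` with entries `< b`.
A(k) ⇒ B(k): induction on `l`: `gl (s :: l) y = (s, mkY (l.flatMap T ++ y)) :: gl l y`; `Sys.C_cons`, A(k), `mkY_val` (entries of `l.flatMap T` are entries of `S.C 0 l`):
 first part = `ind w (S.C k [s]) ((l.flatMap T ++ y).take m) = ind w (S.C k [s]) (S.C k l ++ y)` (`ind_take`, cat_take, `List.take_take`); then `ind_append` for `S.C k (s :: l) = S.C k [s] ++ S.C k l`.
A(0): by definition (`flatMap` of a single letter).   B(k) ⇒ A(k+1): `(bs).C (k+1) [(s,z)] = (bs).C k (gl T m b (S.f s) z.1)` and `S.C (k+1) [s] = S.C k (S.f s)`.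
bs_C = claim A.  bs_fst: `(gl T m b l y).map Prod.fst = l`, induction.
-/

set_option autoImplicit false

namespace MW

variable {Q : Type}

theorem gl_fst (T : Q → List ℕ) (m b : ℕ) (l : List Q) (y : List ℕ) :
    (gl T m b l y).map Prod.fst = l := by
  induction l with
  | nil => rfl
  | cons s l ih =>
    show s :: (gl T m b l y).map Prod.fst = s :: l
    rw [ih]

theorem cat_take (S : Sys Q) (m : ℕ) (hT : ∀ k s, (S.C k [s]).take m = (S.C 0 [s]).take m)
    (k : ℕ) (l : List Q) (y : List ℕ) : (S.C k l ++ y).take m =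
      (l.flatMap (fun s => (S.C 0 [s]).take m) ++ y).take m := by
  rw [S.C_flatMap, take_cat]
  simp only [hT k]

private theorem BLc_gl (S : Sys Q) {w : List ℕ} {m b : ℕ} (hw : w.length ≤ m + 1) (ya : List ℕ)
    (hb : ∀ k l, ∀ x ∈ S.C k l, x < b)
    (hT : ∀ k s, (S.C k [s]).take m = (S.C 0 [s]).take m) (k : ℕ)
    (hA : ∀ (s : Q) (z : Y m b), (bs S w m b ya).C k [(s, z)] = ind w (S.C k [s]) z.1) (l : List Q)
    (y : List ℕ) (hy : ∀ x ∈ y, x < b) :
    (bs S w m b ya).C k (gl (fun s => (S.C 0 [s]).take m) m b l y) = ind w (S.C k l) y := by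
  induction l with
  | nil =>
    show (bs S w m b ya).C k [] = ind w (S.C k []) y
    rw [Sys.C_nil, Sys.C_nil]
    rfl
  | cons s l ih =>
    show (bs S w m b ya).C k ((s, mkY m b (l.flatMap (fun s => (S.C 0 [s]).take m) ++ y)) ::
      gl (fun s => (S.C 0 [s]).take m) m b l y) = ind w (S.C k (s :: l)) y
    rw [Sys.C_cons, hA, ih, S.C_cons k s l, ind_append]
    congr 1
    apply ind_take hw
    rw [mkY_val, List.take_take, Nat.min_self, ← cat_take S m hT k l y]
    intro x hx
    rcases List.mem_append.1 hx with h | h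
    · obtain ⟨s', _, h'⟩ := List.mem_flatMap.1 h
      exact hb 0 [s'] x (List.mem_of_mem_take h')
    · exact hy x h

theorem bs_C (S : Sys Q) {w : List ℕ} {m b : ℕ} (hw : w.length ≤ m + 1) (ya : List ℕ)
    (hb : ∀ k l, ∀ x ∈ S.C k l, x < b)
    (hT : ∀ k s, (S.C k [s]).take m = (S.C 0 [s]).take m) (k : ℕ) (s : Q) (z : Y m b) :
    (bs S w m b ya).C k [(s, z)] = ind w (S.C k [s]) z.1 := by
  induction k generalizing s z with
  | zero =>
    rw [Sys.C_zero, Sys.C_zero, List.flatMap_singleton, List.flatMap_singleton]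
    rfl
  | succ k ih =>
    rw [Sys.C_succ, Sys.C_succ, Sys.F_single, Sys.F_single]
    exact BLc_gl S hw ya hb hT k ih (S.f s) z.1 z.2.2

end MW
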