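import Pool.Agent.Lib.MP_dd05d9_lc.MW.BLc

/-!
MW, part BL, module BLd: the context of the start letter.

seg_start: `seg u (S.N k [S.a]) m = seg u (S.N 0 [S.a]) m`.  Choose `j` with `S.N 0 [S.a] + m ≤ S.N j [S.a] = S.N 0 (S.Fn j [S.a])` (`hg.unb`), `S.Fn j [S.a] = S.a :: om` (`Gen.Fn_start`), so
 `m ≤ S.N 0 om`.  `S.C (k + j) [S.a] = S.C k (S.a :: om) = S.C k [S.a] ++ S.C k om` occurs at 0, so `S.C k om` occurs at `S.N k [S.a]` (`occ_append`).  `(S.C k om).take m = (S.C 0 om).take m` (`cat_take` with `y = []`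
 for `k` and `0`), it has length `m` and occurs at `S.N k [S.a]` resp. at `S.N 0 [S.a]` (case `k = 0`); so both `seg`s are equal to it (`Occ.eq_seg`, prefix of an occurring word occurs).
lt_b: `u p` is an entry of `S.C k [S.a]` for `k` with `p < S.N k [S.a]`.
start_bs: `S.f S.a = S.a :: x`, `ya = seg u (S.N 0 [S.a]) m`: `(bs ..).f (S.a, mkY ya) = (S.a, mkY (x.flatMap T ++ (mkY ya).1)) :: gl x ..`, and `mkY (x.flatMap T ++ ya) = mkY ya`: equality of values: `mkY_val`, and
 `(x.flatMap T ++ ya).take m = (S.C 0 x ++ ya).take m` (cat_take) `= ya.take m`: `S.C 0 x ++ seg u (S.N 1 [S.a]) m` occurs at `S.N 0 [S.a]` (`S.C 1 [S.a] = S.C 0 (S.a :: x)`, `seg_start` for `k = 1`), so its first `m` entries are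
 `seg u (S.N 0 [S.a]) m = ya`.
-/

set_option autoImplicit false

namespace MW

variable {Q : Type} {S : Sys Q} {u : ℕ → ℕ}

private theorem BLd_take {w : List ℕ} {p m : ℕ} (h : Occ u w p) (hm : m ≤ w.length) :
    w.take m = seg u p m := by
  have h1 : Occ u (w.take m ++ w.drop m) p := by rwa [List.take_append_drop]
  have h2 := (occ_append.1 h1).1.eq_seg
  rwa [List.length_take_of_le hm] at h2

theorem seg_start (hg : Gen S u) {m : ℕ}
    (hT : ∀ k s, (S.C k [s]).take m = (S.C 0 [s]).take m) (k : ℕ) :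
    seg u (S.N k [S.a]) m = seg u (S.N 0 [S.a]) m := by
  obtain ⟨j, hj⟩ := hg.unb (S.N 0 [S.a] + m)
  obtain ⟨om, hom⟩ := hg.Fn_start j
  have h1 : m ≤ S.N 0 om := by
    have h2 := S.N_add 0 j [S.a]
    rw [Nat.zero_add, hom, S.N_cons 0 S.a om] at h2
    omega
  have h0 : m ≤ (S.C 0 om).length := h1
  have hkey : ∀ k, (S.C k om).take m = (S.C 0 om).take m := by
    intro k
    have e1 := cat_take S m hT k om []
    have e2 := cat_take S m hT 0 om []
    rw [List.append_nil] at e1 e2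
    rw [e1, e2]
  have hocc : ∀ k, Occ u (S.C k om) (S.N k [S.a]) := by
    intro k
    have h2 := hg.pre (k + j)
    rw [S.C_add, hom, S.C_cons] at h2
    have h3 := (occ_append.1 h2).2
    rwa [Nat.zero_add] at h3
  have hseg : ∀ k, seg u (S.N k [S.a]) m = (S.C 0 om).take m := by
    intro k
    have h2 : m ≤ (S.C k om).length := by
      have h3 := congrArg List.length (hkey k)
      rw [List.length_take, List.length_take_of_le h0] at h3
      omega
    rw [← BLd_take (hocc k) h2, hkey k]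
  rw [hseg k, hseg 0]

theorem lt_b (hg : Gen S u) {b : ℕ} (hb : ∀ k l, ∀ x ∈ S.C k l, x < b) (p : ℕ) : u p < b := by
  obtain ⟨k, hk⟩ := hg.unb (p + 1)
  have h1 : p < (S.C k [S.a]).length := hk
  have h2 := hg.pre k p h1
  rw [Nat.zero_add, List.getD_eq_getElem _ _ h1] at h2
  rw [← h2]
  exact hb k [S.a] _ (List.getElem_mem h1)

theorem start_bs (hg : Gen S u) (w : List ℕ) {m b : ℕ}
    (hb : ∀ k l, ∀ x ∈ S.C k l, x < b)
    (hT : ∀ k s, (S.C k [s]).take m = (S.C 0 [s]).take m) :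
    ∃ x, (bs S w m b (seg u (S.N 0 [S.a]) m)).f (bs S w m b (seg u (S.N 0 [S.a]) m)).a =
      (bs S w m b (seg u (S.N 0 [S.a]) m)).a :: x := by
  obtain ⟨x, hx⟩ := hg.start
  obtain ⟨ya, hya⟩ : ∃ ya, ya = seg u (S.N 0 [S.a]) m := ⟨_, rfl⟩
  rw [← hya]
  have hlen : ya.length = m := by rw [hya, seg_length]
  have hyb : ∀ x ∈ ya, x < b := by
    intro x hx
    rw [hya] at hx
    unfold seg at hx
    obtain ⟨i, _, rfl⟩ := List.mem_map.1 hx
    exact lt_b hg hb _
  have hval : (mkY m b ya).1 = ya := by rw [mkY_val hyb, ← hlen, List.take_length]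
  refine ⟨gl (fun s => (S.C 0 [s]).take m) m b x (mkY m b ya).1, ?_⟩
  have e1 : (bs S w m b ya).f (bs S w m b ya).a =
      gl (fun s => (S.C 0 [s]).take m) m b (S.f S.a) (mkY m b ya).1 := rfl
  rw [e1, hx]
  show (S.a, mkY m b (x.flatMap (fun s => (S.C 0 [s]).take m) ++ (mkY m b ya).1)) ::
    gl (fun s => (S.C 0 [s]).take m) m b x (mkY m b ya).1 = (S.a, mkY m b ya) :: _
  congr 2
  apply Subtype.ext
  rw [hval, mkY_val, ← cat_take S m hT 0 x ya]
  · have h1 : Occ u (S.C 0 x) (S.N 0 [S.a]) := by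
      have h2 := hg.pre 1
      rw [show (1 : ℕ) = 0 + 1 from rfl, S.C_add, S.Fn_one, S.F_single, hx, S.C_cons] at h2
      have h3 := (occ_append.1 h2).2
      rwa [Nat.zero_add] at h3
    have h2 : S.N 1 [S.a] = S.N 0 [S.a] + (S.C 0 x).length := by
      rw [show (1 : ℕ) = 0 + 1 from rfl, S.N_add, S.Fn_one, S.F_single, hx, S.N_cons]
      rfl
    have h3 : Occ u ya (S.N 0 [S.a] + (S.C 0 x).length) := by
      rw [← h2, hya, ← seg_start hg hT 1]
      exact occ_seg _ _ _
    have h4 : Occ u (S.C 0 x ++ ya) (S.N 0 [S.a]) := occ_append.2 ⟨h1, h3⟩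
    have h5 : m ≤ (S.C 0 x ++ ya).length := by rw [List.length_append, hlen]; omega
    rw [BLd_take h4 h5, ← hya]
  · intro x' hx'
    rcases List.mem_append.1 hx' with h | h
    · obtain ⟨s', _, h'⟩ := List.mem_flatMap.1 h
      exact hb 0 [s'] x' (List.mem_of_mem_take h')
    · exact hyb x' h

end MW
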