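import Pool.Agent.Lib.MP_dd05d9_lc.MW.BDefs
import Pool.Agent.Lib.MP_dd05d9_lc.MW.NOf

/-!
MW, part B, module Bd1: a growing loop letter has another growing letter in its image.

inL_sub: a factor `w` of `x` (`x = p ++ w ++ r`) with `InL u x`: an occurrence of `x` at `q ≥ n` gives one of `w` at `q + |p| ≥ n` (`Occ.mid`).
pow_per: `A` nonempty: `(List.replicate k A).flatten` has length `k * |A|` and period `|A|` (`Per`): `(List.replicate (k+1) A).flatten = A ++ (List.replicate k A).flatten = (List.replicate k A).flatten ++ A`;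
 entry `i + |A|` of `A ++ R` is entry `i` of `R`, `R = replicate k`, and `R` is the beginning of `R ++ A`.
no_lin: suppose all letters of `al ++ be` are constant (`Nrm.gr_or_cst`).  `A = S.C 0 al`, `B = S.C 0 be`.  `S.C (k+1) [s] = S.C k (S.f s) = S.C k al ++ S.C k [s] ++ S.C k be = A ++ S.C k [s] ++ B` (`Nrm.cst_C`, `Sys.C_append`, `Sys.C_cons`), so
 `S.C k [s] = (replicate k A).flatten ++ S.C 0 [s] ++ (replicate k B).flatten` (induction).  Since `S.N 1 [s] > S.N 0 [s]`, `|A| + |B| ≥ 1`.  If `|A| ≥ 1`: `(replicate k A).flatten` is in `L` for every `k`, has period `|A|` and length `≥ k`: contradiction to `NoPer`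
 (`l` for `d = |A|`, `k = l`).  Same for `B`.
-/

set_option autoImplicit false

namespace MW

theorem inL_sub {u : ℕ → ℕ} {w x : List ℕ} (h : InL u x) (hw : w <:+: x) : InL u w := by
  obtain ⟨a, b, rfl⟩ := hw
  intro n
  obtain ⟨p, hp, ho⟩ := h n
  exact ⟨p + a.length, by omega, ho.mid⟩

private theorem Bd1_flat (A : List ℕ) (k : ℕ) :
    (List.replicate (k + 1) A).flatten = A ++ (List.replicate k A).flatten := by
  rw [List.replicate_succ, List.flatten_cons]

private theorem Bd1_flat' (A : List ℕ) (k : ℕ) :
    (List.replicate (k + 1) A).flatten = (List.replicate k A).flatten ++ A := by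
  rw [List.replicate_succ', List.flatten_append]
  simp

private theorem Bd1_len (A : List ℕ) (k : ℕ) :
    (List.replicate k A).flatten.length = k * A.length := by
  induction k with
  | zero => simp
  | succ k ih =>
    rw [Bd1_flat, List.length_append, ih]
    ring

theorem pow_per (A : List ℕ) (k : ℕ) : Per (List.replicate k A).flatten A.length := by
  rcases k with _ | k
  · intro i hi
    simp at hi
  · intro i hi
    rw [Bd1_len] at hi
    have hik : i < (List.replicate k A).flatten.length := by
      rw [Bd1_len]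
      have : (k + 1) * A.length = k * A.length + A.length := by ring
      omega
    have e1 : (List.replicate (k + 1) A).flatten.getD i 0 = (List.replicate k A).flatten.getD i 0 := by
      rw [Bd1_flat', List.getD_append _ _ _ _ hik]
    have e2 : (List.replicate (k + 1) A).flatten.getD (i + A.length) 0 =
        (List.replicate k A).flatten.getD i 0 := by
      rw [Bd1_flat, List.getD_append_right _ _ _ _ (by omega)]
      congr 1
      omega
    rw [e1, e2]

private theorem Bd1_key {u : ℕ → ℕ} (hP : NoPer u) (A : List ℕ) (hA : 1 ≤ A.length)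
    (hL : ∀ k, InL u (List.replicate k A).flatten) : False := by
  obtain ⟨l, hl⟩ := hP A.length hA
  have h1 := Bd1_len A l
  refine hl _ (hL l) ?_ (pow_per A l)
  rw [h1]
  nlinarith

theorem no_lin {Q : Type} {S : Sys Q} {u : ℕ → ℕ} (h : Nrm S) (hP : NoPer u) {s : Q}
    (hL : ∀ k, InL u (S.C k [s])) (hs : S.Gr s) {al be : List Q} (hf : S.f s = al ++ s :: be) :
    ∃ t ∈ al ++ be, S.Gr t := by
  by_contra hc
  push Not at hc
  have hcst : ∀ t ∈ al ++ be, S.Cst t := fun t ht => (h.gr_or_cst t).resolve_left (hc t ht)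
  have hal : ∀ t ∈ al, S.Cst t := fun t ht => hcst t (List.mem_append_left _ ht)
  have hbe : ∀ t ∈ be, S.Cst t := fun t ht => hcst t (List.mem_append_right _ ht)
  have hstep : ∀ k, S.C (k + 1) [s] = S.C 0 al ++ (S.C k [s] ++ S.C 0 be) := by
    intro k
    rw [S.C_succ, S.F_single, hf, S.C_append, S.C_cons, h.cst_C hal k, h.cst_C hbe k]
  have hform : ∀ k, S.C k [s] = (List.replicate k (S.C 0 al)).flatten ++
      (S.C 0 [s] ++ (List.replicate k (S.C 0 be)).flatten) := by
    intro k
    induction k with
    | zero => simp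
    | succ k ih =>
      rw [hstep, ih, Bd1_flat (S.C 0 al), Bd1_flat' (S.C 0 be)]
      simp only [List.append_assoc]
  have hgr : S.N 0 [s] < S.N 1 [s] := hs Nat.zero_lt_one
  have hlen : 1 ≤ (S.C 0 al).length ∨ 1 ≤ (S.C 0 be).length := by
    have h1 : S.N 1 [s] = (S.C 0 al).length + (S.N 0 [s] + (S.C 0 be).length) := by
      unfold Sys.N
      rw [hstep 0, List.length_append, List.length_append]
    omega
  rcases hlen with h1 | h1
  · refine Bd1_key hP _ h1 (fun k => inL_sub (hL k) ?_)
    rw [hform k]
    exact ⟨[], _, by rw [List.nil_append]⟩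
  · refine Bd1_key hP _ h1 (fun k => inL_sub (hL k) ?_)
    rw [hform k]
    exact ⟨(List.replicate k (S.C 0 al)).flatten ++ S.C 0 [s], [], by
      rw [List.append_nil, List.append_assoc]⟩

end MW
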