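import Pool.Agent.Lib.MP_dd05d9_lc.MW.BEDefs
import Pool.Agent.Lib.MP_dd05d9_lc.MW.Bd1

/-!
MW, part B, module Ba0: basic facts on the language L.

u_bdd: `u p` is a letter of some `S.C k [S.a]` (`Gen.unb`, `Gen.pre`), letters of `S.C k l` are letters of the words `S.ph t`, `Q` finite.
tail_inL: `u` bounded by `b`.  The set of words of length `n` with entries `< b` is finite; those which do not occur infinitely often have finitely many occurrences (bounded positions); take `N` above all of them.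
 (contraposition: `¬ InL u w` gives `m` with no occurrence at positions `≥ m`; choose `m w` for each `w` of the finite set, `N` = max.)   `seg u p n` occurs at `p ≥ N`, so it is in L.
inL_ext: `x` in L: by `tail_inL` with `n = |x| + 2` and an occurrence of `x` at `q ≥ N + 1`: `seg u (q - 1) (|x| + 2)` is in L and equals `a :: (x ++ [b])`, `a = u (q-1)`, `b = u (q + |x|)` (`seg_add`, `Occ.eq_seg`).
L0: `CB` for `w`: `G`; `M = G + |w|`: `x` in L occurs at some `p`; `w` occurs at `q ∈ [p, p + G)`, inside the occurrence of `x`: `x = seg u p |x| = seg u p (q-p) ++ seg u q |w| ++ rest` (`seg_add`), `w = seg u q |w|`.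
noPer: by contradiction: `d > 0` such that for every `l` there is `x` in L with `|x| ≥ l`, `Per x d`.  Let `w` in L, `|w| = d + 1`.  `L0`: `M`, take `x` with `|x| ≥ M`: `w <:+: x`, so `w.getD 0 0 = w.getD d 0`.  `tail_inL` for `n = d + 1`: for `p ≥ N`: `seg u p (d+1)` in L, so `u p = u (p + d)`: `UP u`.
-/

set_option autoImplicit false

namespace MW

variable {u : ℕ → ℕ}

theorem u_bdd {Q : Type} [Finite Q] {S : Sys Q} (hg : Gen S u) : ∃ b, ∀ p, u p < b := by
  obtain ⟨B, hB⟩ := (Set.finite_range fun s => (S.ph s).sum).bddAbove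
  refine ⟨B + 1, fun p => ?_⟩
  obtain ⟨k, hk⟩ := hg.unb (p + 1)
  have hp : p < (S.C k [S.a]).length := by
    rw [S.C_length]
    omega
  have h1 := hg.pre k p hp
  rw [Nat.zero_add, List.getD_eq_getElem _ _ hp] at h1
  rw [← h1]
  have h2 : (S.C k [S.a])[p] ∈ (S.Fn k [S.a]).flatMap S.ph := List.getElem_mem hp
  obtain ⟨s, _, hs⟩ := List.mem_flatMap.1 h2
  exact Nat.lt_succ_of_le ((List.le_sum_of_mem hs).trans (hB ⟨s, rfl⟩))

private theorem ba0_fin (n b : ℕ) : {y : List ℕ | y.length = n ∧ ∀ x ∈ y, x < b}.Finite := by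
  refine ((List.finite_length_eq (Fin b) n).image (List.map Fin.val)).subset ?_
  rintro y ⟨hy, hb⟩
  refine ⟨y.attach.map fun z => ⟨z.1, hb z.1 z.2⟩, by simpa using hy, ?_⟩
  rw [List.map_map]
  exact List.attach_map_subtype_val y

theorem tail_inL (hb : ∃ b, ∀ p, u p < b) (n : ℕ) : ∃ N, ∀ p, N ≤ p → InL u (seg u p n) := by
  classical
  obtain ⟨b, hb⟩ := hb
  have h1 : ∀ w : List ℕ, ∃ m, ¬ InL u w → ∀ p, m ≤ p → ¬ Occ u w p := by
    intro w
    by_cases h : InL u w
    · exact ⟨0, fun h' => absurd h h'⟩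
    · unfold InL at h
      push Not at h
      obtain ⟨m, hm⟩ := h
      exact ⟨m, fun _ => hm⟩
  choose m hm using h1
  obtain ⟨N, hN⟩ := ((ba0_fin n b).image m).bddAbove
  refine ⟨N, fun p hp => ?_⟩
  by_contra hcon
  have hmem : seg u p n ∈ {y : List ℕ | y.length = n ∧ ∀ x ∈ y, x < b} := by
    refine ⟨seg_length u p n, fun x hx => ?_⟩
    obtain ⟨i, _, rfl⟩ := List.mem_map.1 hx
    exact hb _
  exact hm _ hcon p ((hN ⟨_, hmem, rfl⟩).trans hp) (occ_seg u p n)

private theorem ba0_seg1 (p : ℕ) : seg u p 1 = [u p] := by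
  simp [seg]

theorem inL_ext (hb : ∃ b, ∀ p, u p < b) {x : List ℕ} (hx : InL u x) :
    ∃ a b, InL u (a :: (x ++ [b])) := by
  obtain ⟨N, hN⟩ := tail_inL hb (1 + (x.length + 1))
  obtain ⟨q, hq, ho⟩ := hx (N + 1)
  have h := hN (q - 1) (by omega)
  rw [seg_add, seg_add, ba0_seg1, ba0_seg1, show q - 1 + 1 = q by omega, ← ho.eq_seg] at h
  exact ⟨_, _, h⟩

theorem L0_ba (hB : CB u) {w : List ℕ} (hw : InL u w) :
    ∃ M, ∀ x, InL u x → M ≤ x.length → w <:+: x := by
  obtain ⟨G, hG⟩ := hB w hw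
  refine ⟨G + w.length, fun x hx hl => ?_⟩
  obtain ⟨p, _, ho⟩ := hx 0
  obtain ⟨q, hq1, hq2, hq3⟩ := hG p
  obtain ⟨d, hd⟩ := Nat.exists_eq_add_of_le hq1
  obtain ⟨r, hr⟩ : ∃ r, x.length = d + (w.length + r) := ⟨x.length - d - w.length, by omega⟩
  have h1 := ho.eq_seg
  rw [hr, seg_add, seg_add, ← hd, ← hq3.eq_seg] at h1
  exact ⟨_, _, by rw [List.append_assoc]; exact h1.symm⟩

theorem noPer (hb : ∃ b, ∀ p, u p < b) (hB : CB u) (hn : ¬ UP u) : NoPer u := by
  intro d hd
  by_contra hcon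
  push Not at hcon
  apply hn
  obtain ⟨N, hN⟩ := tail_inL hb (d + 1)
  refine ⟨N, d, hd, fun p hp => ?_⟩
  obtain ⟨M, hM⟩ := L0_ba hB (hN p hp)
  obtain ⟨x, hx1, hx2, hx3⟩ := hcon M
  obtain ⟨s, t, hst⟩ := hM x hx1 hx2
  have hl : (seg u p (d + 1)).length = d + 1 := seg_length u p (d + 1)
  have hxl : x.length = s.length + (d + 1) + t.length := by
    rw [← hst, List.length_append, List.length_append, hl]
  have key : ∀ i, i < d + 1 → x.getD (s.length + i) 0 = u (p + i) := by
    intro i hi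
    rw [← hst, List.append_assoc, List.getD_append_right _ _ _ _ (by omega),
      show s.length + i - s.length = i by omega,
      List.getD_append _ _ _ _ (by omega), seg_getD u p (d + 1) i hi]
  have h1 := hx3 s.length (by omega)
  have h2 := key 0 (by omega)
  have h3 := key d (by omega)
  rw [Nat.add_zero, Nat.add_zero] at h2
  rw [← h3, ← h2, h1]

end MW
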