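import Pool.Agent.Lib.MP_dd05d9_lc.MW.BDefs
import Pool.Agent.Lib.MP_dd05d9_lc.MW.NOf

/-!
MW, part B, module Ba1: recurrent letters.

rec_inL: `S.f S.a = S.a :: x`, `t ∈ S.F x`.  For every `i`: `t ∈ S.Fn (i+1) x` (for `y ∈ x` with `t ∈ S.f y`: `t ∈ S.Fn (i+1) [y]` by `Nrm.mem_Fn`, `Sys.mem_Fn`).  `S.Fn (i+2) [S.a] = S.Fn (i+1) (S.a :: x) = S.Fn (i+1) [S.a] ++ S.Fn (i+1) x`; split `S.Fn (i+1) x = l1 ++ t :: l2`:
 with `y = S.Fn (i+1) [S.a] ++ l1`: `y ++ [t] <+: S.Fn (i+2) [S.a]`, `S.C k [t]` occurs at `S.N k y ≥ S.N k (S.Fn (i+1) [S.a]) = S.N (k+i+1) [S.a]` (`Gen.occ_block`), which is arbitrarily large (`Gen.unb_N`).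

ex_gr: `¬ UP u`.  Suppose all recurrent letters are constant.  `S.f S.a = S.a :: x`, all letters of `S.F x` are recurrent, so `S.C k x = S.C (k-1) (S.F x) = S.C 0 (S.F x) =: X` for `k ≥ 1` (`Nrm.cst_C`).  `S.C (k+1) [S.a] = S.C k [S.a] ++ S.C k x`, so for `k ≥ 1` `X` occurs in `u` at
 `S.N k [S.a] = S.N 1 [S.a] + (k-1) |X|`.  `|X| ≥ 1` since `S.N k [S.a]` is unbounded.  Every `n ≥ S.N 1 [S.a]` is `S.N 1 [S.a] + i |X| + r`, `r < |X|`: `u n = X.getD r 0 = u (n + |X|)`.  So `UP u`.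
-/

set_option autoImplicit false

namespace MW

variable {Q : Type} {S : Sys Q} {u : ℕ → ℕ}

theorem rec_inL (h : Nrm S) (hg : Gen S u) {t : Q} (ht : Rec S t) (k : ℕ) :
    InL u (S.C k [t]) := by
  intro n
  obtain ⟨x, hx, htx⟩ := ht
  obtain ⟨i, hi⟩ := hg.unb_N n
  have h1 : t ∈ S.Fn (i + 1) x := by
    rw [S.mem_F] at htx
    obtain ⟨y, hy, hty⟩ := htx
    rw [S.mem_Fn]
    exact ⟨y, hy, (h.mem_Fn (Nat.succ_pos i)).2 hty⟩
  obtain ⟨l1, l2, hl⟩ := List.append_of_mem h1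
  have h2 : S.Fn (i + 1 + 1) [S.a] = S.Fn (i + 1) [S.a] ++ S.Fn (i + 1) x := by
    rw [S.Fn_succ (i + 1) [S.a], S.F_single, hx, S.Fn_cons]
  have h3 : (S.Fn (i + 1) [S.a] ++ l1) ++ [t] <+: S.Fn (i + 1 + 1) [S.a] := by
    rw [h2, hl]
    exact ⟨l2, by simp⟩
  refine ⟨S.N k (S.Fn (i + 1) [S.a] ++ l1), ?_, hg.occ_block h3 k⟩
  rw [S.N_append, ← S.N_add]
  have h4 := hi (k + (i + 1)) (by omega)
  omega

theorem ex_gr (h : Nrm S) (hg : Gen S u) (hn : ¬ UP u) : ∃ s, Rec S s ∧ S.Gr s := by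
  by_contra hcon
  push Not at hcon
  apply hn
  obtain ⟨x, hx⟩ := hg.start
  have hc : ∀ s ∈ S.F x, S.Cst s := fun s hs => (h.gr_or_cst s).resolve_left (hcon s ⟨x, hx, hs⟩)
  obtain ⟨X, hX⟩ : ∃ X, X = S.C 0 (S.F x) := ⟨_, rfl⟩
  have hC : ∀ k, S.C (k + 1) x = X := fun k => by
    rw [S.C_succ, hX]
    exact h.cst_C hc k
  have hstep : ∀ k, S.C (k + 1 + 1) [S.a] = S.C (k + 1) [S.a] ++ X := by
    intro k
    rw [S.C_succ (k + 1) [S.a], S.F_single, hx, S.C_cons, hC k]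
  have hlen : ∀ k, S.N (k + 1) [S.a] = S.N 1 [S.a] + k * X.length := by
    intro k
    induction k with
    | zero => simp
    | succ k ih =>
      have e : S.N (k + 1 + 1) [S.a] = S.N (k + 1) [S.a] + X.length := by
        rw [← S.C_length, hstep, List.length_append, S.C_length]
      rw [e, ih, Nat.succ_mul]
      omega
  have hX0 : 0 < X.length := by
    by_contra h0
    have h0' : X.length = 0 := by omega
    obtain ⟨k, hk⟩ := hg.unb_N (S.N 1 [S.a] + 1)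
    have h1 := hk (k + 1) (by omega)
    rw [hlen k, h0', Nat.mul_zero] at h1
    omega
  have hocc : ∀ k, Occ u X (S.N 1 [S.a] + k * X.length) := by
    intro k
    have h1 := hg.pre (k + 1 + 1)
    rw [hstep] at h1
    have h2 := (occ_append.1 h1).2
    rwa [S.C_length, Nat.zero_add, hlen] at h2
  refine ⟨S.N 1 [S.a], X.length, hX0, fun n hn => ?_⟩
  have h1 : n = S.N 1 [S.a] + (n - S.N 1 [S.a]) / X.length * X.length +
      (n - S.N 1 [S.a]) % X.length := by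
    have := Nat.div_add_mod' (n - S.N 1 [S.a]) X.length
    omega
  obtain ⟨i, hi⟩ : ∃ i, i = (n - S.N 1 [S.a]) / X.length := ⟨_, rfl⟩
  obtain ⟨r, hr⟩ : ∃ r, r = (n - S.N 1 [S.a]) % X.length := ⟨_, rfl⟩
  have hrX : r < X.length := by rw [hr]; exact Nat.mod_lt _ hX0
  rw [← hi, ← hr] at h1
  have h2 := hocc i r hrX
  have h3 := hocc (i + 1) r hrX
  rw [h1, ← h2, h3, Nat.succ_mul]
  congr 1
  omega

end MW
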