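import Pool.Agent.Lib.MP_dd05d9_lc.MW.BDefs
import Pool.Agent.Lib.MP_dd05d9_lc.MW.NOf

/-!
MW, part B, module Bd2: doubling for lists.

(0) For a letter with doubling constant `c`: `2^j * S.N k [t] ≤ S.N (k + j * c) [t]` (induction on `j`); by monotonicity (`Nrm.mono`) a doubling constant may be enlarged.
(1) There is a common `c0` for all growing `t ∈ l` (induction on the list).
(2) Split the sum over `l` (`Sys.N_sum`) into growing and constant letters: `S.N k l = g k + b`, `b` = sum over the constant letters of `S.N 0 [t]`, `g k ≥ 1` (there is a growing letter, `Nrm.pos`), `2^j * g k ≤ g (k + j c0)`.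
 (e.g. filter the list with the decidable (classical) predicate `S.Gr`, or prove by induction on `l` the existence of `g, b` with these properties.)
(3) `j` with `2 + b ≤ 2^j`: `S.N (k + j c0) l = g (k + j c0) + b ≥ (2 + b) g k + b ≥ 2 g k + b + b = 2 S.N k l`.
-/

set_option autoImplicit false

namespace MW

private theorem Bd2_split {Q : Type} {S : Sys Q} (h : Nrm S) (l : List Q)
    (hd : ∀ t ∈ l, S.Gr t → ∃ c, ∀ k, 2 * S.N k [t] ≤ S.N (k + c) [t]) :
    ∃ (g : ℕ → ℕ) (b c : ℕ), Monotone g ∧ (∀ k, S.N k l = g k + b) ∧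
      (∀ k, 2 * g k ≤ g (k + c)) ∧ ((∃ t ∈ l, S.Gr t) → ∀ k, 1 ≤ g k) := by
  induction l with
  | nil =>
    refine ⟨fun _ => 0, 0, 0, monotone_const, ?_, ?_, ?_⟩
    · intro k; simp
    · intro k; simp
    · rintro ⟨t, ht, _⟩; simp at ht
  | cons s l ih =>
    obtain ⟨g, b, c, hm, hN, hdb, hp⟩ := ih (fun t ht => hd t (List.mem_cons_of_mem _ ht))
    rcases h.gr_or_cst s with hs | hs
    · obtain ⟨c', hc'⟩ := hd s (List.mem_cons_self ..) hs
      refine ⟨fun k => S.N k [s] + g k, b, c + c', ?_, ?_, ?_, ?_⟩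
      · intro i j hij
        exact Nat.add_le_add (h.mono [s] hij) (hm hij)
      · intro k
        rw [S.N_cons, hN k]
        change _ = S.N k [s] + g k + b
        omega
      · intro k
        have h1 : S.N (k + c') [s] ≤ S.N (k + (c + c')) [s] := h.mono [s] (by omega)
        have h2 : g (k + c) ≤ g (k + (c + c')) := hm (by omega)
        have h3 := hc' k
        have h4 := hdb k
        change 2 * (S.N k [s] + g k) ≤ S.N (k + (c + c')) [s] + g (k + (c + c'))
        omega
      · intro _ k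
        have := h.pos hs k
        change 1 ≤ S.N k [s] + g k
        omega
    · refine ⟨g, S.N 0 [s] + b, c, hm, ?_, hdb, ?_⟩
      · intro k
        rw [S.N_cons, hN k, hs k]
        omega
      · rintro ⟨t, ht, htg⟩
        rcases List.mem_cons.1 ht with rfl | ht
        · exact absurd hs (Nrm.not_cst htg)
        · exact hp ⟨t, ht, htg⟩

private theorem Bd2_pow {g : ℕ → ℕ} {c : ℕ} (hdb : ∀ k, 2 * g k ≤ g (k + c)) (j k : ℕ) :
    2 ^ j * g k ≤ g (k + j * c) := by
  induction j with
  | zero => simp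
  | succ j ih =>
    have h1 := hdb (k + j * c)
    have e : k + (j + 1) * c = k + j * c + c := by ring
    rw [e]
    calc 2 ^ (j + 1) * g k = 2 * (2 ^ j * g k) := by ring
      _ ≤ 2 * g (k + j * c) := Nat.mul_le_mul_left _ ih
      _ ≤ _ := h1

theorem dbl_list {Q : Type} {S : Sys Q} (h : Nrm S) {l : List Q} (hg : ∃ t ∈ l, S.Gr t)
    (hd : ∀ t ∈ l, S.Gr t → ∃ c, ∀ k, 2 * S.N k [t] ≤ S.N (k + c) [t]) :
    ∃ c, ∀ k, 2 * S.N k l ≤ S.N (k + c) l := by
  obtain ⟨g, b, c, _, hN, hdb, hp⟩ := Bd2_split h l hd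
  have hp := hp hg
  refine ⟨(2 + b) * c, fun k => ?_⟩
  rw [hN k, hN (k + (2 + b) * c)]
  have h1 := Bd2_pow hdb (2 + b) k
  have h2 : 2 + b < 2 ^ (2 + b) := Nat.lt_two_pow_self
  have h3 : (2 + b) * g k ≤ 2 ^ (2 + b) * g k := Nat.mul_le_mul_right _ h2.le
  have h4 : b ≤ b * g k := Nat.le_mul_of_pos_right _ (hp k)
  have h5 : (2 + b) * g k = 2 * g k + b * g k := by ring
  omega

end MW
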