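import Pool.Agent.Lib.MP_dd05d9_lc.MW.Bd1
import Pool.Agent.Lib.MP_dd05d9_lc.MW.Bd2

/-!
MW, part B, module Bd3: doubling for all growing recurrent letters.

rec_child: `Rec S s`, `t ∈ S.f s`: `s ∈ S.F x`, so `s ∈ S.f y`, `y ∈ x`, `t ∈ S.f s`; by `n1` `t ∈ S.f y`, so `t ∈ S.F x`.

dbl: strong induction on the measure `mu s = 2 * card {t | t ∈ S.f s, S.Gr t} + (if s ∈ S.f s then 0 else 1)` (classical, `Set.ncard` of a set in a finite type).  Let `G s = {t | t ∈ S.f s ∧ S.Gr t}`.  For `t ∈ G s`: `G t ⊆ G s` (`n1`), `t` is recurrent.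
 (a) `s ∈ S.f s` and there is a further growing `t` (other position) in `S.f s` with `s ∈ S.f t` or `t = s`: precisely: `S.f s = l1 ++ s :: l2` and there is `t ∈ l1 ++ l2` growing with `t = s ∨ s ∈ S.f t`.  Then
     `S.N (k+2) [s] ≥ S.N (k+1) [s] + S.N (k+1) [t] ≥ 2 S.N k [s]` (`S.N (k+2) [s] = S.N (k+1) (S.f s)`, the two letters are at different positions; `S.N (k+1) [t] = S.N k (S.f t) ≥ S.N k [s]` if `s ∈ S.f t`, `mono`).  `c = 2`.
 (b) `s ∈ S.f s`, `S.f s = al ++ s :: be`, no growing `t ∈ al ++ be` has `t = s` or `s ∈ S.f t`.  For such `t`: `s ∈ G s`, `s ∉ G t`, so `card (G t) < card (G s)`, `mu t < mu s`.  By `no_lin` there is a growing letter in `al ++ be`; by induction and `dbl_list` there is `c0` with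
     `2 P k ≤ P (k + c0)`, `P k = S.N k (al ++ be)`.  `S.N (k+1) [s] = S.N k [s] + P k`.  Take `c = c0 + S.N 0 [s]` (`P` is monotone, so `2 P k ≤ P (k + c)`): `S.N (0 + c) [s] ≥ c + S.N 0 [s] ≥ 2 S.N 0 [s]` (strictly increasing), and by induction on `k`:
     `S.N (k + 1 + c) [s] = S.N (k + c) [s] + P (k + c) ≥ 2 S.N k [s] + 2 P k = 2 S.N (k+1) [s]`.
 (c) `s ∉ S.f s`.  For growing `t ∈ S.f s`: `mu t < mu s`: `G t ⊆ G s`; if the cardinalities are equal then `G t = G s ∋ t`, so `t ∈ S.f t` and the second part of the measure is 0 < 1.  There is a growing `t ∈ S.f s` (`Nrm.gr_child`).  `dbl_list` for `l = S.f s`: `c0`.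
     `S.N (k + 1 + c0) [s] = S.N (k + c0) (S.f s) ≥ 2 S.N k (S.f s) = 2 S.N (k+1) [s]`; with `c = c0 + S.N 0 [s]` also for `k = 0`: `S.N c [s] ≥ c + S.N 0 [s] ≥ 2 S.N 0 [s]`.
 Uniform constant: maximum over the finite type (`Finite.exists_max` / `Set.Finite.bddAbove` of the chosen constants; enlarge constants by `mono`).
-/

set_option autoImplicit false

namespace MW

variable {Q : Type} {S : Sys Q} {u : ℕ → ℕ}

theorem rec_child (h : Nrm S) {s t : Q} (hs : Rec S s) (ht : t ∈ S.f s) : Rec S t := by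
  obtain ⟨x, hx, hsx⟩ := hs
  rw [S.mem_F] at hsx
  obtain ⟨y, hy, hsy⟩ := hsx
  refine ⟨x, hx, ?_⟩
  rw [S.mem_F]
  exact ⟨y, hy, (h.n1 y t).mp ⟨s, hsy, ht⟩⟩

private theorem Bd3_start {f : ℕ → ℕ} (hf : StrictMono f) (k : ℕ) : k + f 0 ≤ f k := by
  induction k with
  | zero => omega
  | succ k ih =>
    have := hf (show k < k + 1 by omega)
    omega

private theorem Bd3_one (h : Nrm S) {s : Q} (l1 l2 : List Q) (hf : S.f s = l1 ++ s :: l2) (k : ℕ) :
    S.N (k + 1) [s] = S.N k [s] + S.N k (l1 ++ l2) := by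
  have _ := h
  rw [S.N_succ, S.F_single, hf, S.N_append, S.N_append, S.N_cons k s l2]
  omega

private theorem Bd3_step [Finite Q] (h : Nrm S) (hP : NoPer u)
    (hL : ∀ s, Rec S s → ∀ k, InL u (S.C k [s])) :
    ∀ s, Rec S s → S.Gr s → ∃ c, ∀ k, 2 * S.N k [s] ≤ S.N (k + c) [s] := by
  classical
  have := Fintype.ofFinite Q
  let G : Q → Finset Q := fun s => Finset.univ.filter (fun t => t ∈ S.f s ∧ S.Gr t)
  have hG : ∀ s t, t ∈ G s ↔ t ∈ S.f s ∧ S.Gr t := by
    intro s t
    simp only [G, Finset.mem_filter, Finset.mem_univ, true_and]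
  have hsub : ∀ s t, t ∈ S.f s → G t ⊆ G s := by
    intro s t ht r hr
    rw [hG] at hr ⊢
    exact ⟨(h.n1 s r).mp ⟨t, ht, hr.1⟩, hr.2⟩
  have key : ∀ n, ∀ s, 2 * (G s).card + (if s ∈ S.f s then 0 else 1) = n → Rec S s → S.Gr s →
      ∃ c, ∀ k, 2 * S.N k [s] ≤ S.N (k + c) [s] := by
    intro n
    induction n using Nat.strong_induction_on with
    | _ n ih =>
      intro s hn hr hg
      by_cases hss : s ∈ S.f s
      · obtain ⟨l1, l2, hf⟩ := List.append_of_mem hss
        have hmem : ∀ t ∈ l1 ++ l2, t ∈ S.f s := by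
          intro t ht
          rw [hf, List.mem_append, List.mem_cons]
          rw [List.mem_append] at ht
          rcases ht with h1 | h1
          · exact Or.inl h1
          · exact Or.inr (Or.inr h1)
        by_cases hc : ∃ t ∈ l1 ++ l2, S.Gr t ∧ (t = s ∨ s ∈ S.f t)
        · obtain ⟨t, ht, _, h2⟩ := hc
          refine ⟨2, fun k => ?_⟩
          have e1 : S.N (k + 2) [s] = S.N (k + 1) [s] + S.N (k + 1) (l1 ++ l2) :=
            Bd3_one h l1 l2 hf (k + 1)
          have e2 : S.N (k + 1) [t] ≤ S.N (k + 1) (l1 ++ l2) := S.N_le_of_mem ht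
          have e3 : S.N k [s] ≤ S.N (k + 1) [s] := h.mono [s] (Nat.le_succ k)
          have e4 : S.N k [s] ≤ S.N (k + 1) [t] := by
            rcases h2 with h2 | h2
            · rw [h2]
              exact e3
            · rw [S.N_succ, S.F_single]
              exact S.N_le_of_mem h2
          omega
        · have hmu : ∀ t ∈ l1 ++ l2, S.Gr t →
              2 * (G t).card + (if t ∈ S.f t then 0 else 1) < n := by
            intro t ht hgt
            have h1 : ¬ (t = s ∨ s ∈ S.f t) := fun h2 => hc ⟨t, ht, hgt, h2⟩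
            have h2 : (G t).card < (G s).card := by
              apply Finset.card_lt_card
              refine ⟨hsub s t (hmem t ht), fun h3 => ?_⟩
              have h4 : s ∈ G s := (hG s s).mpr ⟨hss, hg⟩
              exact h1 (Or.inr ((hG t s).mp (h3 h4)).1)
            rw [← hn]
            split_ifs <;> omega
          obtain ⟨c0, hc0⟩ := dbl_list h (l := l1 ++ l2)
            (no_lin h hP (hL s hr) hg hf)
            (fun t ht hgt => ih _ (hmu t ht hgt) t rfl (rec_child h hr (hmem t ht)) hgt)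
          refine ⟨c0 + S.N 0 [s], fun k => ?_⟩
          induction k with
          | zero =>
            have h1 := Bd3_start hg (c0 + S.N 0 [s])
            simp only [Nat.zero_add] at h1 ⊢
            omega
          | succ k ihk =>
            have e1 := Bd3_one h l1 l2 hf k
            have e2 := Bd3_one h l1 l2 hf (k + (c0 + S.N 0 [s]))
            have e3 : k + 1 + (c0 + S.N 0 [s]) = k + (c0 + S.N 0 [s]) + 1 := by omega
            have e4 := hc0 k
            have e5 : S.N (k + c0) (l1 ++ l2) ≤ S.N (k + (c0 + S.N 0 [s])) (l1 ++ l2) :=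
              h.mono (l1 ++ l2) (by omega)
            rw [e3]
            omega
      · have hmu : ∀ t ∈ S.f s, S.Gr t →
            2 * (G t).card + (if t ∈ S.f t then 0 else 1) < n := by
          intro t ht hgt
          have h1 := Finset.card_le_card (hsub s t ht)
          rw [← hn, if_neg hss]
          by_cases htt : t ∈ S.f t
          · rw [if_pos htt]
            omega
          · have h2 : (G t).card < (G s).card := by
              apply Finset.card_lt_card
              refine ⟨hsub s t ht, fun h3 => ?_⟩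
              have h4 : t ∈ G s := (hG s t).mpr ⟨ht, hgt⟩
              exact htt ((hG t t).mp (h3 h4)).1
            rw [if_neg htt]
            omega
        obtain ⟨c0, hc0⟩ := dbl_list h (l := S.f s) (h.gr_child hg)
          (fun t ht hgt => ih _ (hmu t ht hgt) t rfl (rec_child h hr ht) hgt)
        refine ⟨c0 + S.N 0 [s], fun k => ?_⟩
        cases k with
        | zero =>
          have h1 := Bd3_start hg (c0 + S.N 0 [s])
          simp only [Nat.zero_add] at h1 ⊢
          omega
        | succ k =>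
          have e1 : S.N (k + 1) [s] = S.N k (S.f s) := by rw [S.N_succ, S.F_single]
          have e2 : S.N (k + (c0 + S.N 0 [s]) + 1) [s] = S.N (k + (c0 + S.N 0 [s])) (S.f s) := by
            rw [S.N_succ, S.F_single]
          have e3 : k + 1 + (c0 + S.N 0 [s]) = k + (c0 + S.N 0 [s]) + 1 := by omega
          have e4 := hc0 k
          have e5 : S.N (k + c0) (S.f s) ≤ S.N (k + (c0 + S.N 0 [s])) (S.f s) :=
            h.mono (S.f s) (by omega)
          rw [e3]
          omega
  exact fun s hr hg => key _ s rfl hr hg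

theorem dbl [Finite Q] (h : Nrm S) (hP : NoPer u)
    (hL : ∀ s, Rec S s → ∀ k, InL u (S.C k [s])) : Dbl S := by
  classical
  have := Fintype.ofFinite Q
  have h1 := Bd3_step h hP hL
  have h2 : ∀ s, ∃ c, Rec S s → S.Gr s → ∀ k, 2 * S.N k [s] ≤ S.N (k + c) [s] := by
    intro s
    by_cases h3 : Rec S s ∧ S.Gr s
    · obtain ⟨c, hc⟩ := h1 s h3.1 h3.2
      exact ⟨c, fun _ _ => hc⟩
    · exact ⟨0, fun h4 h5 => absurd ⟨h4, h5⟩ h3⟩
  choose c hc using h2
  refine ⟨∑ s, c s, fun s hr hg k => (hc s hr hg k).trans (h.mono [s] ?_)⟩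
  exact Nat.add_le_add_left (Finset.single_le_sum (f := c) (fun _ _ => Nat.zero_le _)
    (Finset.mem_univ s)) k

end MW
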