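import Pool.Agent.Lib.MP_dd05d9_lc.MW.BDefs
import Pool.Agent.Lib.MP_dd05d9_lc.MW.NOf

/-!
MW, part B, module Bd4: growth of the start letter.
-/

set_option autoImplicit false

namespace MW

variable {Q : Type} {S : Sys Q} {u : ℕ → ℕ}

private theorem Bd4_succ {x : List Q} (hx : S.f S.a = S.a :: x) (k : ℕ) :
    S.N (k + 1) [S.a] = S.N k [S.a] + S.N k x := by
  rw [Sys.N_succ, Sys.F_single, hx, Sys.N_cons]

theorem rec_le {s : Q} (hs : Rec S s) (k : ℕ) : S.N k [s] ≤ S.N (k + 2) [S.a] := by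
  obtain ⟨x, hx, hsx⟩ := hs
  have h1 : S.N (k + 2) [S.a] = S.N (k + 1) [S.a] + S.N (k + 1) x := Bd4_succ hx (k + 1)
  have h2 : S.N (k + 1) x = S.N k (S.F x) := Sys.N_succ S k x
  have h3 : S.N k [s] ≤ S.N k (S.F x) := S.N_le_of_mem hsx
  omega

private theorem Bd4_list (S : Sys Q) (i B : ℕ) (l : List Q) (h : ∀ t ∈ l, S.N i [t] ≤ B) :
    S.N i l ≤ l.length * B := by
  induction l with
  | nil => simp
  | cons t l ih =>
    rw [Sys.N_cons, List.length_cons, Nat.add_mul, Nat.one_mul]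
    have h1 := h t (by simp)
    have h2 := ih fun r hr => h r (by simp [hr])
    omega

theorem na_le [Finite Q] (h : Nrm S) (hg : Gen S u) (hD : Dbl S) (hex : ∃ s, Rec S s ∧ S.Gr s) :
    ∃ C3, ∀ k, ∃ s, Rec S s ∧ S.Gr s ∧ S.N k [S.a] ≤ C3 * S.N k [s] := by
  classical
  have := Fintype.ofFinite Q
  obtain ⟨c0, hc0⟩ := hD
  obtain ⟨x, hx⟩ := hg.start
  obtain ⟨GR, hGR⟩ : ∃ GR : Finset Q, ∀ s, s ∈ GR ↔ Rec S s ∧ S.Gr s :=
    ⟨Finset.univ.filter (fun s => Rec S s ∧ S.Gr s), fun s => by simp⟩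
  have hne : GR.Nonempty := by
    obtain ⟨s, hs⟩ := hex
    exact ⟨s, (hGR s).2 hs⟩
  obtain ⟨m, hm⟩ : ∃ m : ℕ → ℕ, ∀ k, m k = GR.sup (fun s => S.N k [s]) := ⟨_, fun _ => rfl⟩
  have hle : ∀ k s, s ∈ GR → S.N k [s] ≤ m k := fun k s hs => by
    rw [hm]
    exact Finset.le_sup (f := fun s => S.N k [s]) hs
  have hat : ∀ k, ∃ s ∈ GR, m k = S.N k [s] := fun k => by
    rw [hm]
    exact Finset.exists_mem_eq_sup GR hne (fun s => S.N k [s])
  have hpos : ∀ k, 1 ≤ m k := fun k => by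
    obtain ⟨s, hs, he⟩ := hat k
    rw [he]
    exact h.pos ((hGR s).1 hs).2 k
  have hmono : ∀ k j, m k ≤ m (k + j) := fun k j => by
    obtain ⟨s, hs, he⟩ := hat k
    rw [he]
    exact (h.mono [s] (Nat.le_add_right k j)).trans (hle _ s hs)
  obtain ⟨c, hc⟩ : ∃ c, c = c0 + 1 := ⟨_, rfl⟩
  have hdb : ∀ k, 2 * m k ≤ m (k + c) := fun k => by
    obtain ⟨s, hs, he⟩ := hat k
    have h1 := hc0 s ((hGR s).1 hs).1 ((hGR s).1 hs).2 k
    have h2 : S.N (k + c0) [s] ≤ S.N (k + c) [s] := h.mono [s] (by omega)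
    have h3 := hle (k + c) s hs
    rw [he]
    omega
  obtain ⟨bb, hbb⟩ : ∃ bb, ∀ t : Q, S.N 0 [t] ≤ bb :=
    ⟨∑ t : Q, S.N 0 [t], fun t => Finset.single_le_sum (f := fun t => S.N 0 [t])
      (fun _ _ => Nat.zero_le _) (Finset.mem_univ t)⟩
  obtain ⟨E, hE⟩ : ∃ E, E = S.N 0 x + (S.F x).length * (bb + 1) := ⟨_, rfl⟩
  have hx1 : ∀ k, S.N k x ≤ E * m k := by
    intro k
    cases k with
    | zero =>
      have h1 := hpos 0
      calc S.N 0 x ≤ E := by rw [hE]; exact Nat.le_add_right _ _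
        _ = E * 1 := (Nat.mul_one _).symm
        _ ≤ E * m 0 := Nat.mul_le_mul_left _ h1
    | succ i =>
      rw [Sys.N_succ]
      have h1 := Bd4_list S i ((bb + 1) * m i) (S.F x) (fun t ht => by
        rcases h.gr_or_cst t with h2 | h2
        · have h3 := hle i t ((hGR t).2 ⟨⟨x, hx, ht⟩, h2⟩)
          refine h3.trans ?_
          exact Nat.le_mul_of_pos_left _ (by omega)
        · rw [h2 i]
          have h3 := hbb t
          have h4 := hpos i
          calc S.N 0 [t] ≤ (bb + 1) * 1 := by omega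
            _ ≤ (bb + 1) * m i := Nat.mul_le_mul_left _ h4)
      refine h1.trans ?_
      rw [← Nat.mul_assoc]
      refine Nat.mul_le_mul ?_ (hmono i 1)
      rw [hE]
      exact Nat.le_add_left _ _
  have hstep : ∀ k, S.N (k + 1) [S.a] ≤ S.N k [S.a] + E * m k := fun k => by
    rw [Bd4_succ hx]
    have := hx1 k
    omega
  have hsteps : ∀ k j, S.N (k + j) [S.a] ≤ S.N k [S.a] + j * (E * m (k + j)) := by
    intro k j
    induction j with
    | zero => simp
    | succ j ih =>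
      have h1 := hstep (k + j)
      have h2 : E * m (k + j) ≤ E * m (k + (j + 1)) := Nat.mul_le_mul_left _ (hmono (k + j) 1)
      have h3 : j * (E * m (k + j)) ≤ j * (E * m (k + (j + 1))) := Nat.mul_le_mul_left _ h2
      have h4 : (j + 1) * (E * m (k + (j + 1))) = j * (E * m (k + (j + 1))) + E * m (k + (j + 1)) := by
        ring
      have h5 : k + j + 1 = k + (j + 1) := by omega
      rw [h5] at h1
      omega
  obtain ⟨C3, hC3⟩ : ∃ C3, C3 = 2 * (c * E) + S.N c [S.a] := ⟨_, rfl⟩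
  have hclaim : ∀ k, S.N k [S.a] ≤ C3 * m k := by
    intro k
    induction k using Nat.strong_induction_on with
    | _ k ih =>
      rcases Nat.lt_or_ge k c with hk | hk
      · have h1 : S.N k [S.a] ≤ S.N c [S.a] := hg.N_mono hk.le
        have h2 := hpos k
        calc S.N k [S.a] ≤ C3 := by rw [hC3]; omega
          _ = C3 * 1 := (Nat.mul_one _).symm
          _ ≤ C3 * m k := Nat.mul_le_mul_left _ h2
      · obtain ⟨k', rfl⟩ : ∃ k', k = k' + c := ⟨k - c, by omega⟩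
        have h1 := ih k' (by omega)
        have h2 := hsteps k' c
        have h3 : C3 * (2 * m k') ≤ C3 * m (k' + c) := Nat.mul_le_mul_left _ (hdb k')
        have h4 : 2 * (c * E) * m (k' + c) ≤ C3 * m (k' + c) := by
          refine Nat.mul_le_mul_right _ ?_
          rw [hC3]
          exact Nat.le_add_right _ _
        have h5 : 2 * (c * E) * m (k' + c) = 2 * (c * (E * m (k' + c))) := by ring
        have h6 : C3 * (2 * m k') = 2 * (C3 * m k') := by ring
        rw [h5] at h4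
        rw [h6] at h3
        omega
  refine ⟨C3, fun k => ?_⟩
  obtain ⟨s, hs, he⟩ := hat k
  refine ⟨s, ((hGR s).1 hs).1, ((hGR s).1 hs).2, ?_⟩
  rw [← he]
  exact hclaim k

theorem beta_ex [Finite Q] (h : Nrm S) (hg : Gen S u) (hD : Dbl S)
    (hex : ∃ s, Rec S s ∧ S.Gr s) (b : ℕ) :
    ∃ c, ∀ k, b * S.N k [S.a] ≤ S.N (k + c) [S.a] := by
  obtain ⟨C3, hC3⟩ := na_le h hg hD hex
  obtain ⟨c, hc⟩ := hD
  obtain ⟨j, hj⟩ : ∃ j, j = b * C3 := ⟨_, rfl⟩
  have hj2 : b * C3 ≤ 2 ^ j := by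
    rw [hj]
    exact Nat.lt_two_pow_self.le
  refine ⟨j * c + 2, fun k => ?_⟩
  obtain ⟨s, hs1, hs2, hs3⟩ := hC3 k
  have hit : ∀ i, 2 ^ i * S.N k [s] ≤ S.N (k + i * c) [s] := by
    intro i
    induction i with
    | zero => simp
    | succ i ih =>
      have h1 := hc s hs1 hs2 (k + i * c)
      have h2 : k + i * c + c = k + (i + 1) * c := by ring
      rw [h2] at h1
      have h3 : 2 ^ (i + 1) * S.N k [s] = 2 * (2 ^ i * S.N k [s]) := by ring
      rw [h3]
      omega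
  calc b * S.N k [S.a] ≤ b * (C3 * S.N k [s]) := Nat.mul_le_mul_left _ hs3
    _ = b * C3 * S.N k [s] := by ring
    _ ≤ 2 ^ j * S.N k [s] := Nat.mul_le_mul_right _ hj2
    _ ≤ S.N (k + j * c) [s] := hit j
    _ ≤ S.N (k + j * c + 2) [S.a] := rec_le hs1 _
    _ = S.N (k + (j * c + 2)) [S.a] := by rw [Nat.add_assoc]

end MW
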