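import Pool.Agent.Lib.MP_dd05d9_lc.MW.Ba0

/-!
MW, part B, module Be1: no small periods; the two-sided word.

inL_long: words in L of every length: `tail_inL`: `seg u N n`.
pf_ex: `C1` from `LR`, `C2 = 2 * C1`.  Suppose `x` in L, `0 < d`, `Per x d`, `2 * C1 * d ≤ |x|`.  Then `C1 * (d+1) ≤ |x|`.  Every `w` in L with `|w| = d + 1` is a factor of `x`, so `w.getD 0 0 = w.getD d 0`.  `NoPer` for `d`: `l`; `x'` in L with `|x'| ≥ l` (`inL_long`): for `i + d < |x'|` the factor of `x'` of length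
 `d + 1` at `i` is in L (`inL_sub`), so `x'.getD i 0 = x'.getD (i+d) 0`: `Per x' d`, contradiction.
Z_ex: `inL_ext` iterated from `[]` (`InL u []`): a sequence `X : ℕ → List ℕ`, `X 0 = []`, `X (n+1) = a_n :: (X n ++ [b_n])`, `InL u (X n)`, `|X n| = 2 n` (choice on the subtype of words in L).  `Z m = b_m` for `m ≥ 0`, `Z (-(m+1)) = a_m` (`Int.rec`/`Int.toNat`).  Then `X n = sgZ Z (-n) (2 n)` by induction on `n`.
 Every `sgZ Z p n` is a factor of `X m = sgZ Z (-m) (2m)` for `m ≥ |p| + n`; so in L (`inL_sub`).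
-/

set_option autoImplicit false

namespace MW

variable {u : ℕ → ℕ}

private theorem Be1_getD (x : List ℕ) (i n j : ℕ) (hj : j < n) :
    ((x.drop i).take n).getD j 0 = x.getD (i + j) 0 := by
  rw [List.getD_eq_getElem?_getD, List.getD_eq_getElem?_getD, List.getElem?_take, List.getElem?_drop,
    if_pos hj]

private theorem Be1_inf (x : List ℕ) (i n : ℕ) : (x.drop i).take n <:+: x :=
  (List.take_prefix _ _).isInfix.trans (List.drop_suffix _ _).isInfix

theorem pf_ex (hb : ∃ b, ∀ p, u p < b) (hP : NoPer u) (hLR : LR u) : PF u := by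
  obtain ⟨C1, hC1, hC⟩ := hLR
  refine ⟨2 * C1, by omega, ?_⟩
  intro x d hx hd hper
  by_contra hlt
  rw [not_lt] at hlt
  have h1 : C1 * (d + 1) ≤ x.length := by
    have : C1 * (d + 1) ≤ C1 * (2 * d) := Nat.mul_le_mul_left _ (by omega)
    calc C1 * (d + 1) ≤ C1 * (2 * d) := this
      _ = 2 * C1 * d := by ring
      _ ≤ x.length := hlt
  have key : ∀ w, InL u w → w.length = d + 1 → w.getD 0 0 = w.getD d 0 := by
    intro w hw hl
    have hne : w ≠ [] := by
      intro h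
      rw [h] at hl
      simp at hl
    have hin := hC x w hx hw hne (by rw [hl]; exact h1)
    obtain ⟨a, b, hab⟩ := hin
    have e : ∀ j, j < w.length → w.getD j 0 = x.getD (a.length + j) 0 := by
      intro j hj
      rw [← hab, List.append_assoc, List.getD_append_right _ _ _ _ (by omega),
        show a.length + j - a.length = j by omega, List.getD_append _ _ _ _ hj]
    have hlen : a.length + w.length ≤ x.length := by
      rw [← hab]
      simp
    rw [e 0 (by omega), e d (by omega)]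
    exact hper a.length (by omega)
  obtain ⟨l, hl⟩ := hP d hd
  obtain ⟨N, hN⟩ := tail_inL hb l
  have hx' := hN N le_rfl
  refine hl _ hx' (by rw [seg_length]) ?_
  intro i hi
  have h2 := key (((seg u N l).drop i).take (d + 1)) (inL_sub hx' (Be1_inf _ _ _)) (by
    rw [List.length_take, List.length_drop]
    omega)
  rw [Be1_getD _ _ _ _ (by omega), Be1_getD _ _ _ _ (by omega)] at h2
  exact h2

private theorem Be1_eq (Z : ℤ → ℕ) (p : ℤ) (n : ℕ) :
    sgZ Z p n = (List.range n).map (fun i : ℕ => Z (p + (i : ℤ))) := by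
  unfold sgZ
  show List.map _ (List.flatMap _ _) = _
  rw [List.map_flatMap]
  show List.flatMap (fun a : ℕ => [Z (p + (a : ℤ))]) (List.range n) = _
  exact (List.map_eq_flatMap).symm

private theorem Be1_add (Z : ℤ → ℕ) (p : ℤ) (m n : ℕ) :
    sgZ Z p (m + n) = sgZ Z p m ++ sgZ Z (p + m) n := by
  rw [Be1_eq, Be1_eq, Be1_eq]
  rw [List.range_add, List.map_append, List.map_map]
  congr 1
  apply List.map_congr_left
  intro i _
  simp only [Function.comp]
  congr 1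
  push_cast
  ring

private theorem Be1_one (Z : ℤ → ℕ) (p : ℤ) : sgZ Z p 1 = [Z p] := by
  unfold sgZ
  simp

theorem Z_ex (hb : ∃ b, ∀ p, u p < b) : ∃ Z : ℤ → ℕ, ∀ (p : ℤ) (n : ℕ), InL u (sgZ Z p n) := by
  have hext : ∀ x : {x : List ℕ // InL u x}, ∃ a b, InL u (a :: (x.1 ++ [b])) :=
    fun x => inL_ext hb x.2
  choose a b hab using hext
  have hnil : InL u [] := fun n => ⟨n, le_rfl, Occ.nil u n⟩
  obtain ⟨X, hX0, hX1⟩ : ∃ X : ℕ → {x : List ℕ // InL u x}, X 0 = ⟨[], hnil⟩ ∧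
      ∀ n, X (n + 1) = ⟨a (X n) :: ((X n).1 ++ [b (X n)]), hab (X n)⟩ :=
    ⟨fun n => Nat.rec ⟨[], hnil⟩ (fun _ x => ⟨a x :: (x.1 ++ [b x]), hab x⟩) n, rfl, fun _ => rfl⟩
  obtain ⟨Z, hZp, hZn⟩ : ∃ Z : ℤ → ℕ, (∀ m : ℕ, Z (m : ℤ) = b (X m)) ∧
      ∀ m : ℕ, Z (-((m : ℤ) + 1)) = a (X m) := by
    refine ⟨fun z => if 0 ≤ z then b (X z.toNat) else a (X (-z - 1).toNat), ?_, ?_⟩
    · intro m
      simp
    · intro m
      have h1 : ¬ (0 ≤ -((m : ℤ) + 1)) := by omega
      have h2 : (-(-((m : ℤ) + 1)) - 1).toNat = m := by omega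
      simp only [h1, if_false, h2]
  refine ⟨Z, ?_⟩
  have hXn : ∀ n : ℕ, (X n).1 = sgZ Z (-(n : ℤ)) (2 * n) := by
    intro n
    induction n with
    | zero =>
      rw [hX0]
      simp [sgZ]
    | succ n ih =>
      rw [hX1]
      show a (X n) :: ((X n).1 ++ [b (X n)]) = _
      rw [show 2 * (n + 1) = 1 + (2 * n + 1) by ring, Be1_add, Be1_add, Be1_one, Be1_one, ih]
      have e1 : -(((n + 1 : ℕ) : ℤ)) = -((n : ℤ) + 1) := by push_cast; ring
      have e2 : -(((n + 1 : ℕ) : ℤ)) + ((1 : ℕ) : ℤ) = -(n : ℤ) := by push_cast; ring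
      rw [e2, e1, hZn]
      have e3 : -(n : ℤ) + ((2 * n : ℕ) : ℤ) = (n : ℤ) := by push_cast; ring
      rw [e3, hZp]
      rfl
  intro p n
  obtain ⟨m, hm⟩ : ∃ m : ℕ, m = p.natAbs + n := ⟨_, rfl⟩
  have h1 : InL u (sgZ Z (-(m : ℤ)) (2 * m)) := by
    rw [← hXn]
    exact (X m).2
  refine inL_sub h1 ?_
  obtain ⟨c, hc⟩ : ∃ c : ℕ, (c : ℤ) = p + m := ⟨(p + m).toNat, by omega⟩
  obtain ⟨d, hd⟩ : ∃ d : ℕ, (d : ℤ) = m - p - n := ⟨(m - p - n).toNat, by omega⟩
  have h2 : 2 * m = c + n + d := by omega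
  rw [h2, Be1_add, Be1_add]
  refine ⟨sgZ Z (-(m : ℤ)) c, sgZ Z (-(m : ℤ) + ((c + n : ℕ) : ℤ)) d, ?_⟩
  rw [show -(m : ℤ) + c = p by omega]

end MW
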