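import Pool.Agent.Lib.MP_dd05d9_lc.MW.BEDefs
import Pool.Agent.Lib.MP_dd05d9_lc.MW.NOf
import Pool.Agent.Lib.MP_dd05d9_lc.MW.Bd4

/-!
MW, part B, module Be2: windows of `Z` occur early in `u`.

`C1` from `LR`, `C0` from `Nrm.n4`, `C3` from `hna` (wlog `C3 ≥ 1`).  Let `W ≥ 1`.  `k` = least number with `C3 * (C1 * (2 W)) ≤ S.N k [S.a]` (exists: `Gen.unb`).  Then `S.N k [S.a] ≤ C6 * W` with `C6 = S.N 0 [S.a] + C0 * C3 * C1 * 2` (`k = 0` or `S.N k ≤ C0 * S.N (k-1) < C0 * C3 C1 2 W`).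
`s` from `hna`: `C3 * (C1 * 2W) ≤ C3 * S.N k [s]`, so `C1 * (2W) ≤ S.N k [s]`.  `w = sgZ Z (-W) (2W)` (in L, nonempty, length 2W) `<:+: S.C k [s]`: `S.C k [s] = A ++ w ++ B`.
`Rec S s`: `S.f S.a = S.a :: x`, `s ∈ S.F x`; `S.Fn 2 [S.a] = S.F (S.a :: x) = S.F [S.a] ++ S.F x`, so there is `y` with `y ++ [s] <+: S.Fn 2 [S.a]`; `S.C k [s]` occurs at `S.N k y` (`Gen.occ_block`), so `w` occurs at `q = S.N k y + |A|`.  `p = q + W`: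
`Mt u Z W p` (`p - W = q`; `w.getD j 0 = Z (-W + j)`), `p ≤ S.N k (y ++ [s]) ≤ S.N k (S.Fn 2 [S.a]) = S.N (k+2) [S.a] ≤ C0^2 * S.N k [S.a] ≤ C0^2 * C6 * W`.
-/

set_option autoImplicit false

namespace MW

private theorem Be2_eq (Z : ℤ → ℕ) (p : ℤ) (n : ℕ) :
    sgZ Z p n = (List.range n).map (fun i : ℕ => Z (p + (i : ℤ))) := by
  unfold sgZ
  show List.map _ (List.flatMap _ _) = _
  rw [List.map_flatMap]
  show List.flatMap (fun a : ℕ => [Z (p + (a : ℤ))]) (List.range n) = _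
  exact (List.map_eq_flatMap).symm

theorem lin_ex {Q : Type} [Finite Q] {S : Sys Q} {u : ℕ → ℕ} (h : Nrm S) (hg : Gen S u)
    (hna : ∃ C3, ∀ k, ∃ s, Rec S s ∧ S.Gr s ∧ S.N k [S.a] ≤ C3 * S.N k [s])
    (hL : ∀ s, Rec S s → ∀ k, InL u (S.C k [s])) (hLR : LR u) {Z : ℤ → ℕ}
    (hZ : ∀ (p : ℤ) (n : ℕ), InL u (sgZ Z p n)) :
    ∃ C, ∀ W, 1 ≤ W → ∃ p, Mt u Z W p ∧ p ≤ C * W := by
  classical
  obtain ⟨C1, hC1, hC⟩ := hLR
  obtain ⟨C0, hC0, hn4⟩ := h.n4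
  obtain ⟨C3', hC3'⟩ := hna
  obtain ⟨C3, hC3d⟩ : ∃ C3, C3 = C3' + 1 := ⟨_, rfl⟩
  have hC3pos : 0 < C3 := by omega
  have hna : ∀ k, ∃ s, Rec S s ∧ S.Gr s ∧ S.N k [S.a] ≤ C3 * S.N k [s] := by
    intro k
    obtain ⟨s, h1, h2, h3⟩ := hC3' k
    refine ⟨s, h1, h2, h3.trans ?_⟩
    exact Nat.mul_le_mul_right _ (by omega)
  refine ⟨C0 * (C0 * (S.N 0 [S.a] + C0 * (C3 * (C1 * 2)))), ?_⟩
  intro W hW
  have hex : ∃ k, C3 * (C1 * (2 * W)) ≤ S.N k [S.a] := hg.unb _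
  obtain ⟨k, hk, hkmin⟩ : ∃ k, C3 * (C1 * (2 * W)) ≤ S.N k [S.a] ∧
      ∀ j, j < k → S.N j [S.a] < C3 * (C1 * (2 * W)) :=
    ⟨Nat.find hex, Nat.find_spec hex, fun j hj => not_le.mp (Nat.find_min hex hj)⟩
  have hup : S.N k [S.a] ≤ (S.N 0 [S.a] + C0 * (C3 * (C1 * 2))) * W := by
    rcases k with _ | j
    · calc S.N 0 [S.a] ≤ S.N 0 [S.a] * W := Nat.le_mul_of_pos_right _ hW
        _ ≤ (S.N 0 [S.a] + C0 * (C3 * (C1 * 2))) * W := Nat.mul_le_mul_right _ (Nat.le_add_right _ _)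
    · have h1 := hkmin j (by omega)
      calc S.N (j + 1) [S.a] ≤ C0 * S.N j [S.a] := hn4 j _
        _ ≤ C0 * (C3 * (C1 * (2 * W))) := Nat.mul_le_mul_left _ h1.le
        _ = (C0 * (C3 * (C1 * 2))) * W := by ring
        _ ≤ (S.N 0 [S.a] + C0 * (C3 * (C1 * 2))) * W := Nat.mul_le_mul_right _ (Nat.le_add_left _ _)
  obtain ⟨s, hrec, _, hs3⟩ := hna k
  have h2 : C1 * (2 * W) ≤ S.N k [s] := Nat.le_of_mul_le_mul_left (hk.trans hs3) hC3pos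
  have hlen : (sgZ Z (-(W : ℤ)) (2 * W)).length = 2 * W := by
    rw [Be2_eq]
    simp
  have hne : sgZ Z (-(W : ℤ)) (2 * W) ≠ [] := by
    intro h3
    rw [h3] at hlen
    simp at hlen
    omega
  obtain ⟨A, B, hAB⟩ := hC (S.C k [s]) (sgZ Z (-(W : ℤ)) (2 * W)) (hL s hrec k) (hZ _ _) hne
    (by rw [hlen]; exact h2)
  obtain ⟨x, hx, hsx⟩ := hrec
  obtain ⟨l1, l2, hl⟩ := List.append_of_mem hsx
  have hF2 : S.Fn 2 [S.a] = (S.f S.a ++ l1) ++ [s] ++ l2 := by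
    rw [S.Fn_succ, S.F_single, S.Fn_one, hx, S.F_cons, hl]
    simp [hx]
  have hpre : (S.f S.a ++ l1) ++ [s] <+: S.Fn 2 [S.a] := ⟨l2, by rw [hF2]⟩
  have hocc := hg.occ_block hpre k
  rw [← hAB] at hocc
  have hmid := hocc.mid
  have hlenA : A.length + 2 * W ≤ S.N k [s] := by
    rw [← S.C_length, ← hAB]
    simp only [List.length_append]
    omega
  have hbound : S.N k (S.f S.a ++ l1) + S.N k [s] ≤
      C0 * (C0 * (S.N 0 [S.a] + C0 * (C3 * (C1 * 2)))) * W := by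
    calc S.N k (S.f S.a ++ l1) + S.N k [s] = S.N k ((S.f S.a ++ l1) ++ [s]) := (S.N_append _ _ _).symm
      _ ≤ S.N k (S.Fn 2 [S.a]) := S.N_le_of_prefix hpre
      _ = S.N (k + 2) [S.a] := (S.N_add k 2 _).symm
      _ ≤ C0 * S.N (k + 1) [S.a] := hn4 (k + 1) _
      _ ≤ C0 * (C0 * S.N k [S.a]) := Nat.mul_le_mul_left _ (hn4 k _)
      _ ≤ C0 * (C0 * ((S.N 0 [S.a] + C0 * (C3 * (C1 * 2))) * W)) :=
          Nat.mul_le_mul_left _ (Nat.mul_le_mul_left _ hup)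
      _ = _ := by ring
  refine ⟨S.N k (S.f S.a ++ l1) + A.length + W, ⟨by omega, ?_⟩, by omega⟩
  intro j hj
  have h4 := hmid j (by rw [hlen]; exact hj)
  rw [show S.N k (S.f S.a ++ l1) + A.length + W - W + j = S.N k (S.f S.a ++ l1) + A.length + j by omega,
    ← h4, Be2_eq, List.getD_eq_getElem _ _ (by simpa using hj)]
  simp only [List.getElem_map, List.getElem_range]
  congr 1
  ring

end MW
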