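import Pool.Agent.Lib.MP_dd05d9_lc.MW.Be3
import Pool.Agent.Lib.MP_dd05d9_lc.MW.NOf

/-!
MW, part B, module Be4: the positions `pm (D0 * b^m)` are anchored in the tower `GB S Z`.

`C0 ≥ 1` from `Nrm.n4`; `C5 = C0 + S.N 0 [S.a]`; `D1 = C0 * C5 + 1`; let `D0 ≥ D1`, `b ≥ 1`.  `kap m` = least `k` with `b^m ≤ S.N k [S.a]` (`Gen.unb`).  `S.N (kap m) [S.a] ≤ C5 * b^m` (`kap m = 0`, or `≤ C0 * S.N (kap m - 1) [S.a] < C0 * b^m`).
`W = D0 * b^m ≥ 1`; `p = pm u Z W`: `Mt u Z W p` and `p ≤ C * W` (`Nat.sInf_mem`, `Nat.sInf_le`).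
`c'` from `hbe` for the number `C * D0 + 1`, wlog `c' ≥ 1` (`Gen.N_mono`): `S.N (kap m + c') [S.a] ≥ (C * D0 + 1) * S.N (kap m) [S.a] ≥ (C D0 + 1) b^m > p`.  So `p < S.N (kap m) (S.Fn c' [S.a])` (`Sys.N_add`); `block_at`: `S.Fn c' [S.a] = y ++ t :: r`, `S.N y ≤ p < S.N y + S.N [t]` at level `kap m`.  `e = p - S.N (kap m) y`.
`t ∈ S.Fn c' [S.a]`, so `t ∈ S.f S.a` (`Nrm.mem_Fn`), `S.N (kap m) [t] ≤ S.N (kap m + 1) [S.a] ≤ C0 * C5 * b^m ≤ W`.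
`(t, e) ∈ GB S Z (kap m)`: `S.C (kap m) [t]` occurs at `S.N (kap m) y = p - e` (`Gen.occ_block`), so its entry `i` is `u (p - e + i) = u (p - W + (W - e + i)) = Z ((W - e + i) - W) = Z (i - e)` (`W - e + i < 2 W`).
`y ≠ []`: otherwise `t = S.a` (`Gen.Fn_start`), `p < S.N (kap m) [S.a] ≤ C5 * b^m ≤ W ≤ p`.
`kap m ≤ kap (m+1)`: `b^m ≤ b^(m+1) ≤ S.N (kap (m+1)) [S.a]`.  `kap (m+1) ≤ kap m + c''`, `c''` from `hbe` for `b`: `S.N (kap m + c'') ≥ b * S.N (kap m) ≥ b^(m+1)`.  `Anch` with `c = max c' c''` (`Gen.Fn_prefix` for `c' ≤ c`: but the letter statement `y ++ [t] <+: S.Fn c [S.a]` follows from `S.Fn c' [S.a] <+: S.Fn c [S.a]`).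
-/

set_option autoImplicit false

namespace MW

theorem anch_B {Q : Type} [Finite Q] {S : Sys Q} {u : ℕ → ℕ} (h : Nrm S) (hg : Gen S u)
    (hbe : ∀ b, ∃ c, ∀ k, b * S.N k [S.a] ≤ S.N (k + c) [S.a]) {Z : ℤ → ℕ}
    (hT : ∃ K, Tower S (GB S Z) K) {C : ℕ} (hC : ∀ W, 1 ≤ W → ∃ p, Mt u Z W p ∧ p ≤ C * W) :
    ∃ D1, ∀ D0, D1 ≤ D0 → ∀ b, 1 ≤ b → Anch S (fun m => pm u Z (D0 * b ^ m)) := by
  classical
  obtain ⟨C0, hC0, h4⟩ := h.n4
  obtain ⟨K, hK⟩ := hT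
  obtain ⟨a0, ha0⟩ : ∃ a0, a0 = S.N 0 [S.a] := ⟨_, rfl⟩
  refine ⟨C0 * (C0 + a0) + 1, fun D0 hD0 b hb => ?_⟩
  have hex : ∀ m, ∃ k, b ^ m ≤ S.N k [S.a] := fun m => hg.unb (b ^ m)
  have hbm : ∀ m, 1 ≤ b ^ m := fun m => Nat.one_le_pow _ _ hb
  obtain ⟨kap, hkap⟩ : ∃ kap : ℕ → ℕ, kap = fun m => Nat.find (hex m) := ⟨_, rfl⟩
  have hk1 : ∀ m, b ^ m ≤ S.N (kap m) [S.a] := fun m => by
    rw [hkap]
    exact Nat.find_spec (hex m)
  have hkmin : ∀ m k, b ^ m ≤ S.N k [S.a] → kap m ≤ k := fun m k hk => by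
    rw [hkap]
    exact Nat.find_min' (hex m) hk
  have hk2 : ∀ m, S.N (kap m) [S.a] ≤ (C0 + a0) * b ^ m := by
    intro m
    rcases Nat.eq_zero_or_pos (kap m) with h0 | h0
    · rw [h0, ← ha0]
      calc a0 ≤ C0 + a0 := Nat.le_add_left _ _
        _ = (C0 + a0) * 1 := (Nat.mul_one _).symm
        _ ≤ (C0 + a0) * b ^ m := Nat.mul_le_mul_left _ (hbm m)
    · obtain ⟨k, hk⟩ : ∃ k, kap m = k + 1 := ⟨kap m - 1, by omega⟩
      have h1 : S.N k [S.a] < b ^ m := by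
        by_contra hcon
        have := hkmin m k (not_lt.1 hcon)
        omega
      rw [hk]
      calc S.N (k + 1) [S.a] ≤ C0 * S.N k [S.a] := h4 k _
        _ ≤ (C0 + a0) * b ^ m := Nat.mul_le_mul (Nat.le_add_right _ _) h1.le
  have hC5 : C0 + a0 ≤ C0 * (C0 + a0) := Nat.le_mul_of_pos_left _ hC0
  obtain ⟨c', hc'⟩ := hbe (C * D0 + 1)
  obtain ⟨c'', hc''⟩ := hbe b
  refine ⟨GB S Z, K, max (c' + 1) c'', kap, hK, fun m => ⟨?_, ?_⟩, fun m => ?_⟩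
  · refine hkmin m _ ((Nat.pow_le_pow_right hb (Nat.le_succ m)).trans (hk1 (m + 1)))
  · refine (hkmin (m + 1) (kap m + c'') ?_).trans (Nat.add_le_add_left (le_max_right _ _) _)
    rw [pow_succ']
    exact (Nat.mul_le_mul_left b (hk1 m)).trans (hc'' _)
  · obtain ⟨W, hW⟩ : ∃ W, W = D0 * b ^ m := ⟨_, rfl⟩
    beta_reduce
    rw [← hW]
    have hW1 : 1 ≤ W := by
      rw [hW]
      exact Nat.mul_pos (by omega) (hbm m)
    obtain ⟨p', hp1, hp2⟩ := hC W hW1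
    have hMt : Mt u Z W (pm u Z W) := Nat.sInf_mem (s := {p | Mt u Z W p}) ⟨p', hp1⟩
    have hpC : pm u Z W ≤ C * W := (Nat.sInf_le (s := {p | Mt u Z W p}) hp1).trans hp2
    obtain ⟨p, hp⟩ : ∃ p, p = pm u Z W := ⟨_, rfl⟩
    rw [← hp] at hMt hpC ⊢
    obtain ⟨k, hk⟩ : ∃ k, k = kap m := ⟨_, rfl⟩
    have hk1m := hk1 m
    have hk2m := hk2 m
    rw [← hk] at hk1m hk2m ⊢
    have hpN : p < S.N k (S.Fn (c' + 1) [S.a]) := by
      rw [← S.N_add]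
      have e1 : S.N (k + c') [S.a] ≤ S.N (k + (c' + 1)) [S.a] := hg.N_mono (by omega)
      have e2 := hc' k
      have e3 : (C * D0 + 1) * b ^ m ≤ (C * D0 + 1) * S.N k [S.a] := Nat.mul_le_mul_left _ hk1m
      have e4 : (C * D0 + 1) * b ^ m = C * W + b ^ m := by rw [hW]; ring
      have e5 := hbm m
      omega
    obtain ⟨y, t, r, hyt, hy1, hy2⟩ := block_at S k hpN
    have hpre : y ++ [t] <+: S.Fn (c' + 1) [S.a] := by
      rw [hyt]
      exact ⟨r, by simp⟩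
    have hNW : S.N k [S.a] ≤ W := by
      rw [hW]
      exact hk2m.trans (Nat.mul_le_mul_right _ (by omega))
    have htW : S.N k [t] ≤ W := by
      have h1 : t ∈ S.Fn (c' + 1) [S.a] := by
        rw [hyt]
        simp
      have h2 : t ∈ S.f S.a := (h.mem_Fn (Nat.succ_pos c')).1 h1
      have h3 : S.N k [t] ≤ S.N (k + 1) [S.a] := by
        rw [S.N_succ, S.F_single]
        exact S.N_le_of_mem h2
      have h5 : C0 * S.N k [S.a] ≤ C0 * ((C0 + a0) * b ^ m) := Nat.mul_le_mul_left _ hk2m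
      have h6 : C0 * ((C0 + a0) * b ^ m) ≤ W := by
        rw [hW, ← Nat.mul_assoc]
        exact Nat.mul_le_mul_right _ (by omega)
      have h7 := h4 k [S.a]
      omega
    refine ⟨(t, p - S.N k y), ?_, y, ?_, hpre.trans (hg.Fn_prefix (le_max_left _ _)), ?_⟩
    · rw [mem_GB]
      refine ⟨by show p - S.N k y < S.N k [t]; omega, fun i hi => ?_⟩
      change i < S.N k [t] at hi
      have h1 := hg.occ_block hpre k i hi
      show (S.C k [t]).getD i 0 = Z ((i : ℤ) - ((p - S.N k y : ℕ) : ℤ))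
      rw [h1]
      have h2 := hMt.2 (W - (p - S.N k y) + i) (by omega)
      have h3 := hMt.1
      have h4' : p - W + (W - (p - S.N k y) + i) = S.N k y + i := by omega
      rw [h4'] at h2
      rw [h2]
      congr 1
      omega
    · rintro rfl
      obtain ⟨x, hx⟩ := hg.Fn_start (c' + 1)
      rw [hx, List.nil_append] at hyt
      have hta : S.a = t := (List.cons.inj hyt).1
      rw [S.N_nil, ← hta] at hy2
      have h3 := hMt.1
      omega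
    · show p = S.N k y + (p - S.N k y)
      omega

end MW
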