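import Pool.Agent.Lib.MP_dd05d9_lc.MW.NOa

/-!
MW, part NO, module NOe: idempotent support.

`R n = {(s,t) | t ∈ S.Fn n [s]}`.  `(s,t) ∈ R (n+1)` iff there is `r ∈ S.f s` with `(r,t) ∈ R n` (`Sys.Fn_succ`, `Sys.F_single`, `Sys.mem_Fn`): `R (n+1) = g (R n)`; the range is
finite (`Set (Q × Q)` is finite).  `fi`: `q', K'` with `R (k + q') = R k` for `k ≥ K'`.  `q := q' * (K' + 1)`: `q ≥ K'`, so `R (q + q) = R q`.
For `S.ps q 0`: `(S.ps q 0).f s = S.Fn q [s]`, so the left side says `t ∈ S.Fn q (S.Fn q [s]) = S.Fn (q+q) [s]` (`Sys.mem_Fn`, `Sys.Fn_add`), the right side `t ∈ S.Fn q [s]`.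
-/

set_option autoImplicit false

namespace MW

theorem n1_ex {Q : Type} [Finite Q] (S : Sys Q) : ∃ q, 0 < q ∧
    ∀ s t, (∃ r ∈ (S.ps q 0).f s, t ∈ (S.ps q 0).f r) ↔ t ∈ (S.ps q 0).f s := by
  obtain ⟨q', K', hq', hper⟩ := fi (X := Set (Q × Q)) (fun n => {z | z.2 ∈ S.Fn n [z.1]})
    (fun R => {z | ∃ r ∈ S.f z.1, (r, z.2) ∈ R})
    (by
      intro k
      ext z
      simp only [Set.mem_setOf_eq]
      rw [S.Fn_succ, S.F_single, S.mem_Fn])
    (Set.toFinite _)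
  have h1 : ∀ m k, K' ≤ k → ∀ s t, (t ∈ S.Fn (k + q' * m) [s] ↔ t ∈ S.Fn k [s]) := by
    intro m
    induction m with
    | zero => intro k _ s t; rfl
    | succ m ih =>
      intro k hk s t
      have h2 := hper (k + q' * m) (by omega)
      have h3 : ((s, t) ∈ {z : Q × Q | z.2 ∈ S.Fn (k + q' * m + q') [z.1]}) ↔
          ((s, t) ∈ {z : Q × Q | z.2 ∈ S.Fn (k + q' * m) [z.1]}) := by
        rw [show {z : Q × Q | z.2 ∈ S.Fn (k + q' * m + q') [z.1]} =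
          {z : Q × Q | z.2 ∈ S.Fn (k + q' * m) [z.1]} from h2]
      simp only [Set.mem_setOf_eq] at h3
      rw [Nat.mul_succ, ← Nat.add_assoc, h3]
      exact ih k hk s t
  refine ⟨q' * (K' + 1), by positivity, ?_⟩
  intro s t
  have hK : K' ≤ q' * (K' + 1) := by nlinarith
  have h2 := h1 (K' + 1) (q' * (K' + 1)) hK s t
  rw [S.ps_f]
  rw [← h2, S.mem_Fn_add]
  rfl

end MW
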