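import Pool.Agent.Lib.MP_dd05d9_lc.MW.NOd
import Pool.Agent.Lib.MP_dd05d9_lc.MW.NOe

/-!
MW, part NO: existence of normalised systems (assembly, proved from the modules).
-/

set_option autoImplicit false

namespace MW

theorem nrm_ex {Q : Type} [Finite Q] (S : Sys Q) : ∃ S' : Sys Q, Nrm S' ∧ Red S' S ∧
    ∀ u, Gen S u → Gen S' u := by
  obtain ⟨q1, K1, hq1, h1⟩ := n3_ex S
  obtain ⟨q2, K2, hq2, h2⟩ := nb_ex h1
  have h3 := n3_ps h1 hq2 K2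
  obtain ⟨q3, hq3, h4⟩ := n1_ex ((S.ps q1 K1).ps q2 K2)
  refine ⟨((S.ps q1 K1).ps q2 K2).ps q3 0, ⟨n3_ps h3 hq3 0, nb_ps h3 h2 hq3 0, h4⟩, ?_, ?_⟩
  · exact ((red_ps _ hq3 0).trans (red_ps _ hq2 K2)).trans (red_ps _ hq1 K1)
  · intro u hu
    exact ((hu.ps hq1 K1).ps hq2 K2).ps hq3 0

end MW
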