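import Pool.Agent.Lib.MP_dd05d9_lc.MW.AL
import Pool.Agent.Lib.MP_dd05d9_lc.MW.NO
import Pool.Agent.Lib.MP_dd05d9_lc.MW.Ba0
import Pool.Agent.Lib.MP_dd05d9_lc.MW.Ba1
import Pool.Agent.Lib.MP_dd05d9_lc.MW.Bd3
import Pool.Agent.Lib.MP_dd05d9_lc.MW.Bd4
import Pool.Agent.Lib.MP_dd05d9_lc.MW.Be1
import Pool.Agent.Lib.MP_dd05d9_lc.MW.Be2
import Pool.Agent.Lib.MP_dd05d9_lc.MW.Be4
import Pool.Agent.Lib.MP_dd05d9_lc.MW.Be5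
import Pool.Agent.Lib.MP_dd05d9_lc.MW.B13

/-!
MW, case B of Theorem A (assembly, proved from the modules).
-/

set_option autoImplicit false

namespace MW

theorem caseB {Q1 Q2 : Type} [Finite Q1] [Finite Q2] (S1 : Sys Q1) (S2 : Sys Q2) (u : ℕ → ℕ)
    (h1 : Gen S1 u) (h2 : Gen S2 u) (hn : ¬ UP u) (hB : CB u) : ∃ L, TL S1 L ∧ TL S2 L := by
  obtain ⟨R1, n1, r1, k1⟩ := nrm_ex S1
  obtain ⟨R2, n2, r2, k2⟩ := nrm_ex S2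
  have g1 := k1 _ h1
  have g2 := k2 _ h2
  have hb := u_bdd g1
  have hP := noPer hb hB hn
  have hL1 : ∀ s, Rec R1 s → ∀ k, InL u (R1.C k [s]) := fun s hs k => rec_inL n1 g1 hs k
  have hL2 : ∀ s, Rec R2 s → ∀ k, InL u (R2.C k [s]) := fun s hs k => rec_inL n2 g2 hs k
  have hLR : LR u := lr_main (S := R1) ⟨g1, n1, hn, hB⟩
  have hPF : PF u := pf_ex hb hP hLR
  obtain ⟨Z, hZ⟩ := Z_ex hb
  have d1 := dbl n1 hP hL1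
  have d2 := dbl n2 hP hL2
  have e1 := ex_gr n1 g1 hn
  have e2 := ex_gr n2 g2 hn
  obtain ⟨C, hC⟩ := lin_ex n1 g1 (na_le n1 g1 d1 e1) hL1 hLR hZ
  obtain ⟨D1, hD1⟩ := anch_B n1 g1 (beta_ex n1 g1 d1 e1) (tower_GB hPF hZ) hC
  obtain ⟨D2, hD2⟩ := anch_B n2 g2 (beta_ex n2 g2 d2 e2) (tower_GB hPF hZ) hC
  have A1 := hD1 (D1 + D2 + 1) (by omega) (C + 2) (by omega)
  have A2 := hD2 (D1 + D2 + 1) (by omega) (C + 2) (by omega)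
  obtain ⟨L, l1, l2⟩ := align g1.start g2.start
    (pm_strict hC (show 1 ≤ D1 + D2 + 1 by omega)) A1 A2
  exact ⟨L, r1 _ l1, r2 _ l2⟩

end MW
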