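import Pool.Agent.Lib.MP_dd05d9_lc.MW.Defs

/-!
MW: basic lemmas on systems (proved).
-/

set_option autoImplicit false

namespace MW

namespace Sys

variable {Q : Type} (S : Sys Q)

@[simp] theorem F_nil : S.F [] = [] := rfl

theorem F_append (l l' : List Q) : S.F (l ++ l') = S.F l ++ S.F l' := List.flatMap_append

theorem F_cons (s : Q) (l : List Q) : S.F (s :: l) = S.f s ++ S.F l := List.flatMap_cons

@[simp] theorem F_single (s : Q) : S.F [s] = S.f s := by rw [F_cons, F_nil, List.append_nil]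

@[simp] theorem Fn_zero (l : List Q) : S.Fn 0 l = l := rfl

theorem Fn_succ (k : ℕ) (l : List Q) : S.Fn (k + 1) l = S.Fn k (S.F l) := rfl

theorem Fn_succ' (k : ℕ) (l : List Q) : S.Fn (k + 1) l = S.F (S.Fn k l) :=
  Function.iterate_succ_apply' _ _ _

theorem Fn_one (l : List Q) : S.Fn 1 l = S.F l := rfl

theorem Fn_add (i j : ℕ) (l : List Q) : S.Fn (i + j) l = S.Fn i (S.Fn j l) :=
  Function.iterate_add_apply _ _ _ _

theorem Fn_append (k : ℕ) (l l' : List Q) : S.Fn k (l ++ l') = S.Fn k l ++ S.Fn k l' := by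
  induction k generalizing l l' with
  | zero => rfl
  | succ k ih => rw [Fn_succ, Fn_succ, Fn_succ, F_append, ih]

@[simp] theorem Fn_nil (k : ℕ) : S.Fn k [] = [] := by
  induction k with
  | zero => rfl
  | succ k ih => rw [Fn_succ, F_nil, ih]

theorem Fn_cons (k : ℕ) (s : Q) (l : List Q) : S.Fn k (s :: l) = S.Fn k [s] ++ S.Fn k l := by
  rw [← Fn_append, List.singleton_append]

theorem C_zero (l : List Q) : S.C 0 l = l.flatMap S.ph := rfl

theorem C_succ (k : ℕ) (l : List Q) : S.C (k + 1) l = S.C k (S.F l) := rfl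

/-- `C (k+j) l = C k (F^j l)` -/
theorem C_add (k j : ℕ) (l : List Q) : S.C (k + j) l = S.C k (S.Fn j l) := by
  unfold C; rw [Fn_add]

theorem C_append (k : ℕ) (l l' : List Q) : S.C k (l ++ l') = S.C k l ++ S.C k l' := by
  unfold C; rw [Fn_append, List.flatMap_append]

@[simp] theorem C_nil (k : ℕ) : S.C k [] = [] := by
  unfold C; rw [Fn_nil, List.flatMap_nil]

theorem C_cons (k : ℕ) (s : Q) (l : List Q) : S.C k (s :: l) = S.C k [s] ++ S.C k l := by
  rw [← C_append, List.singleton_append]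

theorem C_flatMap (k : ℕ) (l : List Q) : S.C k l = l.flatMap (fun s => S.C k [s]) := by
  induction l with
  | nil => simp
  | cons s l ih => rw [C_cons, List.flatMap_cons, ih]

theorem N_succ (k : ℕ) (l : List Q) : S.N (k + 1) l = S.N k (S.F l) := rfl

theorem N_add (k j : ℕ) (l : List Q) : S.N (k + j) l = S.N k (S.Fn j l) := by
  unfold N; rw [C_add]

theorem N_append (k : ℕ) (l l' : List Q) : S.N k (l ++ l') = S.N k l + S.N k l' := by
  unfold N; rw [C_append, List.length_append]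

@[simp] theorem N_nil (k : ℕ) : S.N k [] = 0 := by unfold N; rw [C_nil, List.length_nil]

theorem N_cons (k : ℕ) (s : Q) (l : List Q) : S.N k (s :: l) = S.N k [s] + S.N k l := by
  rw [← N_append, List.singleton_append]

theorem N_sum (k : ℕ) (l : List Q) : S.N k l = (l.map (fun s => S.N k [s])).sum := by
  induction l with
  | nil => simp
  | cons s l ih => rw [N_cons, List.map_cons, List.sum_cons, ih]

theorem C_length (k : ℕ) (l : List Q) : (S.C k l).length = S.N k l := rfl

theorem C_prefix {k : ℕ} {l l' : List Q} (h : l <+: l') : S.C k l <+: S.C k l' := by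
  obtain ⟨r, rfl⟩ := h
  exact ⟨S.C k r, (S.C_append k l r).symm⟩

theorem C_infix {k : ℕ} {l l' : List Q} (h : l <:+: l') : S.C k l <:+: S.C k l' := by
  obtain ⟨p, r, rfl⟩ := h
  exact ⟨S.C k p, S.C k r, by rw [C_append, C_append]⟩

theorem Fn_prefix {k : ℕ} {l l' : List Q} (h : l <+: l') : S.Fn k l <+: S.Fn k l' := by
  obtain ⟨r, rfl⟩ := h
  exact ⟨S.Fn k r, (S.Fn_append k l r).symm⟩

theorem Fn_infix {k : ℕ} {l l' : List Q} (h : l <:+: l') : S.Fn k l <:+: S.Fn k l' := by
  obtain ⟨p, r, rfl⟩ := h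
  exact ⟨S.Fn k p, S.Fn k r, by rw [Fn_append, Fn_append]⟩

theorem F_infix {l l' : List Q} (h : l <:+: l') : S.F l <:+: S.F l' := S.Fn_infix (k := 1) h

theorem F_prefix {l l' : List Q} (h : l <+: l') : S.F l <+: S.F l' := S.Fn_prefix (k := 1) h

theorem N_le_of_prefix {k : ℕ} {l l' : List Q} (h : l <+: l') : S.N k l ≤ S.N k l' :=
  (S.C_prefix h).length_le

theorem N_le_of_infix {k : ℕ} {l l' : List Q} (h : l <:+: l') : S.N k l ≤ S.N k l' :=
  (S.C_infix h).length_le

theorem infix_of_mem {s : Q} {l : List Q} (h : s ∈ l) : [s] <:+: l := by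
  obtain ⟨p, r, rfl⟩ := List.append_of_mem h
  exact ⟨p, r, by simp⟩

theorem N_le_of_mem {k : ℕ} {s : Q} {l : List Q} (h : s ∈ l) : S.N k [s] ≤ S.N k l :=
  S.N_le_of_infix (infix_of_mem h)

theorem mem_F {t : Q} {l : List Q} : t ∈ S.F l ↔ ∃ s ∈ l, t ∈ S.f s := List.mem_flatMap

theorem mem_Fn {t : Q} {k : ℕ} {l : List Q} : t ∈ S.Fn k l ↔ ∃ s ∈ l, t ∈ S.Fn k [s] := by
  induction l with
  | nil => simp
  | cons s l ih =>
    rw [Fn_cons, List.mem_append, ih]
    simp

theorem mem_Fn_add {t : Q} {i j : ℕ} {l : List Q} :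
    t ∈ S.Fn (i + j) l ↔ ∃ s ∈ S.Fn j l, t ∈ S.Fn i [s] := by
  rw [Fn_add, mem_Fn]

/-! power-shift -/

@[simp] theorem ps_f (q K : ℕ) (s : Q) : (S.ps q K).f s = S.Fn q [s] := rfl

@[simp] theorem ps_ph (q K : ℕ) (s : Q) : (S.ps q K).ph s = S.C K [s] := rfl

@[simp] theorem ps_a (q K : ℕ) : (S.ps q K).a = S.a := rfl

theorem Fn_flatMap (k : ℕ) (l : List Q) : S.Fn k l = l.flatMap (fun s => S.Fn k [s]) := by
  induction l with
  | nil => simp
  | cons s l ih => rw [Fn_cons, List.flatMap_cons, ih]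

theorem ps_F (q K : ℕ) (l : List Q) : (S.ps q K).F l = S.Fn q l := by
  rw [Fn_flatMap]; rfl

theorem ps_Fn (q K n : ℕ) (l : List Q) : (S.ps q K).Fn n l = S.Fn (q * n) l := by
  induction n generalizing l with
  | zero => rfl
  | succ n ih => rw [Fn_succ, ps_F, ih, ← Fn_add, Nat.mul_succ]

theorem ps_C (q K n : ℕ) (l : List Q) : (S.ps q K).C n l = S.C (K + q * n) l := by
  unfold C
  rw [ps_Fn, Fn_add]
  have h : ∀ l : List Q, l.flatMap (S.ps q K).ph = (S.Fn K l).flatMap S.ph := by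
    intro l
    change l.flatMap (fun s => S.C K [s]) = S.C K l
    rw [← C_flatMap]
  rw [h]

theorem ps_N (q K n : ℕ) (l : List Q) : (S.ps q K).N n l = S.N (K + q * n) l := by
  unfold N; rw [ps_C]

end Sys

/-! occurrences -/

theorem Occ.nil (u : ℕ → ℕ) (p : ℕ) : Occ u [] p := by intro i hi; simp at hi

theorem occ_append {u : ℕ → ℕ} {w w' : List ℕ} {p : ℕ} :
    Occ u (w ++ w') p ↔ Occ u w p ∧ Occ u w' (p + w.length) := by
  constructor
  · intro h
    refine ⟨fun i hi => ?_, fun i hi => ?_⟩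
    · have := h i (by rw [List.length_append]; omega)
      rwa [List.getD_append _ _ _ _ hi] at this
    · have := h (w.length + i) (by rw [List.length_append]; omega)
      rw [List.getD_append_right _ _ _ _ (by omega)] at this
      rw [show w.length + i - w.length = i by omega] at this
      rw [this, Nat.add_assoc]
  · rintro ⟨h1, h2⟩ i hi
    rw [List.length_append] at hi
    by_cases hc : i < w.length
    · rw [List.getD_append _ _ _ _ hc]; exact h1 i hc
    · rw [List.getD_append_right _ _ _ _ (by omega), h2 _ (by omega)]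
      congr 1; omega

theorem Occ.mid {u : ℕ → ℕ} {x w y : List ℕ} {p : ℕ} (h : Occ u (x ++ w ++ y) p) :
    Occ u w (p + x.length) := (occ_append.1 (occ_append.1 h).1).2

theorem seg_length (u : ℕ → ℕ) (p n : ℕ) : (seg u p n).length = n := by simp [seg]

theorem seg_getD (u : ℕ → ℕ) (p n i : ℕ) (h : i < n) : (seg u p n).getD i 0 = u (p + i) := by
  unfold seg
  rw [List.getD_eq_getElem _ _ (by simpa using h)]
  simp

theorem occ_seg (u : ℕ → ℕ) (p n : ℕ) : Occ u (seg u p n) p := by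
  intro i hi
  rw [seg_length] at hi
  exact seg_getD u p n i hi

theorem Occ.eq_seg {u : ℕ → ℕ} {w : List ℕ} {p : ℕ} (h : Occ u w p) : w = seg u p w.length := by
  apply List.ext_getElem
  · rw [seg_length]
  · intro i h1 h2
    have := h i h1
    rw [List.getD_eq_getElem _ _ h1] at this
    rw [this]
    simp [seg]

theorem occ_iff {u : ℕ → ℕ} {w : List ℕ} {p : ℕ} : Occ u w p ↔ w = seg u p w.length :=
  ⟨Occ.eq_seg, fun h => by rw [h]; exact occ_seg u p _⟩

theorem seg_add (u : ℕ → ℕ) (p m n : ℕ) : seg u p (m + n) = seg u p m ++ seg u (p + m) n := by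
  unfold seg
  rw [List.range_add, List.map_append, List.map_map]
  congr 1
  apply List.map_congr_left
  intro i _
  simp [Nat.add_assoc]

/-- two occurrences at the same position, the shorter one is a prefix -/
theorem Occ.pre {u : ℕ → ℕ} {w w' : List ℕ} {p : ℕ} (h : Occ u w p) (h' : Occ u w' p)
    (hl : w.length ≤ w'.length) : w <+: w' := by
  rw [h.eq_seg, h'.eq_seg]
  obtain ⟨d, hd⟩ := Nat.exists_eq_add_of_le hl
  rw [hd, seg_add]
  exact List.prefix_append _ _

theorem Occ.eq_of_length {u : ℕ → ℕ} {w w' : List ℕ} {p : ℕ} (h : Occ u w p) (h' : Occ u w' p)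
    (hl : w.length = w'.length) : w = w' := by
  rw [h.eq_seg, h'.eq_seg, hl]

/-! generation -/

section Gen

variable {Q : Type} {S : Sys Q} {u : ℕ → ℕ}

theorem Gen.Fn_start (h : Gen S u) (k : ℕ) : ∃ x, S.Fn k [S.a] = S.a :: x := by
  obtain ⟨x, hx⟩ := h.start
  induction k with
  | zero => exact ⟨[], rfl⟩
  | succ k ih =>
    obtain ⟨y, hy⟩ := ih
    refine ⟨x ++ S.F y, ?_⟩
    rw [S.Fn_succ', hy, S.F_cons, hx, List.cons_append]

theorem Gen.Fn_prefix (h : Gen S u) {k j : ℕ} (hkj : k ≤ j) : S.Fn k [S.a] <+: S.Fn j [S.a] := by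
  obtain ⟨d, rfl⟩ := Nat.exists_eq_add_of_le hkj
  obtain ⟨x, hx⟩ := h.Fn_start d
  refine ⟨S.Fn k x, ?_⟩
  rw [S.Fn_add, hx, ← S.Fn_cons]

theorem Gen.N_mono (h : Gen S u) : Monotone (fun k => S.N k [S.a]) := by
  intro k j hkj
  have := S.N_le_of_prefix (k := 0) (h.Fn_prefix hkj)
  rwa [← S.N_add, ← S.N_add, Nat.zero_add, Nat.zero_add] at this

theorem Gen.ps (h : Gen S u) {q : ℕ} (hq : 0 < q) (K : ℕ) : Gen (S.ps q K) u where
  start := h.Fn_start q
  pre := by intro k; rw [S.ps_C]; exact h.pre _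
  unb := by
    intro n
    obtain ⟨k, hk⟩ := h.unb n
    refine ⟨k, hk.trans ?_⟩
    rw [S.ps_N]
    apply h.N_mono
    nlinarith

theorem Gen.occ_of_prefix (h : Gen S u) {l : List Q} {c : ℕ} (hl : l <+: S.Fn c [S.a]) (k : ℕ) :
    Occ u (S.C k l) 0 := by
  obtain ⟨r, hr⟩ := hl
  have h1 := h.pre (k + c)
  rw [S.C_add, ← hr, S.C_append] at h1
  exact (occ_append.1 h1).1

/-- the block of the letter `t` after `y` -/
theorem Gen.occ_block (h : Gen S u) {y : List Q} {t : List Q} {c : ℕ}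
    (hl : y ++ t <+: S.Fn c [S.a]) (k : ℕ) : Occ u (S.C k t) (S.N k y) := by
  have h1 := h.occ_of_prefix hl k
  rw [S.C_append] at h1
  have h2 := (occ_append.1 h1).2
  rwa [Nat.zero_add] at h2

theorem Gen.unb_N (h : Gen S u) (n : ℕ) : ∃ k, ∀ j, k ≤ j → n ≤ S.N j [S.a] := by
  obtain ⟨k, hk⟩ := h.unb n
  exact ⟨k, fun j hj => hk.trans (h.N_mono hj)⟩

end Gen

theorem Red.trans {Q Q' Q'' : Type} {S'' : Sys Q''} {S' : Sys Q'} {S : Sys Q} (h : Red S'' S')
    (h' : Red S' S) : Red S'' S := fun L hL => h' L (h L hL)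

theorem Red.refl {Q : Type} (S : Sys Q) : Red S S := fun _ h => h

theorem red_ps {Q : Type} (S : Sys Q) {q : ℕ} (hq : 0 < q) (K0 : ℕ) : Red (S.ps q K0) S := by
  rintro L ⟨y, t, al, K, B, c, g, hB, hy, h1, h2, h3, h4⟩
  rw [S.ps_Fn] at h1 h2
  refine ⟨y, t, al, K0 + q * K, q * B, q * c, g, Nat.mul_pos hq hB, hy, h1, h2, ?_, ?_⟩
  · rwa [S.ps_N] at h3
  · intro n
    rw [h4 n, S.ps_N]
    have e : ∀ i, K0 + q * (K + B * i) = K0 + q * K + q * B * i := by intro i; ring
    rw [e n]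
    congr 2
    apply Finset.sum_congr rfl
    intro i _
    rw [S.ps_N, e i]

theorem red_proj {Q' Q : Type} (S' : Sys Q') (S : Sys Q) (pi : Q' → Q)
    (hf : ∀ s, (S'.f s).map pi = S.f (pi s))
    (hph : ∀ s, (S'.ph s).length = (S.ph (pi s)).length) (ha : pi S'.a = S.a) : Red S' S := by
  have hF : ∀ l, (S'.F l).map pi = S.F (l.map pi) := by
    intro l
    induction l with
    | nil => rfl
    | cons s l ih => rw [S'.F_cons, List.map_append, hf, ih, List.map_cons, S.F_cons]
  have hFn : ∀ k l, (S'.Fn k l).map pi = S.Fn k (l.map pi) := by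
    intro k
    induction k with
    | zero => intro l; rfl
    | succ k ih => intro l; rw [S'.Fn_succ, ih, hF, S.Fn_succ]
  have hN0 : ∀ l, S'.N 0 l = S.N 0 (l.map pi) := by
    intro l
    induction l with
    | nil => rw [List.map_nil, S'.N_nil, S.N_nil]
    | cons s l ih =>
      rw [S'.N_cons, List.map_cons, S.N_cons, ih]
      congr 1
      have := hph s
      change ((S'.Fn 0 [s]).flatMap S'.ph).length = ((S.Fn 0 [pi s]).flatMap S.ph).length
      simpa using this
  have hN : ∀ k l, S'.N k l = S.N k (l.map pi) := by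
    intro k l
    have h1 := S'.N_add 0 k l
    have h2 := S.N_add 0 k (l.map pi)
    rw [Nat.zero_add] at h1 h2
    rw [h1, h2, hN0, hFn]
  have hpre : ∀ l l' : List Q', l <+: l' → l.map pi <+: l'.map pi := fun l l' h => h.map pi
  rintro L ⟨y, t, al, K, B, c, g, hB, hy, h1, h2, h3, h4⟩
  refine ⟨y.map pi, pi t, al.map pi, K, B, c, g, hB, by simpa using hy, ?_, ?_, ?_, ?_⟩
  · have := hpre _ _ h1
    rw [hFn] at this
    simpa [ha] using this
  · have := hpre _ _ h2
    rw [hFn] at this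
    simpa using this
  · rw [hN] at h3
    simpa using h3
  · intro n
    rw [h4 n, hN]
    congr 2
    apply Finset.sum_congr rfl
    intro i _
    rw [hN]

end MW
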