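import Pool.Agent.Lib.MP_dd05d9_lc.MW.BEDefs

/-!
MW, part B, module Be3: the tower of the two-sided word.

mem_GB: `z ∈ GB S Z k ↔ z.2 < S.N k [z.1] ∧ ∀ i < S.N k [z.1], (S.C k [z.1]).getD i 0 = Z (i - z.2)`.

block_at: a position `p < S.N k l` lies in the block of exactly one letter: `l = y ++ t :: r`, `S.N k y ≤ p < S.N k y + S.N k [t]` (induction on `l`).

tower_GB: `C2` from `PF`.  card: for fixed `t`, `n = S.N k [t]`: two elements `e < e'` of the fibre: `X = S.C k [t] = sgZ Z (-e) n` is in L, and has period `d = e' - e`: for `i + d < n`: `X.getD (i+d) 0 = Z (i + d - e') = Z (i - e) = X.getD i 0`.  `PF`: `n < C2 * (e' - e)`.  So `e ↦ C2 * e / n` is injective on the fibre with values `< C2`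
 (`e < n`): the fibre has at most `C2` elements; `(GB S Z k).card ≤ Nat.card Q * C2` (`Finset.card_le_mul_card_image` or injection `z ↦ (z.1, C2 * z.2 / n)` into `Q × Fin C2`).
 le: `z.2 < S.N`.  desc: `z = (t, e) ∈ GB (k+1)`: `S.N (k+1) [t] = S.N k (S.f t) > e`; `block_at`: `S.f t = pre ++ t' :: r`, `S.N k pre ≤ e < S.N k pre + S.N k [t']`; `e' = e - S.N k pre`; `S.C (k+1) [t] = S.C k pre ++ (S.C k [t'] ++ S.C k r)`, so for `i < S.N k [t']`:
 `(S.C k [t']).getD i 0 = (S.C (k+1) [t]).getD (S.N k pre + i) 0 = Z (S.N k pre + i - e) = Z (i - e')`.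
-/

set_option autoImplicit false

namespace MW

variable {Q : Type} {S : Sys Q}

theorem mem_GB [Finite Q] {Z : ℤ → ℕ} {k : ℕ} {z : Q × ℕ} : z ∈ GB S Z k ↔
    z.2 < S.N k [z.1] ∧ ∀ i, i < S.N k [z.1] → (S.C k [z.1]).getD i 0 = Z ((i : ℤ) - z.2) := by
  unfold GB
  rw [Finset.mem_filter, Set.Finite.mem_toFinset, Set.mem_iUnion]
  constructor
  · rintro ⟨⟨t, e, he, rfl⟩, h⟩
    exact ⟨he, h⟩
  · rintro ⟨h1, h2⟩
    exact ⟨⟨z.1, z.2, h1, rfl⟩, h2⟩

theorem block_at (S : Sys Q) (k : ℕ) {l : List Q} {p : ℕ} (hp : p < S.N k l) :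
    ∃ y t r, l = y ++ t :: r ∧ S.N k y ≤ p ∧ p < S.N k y + S.N k [t] := by
  induction l generalizing p with
  | nil =>
    rw [S.N_nil] at hp
    exact absurd hp (Nat.not_lt_zero _)
  | cons s l ih =>
    by_cases h : p < S.N k [s]
    · refine ⟨[], s, l, rfl, ?_, ?_⟩
      · rw [S.N_nil]
        exact Nat.zero_le _
      · rw [S.N_nil, Nat.zero_add]
        exact h
    · rw [S.N_cons] at hp
      obtain ⟨y, t, r, h1, h2, h3⟩ := ih (p := p - S.N k [s]) (by omega)
      refine ⟨s :: y, t, r, by rw [h1]; rfl, ?_, ?_⟩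
      · rw [S.N_cons k s y]
        omega
      · rw [S.N_cons k s y]
        omega

private theorem be3_fm (l : List ℕ) :
    l.flatMap (fun a : ℕ => [(a : ℤ)]) = l.map (fun a : ℕ => (a : ℤ)) := by
  induction l with
  | nil => rfl
  | cons a l ih => rw [List.flatMap_cons, ih, List.map_cons]; rfl

private theorem be3_sgZ (Z : ℤ → ℕ) (p : ℤ) (n : ℕ) :
    sgZ Z p n = (List.range n).map (fun i : ℕ => Z (p + (i : ℤ))) := by
  unfold sgZ
  change List.map (fun i : ℤ => Z (p + i)) ((List.range n).flatMap (fun a : ℕ => [(a : ℤ)])) = _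
  rw [be3_fm, List.map_map]
  rfl

private theorem be3_key [Finite Q] {u : ℕ → ℕ} {Z : ℤ → ℕ} {C2 : ℕ}
    (hP : ∀ x d, InL u x → 0 < d → Per x d → x.length < C2 * d)
    (hZ : ∀ (p : ℤ) (n : ℕ), InL u (sgZ Z p n)) {k : ℕ} {t : Q} {e e' : ℕ}
    (h : (t, e) ∈ GB S Z k) (h' : (t, e') ∈ GB S Z k) (hlt : e < e') :
    S.N k [t] < C2 * (e' - e) := by
  rw [mem_GB] at h h'
  obtain ⟨h1, h2⟩ := h
  obtain ⟨h1', h2'⟩ := h'
  dsimp only at h1 h2 h1' h2'
  have hX : S.C k [t] = sgZ Z (-(e : ℤ)) (S.N k [t]) := by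
    rw [be3_sgZ]
    apply List.ext_getElem
    · rw [List.length_map, List.length_range, S.C_length]
    · intro i hi1 hi2
      have h3 := h2 i (by rwa [S.C_length] at hi1)
      rw [List.getD_eq_getElem _ _ hi1] at h3
      rw [h3, List.getElem_map, List.getElem_range]
      congr 1
      ring
  have hL : InL u (S.C k [t]) := by
    rw [hX]
    exact hZ _ _
  have hper : Per (S.C k [t]) (e' - e) := by
    intro i hi
    rw [S.C_length] at hi
    rw [h2 i (by omega), h2' (i + (e' - e)) (by omega)]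
    congr 1
    omega
  have := hP _ _ hL (by omega) hper
  rwa [S.C_length] at this

theorem tower_GB [Finite Q] {u : ℕ → ℕ} {Z : ℤ → ℕ} (hPF : PF u)
    (hZ : ∀ (p : ℤ) (n : ℕ), InL u (sgZ Z p n)) : ∃ K, Tower S (GB S Z) K := by
  obtain ⟨C2, hC2, hP⟩ := hPF
  let _ := Fintype.ofFinite Q
  refine ⟨Nat.card Q * C2, ⟨fun k => ?_, fun k z hz => ?_, fun k z hz => ?_⟩⟩
  · have hcard : ((Finset.univ : Finset Q) ×ˢ Finset.range C2).card = Nat.card Q * C2 := by
      rw [Finset.card_product, Finset.card_range, Finset.card_univ, Nat.card_eq_fintype_card]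
    rw [← hcard]
    refine Finset.card_le_card_of_injOn (fun z => (z.1, C2 * z.2 / S.N k [z.1])) ?_ ?_
    · intro z hz
      have h1 := (mem_GB.mp (Finset.mem_coe.mp hz)).1
      rw [Finset.mem_coe, Finset.mem_product, Finset.mem_range]
      refine ⟨Finset.mem_univ _, ?_⟩
      refine Nat.div_lt_of_lt_mul ?_
      rw [Nat.mul_comm (S.N k [z.1])]
      exact Nat.mul_lt_mul_of_pos_left h1 hC2
    · have main : ∀ (t : Q) (e e' : ℕ), (t, e) ∈ GB S Z k → (t, e') ∈ GB S Z k → e < e' →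
          C2 * e / S.N k [t] = C2 * e' / S.N k [t] → False := by
        intro t e e' h h' hlt heq
        have h1 := be3_key hP hZ h h' hlt
        have hn : 0 < S.N k [t] := by
          have := (mem_GB.mp h).1
          dsimp only at this
          omega
        have h2 : C2 * e / S.N k [t] * S.N k [t] ≤ C2 * e := Nat.div_mul_le_self _ _
        have h3 : C2 * e' < S.N k [t] * (C2 * e' / S.N k [t] + 1) := Nat.lt_mul_div_succ _ hn
        rw [← heq, Nat.mul_add, Nat.mul_one, Nat.mul_comm (S.N k [t])] at h3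
        have h4 : C2 * e' = C2 * e + C2 * (e' - e) := by
          rw [← Nat.mul_add]
          congr 1
          omega
        omega
      rintro ⟨t, e⟩ hz ⟨t', e'⟩ hz' heq
      rw [Finset.mem_coe] at hz hz'
      simp only [Prod.mk.injEq] at heq
      obtain ⟨rfl, h2⟩ := heq
      rcases Nat.lt_trichotomy e e' with h | h | h
      · exact (main t e e' hz hz' h h2).elim
      · rw [h]
      · exact (main t e' e hz' hz h h2.symm).elim
  · exact (mem_GB.mp hz).1.le
  · obtain ⟨h1, h2⟩ := mem_GB.mp hz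
    have e1 : S.N (k + 1) [z.1] = S.N k (S.f z.1) := by rw [S.N_succ, S.F_single]
    have e2 : S.C (k + 1) [z.1] = S.C k (S.f z.1) := by rw [S.C_succ, S.F_single]
    rw [e1] at h1
    obtain ⟨pre, t', r, h3, h4, h5⟩ := block_at S k h1
    refine ⟨(t', z.2 - S.N k pre), mem_GB.mpr ⟨?_, fun i hi => ?_⟩, pre, ⟨r, ?_⟩, ?_⟩
    · dsimp only
      omega
    · dsimp only at hi ⊢
      have h6 : S.N k (S.f z.1) = S.N k pre + (S.N k [t'] + S.N k r) := by
        rw [h3, S.N_append, S.N_cons k t' r]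
      have h7 := h2 (S.N k pre + i) (by rw [e1]; omega)
      have h8 : S.C k (S.f z.1) = S.C k pre ++ (S.C k [t'] ++ S.C k r) := by
        rw [h3, S.C_append, S.C_cons k t' r]
      rw [e2, h8, List.getD_append_right _ _ _ _ (by rw [S.C_length]; omega), S.C_length,
        Nat.add_sub_cancel_left, List.getD_append _ _ _ _ (by rw [S.C_length]; exact hi)] at h7
      rw [h7]
      congr 1
      omega
    · rw [h3]
      simp
    · dsimp only
      omega

end MW
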