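import Pool.Agent.Lib.MP_dd05d9_lc.MW.BEDefs

/-!
MW, part B, module Be5: the positions are strictly increasing.

`pm u Z W` for `W ≥ 1`: `Nat.sInf_mem` gives `Mt`, so `W ≤ pm u Z W`; `Nat.sInf_le` with the given `p`: `pm u Z W ≤ C * W`.  `b = C + 2`, `D0 ≥ 1`: `pm (D0 b^m) ≤ C * (D0 b^m) < (C + 2) * (D0 b^m) = D0 b^(m+1) ≤ pm (D0 b^(m+1))`; `strictMono_nat_of_lt_succ`.
-/

set_option autoImplicit false

namespace MW

theorem pm_strict {u : ℕ → ℕ} {Z : ℤ → ℕ} {C : ℕ}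
    (hC : ∀ W, 1 ≤ W → ∃ p, Mt u Z W p ∧ p ≤ C * W) {D0 : ℕ} (hD : 1 ≤ D0) :
    StrictMono (fun m => pm u Z (D0 * (C + 2) ^ m)) := by
  have h1 : ∀ W, 1 ≤ W → W ≤ pm u Z W ∧ pm u Z W ≤ C * W := by
    intro W hW
    obtain ⟨p, hp, hpC⟩ := hC W hW
    have h2 : pm u Z W ∈ {p | Mt u Z W p} := Nat.sInf_mem ⟨p, hp⟩
    exact ⟨h2.1, le_trans (Nat.sInf_le hp) hpC⟩
  refine strictMono_nat_of_lt_succ fun m => ?_
  have hpos : ∀ k, 1 ≤ D0 * (C + 2) ^ k := fun k => Nat.mul_pos hD (Nat.pow_pos (by omega))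
  have h2 := (h1 _ (hpos m)).2
  have h3 := (h1 _ (hpos (m + 1))).1
  have h4 : D0 * (C + 2) ^ (m + 1) = C * (D0 * (C + 2) ^ m) + 2 * (D0 * (C + 2) ^ m) := by
    rw [pow_succ]
    ring
  have h5 := hpos m
  change pm u Z (D0 * (C + 2) ^ m) < pm u Z (D0 * (C + 2) ^ (m + 1))
  omega

end MW
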