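import Pool.Agent.Lib.MP_dd05d9_lc.MW.Base

/-!
MW, part NO (normalisation), definitions.
-/

set_option autoImplicit false

namespace MW

/-- every letter is constant or growing -/
def N3 {Q : Type} (S : Sys Q) : Prop := ∀ s, S.Cst s ∨ (S.Gr s ∧ 1 ≤ S.N 0 [s])

/-- constant letters have constant words -/
def Nb {Q : Type} (S : Sys Q) : Prop := ∀ s, S.Cst s → ∀ k, S.C k [s] = S.C 0 [s]

end MW
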