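import Pool.Agent.Lib.MP_dd05d9_lc.MW.NOb

/-!
MW, part NO, module NOc: N3.

n3_ex: apply `nn` with `J = Q`, `V k s = S.N k [s]`, `M = S.f`: `S.N (k+1) [s] = S.N k (S.f s) = ((S.f s).map (fun t => S.N k [t])).sum`
 (`Sys.N_succ`, `Sys.F_single`, `Sys.N_sum`).  For `S.ps q K`: `(S.ps q K).N n [s] = S.N (K + q * n) [s]` (`Sys.ps_N`); `K + q * 0 = K`.

n3_ps: a constant letter stays constant; for a growing letter `fun n => S.N (K + q * n) [s]` is a composition of strictly increasing maps,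
 `S.N (K + q * 0) [s] ≥ S.N 0 [s] ≥ 1`.

cst_of_ps: for `S` with N3: a letter which is constant for `S.ps q K` is constant for `S` (otherwise it is growing for `S`, hence `N (K + q) > N K`).
-/

set_option autoImplicit false

namespace MW

variable {Q : Type}

theorem n3_ex [Finite Q] (S : Sys Q) : ∃ q K, 0 < q ∧ N3 (S.ps q K) := by
  obtain ⟨q, K, hq, h⟩ := nn (J := Q) (fun k s => S.N k [s]) S.f (by
    intro k c
    rw [S.N_succ, S.F_single, S.N_sum])
  refine ⟨q, K, hq, ?_⟩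
  intro s
  rcases h s with h1 | ⟨h1, h2⟩
  · left
    intro k
    rw [S.ps_N, S.ps_N, Nat.mul_zero, Nat.add_zero]
    exact h1 k
  · right
    refine ⟨?_, ?_⟩
    · intro a b hab
      show (S.ps q K).N a [s] < (S.ps q K).N b [s]
      rw [S.ps_N, S.ps_N]
      exact h1 hab
    · rw [S.ps_N, Nat.mul_zero, Nat.add_zero]
      exact h2

theorem n3_ps {S : Sys Q} (h : N3 S) {q : ℕ} (hq : 0 < q) (K : ℕ) : N3 (S.ps q K) := by
  intro s
  rcases h s with h1 | ⟨h1, h2⟩
  · left
    intro k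
    rw [S.ps_N, S.ps_N, h1, h1 (K + q * 0)]
  · right
    refine ⟨?_, ?_⟩
    · intro a b hab
      show (S.ps q K).N a [s] < (S.ps q K).N b [s]
      rw [S.ps_N, S.ps_N]
      exact h1 (Nat.add_lt_add_left (Nat.mul_lt_mul_of_pos_left hab hq) K)
    · rw [S.ps_N]
      exact h2.trans (h1.monotone (Nat.zero_le _))

theorem cst_of_ps {S : Sys Q} (h : N3 S) {q : ℕ} (hq : 0 < q) (K : ℕ) {s : Q}
    (hs : (S.ps q K).Cst s) : S.Cst s := by
  rcases h s with h1 | ⟨h1, -⟩
  · exact h1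
  · exfalso
    have h2 := hs 1
    rw [S.ps_N, S.ps_N] at h2
    have h3 : S.N (K + q * 0) [s] < S.N (K + q * 1) [s] := h1 (by omega)
    omega

end MW
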