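import Pool.Agent.Lib.MP_dd05d9_lc.MW.NOc

/-!
MW, part NO, module NOd: constant words of constant letters.

cst_child: `S.N (k+1) [s] = sum over t ∈ S.f s of S.N k [t]`, every summand nondecreasing in `k` (N3); if `t ∈ S.f s` were growing, then
 `S.N 2 [s] > S.N 1 [s]` (split `S.f s = l1 ++ t :: l2`, `Sys.N_append`, `Sys.N_cons`).

nb_ex: `I k := fun s => if S.Cst s then S.C k [s] else []` (classical).  For constant `s`: `I (k+1) s = (S.f s).flatMap (I k)` (`Sys.C_succ`, `Sys.C_flatMap`, children are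
 constant), so `I (k+1) = g (I k)`.  Finite range: for constant `s` the word `S.C k [s]` has length `S.N 0 [s] ≤ bb` and its letters occur in the words `S.ph t`, `t : Q`, so they are `< b` for some `b`
 (letters of `S.C k l` : `Sys.C` is a flatMap of `S.ph`).  The set of lists of naturals of length `≤ bb` with entries `< b` is finite (image of `List.finite_length_le (Fin b) bb`), and functions from the
 finite type `Q` into a finite set form a finite set (`Set.Finite.pi`).
 `fi` gives `q, K` with `I (k + q) = I k` for `k ≥ K`, so `I (K + q n) = I K`.  For `s` constant in `S.ps q K`: constant in `S` (`cst_of_ps`), `(S.ps q K).C n [s] = S.C (K + q n) [s] = S.C K [s] = (S.ps q K).C 0 [s]`.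

nb_ps: `s` constant in `S.ps q K` is constant in `S`, `(S.ps q K).C n [s] = S.C (K + q n) [s] = S.C 0 [s]`, same for `n = 0`.
-/

set_option autoImplicit false

namespace MW

variable {Q : Type}

private theorem NOd_single {S : Sys Q} (h : N3 S) (s : Q) (k : ℕ) : S.N k [s] ≤ S.N (k + 1) [s] := by
  rcases h s with h1 | h1
  · rw [h1 k, h1 (k + 1)]
  · exact h1.1.monotone (Nat.le_succ k)

private theorem NOd_list {S : Sys Q} (h : N3 S) (l : List Q) (k : ℕ) : S.N k l ≤ S.N (k + 1) l := by
  induction l with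
  | nil => simp
  | cons s l ih =>
    rw [S.N_cons k s l, S.N_cons (k + 1) s l]
    exact Nat.add_le_add (NOd_single h s k) ih

theorem cst_child {S : Sys Q} (h : N3 S) {s t : Q} (hs : S.Cst s) (ht : t ∈ S.f s) : S.Cst t := by
  rcases h t with h1 | h1
  · exact h1
  · exfalso
    obtain ⟨l1, l2, hl⟩ := List.append_of_mem ht
    have e : ∀ k, S.N (k + 1) [s] = S.N k l1 + (S.N k [t] + S.N k l2) := by
      intro k
      rw [S.N_succ, S.F_single, hl, S.N_append, S.N_cons]
    have h2 : S.N 0 [t] < S.N 1 [t] := h1.1 Nat.zero_lt_one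
    have h3 := NOd_list h l1 0
    have h4 := NOd_list h l2 0
    have h5 := e 0
    have h6 := e 1
    have h7 := hs 1
    have h8 := hs (1 + 1)
    rw [Nat.zero_add] at h3 h4 h5
    omega

private theorem NOd_fin (b bb : ℕ) : {l : List ℕ | l.length ≤ bb ∧ ∀ x ∈ l, x < b}.Finite := by
  have h1 : {l : List (Fin b) | l.length ≤ bb}.Finite := List.finite_length_le (Fin b) bb
  apply (h1.image (fun l => l.map Fin.val)).subset
  rintro l ⟨h2, h3⟩
  refine ⟨l.pmap Fin.mk h3, ?_, ?_⟩
  · rw [Set.mem_ofPred_eq, List.length_pmap]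
    exact h2
  · change (l.pmap Fin.mk h3).map Fin.val = l
    rw [List.map_pmap]
    exact List.pmap_eq_self.mpr (fun a ha => rfl)

private theorem NOd_mem {S : Sys Q} {k : ℕ} {l : List Q} {x : ℕ} (h : x ∈ S.C k l) : ∃ t, x ∈ S.ph t := by
  unfold Sys.C at h
  rw [List.mem_flatMap] at h
  obtain ⟨t, -, ht⟩ := h
  exact ⟨t, ht⟩

private theorem NOd_le_sum {l : List ℕ} {x : ℕ} (h : x ∈ l) : x ≤ l.sum :=
  List.single_le_sum (fun _ _ => Nat.zero_le _) x h

theorem nb_ex [Finite Q] {S : Sys Q} (h : N3 S) : ∃ q K, 0 < q ∧ Nb (S.ps q K) := by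
  classical
  have := Fintype.ofFinite Q
  set I : ℕ → Q → List ℕ := fun k s => if S.Cst s then S.C k [s] else [] with hI
  set g : (Q → List ℕ) → (Q → List ℕ) := fun J s => if S.Cst s then (S.f s).flatMap J else [] with hg
  have hIg : ∀ k, I (k + 1) = g (I k) := by
    intro k
    funext s
    simp only [hI, hg]
    by_cases hs : S.Cst s
    · rw [if_pos hs, if_pos hs, S.C_succ, S.F_single, S.C_flatMap]
      apply List.flatMap_congr
      intro t ht
      rw [if_pos (cst_child h hs ht)]
    · rw [if_neg hs, if_neg hs]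
  set b := ∑ t : Q, (S.ph t).sum + 1 with hb
  set bb := ∑ t : Q, S.N 0 [t] with hbb
  have hfin : (Set.range I).Finite := by
    apply (Set.Finite.pi' (t := fun _ : Q => {l : List ℕ | l.length ≤ bb ∧ ∀ x ∈ l, x < b})
      (fun _ => NOd_fin b bb)).subset
    rintro _ ⟨k, rfl⟩ s
    simp only [hI]
    by_cases hs : S.Cst s
    · rw [if_pos hs]
      refine ⟨?_, ?_⟩
      · rw [S.C_length, hs k]
        exact Finset.single_le_sum (f := fun t => S.N 0 [t]) (fun _ _ => Nat.zero_le _) (Finset.mem_univ s)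
      · intro x hx
        obtain ⟨t, ht⟩ := NOd_mem hx
        have h1 : x ≤ (S.ph t).sum := NOd_le_sum ht
        have h2 : (S.ph t).sum ≤ ∑ t : Q, (S.ph t).sum :=
          Finset.single_le_sum (f := fun t => (S.ph t).sum) (fun _ _ => Nat.zero_le _) (Finset.mem_univ t)
        omega
    · rw [if_neg hs]
      exact ⟨Nat.zero_le _, fun x hx => absurd hx List.not_mem_nil⟩
  obtain ⟨q, K, hq, hper⟩ := fi I g hIg hfin
  refine ⟨q, K, hq, ?_⟩
  have hper2 : ∀ n, I (K + q * n) = I K := by
    intro n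
    induction n with
    | zero => rfl
    | succ n ih => rw [Nat.mul_succ, ← Nat.add_assoc, hper _ (Nat.le_add_right _ _), ih]
  intro s hs n
  have hs' := cst_of_ps h hq K hs
  rw [S.ps_C, S.ps_C]
  have h1 := congrFun (hper2 n) s
  simp only [hI, if_pos hs'] at h1
  rw [h1, Nat.mul_zero, Nat.add_zero]

theorem nb_ps {S : Sys Q} (h : N3 S) (h' : Nb S) {q : ℕ} (hq : 0 < q) (K : ℕ) :
    Nb (S.ps q K) := by
  intro s hs n
  have hs' := cst_of_ps h hq K hs
  rw [S.ps_C, S.ps_C, h' s hs' _, h' s hs' (K + q * 0)]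

end MW
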