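import Pool.Agent.Lib.MP_dd05d9_lc.MW.AX
import Pool.Agent.Lib.MP_dd05d9_lc.MW.BX

/-!
MW: THEOREM A.  Two systems which generate the same word, not ultimately periodic, have a common track length.
-/

set_option autoImplicit false

namespace MW

theorem thmA (Q1 Q2 : Type) [Finite Q1] [Finite Q2] (S1 : Sys Q1) (S2 : Sys Q2) (u : ℕ → ℕ)
    (h1 : Gen S1 u) (h2 : Gen S2 u) (hn : ¬ UP u) : ∃ L, TL S1 L ∧ TL S2 L := by
  by_cases hB : CB u
  · exact caseB S1 S2 u h1 h2 hn hB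
  · unfold CB at hB
    push Not at hB
    obtain ⟨w, hw, hG⟩ := hB
    refine caseA S1 S2 u h1 h2 hw ?_
    rintro ⟨G, h⟩
    obtain ⟨p, hp⟩ := hG G
    obtain ⟨q, q1, q2, q3⟩ := h p
    exact hp q q1 q2 q3

end MW
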